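import Mathlib

/-!
# GT: definitions (generic times in measure preserving flows, MP_4d8f14_an)

Paper proof: note of helper92 on MP_4d8f14_an (12-04 05:55).
-/

namespace Pool.Agent.GT

open MeasureTheory

/-- a measure preserving flow, jointly measurable -/
structure IsFlow {X : Type*} [MeasurableSpace X] (μ : Measure X) (φ : ℝ → X → X) : Prop where
  meas : Measurable (fun p : ℝ × X => φ p.1 p.2)
  zero : ∀ x, φ 0 x = x
  add : ∀ s t x, φ (s + t) x = φ s (φ t x)
  mp : ∀ t, MeasurePreserving (φ t) μ μ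

/-- `F` is measurable, bounded by `B` and Lipschitz with constant `L` along the orbits -/
structure Nice {X : Type*} [MeasurableSpace X] (φ : ℝ → X → X) (B L : ℝ) (F : X → ℂ) : Prop where
  meas : Measurable F
  bd : ∀ x, ‖F x‖ ≤ B
  lip : ∀ s t x, ‖F (φ s x) - F (φ t x)‖ ≤ L * |s - t|

/-- the period in the logarithmic variable -/
noncomputable def per (d : ℕ) : ℝ := 2 * ((d : ℝ) + 1) ^ 2

/-- the frequency unit -/
noncomputable def om (d : ℕ) : ℝ := 2 * Real.pi / per d

/-- the coefficients of an orbit `b`: inner products of `b` on `[U, 2^(d+1) U]` with `(t/U)^(i ω κ)` with respect to `dt / t` -/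
noncomputable def cf (d : ℕ) (U : ℝ) (κ : ℤ) (b : ℝ → ℂ) : ℂ :=
  ((per d)⁻¹ : ℝ) * ∫ t in U..(2 ^ (d + 1) * U),
    b t * (Complex.exp (((-(om d * κ * Real.log (t / U)) : ℝ) : ℂ) * Complex.I) / t)

/-- the exponential sums of the weights -/
noncomputable def DD (d N : ℕ) (I : Finset ℕ) (a : ℕ → ℂ) (κ : ℤ) : ℂ :=
  ∑ n ∈ I, a n * Complex.exp (((om d * κ * (d * Real.log (n / N)) : ℝ) : ℂ) * Complex.I)

/-- average over `[0, M]` along the flow -/
noncomputable def avg {X : Type*} (φ : ℝ → X → X) (M : ℝ) (F : X → ℂ) (x : X) : ℂ :=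
  ((M⁻¹ : ℝ) : ℂ) * ∫ t in (0 : ℝ)..M, F (φ t x)

/-- the reversed flow -/
def rev {X : Type*} (φ : ℝ → X → X) : ℝ → X → X := fun t => φ (-t)

/-- the symmetric smoothing operator at scale `M` -/
noncomputable def Kop {X : Type*} (φ : ℝ → X → X) (M : ℝ) (F : X → ℂ) : X → ℂ :=
  avg φ M (avg (rev φ) M F)

/-- the energy at scale `M` -/
noncomputable def al {X : Type*} [MeasurableSpace X] (μ : Measure X) (φ : ℝ → X → X) (F : X → ℂ) (M : ℝ) : ℝ :=
  ∫ x, ‖avg (rev φ) M F x‖ ^ 2 ∂μ

/-- a quarter of the increment of the backward average -/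
noncomputable def zz {X : Type*} (φ : ℝ → X → X) (M : ℝ) (F : X → ℂ) (x : X) : ℂ :=
  (1 / 4 : ℂ) * (avg (rev φ) M F x - avg (rev φ) M F (φ (-M) x))

/-- `Kop φ M F - Kop φ (2 M) F = gg - gg ∘ φ M` -/
noncomputable def gg {X : Type*} (φ : ℝ → X → X) (M : ℝ) (F : X → ℂ) : X → ℂ := avg φ M (zz φ M F)

theorem per_pos (d : ℕ) : 0 < per d := by unfold per; positivity

theorem per_ge (d : ℕ) : 2 ≤ per d := by
  unfold per
  have : (0 : ℝ) ≤ d := Nat.cast_nonneg d
  nlinarith

theorem om_pos (d : ℕ) : 0 < om d := div_pos (by positivity) (per_pos d)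

theorem om_mul_per (d : ℕ) : om d * per d = 2 * Real.pi := by
  unfold om
  rw [div_mul_cancel₀ _ (per_pos d).ne']

/-- `(d+1) log 2 + 1 ≤ per d` -/
theorem log_add_one_le_per (d : ℕ) : ((d : ℝ) + 1) * Real.log 2 + 1 ≤ per d := by
  unfold per
  have h : (0 : ℝ) ≤ d := Nat.cast_nonneg d
  have h2 : Real.log 2 ≤ 1 := by
    have := Real.log_two_lt_d9
    linarith
  nlinarith

theorem IsFlow.rev {X : Type*} [MeasurableSpace X] {μ : Measure X} {φ : ℝ → X → X} (h : IsFlow μ φ) :
    IsFlow μ (rev φ) := by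
  refine ⟨?_, ?_, ?_, fun t => h.mp (-t)⟩
  · exact h.meas.comp ((measurable_fst.neg).prodMk measurable_snd)
  · intro x
    show φ (-0) x = x
    rw [neg_zero, h.zero]
  · intro s t x
    show φ (-(s + t)) x = φ (-s) (φ (-t) x)
    rw [neg_add, h.add]

theorem IsFlow.scale {X : Type*} [MeasurableSpace X] {μ : Measure X} {φ : ℝ → X → X} (h : IsFlow μ φ) (c : ℝ) :
    IsFlow μ (fun t => φ (c * t)) := by
  refine ⟨?_, ?_, ?_, fun t => h.mp (c * t)⟩
  · exact h.meas.comp ((measurable_fst.const_mul c).prodMk measurable_snd)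
  · intro x
    show φ (c * 0) x = x
    rw [mul_zero, h.zero]
  · intro s t x
    show φ (c * (s + t)) x = φ (c * s) (φ (c * t) x)
    rw [mul_add, h.add]

theorem IsFlow.comm {X : Type*} [MeasurableSpace X] {μ : Measure X} {φ : ℝ → X → X} (h : IsFlow μ φ) (s t : ℝ)
    (x : X) : φ s (φ t x) = φ t (φ s x) := by
  rw [← h.add, ← h.add, add_comm]

theorem Nice.cont {X : Type*} [MeasurableSpace X] {φ : ℝ → X → X} {B L : ℝ} {F : X → ℂ} (h : Nice φ B L F) (x : X) :
    Continuous (fun t => F (φ t x)) := by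
  have hl : LipschitzWith (Real.toNNReal L) (fun t => F (φ t x)) := by
    refine LipschitzWith.of_dist_le_mul fun s t => ?_
    rw [dist_eq_norm, Real.dist_eq]
    refine (h.lip s t x).trans ?_
    exact mul_le_mul_of_nonneg_right (Real.le_coe_toNNReal L) (abs_nonneg _)
  exact hl.continuous

end Pool.Agent.GT
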