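import Mathlib
import Pool.Agent.GT.Defs

/-!
# GT/Appr: approximation by functions which are Lipschitz along the flow

`f_δ = avg φ δ h`, `δ = 1/(n+1)`: `‖f_δ‖ ≤ B`, `f_δ(φ_s x) = δ⁻¹ ∫_s^{s+δ} h(φ_t x) dt`, so it is Lipschitz along orbits with `L = 2B/δ`; measurable (parametric integral).
`f_δ → h` almost everywhere: for every `x` the function `t ↦ h(φ_t x)` is bounded measurable, so for almost every `t` its integral function has derivative `h(φ_t x)` at `t`
(`MeasureTheory.LocallyIntegrable.ae_hasDerivAt_integral`), i.e. `f_{1/(n+1)}(φ_t x) → h(φ_t x)`; the set `E` of `y` with `f_{1/(n+1)}(y) → h(y)` is measurable, so by Fubini for some (almost every) `t`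
`φ_t x ∈ E` for almost every `x`, hence `μ(Eᶜ) = 0` (`φ_t` preserves `μ`).  Dominated convergence gives `∫⁻ ‖h - f_δ‖ₑ² → 0`.
-/

namespace Pool.Agent.GT

open MeasureTheory Filter Topology

section

variable {X : Type*} [MeasurableSpace X] {μ : Measure X} {φ : ℝ → X → X}

theorem appr_orbit_meas (hφ : IsFlow μ φ) {h : X → ℂ} (hm : Measurable h) (x : X) :
    Measurable fun t : ℝ => h (φ t x) :=
  hm.comp (hφ.meas.comp (measurable_id.prodMk measurable_const))

theorem appr_int (hφ : IsFlow μ φ) {h : X → ℂ} (hm : Measurable h) {B : ℝ} (hb : ∀ x, ‖h x‖ ≤ B)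
    (x : X) (a b : ℝ) : IntervalIntegrable (fun t : ℝ => h (φ t x)) volume a b := by
  rw [intervalIntegrable_iff]
  exact Measure.integrableOn_of_bounded (M := B) (by simp [Set.uIoc]) (appr_orbit_meas hφ hm x).aestronglyMeasurable
    (ae_of_all _ fun t => hb _)

theorem appr_avg_shift (hφ : IsFlow μ φ) {h : X → ℂ} (M s : ℝ) (x : X) :
    avg φ M h (φ s x) = ((M⁻¹ : ℝ) : ℂ) * ∫ t in s..(s + M), h (φ t x) := by
  unfold avg
  congr 1
  have h1 : ∀ t, h (φ t (φ s x)) = (fun u => h (φ u x)) (t + s) := fun t => by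
    show _ = h (φ (t + s) x)
    rw [hφ.add]
  simp_rw [h1]
  rw [intervalIntegral.integral_comp_add_right (fun u => h (φ u x)) s]
  rw [zero_add, add_comm M s]

theorem appr_avg_nice (hφ : IsFlow μ φ) {h : X → ℂ} (hm : Measurable h) {B : ℝ}
    (hb : ∀ x, ‖h x‖ ≤ B) {M : ℝ} (hM : 0 < M) : Nice φ B (2 * B / M) (avg φ M h) := by
  refine ⟨?_, ?_, ?_⟩
  · have h1 : StronglyMeasurable (Function.uncurry fun (t : ℝ) (x : X) => h (φ t x)) :=
      (hm.comp hφ.meas).stronglyMeasurable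
    have h2 : StronglyMeasurable fun x => ∫ t in (0 : ℝ)..M, h (φ t x) := by
      have h3 := h1.integral_prod_left (μ := volume.restrict (Set.Ioc (0 : ℝ) M))
      have h4 : (fun x => ∫ t in (0 : ℝ)..M, h (φ t x)) =
          fun x => ∫ t, h (φ t x) ∂(volume.restrict (Set.Ioc (0 : ℝ) M)) := by
        funext x
        rw [intervalIntegral.integral_of_le hM.le]
      rw [h4]
      exact h3
    exact (h2.measurable).const_mul _
  · intro x
    unfold avg
    rw [norm_mul, Complex.norm_real, Real.norm_eq_abs, abs_of_pos (inv_pos.2 hM)]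
    have h1 : ‖∫ t in (0 : ℝ)..M, h (φ t x)‖ ≤ B * |M - 0| :=
      intervalIntegral.norm_integral_le_of_norm_le_const fun t _ => hb _
    rw [sub_zero, abs_of_pos hM] at h1
    calc M⁻¹ * ‖∫ t in (0 : ℝ)..M, h (φ t x)‖ ≤ M⁻¹ * (B * M) :=
          mul_le_mul_of_nonneg_left h1 (inv_pos.2 hM).le
      _ = B := by field_simp
  · intro s t x
    rw [appr_avg_shift hφ, appr_avg_shift hφ, ← mul_sub, norm_mul, Complex.norm_real, Real.norm_eq_abs,
      abs_of_pos (inv_pos.2 hM)]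
    have hI := appr_int hφ hm hb x
    have h1 : (∫ u in s..(s + M), h (φ u x)) - ∫ u in t..(t + M), h (φ u x) =
        (∫ u in s..t, h (φ u x)) - ∫ u in (s + M)..(t + M), h (φ u x) :=
      intervalIntegral.integral_interval_sub_interval_comm (hI _ _) (hI _ _) (hI _ _)
    rw [h1]
    have h2 : ‖∫ u in s..t, h (φ u x)‖ ≤ B * |t - s| :=
      intervalIntegral.norm_integral_le_of_norm_le_const fun t _ => hb _
    have h3 : ‖∫ u in (s + M)..(t + M), h (φ u x)‖ ≤ B * |t + M - (s + M)| :=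
      intervalIntegral.norm_integral_le_of_norm_le_const fun t _ => hb _
    rw [add_sub_add_right_eq_sub] at h3
    rw [abs_sub_comm t s] at h2 h3
    calc M⁻¹ * ‖(∫ u in s..t, h (φ u x)) - ∫ u in (s + M)..(t + M), h (φ u x)‖
        ≤ M⁻¹ * (B * |s - t| + B * |s - t|) :=
          mul_le_mul_of_nonneg_left ((norm_sub_le _ _).trans (add_le_add h2 h3)) (inv_pos.2 hM).le
      _ = 2 * B / M * |s - t| := by field_simp; ring

theorem appr_avg_tendsto (hφ : IsFlow μ φ) {h : X → ℂ} (hm : Measurable h) {B : ℝ}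
    (hb : ∀ x, ‖h x‖ ≤ B) (x : X) :
    ∀ᵐ t : ℝ, Tendsto (fun n : ℕ => avg φ (1 / ((n : ℝ) + 1)) h (φ t x)) atTop (𝓝 (h (φ t x))) := by
  have hloc : LocallyIntegrable (fun t : ℝ => h (φ t x)) volume := by
    intro u
    refine ⟨Set.Ioo (u - 1) (u + 1), Ioo_mem_nhds (by linarith) (by linarith), ?_⟩
    exact Measure.integrableOn_of_bounded (M := B) (by simp)
      (appr_orbit_meas hφ hm x).aestronglyMeasurable (ae_of_all _ fun t => hb _)
  filter_upwards [LocallyIntegrable.ae_hasDerivAt_integral hloc] with t ht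
  have h1 := (ht 0).tendsto_slope_zero
  have h2 : Tendsto (fun n : ℕ => 1 / ((n : ℝ) + 1)) atTop (𝓝[≠] 0) := by
    refine tendsto_nhdsWithin_iff.2 ⟨tendsto_one_div_add_atTop_nhds_zero_nat, Eventually.of_forall fun n => ?_⟩
    have : (0 : ℝ) < 1 / ((n : ℝ) + 1) := by positivity
    exact this.ne'
  have h3 := h1.comp h2
  refine h3.congr fun n => ?_
  have hI := appr_int hφ hm hb x
  rw [appr_avg_shift hφ]
  show (1 / ((n : ℝ) + 1))⁻¹ • ((∫ u in (0 : ℝ)..(t + 1 / ((n : ℝ) + 1)), h (φ u x)) - ∫ u in (0 : ℝ)..t, h (φ u x)) = _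
  rw [intervalIntegral.integral_interval_sub_left (hI _ _) (hI _ _), Complex.real_smul]

end

theorem appr {X : Type*} [MeasurableSpace X] {μ : Measure X} [IsFiniteMeasure μ] {φ : ℝ → X → X}
    (hφ : IsFlow μ φ) {h : X → ℂ} (hm : Measurable h) {B : ℝ} (hb : ∀ x, ‖h x‖ ≤ B) (hB : 0 ≤ B) {ε : ℝ} (hε : 0 < ε) :
    ∃ (f : X → ℂ) (L : ℝ), 0 ≤ L ∧ Nice φ B L f ∧ ∫⁻ x, ‖h x - f x‖ₑ ^ 2 ∂μ ≤ ENNReal.ofReal ε := by
  have hpos : ∀ n : ℕ, (0 : ℝ) < 1 / ((n : ℝ) + 1) := fun n => by positivity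
  have hnice : ∀ n : ℕ, Nice φ B (2 * B / (1 / ((n : ℝ) + 1))) (avg φ (1 / ((n : ℝ) + 1)) h) :=
    fun n => appr_avg_nice hφ hm hb (hpos n)
  -- almost everywhere convergence
  have hE : MeasurableSet {y : X | Tendsto (fun n : ℕ => avg φ (1 / ((n : ℝ) + 1)) h y) atTop (𝓝 (h y))} :=
    measurableSet_tendsto_fun (fun n => (hnice n).meas) hm
  have hae : ∀ᵐ y ∂μ, Tendsto (fun n : ℕ => avg φ (1 / ((n : ℝ) + 1)) h y) atTop (𝓝 (h y)) := by
    have h1 : ∀ᵐ x ∂μ, ∀ᵐ t : ℝ, φ t x ∈ {y : X | Tendsto (fun n : ℕ => avg φ (1 / ((n : ℝ) + 1)) h y) atTop (𝓝 (h y))} :=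
      ae_of_all _ fun x => appr_avg_tendsto hφ hm hb x
    have h2 := (Measure.ae_ae_comm (μ := μ) (ν := (volume : Measure ℝ))
      (p := fun x t => φ t x ∈ {y : X | Tendsto (fun n : ℕ => avg φ (1 / ((n : ℝ) + 1)) h y) atTop (𝓝 (h y))})
      (hE.preimage (hφ.meas.comp measurable_swap))).1 h1
    obtain ⟨t, ht⟩ := h2.exists
    have h3 : ∀ᵐ y ∂(Measure.map (φ t) μ), y ∈ {y : X | Tendsto (fun n : ℕ => avg φ (1 / ((n : ℝ) + 1)) h y) atTop (𝓝 (h y))} :=
      (ae_map_iff (hφ.mp t).measurable.aemeasurable hE).2 ht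
    rw [(hφ.mp t).map_eq] at h3
    exact h3
  have hlim : Tendsto (fun n : ℕ => ∫⁻ x, ‖h x - avg φ (1 / ((n : ℝ) + 1)) h x‖ₑ ^ 2 ∂μ) atTop (𝓝 (∫⁻ _, 0 ∂μ)) := by
    refine tendsto_lintegral_of_dominated_convergence (fun _ => ENNReal.ofReal (2 * B) ^ 2) ?_ ?_ ?_ ?_
    · intro n
      exact ((hm.sub (hnice n).meas).enorm).pow_const 2
    · intro n
      refine ae_of_all _ fun x => ?_
      refine pow_le_pow_left₀ zero_le ?_ 2
      rw [← ofReal_norm]
      refine ENNReal.ofReal_le_ofReal ?_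
      have := norm_sub_le (h x) (avg φ (1 / ((n : ℝ) + 1)) h x)
      have h2 := hb x
      have h3 := (hnice n).bd x
      linarith
    · rw [lintegral_const]
      exact ENNReal.mul_ne_top (ENNReal.pow_ne_top ENNReal.ofReal_ne_top) (measure_ne_top μ _)
    · filter_upwards [hae] with x hx
      have h1 : Tendsto (fun n : ℕ => h x - avg φ (1 / ((n : ℝ) + 1)) h x) atTop (𝓝 (h x - h x)) :=
        tendsto_const_nhds.sub hx
      rw [sub_self] at h1
      have h2 : Tendsto (fun n : ℕ => ‖h x - avg φ (1 / ((n : ℝ) + 1)) h x‖ₑ) atTop (𝓝 ‖(0 : ℂ)‖ₑ) :=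
        (continuous_enorm.tendsto _).comp h1
      rw [enorm_zero] at h2
      have h3 := (ENNReal.continuous_pow 2).tendsto (0 : ENNReal)
      have h4 := h3.comp h2
      rw [zero_pow two_ne_zero] at h4
      exact h4
  rw [lintegral_zero] at hlim
  have hpos2 : (0 : ENNReal) < ENNReal.ofReal ε := ENNReal.ofReal_pos.2 hε
  obtain ⟨n, hn⟩ := (hlim.eventually (gt_mem_nhds hpos2)).exists
  exact ⟨avg φ (1 / ((n : ℝ) + 1)) h, 2 * B / (1 / ((n : ℝ) + 1)),
    div_nonneg (by linarith) (hpos n).le, hnice n, hn.le⟩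

end Pool.Agent.GT
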