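import Mathlib
import Pool.Agent.GT.Defs

/-!
# GT/Circ: Parseval on a circle for sums of translates

`0 < L0 < ℓ`, `H` continuous on `[0, L0]` (used as the function equal to `H` on `[0, L0)` and `0` on `[L0, ℓ)`, extended with period `ℓ`),
`hc κ = ℓ⁻¹ ∫_0^{L0} H(v) exp(-2πi κ v/ℓ) dv` its Fourier coefficients.

Proof: work on `AddCircle ℓ` (`Fact (0 < ℓ)`) with `Hc = AddCircle.liftIco ℓ 0 (indicator of [0, L0) times H)` (bounded measurable, so in `L²`).  For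
`G(w) = ∑_i a_i Hc(w + y_i)`: `fourierCoeff G κ = hc κ · ∑_i a_i exp(2πi κ y_i/ℓ)` (translation invariance of Haar measure, `fourierCoeff_liftIco_eq` /
`fourierCoeffOn`), and `tsum_sq_fourierCoeff` / `hasSum_sq_fourierCoeff`: `∑_κ |fourierCoeff G κ|² = ∫ |G|² d haar = ℓ⁻¹ ∫_0^ℓ |G(w)|² dw`.

* `circ_sum`: restrict the last integral to `w ∈ [0, w1]`, where `G(w) = ∑ a_i H(y_i + w)` (for all `w` but finitely many).
* `circ_norm`: one translate, `∑ |hc κ|² = ℓ⁻¹ ∫_0^{L0} |H|²`.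
* `circ_shift`: `Hc(w + δ) - Hc(w)` with `0 < δ ≤ ℓ - L0`, `δ ≤ L0`: over the period `[-δ, ℓ - δ)` the difference is `H(w + δ) - H(w)` for `0 ≤ w < L0 - δ` and
  otherwise not zero only on `[-δ, 0)` and `[L0 - δ, L0)`, where it is at most `C` in absolute value.
-/

namespace Pool.Agent.GT

open MeasureTheory Set

/-- Fourier coefficients of the piece on `[0, L0]` with period `ℓ` -/
noncomputable def hc (ℓ L0 : ℝ) (H : ℝ → ℂ) (κ : ℤ) : ℂ :=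
  ((ℓ⁻¹ : ℝ) : ℂ) * ∫ v in (0 : ℝ)..L0, H v * Complex.exp (((-(2 * Real.pi / ℓ * κ * v) : ℝ) : ℂ) * Complex.I)

/-! ### the zero extension and the periodic extension -/

private noncomputable def Circ_z (L0 : ℝ) (H : ℝ → ℂ) : ℝ → ℂ := (Icc (0 : ℝ) L0).indicator H

private noncomputable def Circ_p (ℓ L0 : ℝ) (H : ℝ → ℂ) (v : ℝ) : ℂ :=
  Circ_z L0 H (ℓ * Int.fract (v / ℓ))

private noncomputable def Circ_e (ℓ : ℝ) (κ : ℤ) (v : ℝ) : ℂ :=
  Complex.exp (((-(2 * Real.pi / ℓ * κ * v) : ℝ) : ℂ) * Complex.I)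

private lemma Circ_p_per {ℓ L0 : ℝ} (hl : 0 < ℓ) (H : ℝ → ℂ) (v : ℝ) :
    Circ_p ℓ L0 H (v + ℓ) = Circ_p ℓ L0 H v := by
  unfold Circ_p
  rw [add_div, div_self hl.ne', Int.fract_add_one]

private lemma Circ_p_eq {ℓ L0 : ℝ} (hl : 0 < ℓ) (H : ℝ → ℂ) {v : ℝ} (h0 : 0 ≤ v) (h1 : v < ℓ) :
    Circ_p ℓ L0 H v = Circ_z L0 H v := by
  unfold Circ_p
  have h2 : Int.fract (v / ℓ) = v / ℓ := by
    rw [Int.fract_eq_self]
    exact ⟨by positivity, (div_lt_one hl).2 h1⟩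
  rw [h2, mul_div_cancel₀ _ hl.ne']

private lemma Circ_z_in {L0 : ℝ} (H : ℝ → ℂ) {v : ℝ} (h0 : 0 ≤ v) (h1 : v ≤ L0) :
    Circ_z L0 H v = H v := by
  have h : v ∈ Icc (0 : ℝ) L0 := ⟨h0, h1⟩
  unfold Circ_z
  rw [indicator_of_mem h]

private lemma Circ_z_out {L0 : ℝ} (H : ℝ → ℂ) {v : ℝ} (h1 : L0 < v) : Circ_z L0 H v = 0 :=
  indicator_of_notMem (fun h : v ∈ Icc (0 : ℝ) L0 => absurd h.2 (not_le.2 h1)) H

private lemma Circ_z_meas {L0 : ℝ} {H : ℝ → ℂ} (hH : ContinuousOn H (Icc 0 L0)) :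
    Measurable (Circ_z L0 H) := by
  classical
  unfold Circ_z
  rw [← piecewise_eq_indicator]
  exact hH.measurable_piecewise continuousOn_const measurableSet_Icc

private lemma Circ_p_meas {ℓ L0 : ℝ} {H : ℝ → ℂ} (hH : ContinuousOn H (Icc 0 L0)) :
    Measurable (Circ_p ℓ L0 H) :=
  (Circ_z_meas hH).comp (measurable_const.mul (measurable_fract.comp (measurable_id.div_const ℓ)))

private lemma Circ_z_bd {L0 : ℝ} {H : ℝ → ℂ} (hH : ContinuousOn H (Icc 0 L0)) :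
    ∃ C, 0 ≤ C ∧ ∀ v, ‖Circ_z L0 H v‖ ≤ C := by
  obtain ⟨C, hC⟩ := isCompact_Icc.exists_bound_of_continuousOn hH
  refine ⟨max C 0, le_max_right _ _, fun v => ?_⟩
  by_cases hv : v ∈ Icc (0 : ℝ) L0
  · unfold Circ_z
    rw [indicator_of_mem hv]
    exact (hC v hv).trans (le_max_left _ _)
  · unfold Circ_z
    rw [indicator_of_notMem hv, norm_zero]
    exact le_max_right _ _

private lemma Circ_p_bd {L0 : ℝ} {H : ℝ → ℂ} (hH : ContinuousOn H (Icc 0 L0)) (ℓ : ℝ) :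
    ∃ C, 0 ≤ C ∧ ∀ v, ‖Circ_p ℓ L0 H v‖ ≤ C := by
  obtain ⟨C, h0, hC⟩ := Circ_z_bd hH
  exact ⟨C, h0, fun v => hC _⟩

private lemma Circ_e_add (ℓ : ℝ) (κ : ℤ) (v w : ℝ) :
    Circ_e ℓ κ (v + w) = Circ_e ℓ κ v * Circ_e ℓ κ w := by
  unfold Circ_e
  rw [← Complex.exp_add]
  congr 1
  push_cast
  ring

private lemma Circ_e_per {ℓ : ℝ} (hl : 0 < ℓ) (κ : ℤ) (v : ℝ) :
    Circ_e ℓ κ (v + ℓ) = Circ_e ℓ κ v := by
  rw [Circ_e_add]
  have h : Circ_e ℓ κ ℓ = 1 := by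
    unfold Circ_e
    have h1 : (((-(2 * Real.pi / ℓ * κ * ℓ) : ℝ) : ℂ) * Complex.I) =
        ((-κ : ℤ) : ℂ) * (2 * Real.pi * Complex.I) := by
      have h2 : -(2 * Real.pi / ℓ * κ * ℓ) = -κ * (2 * Real.pi) := by
        field_simp
      rw [h2]
      push_cast
      ring
    rw [h1, Complex.exp_int_mul_two_pi_mul_I]
  rw [h, mul_one]

private lemma Circ_e_cont (ℓ : ℝ) (κ : ℤ) : Continuous (Circ_e ℓ κ) := by
  unfold Circ_e
  fun_prop

private lemma Circ_e_norm (ℓ : ℝ) (κ : ℤ) (v : ℝ) : ‖Circ_e ℓ κ v‖ = 1 := by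
  unfold Circ_e
  rw [Complex.norm_exp_ofReal_mul_I]

private lemma Circ_int {F : ℝ → ℂ} (hF : Measurable F) {C : ℝ} (hC : ∀ v, ‖F v‖ ≤ C) (a b : ℝ) :
    IntervalIntegrable F volume a b := by
  rw [intervalIntegrable_iff]
  exact Measure.integrableOn_of_bounded (M := C) (by simp) hF.aestronglyMeasurable
    (Filter.Eventually.of_forall hC)

private lemma Circ_intR {F : ℝ → ℝ} (hF : Measurable F) {C : ℝ} (hC : ∀ v, ‖F v‖ ≤ C) (a b : ℝ) :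
    IntervalIntegrable F volume a b := by
  rw [intervalIntegrable_iff]
  exact Measure.integrableOn_of_bounded (M := C) (by simp) hF.aestronglyMeasurable
    (Filter.Eventually.of_forall hC)

private lemma Circ_hc {ℓ L0 : ℝ} (h0 : 0 < L0) (hl : L0 < ℓ) {H : ℝ → ℂ}
    (hH : ContinuousOn H (Icc 0 L0)) (κ : ℤ) :
    ∫ v in (0 : ℝ)..ℓ, Circ_p ℓ L0 H v * Circ_e ℓ κ v = ∫ v in (0 : ℝ)..L0, H v * Circ_e ℓ κ v := by
  have hℓ : 0 < ℓ := h0.trans hl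
  obtain ⟨C, hC0, hC⟩ := Circ_p_bd hH ℓ
  have hm : Measurable (fun v => Circ_p ℓ L0 H v * Circ_e ℓ κ v) :=
    (Circ_p_meas hH).mul (Circ_e_cont ℓ κ).measurable
  have hb : ∀ v, ‖Circ_p ℓ L0 H v * Circ_e ℓ κ v‖ ≤ C := by
    intro v
    rw [norm_mul, Circ_e_norm, mul_one]
    exact hC v
  rw [← intervalIntegral.integral_add_adjacent_intervals (b := L0) (Circ_int hm hb _ _)
    (Circ_int hm hb _ _)]
  have h2 : ∫ v in L0..ℓ, Circ_p ℓ L0 H v * Circ_e ℓ κ v = 0 := by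
    rw [intervalIntegral.integral_of_le hl.le, integral_Ioc_eq_integral_Ioo]
    refine setIntegral_eq_zero_of_forall_eq_zero fun v hv => ?_
    rw [Circ_p_eq hℓ H (h0.le.trans hv.1.le) hv.2, Circ_z_out H hv.1, zero_mul]
  rw [h2, add_zero]
  refine intervalIntegral.integral_congr fun v hv => ?_
  rw [uIcc_of_le h0.le] at hv
  show Circ_p ℓ L0 H v * Circ_e ℓ κ v = H v * Circ_e ℓ κ v
  rw [Circ_p_eq hℓ H hv.1 (hv.2.trans_lt hl), Circ_z_in H hv.1 hv.2]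

/-- the Fourier integral of a translate -/
private lemma Circ_trans {ℓ L0 : ℝ} (hℓ : 0 < ℓ) (H : ℝ → ℂ) (κ : ℤ) (b y : ℝ) :
    ∫ w in b..(b + ℓ), Circ_e ℓ κ w * Circ_p ℓ L0 H (w + y) =
      Circ_e ℓ κ (-y) * ∫ v in (0 : ℝ)..ℓ, Circ_p ℓ L0 H v * Circ_e ℓ κ v := by
  have h1 : ∀ w, Circ_e ℓ κ w * Circ_p ℓ L0 H (w + y) =
      (fun v => Circ_e ℓ κ (-y) * (Circ_p ℓ L0 H v * Circ_e ℓ κ v)) (w + y) := by
    intro w
    show _ = Circ_e ℓ κ (-y) * (Circ_p ℓ L0 H (w + y) * Circ_e ℓ κ (w + y))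
    have h2 : Circ_e ℓ κ w = Circ_e ℓ κ (-y) * Circ_e ℓ κ (w + y) := by
      rw [← Circ_e_add]
      congr 1
      ring
    rw [h2]
    ring
  simp_rw [h1]
  rw [intervalIntegral.integral_comp_add_right
    (fun v => Circ_e ℓ κ (-y) * (Circ_p ℓ L0 H v * Circ_e ℓ κ v)) y,
    intervalIntegral.integral_const_mul]
  congr 1
  have hper : Function.Periodic (fun v => Circ_p ℓ L0 H v * Circ_e ℓ κ v) ℓ := by
    intro v
    show Circ_p ℓ L0 H (v + ℓ) * Circ_e ℓ κ (v + ℓ) = _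
    rw [Circ_p_per hℓ, Circ_e_per hℓ]
  have h3 := hper.intervalIntegral_add_eq (b + y) 0
  rw [zero_add] at h3
  rw [← h3]
  congr 1
  ring

/-- the Fourier coefficients of a sum of translates -/
private lemma Circ_coeff {ℓ L0 : ℝ} (h0 : 0 < L0) (hl : L0 < ℓ) {H : ℝ → ℂ}
    (hH : ContinuousOn H (Icc 0 L0)) {ι : Type*} (s : Finset ι) (a : ι → ℂ) (y : ι → ℝ) (b : ℝ)
    (hab : b < b + ℓ) (κ : ℤ) :
    ‖fourierCoeffOn hab (fun w => ∑ i ∈ s, a i * Circ_p ℓ L0 H (w + y i)) κ‖ ^ 2 =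
      ‖hc ℓ L0 H κ‖ ^ 2 *
        ‖∑ i ∈ s, a i * Complex.exp (((2 * Real.pi / ℓ * κ * y i : ℝ) : ℂ) * Complex.I)‖ ^ 2 := by
  have hℓ : 0 < ℓ := h0.trans hl
  obtain ⟨C, hC0, hC⟩ := Circ_p_bd hH ℓ
  have hm : ∀ i, Measurable (fun w => Circ_p ℓ L0 H (w + y i)) := fun i =>
    (Circ_p_meas hH).comp (measurable_id.add_const (y i))
  rw [← mul_pow, ← norm_mul]
  congr 2
  rw [fourierCoeffOn_eq_integral]
  have h1 : ∀ w : ℝ, (fourier (-κ)) (w : AddCircle (b + ℓ - b)) •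
      (∑ i ∈ s, a i * Circ_p ℓ L0 H (w + y i)) =
      ∑ i ∈ s, a i * (Circ_e ℓ κ w * Circ_p ℓ L0 H (w + y i)) := by
    intro w
    have h2 : (fourier (-κ)) (w : AddCircle (b + ℓ - b)) = Circ_e ℓ κ w := by
      rw [fourier_coe_apply, add_sub_cancel_left]
      unfold Circ_e
      congr 1
      push_cast
      ring
    rw [h2, smul_eq_mul, Finset.mul_sum]
    refine Finset.sum_congr rfl fun i _ => ?_
    ring
  simp_rw [h1]
  rw [intervalIntegral.integral_finsetSum]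
  · simp_rw [intervalIntegral.integral_const_mul, Circ_trans hℓ, Circ_hc h0 hl hH]
    rw [add_sub_cancel_left]
    have h3 : ∀ i, Circ_e ℓ κ (-y i) =
        Complex.exp (((2 * Real.pi / ℓ * κ * y i : ℝ) : ℂ) * Complex.I) := by
      intro i
      unfold Circ_e
      congr 2
      push_cast
      ring
    simp_rw [h3]
    rw [Finset.mul_sum, Finset.smul_sum]
    refine Finset.sum_congr rfl fun i _ => ?_
    unfold hc Circ_e
    rw [Complex.real_smul, one_div]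
    ring
  · intro i _
    refine (Circ_int (C := C) ((Circ_e_cont ℓ κ).measurable.mul (hm i)) (fun v => ?_) _ _).const_mul _
    show ‖Circ_e ℓ κ v * Circ_p ℓ L0 H (v + y i)‖ ≤ C
    rw [norm_mul, Circ_e_norm, one_mul]
    exact hC _

/-- Parseval for a sum of translates of the periodic extension -/
private lemma Circ_parseval {ℓ L0 : ℝ} (h0 : 0 < L0) (hl : L0 < ℓ) {H : ℝ → ℂ}
    (hH : ContinuousOn H (Icc 0 L0)) {ι : Type*} (s : Finset ι) (a : ι → ℂ) (y : ι → ℝ) (b : ℝ) :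
    HasSum (fun κ : ℤ => ‖hc ℓ L0 H κ‖ ^ 2 *
        ‖∑ i ∈ s, a i * Complex.exp (((2 * Real.pi / ℓ * κ * y i : ℝ) : ℂ) * Complex.I)‖ ^ 2)
      (ℓ⁻¹ * ∫ w in b..(b + ℓ), ‖∑ i ∈ s, a i * Circ_p ℓ L0 H (w + y i)‖ ^ 2) := by
  have hℓ : 0 < ℓ := h0.trans hl
  obtain ⟨C, hC0, hC⟩ := Circ_p_bd hH ℓ
  have hm : ∀ i, Measurable (fun w => Circ_p ℓ L0 H (w + y i)) := fun i =>
    (Circ_p_meas hH).comp (measurable_id.add_const (y i))
  have hF : Measurable (fun w => ∑ i ∈ s, a i * Circ_p ℓ L0 H (w + y i)) :=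
    Finset.measurable_fun_sum s fun i _ => (hm i).const_mul (a i)
  have hFb : ∀ w, ‖∑ i ∈ s, a i * Circ_p ℓ L0 H (w + y i)‖ ≤ ∑ i ∈ s, ‖a i‖ * C := by
    intro w
    refine (norm_sum_le _ _).trans (Finset.sum_le_sum fun i _ => ?_)
    rw [norm_mul]
    exact mul_le_mul_of_nonneg_left (hC _) (norm_nonneg _)
  have hab : b < b + ℓ := by linarith
  have key := hasSum_sq_fourierCoeffOn (f := fun w => ∑ i ∈ s, a i * Circ_p ℓ L0 H (w + y i)) hab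
    (MemLp.of_bound hF.aestronglyMeasurable _ (Filter.Eventually.of_forall hFb))
  rw [add_sub_cancel_left, smul_eq_mul] at key
  have hfun : (fun κ : ℤ => ‖hc ℓ L0 H κ‖ ^ 2 *
        ‖∑ i ∈ s, a i * Complex.exp (((2 * Real.pi / ℓ * κ * y i : ℝ) : ℂ) * Complex.I)‖ ^ 2) =
      fun κ : ℤ => ‖fourierCoeffOn hab (fun w => ∑ i ∈ s, a i * Circ_p ℓ L0 H (w + y i)) κ‖ ^ 2 := by
    funext κ
    exact (Circ_coeff h0 hl hH s a y b hab κ).symm
  rw [hfun]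
  exact key
theorem circ_sum {ℓ L0 : ℝ} (h0 : 0 < L0) (hl : L0 < ℓ) {H : ℝ → ℂ} (hH : ContinuousOn H (Set.Icc 0 L0))
    {ι : Type*} (s : Finset ι) (a : ι → ℂ) (y : ι → ℝ) {w1 : ℝ} (hw1 : 0 ≤ w1)
    (hy : ∀ i ∈ s, 0 ≤ y i) (hy2 : ∀ i ∈ s, y i + w1 ≤ L0) :
    Summable (fun κ : ℤ => ‖hc ℓ L0 H κ‖ ^ 2 *
        ‖∑ i ∈ s, a i * Complex.exp (((2 * Real.pi / ℓ * κ * y i : ℝ) : ℂ) * Complex.I)‖ ^ 2) ∧
      ∫ w in (0 : ℝ)..w1, ‖∑ i ∈ s, a i * H (y i + w)‖ ^ 2 ≤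
        ℓ * ∑' κ : ℤ, ‖hc ℓ L0 H κ‖ ^ 2 *
          ‖∑ i ∈ s, a i * Complex.exp (((2 * Real.pi / ℓ * κ * y i : ℝ) : ℂ) * Complex.I)‖ ^ 2 := by
  have hℓ : 0 < ℓ := h0.trans hl
  have key := Circ_parseval h0 hl hH s a y 0
  refine ⟨key.summable, ?_⟩
  rw [key.tsum_eq, ← mul_assoc, mul_inv_cancel₀ hℓ.ne', one_mul, zero_add]
  rcases s.eq_empty_or_nonempty with rfl | ⟨i₀, hi₀⟩
  · simp
  have hwl : w1 ≤ L0 := by linarith [hy i₀ hi₀, hy2 i₀ hi₀]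
  have h1 : ∫ w in (0 : ℝ)..w1, ‖∑ i ∈ s, a i * H (y i + w)‖ ^ 2 =
      ∫ w in (0 : ℝ)..w1, ‖∑ i ∈ s, a i * Circ_p ℓ L0 H (w + y i)‖ ^ 2 := by
    refine intervalIntegral.integral_congr fun w hw => ?_
    rw [uIcc_of_le hw1] at hw
    show ‖∑ i ∈ s, a i * H (y i + w)‖ ^ 2 = ‖∑ i ∈ s, a i * Circ_p ℓ L0 H (w + y i)‖ ^ 2
    congr 2
    refine Finset.sum_congr rfl fun i hi => ?_
    have h2 := hy i hi
    have h3 := hy2 i hi
    rw [add_comm w, Circ_p_eq hℓ H (by linarith [hw.1]) (by linarith [hw.2]),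
      Circ_z_in H (by linarith [hw.1]) (by linarith [hw.2])]
  rw [h1]
  obtain ⟨C, hC0, hC⟩ := Circ_p_bd hH ℓ
  have hF : Measurable (fun w => ∑ i ∈ s, a i * Circ_p ℓ L0 H (w + y i)) :=
    Finset.measurable_fun_sum s fun i _ =>
      ((Circ_p_meas hH).comp (measurable_id.add_const (y i))).const_mul (a i)
  have hFb : ∀ w, ‖‖∑ i ∈ s, a i * Circ_p ℓ L0 H (w + y i)‖ ^ 2‖ ≤ (∑ i ∈ s, ‖a i‖ * C) ^ 2 := by
    intro w
    rw [norm_pow, norm_norm]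
    refine pow_le_pow_left₀ (norm_nonneg _) ((norm_sum_le _ _).trans
      (Finset.sum_le_sum fun i _ => ?_)) 2
    rw [norm_mul]
    exact mul_le_mul_of_nonneg_left (hC _) (norm_nonneg _)
  have hFm : Measurable (fun w => ‖∑ i ∈ s, a i * Circ_p ℓ L0 H (w + y i)‖ ^ 2) :=
    hF.norm.pow_const 2
  rw [← intervalIntegral.integral_add_adjacent_intervals (b := w1) (c := ℓ)
    (Circ_intR hFm hFb _ _) (Circ_intR hFm hFb _ _)]
  have h2 : 0 ≤ ∫ w in w1..ℓ, ‖∑ i ∈ s, a i * Circ_p ℓ L0 H (w + y i)‖ ^ 2 :=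
    intervalIntegral.integral_nonneg (by linarith) fun w _ => by positivity
  linarith

theorem circ_norm {ℓ L0 : ℝ} (h0 : 0 < L0) (hl : L0 < ℓ) {H : ℝ → ℂ} (hH : ContinuousOn H (Set.Icc 0 L0)) :
    HasSum (fun κ : ℤ => ‖hc ℓ L0 H κ‖ ^ 2) (ℓ⁻¹ * ∫ v in (0 : ℝ)..L0, ‖H v‖ ^ 2) := by
  have hℓ : 0 < ℓ := h0.trans hl
  have key := Circ_parseval h0 hl hH (Finset.univ : Finset Unit) (fun _ => 1) (fun _ => 0) 0
  simp only [Finset.univ_unique, Finset.sum_singleton, one_mul, mul_zero, Complex.ofReal_zero,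
    zero_mul, Complex.exp_zero, norm_one, one_pow, mul_one, add_zero, zero_add] at key
  have h1 : ∫ w in (0 : ℝ)..ℓ, ‖Circ_p ℓ L0 H w‖ ^ 2 = ∫ v in (0 : ℝ)..L0, ‖H v‖ ^ 2 := by
    obtain ⟨C, hC0, hC⟩ := Circ_p_bd hH ℓ
    have hFm : Measurable (fun w => ‖Circ_p ℓ L0 H w‖ ^ 2) := (Circ_p_meas hH).norm.pow_const 2
    have hFb : ∀ w, ‖‖Circ_p ℓ L0 H w‖ ^ 2‖ ≤ C ^ 2 := by
      intro w
      rw [norm_pow, norm_norm]
      exact pow_le_pow_left₀ (norm_nonneg _) (hC w) 2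
    rw [← intervalIntegral.integral_add_adjacent_intervals (b := L0) (c := ℓ)
      (Circ_intR hFm hFb _ _) (Circ_intR hFm hFb _ _)]
    have h2 : ∫ v in L0..ℓ, ‖Circ_p ℓ L0 H v‖ ^ 2 = 0 := by
      rw [intervalIntegral.integral_of_le hl.le, integral_Ioc_eq_integral_Ioo]
      refine setIntegral_eq_zero_of_forall_eq_zero fun v hv => ?_
      rw [Circ_p_eq hℓ H (h0.le.trans hv.1.le) hv.2, Circ_z_out H hv.1, norm_zero]
      norm_num
    rw [h2, add_zero]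
    refine intervalIntegral.integral_congr fun v hv => ?_
    rw [uIcc_of_le h0.le] at hv
    show ‖Circ_p ℓ L0 H v‖ ^ 2 = ‖H v‖ ^ 2
    rw [Circ_p_eq hℓ H hv.1 (hv.2.trans_lt hl), Circ_z_in H hv.1 hv.2]
  rw [h1] at key
  exact key

theorem circ_shift {ℓ L0 : ℝ} (h0 : 0 < L0) {H : ℝ → ℂ} (hH : ContinuousOn H (Set.Icc 0 L0)) {C : ℝ}
    (hC : ∀ v ∈ Set.Icc 0 L0, ‖H v‖ ≤ C) {δ : ℝ} (hδ : 0 < δ) (hδ1 : δ ≤ L0) (hδ2 : δ ≤ ℓ - L0) :
    Summable (fun κ : ℤ => ‖hc ℓ L0 H κ‖ ^ 2 *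
        ‖Complex.exp (((2 * Real.pi / ℓ * κ * δ : ℝ) : ℂ) * Complex.I) - 1‖ ^ 2) ∧
      ∑' κ : ℤ, ‖hc ℓ L0 H κ‖ ^ 2 *
          ‖Complex.exp (((2 * Real.pi / ℓ * κ * δ : ℝ) : ℂ) * Complex.I) - 1‖ ^ 2 ≤
        ℓ⁻¹ * ((∫ v in (0 : ℝ)..(L0 - δ), ‖H (v + δ) - H v‖ ^ 2) + 2 * δ * C ^ 2) := by
  have hl : L0 < ℓ := by linarith
  have hℓ : 0 < ℓ := h0.trans hl
  have key := Circ_parseval h0 hl hH (Finset.univ : Finset Bool) (fun t => if t then 1 else -1)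
    (fun t => if t then δ else 0) (-δ)
  simp only [Fintype.sum_bool, if_true, Bool.false_eq_true, if_false, one_mul, mul_zero,
    Complex.ofReal_zero, zero_mul, Complex.exp_zero, add_zero, mul_one, neg_mul, ← sub_eq_add_neg]
    at key
  refine ⟨key.summable, ?_⟩
  rw [key.tsum_eq]
  refine mul_le_mul_of_nonneg_left ?_ (inv_nonneg.2 hℓ.le)
  obtain ⟨K, hK0, hK⟩ := Circ_p_bd hH ℓ
  have hFm : Measurable (fun w => ‖Circ_p ℓ L0 H (w + δ) - Circ_p ℓ L0 H w‖ ^ 2) :=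
    (((Circ_p_meas hH).comp (measurable_id.add_const δ)).sub (Circ_p_meas hH)).norm.pow_const 2
  have hFb : ∀ w, ‖‖Circ_p ℓ L0 H (w + δ) - Circ_p ℓ L0 H w‖ ^ 2‖ ≤ (K + K) ^ 2 := by
    intro w
    rw [norm_pow, norm_norm]
    exact pow_le_pow_left₀ (norm_nonneg _) ((norm_sub_le _ _).trans (add_le_add (hK _) (hK _))) 2
  have hint := fun a b => Circ_intR hFm hFb a b
  have e1 : -δ + ℓ = ℓ - δ := by ring
  rw [e1, ← intervalIntegral.integral_add_adjacent_intervals (b := 0) (hint _ _) (hint _ _),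
    ← intervalIntegral.integral_add_adjacent_intervals (a := 0) (b := L0 - δ) (hint _ _) (hint _ _),
    ← intervalIntegral.integral_add_adjacent_intervals (a := L0 - δ) (b := L0) (hint _ _)
      (hint _ _)]
  have i1 : ∫ w in (-δ)..0, ‖Circ_p ℓ L0 H (w + δ) - Circ_p ℓ L0 H w‖ ^ 2 ≤ δ * C ^ 2 := by
    have h1 := intervalIntegral.integral_mono_on_of_le_Ioo (g := fun _ => C ^ 2)
      (by linarith : -δ ≤ 0) (hint _ _) intervalIntegrable_const (fun w hw => ?_)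
    · rw [intervalIntegral.integral_const, smul_eq_mul] at h1
      refine h1.trans (le_of_eq ?_)
      ring
    · have h2 : Circ_p ℓ L0 H w = 0 := by
        rw [← Circ_p_per hℓ, Circ_p_eq hℓ H (by linarith [hw.1]) (by linarith [hw.2]),
          Circ_z_out H (by linarith [hw.1])]
      have h3 : Circ_p ℓ L0 H (w + δ) = H (w + δ) := by
        rw [Circ_p_eq hℓ H (by linarith [hw.1]) (by linarith [hw.2]),
          Circ_z_in H (by linarith [hw.1]) (by linarith [hw.2])]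
      rw [h2, h3, sub_zero]
      exact pow_le_pow_left₀ (norm_nonneg _) (hC _ ⟨by linarith [hw.1], by linarith [hw.2]⟩) 2
  have i2 : ∫ w in (0 : ℝ)..(L0 - δ), ‖Circ_p ℓ L0 H (w + δ) - Circ_p ℓ L0 H w‖ ^ 2 =
      ∫ v in (0 : ℝ)..(L0 - δ), ‖H (v + δ) - H v‖ ^ 2 := by
    refine intervalIntegral.integral_congr fun w hw => ?_
    rw [uIcc_of_le (by linarith)] at hw
    show ‖Circ_p ℓ L0 H (w + δ) - Circ_p ℓ L0 H w‖ ^ 2 = ‖H (w + δ) - H w‖ ^ 2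
    rw [Circ_p_eq hℓ H (by linarith [hw.1]) (by linarith [hw.2]),
      Circ_z_in H (by linarith [hw.1]) (by linarith [hw.2]),
      Circ_p_eq hℓ H hw.1 (by linarith [hw.2]), Circ_z_in H hw.1 (by linarith [hw.2])]
  have i3 : ∫ w in (L0 - δ)..L0, ‖Circ_p ℓ L0 H (w + δ) - Circ_p ℓ L0 H w‖ ^ 2 ≤ δ * C ^ 2 := by
    have h1 := intervalIntegral.integral_mono_on_of_le_Ioo (g := fun _ => C ^ 2)
      (by linarith : L0 - δ ≤ L0) (hint _ _) intervalIntegrable_const (fun w hw => ?_)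
    · rw [intervalIntegral.integral_const, smul_eq_mul] at h1
      refine h1.trans (le_of_eq ?_)
      ring
    · have h2 : Circ_p ℓ L0 H (w + δ) = 0 := by
        rw [Circ_p_eq hℓ H (by linarith [hw.1]) (by linarith [hw.2]),
          Circ_z_out H (by linarith [hw.1])]
      have h3 : Circ_p ℓ L0 H w = H w := by
        rw [Circ_p_eq hℓ H (by linarith [hw.1]) (by linarith [hw.2]),
          Circ_z_in H (by linarith [hw.1]) hw.2.le]
      rw [h2, h3, zero_sub, norm_neg]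
      exact pow_le_pow_left₀ (norm_nonneg _) (hC _ ⟨by linarith [hw.1], hw.2.le⟩) 2
  have i4 : ∫ w in L0..(ℓ - δ), ‖Circ_p ℓ L0 H (w + δ) - Circ_p ℓ L0 H w‖ ^ 2 = 0 := by
    rw [intervalIntegral.integral_of_le (by linarith), integral_Ioc_eq_integral_Ioo]
    refine setIntegral_eq_zero_of_forall_eq_zero fun w hw => ?_
    rw [Circ_p_eq hℓ H (by linarith [hw.1]) (by linarith [hw.2]),
      Circ_z_out H (by linarith [hw.1]), Circ_p_eq hℓ H (by linarith [hw.1]) (by linarith [hw.2]),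
      Circ_z_out H hw.1, sub_zero, norm_zero]
    norm_num
  rw [i2, i4]
  linarith

end Pool.Agent.GT
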