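import Mathlib
import Pool.Agent.GT.Defs
import Pool.Agent.GT.Circ

/-!
# GT/Pars: Parseval in the logarithmic variable

`L0 = (d+1) log 2`, `ℓ = per d`, `L0 + 1 ≤ ℓ` (`log_add_one_le_per`), `H(v) = b(U e^v)`.  Substitution `t = U e^v` (`t > 0`, `b` continuous):
`cf_eq_hc`: `cf d U κ b = hc (per d) L0 H κ`.

* `pars`: `U = N^d`, `y_n = d log(n/N) ∈ [0, d log 2]` for `N ≤ n ≤ 2N`, `b(e^w n^d) = H(y_n + w)`, `w ∈ [0, log 2]`, and
  `∑ a_n exp(i ω κ y_n) = DD d N I a κ` (`ω = 2π/per d`): `circ_sum`.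
* `pars_norm`: `∑ ‖cf‖² ≤ B²` (`circ_norm`, `L0 ≤ per d`).
* `pars_tail`: let `K ≥ per d` and `Q` a finite set of `κ` with `|κ| ≥ K`, `δ0 = L0 per d/(2K) ≤ L0/2`; then `ω K δ0 = π L0 ≥ 2`.  For `0 < δ ≤ δ0`:
  `‖H(v+δ) - H(v)‖ ≤ L U e^v (e^δ - 1) ≤ 4^(d+1) L U δ`, so `circ_shift` gives
  `∑_{κ ∈ Q} ‖cf κ‖² ‖e^{iωκδ} - 1‖² ≤ C (L² U² δ² + B² δ)`.  Average over `δ ∈ [0, δ0]`: `δ0⁻¹ ∫_0^{δ0} ‖e^{iωκδ} - 1‖² dδ = 2 - 2 sin(ωκδ0)/(ωκδ0) ≥ 1`.
  Hence `∑_{κ ∈ Q} ‖cf κ‖² ≤ C (L² U²/K² + B²/K)`.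
-/

namespace Pool.Agent.GT

private theorem L0_pos (d : ℕ) : 0 < ((d : ℝ) + 1) * Real.log 2 :=
  mul_pos (by positivity) (Real.log_pos (by norm_num))

private theorem exp_L0 (d : ℕ) : Real.exp (((d : ℝ) + 1) * Real.log 2) = 2 ^ (d + 1) := by
  have : ((d : ℝ) + 1) * Real.log 2 = ((d + 1 : ℕ) : ℝ) * Real.log 2 := by push_cast; ring
  rw [this, ← Real.log_pow, Real.exp_log (by positivity)]

theorem cf_eq_hc (d : ℕ) {U : ℝ} (hU : 0 < U) (κ : ℤ) {b : ℝ → ℂ} (hb : Continuous b) :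
    cf d U κ b = hc (per d) (((d : ℝ) + 1) * Real.log 2) (fun v => b (U * Real.exp v)) κ := by
  have key := intervalIntegral.integral_deriv_smul_comp'' (a := 0) (b := ((d : ℝ) + 1) * Real.log 2)
    (f := fun v => U * Real.exp v) (f' := fun v => U * Real.exp v)
    (g := fun t : ℝ => b t * (Complex.exp (((-(om d * κ * Real.log (t / U)) : ℝ) : ℂ) * Complex.I) / t))
    (by fun_prop) (fun x _ => ((Real.hasDerivAt_exp x).const_mul U).hasDerivWithinAt) (by fun_prop) (by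
      have hpos : ∀ t ∈ (fun v => U * Real.exp v) '' (Set.uIcc 0 (((d : ℝ) + 1) * Real.log 2)), 0 < t := by
        rintro t ⟨v, -, rfl⟩
        have := Real.exp_pos v
        positivity
      refine hb.continuousOn.mul ?_
      refine ContinuousOn.div ?_ Complex.continuous_ofReal.continuousOn ?_
      · refine Complex.continuous_exp.comp_continuousOn ?_
        refine ContinuousOn.mul ?_ continuousOn_const
        refine Complex.continuous_ofReal.comp_continuousOn ?_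
        refine ContinuousOn.neg ?_
        refine continuousOn_const.mul ?_
        refine ContinuousOn.log (by fun_prop) ?_
        intro t ht
        have := hpos t ht
        positivity
      · intro t ht
        have := hpos t ht
        exact_mod_cast this.ne')
  unfold cf hc
  congr 1
  rw [exp_L0, Real.exp_zero, mul_one, mul_comm U] at key
  rw [← key]
  refine intervalIntegral.integral_congr fun v _ => ?_
  simp only [Function.comp]
  have hlog : Real.log (U * Real.exp v / U) = v := by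
    rw [mul_div_cancel_left₀ _ hU.ne', Real.log_exp]
  rw [hlog, Complex.real_smul]
  have hne : ((U * Real.exp v : ℝ) : ℂ) ≠ 0 := by
    have := Real.exp_pos v
    have h : 0 < U * Real.exp v := by positivity
    exact_mod_cast h.ne'
  unfold om
  field_simp

private theorem H_cont {U : ℝ} {b : ℝ → ℂ} (hb : Continuous b) : Continuous (fun v : ℝ => b (U * Real.exp v)) := by
  fun_prop

theorem pars (d : ℕ) {N : ℕ} (hN : 1 ≤ N) {b : ℝ → ℂ} (hb : Continuous b) (I : Finset ℕ)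
    (hI : ∀ n ∈ I, N ≤ n ∧ n ≤ 2 * N) (a : ℕ → ℂ) :
    Summable (fun κ : ℤ => ‖cf d ((N : ℝ) ^ d) κ b‖ ^ 2 * ‖DD d N I a κ‖ ^ 2) ∧
      ∫ w in (0 : ℝ)..Real.log 2, ‖∑ n ∈ I, a n * b (Real.exp w * (n : ℝ) ^ d)‖ ^ 2 ≤
        per d * ∑' κ : ℤ, ‖cf d ((N : ℝ) ^ d) κ b‖ ^ 2 * ‖DD d N I a κ‖ ^ 2 := by
  have hNR : (0 : ℝ) < N := by exact_mod_cast hN
  have hU : (0 : ℝ) < (N : ℝ) ^ d := by positivity
  have hl : ((d : ℝ) + 1) * Real.log 2 < per d := by
    have := log_add_one_le_per d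
    linarith
  have hy : ∀ n ∈ I, 0 ≤ (d : ℝ) * Real.log (n / N) ∧ (d : ℝ) * Real.log (n / N) ≤ d * Real.log 2 := by
    intro n hn
    obtain ⟨h1, h2⟩ := hI n hn
    have h1' : (N : ℝ) ≤ n := by exact_mod_cast h1
    have h2' : (n : ℝ) ≤ 2 * N := by exact_mod_cast h2
    have e1 : 1 ≤ (n : ℝ) / N := by rwa [le_div_iff₀ hNR, one_mul]
    have e2 : (n : ℝ) / N ≤ 2 := by rwa [div_le_iff₀ hNR]
    refine ⟨mul_nonneg (Nat.cast_nonneg d) (Real.log_nonneg e1), ?_⟩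
    exact mul_le_mul_of_nonneg_left (Real.log_le_log (by positivity) e2) (Nat.cast_nonneg d)
  have key := circ_sum (L0_pos d) hl (H_cont (U := (N : ℝ) ^ d) hb).continuousOn I a
    (fun n : ℕ => (d : ℝ) * Real.log (n / N)) (w1 := Real.log 2) (Real.log_nonneg (by norm_num))
    (fun n hn => (hy n hn).1) (fun n hn => by
      have := (hy n hn).2
      show (d : ℝ) * Real.log (n / N) + Real.log 2 ≤ _
      linarith)
  have e1 : ∀ κ : ℤ, ‖cf d ((N : ℝ) ^ d) κ b‖ ^ 2 * ‖DD d N I a κ‖ ^ 2 =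
      ‖hc (per d) (((d : ℝ) + 1) * Real.log 2) (fun v => b ((N : ℝ) ^ d * Real.exp v)) κ‖ ^ 2 *
        ‖∑ i ∈ I, a i * Complex.exp (((2 * Real.pi / per d * κ * (d * Real.log (i / N)) : ℝ) : ℂ) * Complex.I)‖ ^ 2 := by
    intro κ
    rw [cf_eq_hc d hU κ hb]
    rfl
  have e2 : ∀ w : ℝ, ‖∑ n ∈ I, a n * b (Real.exp w * (n : ℝ) ^ d)‖ ^ 2 =
      ‖∑ i ∈ I, a i * b ((N : ℝ) ^ d * Real.exp ((d : ℝ) * Real.log (i / N) + w))‖ ^ 2 := by
    intro w
    congr 2
    refine Finset.sum_congr rfl fun n hn => ?_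
    have h1' : (N : ℝ) ≤ n := by exact_mod_cast (hI n hn).1
    have hn0 : (0 : ℝ) < n := lt_of_lt_of_le hNR h1'
    congr 2
    rw [Real.exp_add, ← Real.log_pow, Real.exp_log (by positivity), div_pow]
    field_simp
  simp only [e1, e2]
  exact key

theorem pars_norm (d : ℕ) {U : ℝ} (hU : 0 < U) {b : ℝ → ℂ} (hb : Continuous b) {B : ℝ} (hB : ∀ t, ‖b t‖ ≤ B) :
    Summable (fun κ : ℤ => ‖cf d U κ b‖ ^ 2) ∧ ∑' κ : ℤ, ‖cf d U κ b‖ ^ 2 ≤ B ^ 2 := by
  have hl : ((d : ℝ) + 1) * Real.log 2 < per d := by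
    have := log_add_one_le_per d
    linarith
  have key := circ_norm (L0_pos d) hl (H_cont (U := U) hb).continuousOn
  have e1 : (fun κ : ℤ => ‖cf d U κ b‖ ^ 2) =
      (fun κ : ℤ => ‖hc (per d) (((d : ℝ) + 1) * Real.log 2) (fun v => b (U * Real.exp v)) κ‖ ^ 2) := by
    funext κ
    rw [cf_eq_hc d hU κ hb]
  rw [e1]
  refine ⟨key.summable, ?_⟩
  rw [key.tsum_eq]
  have hpp := per_pos d
  have hi : ∫ v in (0 : ℝ)..((d : ℝ) + 1) * Real.log 2, ‖b (U * Real.exp v)‖ ^ 2 ≤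
      ∫ _ in (0 : ℝ)..((d : ℝ) + 1) * Real.log 2, B ^ 2 := by
    refine intervalIntegral.integral_mono_on (L0_pos d).le ?_ ?_ ?_
    · exact (((H_cont (U := U) hb).norm).pow 2).intervalIntegrable _ _
    · exact continuous_const.intervalIntegrable _ _
    · intro v _
      exact pow_le_pow_left₀ (norm_nonneg _) (hB _) 2
  rw [intervalIntegral.integral_const, smul_eq_mul, sub_zero] at hi
  have hB2 : 0 ≤ B ^ 2 := sq_nonneg B
  calc (per d)⁻¹ * ∫ v in (0 : ℝ)..((d : ℝ) + 1) * Real.log 2, ‖b (U * Real.exp v)‖ ^ 2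
      ≤ (per d)⁻¹ * (((d : ℝ) + 1) * Real.log 2 * B ^ 2) :=
        mul_le_mul_of_nonneg_left hi (by positivity)
    _ ≤ (per d)⁻¹ * (per d * B ^ 2) := by
        refine mul_le_mul_of_nonneg_left ?_ (by positivity)
        exact mul_le_mul_of_nonneg_right hl.le hB2
    _ = B ^ 2 := by rw [← mul_assoc, inv_mul_cancel₀ hpp.ne', one_mul]

private theorem norm_exp_sub_one_sq (x : ℝ) : ‖Complex.exp ((x : ℂ) * Complex.I) - 1‖ ^ 2 = 2 - 2 * Real.cos x := by
  rw [Complex.exp_mul_I, ← Complex.ofReal_cos, ← Complex.ofReal_sin]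
  rw [← Complex.normSq_eq_norm_sq, Complex.normSq_apply]
  simp only [Complex.sub_re, Complex.add_re, Complex.ofReal_re, Complex.mul_re, Complex.I_re, mul_zero,
    Complex.ofReal_im, Complex.I_im, mul_one, sub_self, add_zero, Complex.one_re, Complex.sub_im,
    Complex.add_im, Complex.mul_im, zero_add, Complex.one_im, sub_zero]
  nlinarith [Real.sin_sq_add_cos_sq x]

private theorem avg_ge {θ δ0 : ℝ} (h0 : 0 < δ0) (hθ : 2 ≤ |θ * δ0|) :
    δ0 ≤ ∫ δ in (0 : ℝ)..δ0, ‖Complex.exp (((θ * δ : ℝ) : ℂ) * Complex.I) - 1‖ ^ 2 := by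
  have hθ0 : θ ≠ 0 := by
    rintro rfl
    simp at hθ
    linarith
  have e : ∫ δ in (0 : ℝ)..δ0, ‖Complex.exp (((θ * δ : ℝ) : ℂ) * Complex.I) - 1‖ ^ 2 =
      2 * δ0 - 2 * (Real.sin (θ * δ0) / θ) := by
    simp only [norm_exp_sub_one_sq]
    rw [intervalIntegral.integral_sub (continuous_const.intervalIntegrable _ _)
      ((by fun_prop : Continuous fun δ : ℝ => 2 * Real.cos (θ * δ)).intervalIntegrable _ _)]
    rw [intervalIntegral.integral_const, intervalIntegral.integral_const_mul,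
      intervalIntegral.integral_comp_mul_left (fun x => Real.cos x) hθ0, integral_cos]
    simp only [smul_eq_mul, mul_zero, Real.sin_zero, sub_zero]
    field_simp
  rw [e]
  have hs : |Real.sin (θ * δ0) / θ| ≤ δ0 / 2 := by
    rw [abs_div, div_le_div_iff₀ (abs_pos.2 hθ0) (by norm_num)]
    have h1 : |Real.sin (θ * δ0)| ≤ 1 := Real.abs_sin_le_one _
    rw [abs_mul, abs_of_pos h0] at hθ
    nlinarith
  have := (abs_le.1 hs).2
  linarith

theorem pars_tail (d : ℕ) : ∃ C : ℝ, 0 < C ∧ ∀ (U : ℝ), 0 < U → ∀ (b : ℝ → ℂ) (B L : ℝ), Continuous b →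
    (∀ t, ‖b t‖ ≤ B) → (∀ s t, ‖b s - b t‖ ≤ L * |s - t|) → ∀ K : ℝ, per d ≤ K → ∀ Q : Finset ℤ,
    (∀ κ ∈ Q, K ≤ |(κ : ℝ)|) → ∑ κ ∈ Q, ‖cf d U κ b‖ ^ 2 ≤ C * (L ^ 2 * U ^ 2 / K ^ 2 + B ^ 2 / K) := by
  set L0 : ℝ := ((d : ℝ) + 1) * Real.log 2 with hL0
  have hL0p : 0 < L0 := L0_pos d
  have hpp := per_pos d
  refine ⟨per d * L0 ^ 3 * (4 ^ (d + 1)) ^ 2 + L0, by positivity, ?_⟩
  intro U hU b B L hb hB hL K hK Q hQ
  have hK0 : 0 < K := lt_of_lt_of_le hpp hK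
  set δ0 : ℝ := L0 * per d / (2 * K) with hδ0
  have hδ0p : 0 < δ0 := by positivity
  have hδ0l : δ0 ≤ L0 / 2 := by
    rw [hδ0, div_le_div_iff₀ (by positivity) (by norm_num)]
    nlinarith
  have hgap : L0 / 2 ≤ per d - L0 := by
    have h1 : L0 ≤ ((d : ℝ) + 1) * 1 := by
      rw [hL0]
      refine mul_le_mul_of_nonneg_left ?_ (by positivity)
      have := Real.log_two_lt_d9
      linarith
    have h2 : (0 : ℝ) ≤ d := Nat.cast_nonneg d
    unfold per
    nlinarith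
  set H : ℝ → ℂ := fun v => b (U * Real.exp v) with hH
  have hHc : Continuous H := H_cont hb
  -- the bound for one shift
  have shift : ∀ δ : ℝ, 0 < δ → δ ≤ δ0 →
      ∑ κ ∈ Q, ‖cf d U κ b‖ ^ 2 * ‖Complex.exp (((om d * κ * δ : ℝ) : ℂ) * Complex.I) - 1‖ ^ 2 ≤
        (per d)⁻¹ * (L0 * (L ^ 2 * (U * (4 ^ (d + 1) * δ0)) ^ 2) + 2 * δ0 * B ^ 2) := by
    intro δ hδ hδ1
    have hδL : δ ≤ L0 := by linarith
    obtain ⟨hs, hb2⟩ := circ_shift (ℓ := per d) hL0p hHc.continuousOn (C := B) (fun v _ => hB _) hδ hδL (by linarith)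
    have h1 : ∑ κ ∈ Q, ‖cf d U κ b‖ ^ 2 * ‖Complex.exp (((om d * κ * δ : ℝ) : ℂ) * Complex.I) - 1‖ ^ 2 ≤
        ∑' κ : ℤ, ‖hc (per d) L0 H κ‖ ^ 2 *
          ‖Complex.exp (((2 * Real.pi / per d * κ * δ : ℝ) : ℂ) * Complex.I) - 1‖ ^ 2 := by
      refine le_trans (le_of_eq ?_) (hs.sum_le_tsum Q fun κ _ => by positivity)
      refine Finset.sum_congr rfl fun κ _ => ?_
      rw [cf_eq_hc d hU κ hb]
      rfl
    refine h1.trans (hb2.trans ?_)
    refine mul_le_mul_of_nonneg_left ?_ (by positivity)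
    have hint : ∫ v in (0 : ℝ)..(L0 - δ), ‖H (v + δ) - H v‖ ^ 2 ≤
        ∫ _ in (0 : ℝ)..(L0 - δ), L ^ 2 * (U * (4 ^ (d + 1) * δ0)) ^ 2 := by
      refine intervalIntegral.integral_mono_on (by linarith) ?_ (continuous_const.intervalIntegrable _ _) ?_
      · exact (by fun_prop : Continuous fun v : ℝ => ‖H (v + δ) - H v‖ ^ 2).intervalIntegrable _ _
      · intro v hv
        have hLn : ‖H (v + δ) - H v‖ ≤ L * |U * Real.exp (v + δ) - U * Real.exp v| := hL _ _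
        have h2 : ‖H (v + δ) - H v‖ ^ 2 ≤ (L * |U * Real.exp (v + δ) - U * Real.exp v|) ^ 2 :=
          pow_le_pow_left₀ (norm_nonneg _) hLn 2
        refine h2.trans ?_
        rw [mul_pow]
        refine mul_le_mul_of_nonneg_left ?_ (sq_nonneg L)
        refine pow_le_pow_left₀ (abs_nonneg _) ?_ 2
        have h3 : U * Real.exp (v + δ) - U * Real.exp v = U * (Real.exp v * (Real.exp δ - 1)) := by
          rw [Real.exp_add]; ring
        have h4 : 0 ≤ Real.exp δ - 1 := by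
          have := Real.add_one_le_exp δ
          linarith
        have h5 : Real.exp δ - 1 ≤ Real.exp δ * δ := by
          have := Real.add_one_le_exp (-δ)
          have e : Real.exp δ * Real.exp (-δ) = 1 := by rw [← Real.exp_add, add_neg_cancel, Real.exp_zero]
          have := mul_le_mul_of_nonneg_left this (Real.exp_pos δ).le
          rw [e] at this
          nlinarith
        have h6 : Real.exp v ≤ 2 ^ (d + 1) := by
          rw [← exp_L0 d]
          exact Real.exp_le_exp.2 (by have := hv.2; linarith)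
        have h7 : Real.exp δ ≤ 2 ^ (d + 1) := by
          rw [← exp_L0 d]
          exact Real.exp_le_exp.2 hδL
        rw [h3, abs_of_nonneg (mul_nonneg hU.le (mul_nonneg (Real.exp_pos v).le h4))]
        refine mul_le_mul_of_nonneg_left ?_ hU.le
        calc Real.exp v * (Real.exp δ - 1) ≤ 2 ^ (d + 1) * (2 ^ (d + 1) * δ0) := by
              refine mul_le_mul h6 (h5.trans ?_) h4 (by positivity)
              exact mul_le_mul h7 hδ1 hδ.le (by positivity)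
          _ = 4 ^ (d + 1) * δ0 := by
              rw [← mul_assoc, ← mul_pow]; norm_num
    rw [intervalIntegral.integral_const, smul_eq_mul, sub_zero] at hint
    have hM : 0 ≤ L ^ 2 * (U * (4 ^ (d + 1) * δ0)) ^ 2 := by positivity
    have : (L0 - δ) * (L ^ 2 * (U * (4 ^ (d + 1) * δ0)) ^ 2) ≤ L0 * (L ^ 2 * (U * (4 ^ (d + 1) * δ0)) ^ 2) :=
      mul_le_mul_of_nonneg_right (by linarith) hM
    have hB2 : 2 * δ * B ^ 2 ≤ 2 * δ0 * B ^ 2 :=
      mul_le_mul_of_nonneg_right (by linarith) (sq_nonneg B)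
    linarith
  -- averaging
  have hcontκ : ∀ κ : ℤ, Continuous fun δ : ℝ => ‖cf d U κ b‖ ^ 2 *
      ‖Complex.exp (((om d * κ * δ : ℝ) : ℂ) * Complex.I) - 1‖ ^ 2 := by
    intro κ
    fun_prop
  have havg : δ0 * ∑ κ ∈ Q, ‖cf d U κ b‖ ^ 2 ≤ ∫ δ in (0 : ℝ)..δ0, ∑ κ ∈ Q, ‖cf d U κ b‖ ^ 2 *
      ‖Complex.exp (((om d * κ * δ : ℝ) : ℂ) * Complex.I) - 1‖ ^ 2 := by
    rw [intervalIntegral.integral_finsetSum fun κ _ => (hcontκ κ).intervalIntegrable _ _, Finset.mul_sum]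
    refine Finset.sum_le_sum fun κ hκ => ?_
    rw [intervalIntegral.integral_const_mul, mul_comm]
    refine mul_le_mul_of_nonneg_left ?_ (sq_nonneg _)
    refine avg_ge hδ0p ?_
    have hkK := hQ κ hκ
    have hom := om_mul_per d
    have homp := om_pos d
    rw [abs_mul, abs_mul, abs_of_pos homp, abs_of_pos hδ0p]
    have e : om d * K * δ0 = Real.pi * L0 := by
      rw [hδ0]
      have : om d * K * (L0 * per d / (2 * K)) = (om d * per d) * L0 / 2 := by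
        field_simp
      rw [this, hom]
      ring
    have h2 : om d * K * δ0 ≤ om d * |(κ : ℝ)| * δ0 :=
      mul_le_mul_of_nonneg_right (mul_le_mul_of_nonneg_left hkK homp.le) hδ0p.le
    rw [e] at h2
    refine le_trans ?_ h2
    have h3 : (0.69 : ℝ) ≤ L0 := by
      have h1 := Real.log_two_gt_d9
      have h2 : (0 : ℝ) ≤ d := Nat.cast_nonneg d
      rw [hL0]
      nlinarith
    have h4 := Real.pi_gt_d2
    nlinarith
  have hup : ∫ δ in (0 : ℝ)..δ0, ∑ κ ∈ Q, ‖cf d U κ b‖ ^ 2 *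
      ‖Complex.exp (((om d * κ * δ : ℝ) : ℂ) * Complex.I) - 1‖ ^ 2 ≤
      ∫ _ in (0 : ℝ)..δ0, (per d)⁻¹ * (L0 * (L ^ 2 * (U * (4 ^ (d + 1) * δ0)) ^ 2) + 2 * δ0 * B ^ 2) := by
    refine intervalIntegral.integral_mono_on_of_le_Ioo hδ0p.le ?_ (continuous_const.intervalIntegrable _ _) ?_
    · exact (continuous_finsetSum _ fun κ _ => hcontκ κ).intervalIntegrable _ _
    · intro δ hδ
      exact shift δ hδ.1 hδ.2.le
  rw [intervalIntegral.integral_const, smul_eq_mul, sub_zero] at hup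
  have hfin := le_of_mul_le_mul_left (havg.trans hup) hδ0p
  refine hfin.trans ?_
  have e1 : (per d)⁻¹ * (L0 * (L ^ 2 * (U * (4 ^ (d + 1) * δ0)) ^ 2) + 2 * δ0 * B ^ 2) =
      (per d * L0 ^ 3 * (4 ^ (d + 1)) ^ 2 / 4) * (L ^ 2 * U ^ 2 / K ^ 2) + L0 * (B ^ 2 / K) := by
    rw [hδ0]
    field_simp
    ring
  rw [e1]
  have hx : 0 ≤ L ^ 2 * U ^ 2 / K ^ 2 := by positivity
  have hy : 0 ≤ B ^ 2 / K := by positivity
  have hz : 0 ≤ per d * L0 ^ 3 * (4 ^ (d + 1)) ^ 2 := by positivity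
  nlinarith [mul_nonneg hz hx, mul_nonneg hz hy, mul_nonneg hL0p.le hx]

end Pool.Agent.GT
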