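import Mathlib
import Pool.Agent.GT.Defs
import Pool.Agent.Sps.DivB

/-!
# GT/Sieve: large sieve for the frequencies `log m`, and its power

`e(θ) = exp(2πiθ)`.

* `sieve_gen`.  `Y ≥ 1`, `τ > 0`, integers `m_i ∈ [Y, P Y]` (`i ∈ s`, each value taken at most `r` times), `τ log P ≤ 1/2`, `θ_i = τ log(m_i/Y) ∈ [0, 1/2]`, `|a_i| ≤ 1`,
  `S(κ) = ∑_i a_i e(κ θ_i)`.  For `Q ≥ 1`: `∑_{j,j' < Q} |S(j - j')|² = ∑_{i,i'} a_i conj(a_i') |∑_{j<Q} e(j(θ_i - θ_i'))|²` and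
  `|∑_{j<Q} e(jθ)|² ≤ min(Q², 1/(4θ²))` for `0 < |θ| ≤ 1/2` (`|1 - e(θ)| = 2|sin πθ| ≥ 4|θ|`).  `|θ_i - θ_i'| ≥ σ |m_i - m_i'|`, `σ = τ/(PY)`, so for each `i`
  `∑_{i'} min(..) ≤ r ∑_{z ∈ ℤ} min(Q², 1/(4σ²z²)) ≤ r (Q² + 6 Q/σ)` (`∑_{z ≥ 1} min(1, 1/(xz)²) ≤ 3/x`).  Every `|κ| ≤ Q/2` occurs at least `Q/2` times among the
  differences `j - j'`, hence `∑_{|κ| ≤ K} |S(κ)|² ≤ C r #s (K + Y)` with `Q = 2K + 1`, `C = C(τ, P)`.
* `sieve_one`: `DD d N I a κ = S(κ)` with `Y = N`, `τ = d/per d`, `P = 2` (`τ log 2 ≤ 1/2`), `r = 1`, `#s ≤ N + 1`, `K = N`.  (`d = 0` is allowed but useless; assume `1 ≤ d`.)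
* `sieve_pow`: `DD(κ)^(d+1) = ∑_{p ∈ I^(d+1)} ∏ a_{p_i} e(κ τ log(∏ p_i / N^(d+1)))` (`Finset.prod_univ_sum`), `Y = N^(d+1)`, `P = 2^(d+1)`,
  `τ log P = d (d+1) log 2 / (2 (d+1)²) ≤ 1/2`; the number of tuples with product `m` is at most `(card divisors m)^(d+1) ≤ C_ε N^ε`
  (`m ≤ (2N)^(d+1)`; divisor bound `Pool.Agent.Sps` `card_divisors_le` in `Pool/Agent/Sps/DivB.lean`, or `Pool/Agent/ZD/Div.lean`), `#s ≤ (N+1)^(d+1)`, `K = N^(d+1)`.
-/

namespace Pool.Agent.GT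

namespace Sieve

open Finset

/-- the weight `2 Q² / (1 + (2 Q σ z)²)` -/
noncomputable def FF (Q σ : ℝ) (z : ℝ) : ℝ := 2 * Q ^ 2 / (1 + (2 * Q * σ * z) ^ 2)

lemma FF_nonneg (Q σ z : ℝ) : 0 ≤ FF Q σ z := by unfold FF; positivity

lemma FF_neg (Q σ z : ℝ) : FF Q σ (-z) = FF Q σ z := by unfold FF; congr 2; ring

lemma arctan_step {y x : ℝ} (hx : 0 ≤ x) (hxy : x ≤ y) :
    x / (1 + y ^ 2) ≤ Real.arctan y - Real.arctan (y - x) := by
  have h := Convex.mul_sub_le_image_sub_of_le_deriv (D := Set.Icc (y - x) y) (f := Real.arctan)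
    (convex_Icc _ _) Real.continuous_arctan.continuousOn Real.differentiable_arctan.differentiableOn
    (C := 1 / (1 + y ^ 2)) (fun t ht => by
      rw [interior_Icc] at ht
      rw [Real.deriv_arctan]
      have h0 : 0 ≤ t := by linarith [ht.1]
      have h1 : t ^ 2 ≤ y ^ 2 := pow_le_pow_left₀ h0 ht.2.le 2
      exact one_div_le_one_div_of_le (by positivity) (by linarith))
    (y - x) (Set.left_mem_Icc.2 (by linarith)) y (Set.right_mem_Icc.2 (by linarith)) (by linarith)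
  have e : 1 / (1 + y ^ 2) * (y - (y - x)) = x / (1 + y ^ 2) := by ring
  rw [e] at h
  exact h

lemma sum_pos {Q σ : ℝ} (hQ : 0 < Q) (hσ : 0 < σ) (W : ℕ) :
    ∑ k ∈ range W, FF Q σ ((k : ℝ) + 1) ≤ Q / σ * Real.arctan (2 * Q * σ * W) := by
  have hx : 0 < 2 * Q * σ := by positivity
  induction W with
  | zero => simp
  | succ W ih =>
    rw [sum_range_succ]
    have h := arctan_step (y := 2 * Q * σ * ((W : ℝ) + 1)) (x := 2 * Q * σ) hx.le (by
      have : (0 : ℝ) ≤ W := Nat.cast_nonneg W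
      nlinarith)
    have e : 2 * Q * σ * ((W : ℝ) + 1) - 2 * Q * σ = 2 * Q * σ * W := by ring
    rw [e] at h
    have h2 : FF Q σ ((W : ℝ) + 1) = Q / σ * (2 * Q * σ / (1 + (2 * Q * σ * ((W : ℝ) + 1)) ^ 2)) := by
      unfold FF
      field_simp
    rw [h2]
    push_cast
    have h3 := mul_le_mul_of_nonneg_left h (by positivity : 0 ≤ Q / σ)
    nlinarith

lemma sum_Icc_split (f : ℤ → ℝ) (W : ℕ) :
    ∑ z ∈ Icc (-(W : ℤ)) W, f z = f 0 + ∑ k ∈ range W, (f ((k : ℤ) + 1) + f (-((k : ℤ) + 1))) := by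
  induction W with
  | zero => simp
  | succ W ih =>
    have e : Icc (-((W + 1 : ℕ) : ℤ)) ((W + 1 : ℕ) : ℤ) =
        insert ((W : ℤ) + 1) (insert (-((W : ℤ) + 1)) (Icc (-(W : ℤ)) W)) := by
      ext z
      simp only [mem_Icc, mem_insert, Nat.cast_add, Nat.cast_one]
      omega
    rw [e, sum_insert, sum_insert, ih, sum_range_succ]
    · ring
    · simp only [mem_Icc, not_and, not_le]; intro h; omega
    · simp only [mem_insert, mem_Icc, not_or, not_and, not_le]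
      refine ⟨by omega, fun h => by omega⟩

lemma sum_int {Q σ : ℝ} (hQ : 0 < Q) (hσ : 0 < σ) (T : Finset ℤ) :
    ∑ z ∈ T, FF Q σ (z : ℝ) ≤ 2 * Q ^ 2 + Real.pi * Q / σ := by
  obtain ⟨W, hW⟩ : ∃ W : ℕ, T ⊆ Icc (-(W : ℤ)) W := by
    refine ⟨∑ z ∈ T, z.natAbs, fun z hz => ?_⟩
    have h1 : z.natAbs ≤ ∑ z ∈ T, z.natAbs := single_le_sum (f := fun z : ℤ => z.natAbs) (fun i _ => Nat.zero_le _) hz
    rw [mem_Icc]
    omega
  calc ∑ z ∈ T, FF Q σ (z : ℝ) ≤ ∑ z ∈ Icc (-(W : ℤ)) W, FF Q σ (z : ℝ) :=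
        sum_le_sum_of_subset_of_nonneg hW (fun i _ _ => FF_nonneg _ _ _)
    _ = 2 * Q ^ 2 + 2 * ∑ k ∈ range W, FF Q σ ((k : ℝ) + 1) := by
        rw [sum_Icc_split (fun z : ℤ => FF Q σ (z : ℝ)), mul_sum]
        congr 1
        · simp [FF]
        · refine sum_congr rfl fun k _ => ?_
          push_cast
          rw [FF_neg]
          ring
    _ ≤ 2 * Q ^ 2 + 2 * (Q / σ * Real.arctan (2 * Q * σ * W)) := by
        have := sum_pos hQ hσ W
        linarith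
    _ ≤ 2 * Q ^ 2 + Real.pi * Q / σ := by
        have h1 : Real.arctan (2 * Q * σ * W) ≤ Real.pi / 2 := (Real.arctan_lt_pi_div_two _).le
        have h2 := mul_le_mul_of_nonneg_left h1 (by positivity : 0 ≤ Q / σ)
        have h3 : Real.pi * Q / σ = 2 * (Q / σ * (Real.pi / 2)) := by ring
        rw [h3]
        linarith

/-- the character `exp(2πi κ θ)` -/
noncomputable def ee (t : ℝ) : ℂ := Complex.exp (((2 * Real.pi * t : ℝ) : ℂ) * Complex.I)

lemma norm_ee (t : ℝ) : ‖ee t‖ = 1 := by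
  unfold ee
  exact Complex.norm_exp_ofReal_mul_I _

lemma ee_add (s t : ℝ) : ee (s + t) = ee s * ee t := by
  unfold ee
  rw [← Complex.exp_add]
  congr 1
  push_cast
  ring

lemma ee_conj (t : ℝ) : (starRingEnd ℂ) (ee t) = ee (-t) := by
  unfold ee
  rw [← Complex.exp_conj]
  congr 1
  simp only [map_mul, Complex.conj_ofReal, Complex.conj_I]
  push_cast
  ring

lemma ee_nat_mul (n : ℕ) (t : ℝ) : ee (n * t) = ee t ^ n := by
  unfold ee
  rw [← Complex.exp_nat_mul]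
  congr 1
  push_cast
  ring

lemma norm_one_sub_ee {t : ℝ} (ht : |t| ≤ 1 / 2) : 4 * |t| ≤ ‖1 - ee t‖ := by
  have h1 : ‖1 - ee t‖ = 2 * |Real.sin (Real.pi * t)| := by
    rw [norm_sub_rev]
    unfold ee
    rw [mul_comm, Complex.norm_exp_I_mul_ofReal_sub_one]
    rw [Real.norm_eq_abs, abs_mul, abs_of_pos (by norm_num : (0 : ℝ) < 2)]
    congr 3
    ring
  rw [h1]
  have h2 : 2 * |t| ≤ |Real.sin (Real.pi * t)| := by
    have h3 := Real.mul_le_sin (x := Real.pi * |t|) (by positivity) (by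
      have := Real.pi_pos
      nlinarith)
    have h4 : 2 / Real.pi * (Real.pi * |t|) = 2 * |t| := by
      field_simp
    rw [h4] at h3
    rcases le_total 0 t with h | h
    · rw [abs_of_nonneg h] at h3 ⊢
      exact h3.trans (le_abs_self _)
    · rw [abs_of_nonpos h] at h3 ⊢
      have : Real.sin (Real.pi * -t) = - Real.sin (Real.pi * t) := by
        rw [mul_neg, Real.sin_neg]
      rw [this] at h3
      exact h3.trans (neg_le_abs _)
  linarith

/-- the geometric sum -/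
noncomputable def GG (Q : ℕ) (t : ℝ) : ℂ := ∑ j ∈ range Q, ee (j * t)

lemma GG_le {Q : ℕ} (hQ : 1 ≤ Q) {t u : ℝ} (ht : |t| ≤ 1 / 2) (hu : 0 ≤ u) (hut : u ≤ |t|) :
    ‖GG Q t‖ ^ 2 ≤ 2 * (Q : ℝ) ^ 2 / (1 + (2 * Q * u) ^ 2) := by
  have hQ0 : (0 : ℝ) < Q := by exact_mod_cast hQ
  have h1 : ‖GG Q t‖ ≤ Q := by
    unfold GG
    refine (norm_sum_le _ _).trans ?_
    rw [sum_congr rfl (fun j _ => norm_ee _)]
    simp
  have h2 : ‖GG Q t‖ * (2 * |t|) ≤ 1 := by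
    have e : GG Q t * (1 - ee t) = 1 - ee t ^ Q := by
      unfold GG
      rw [sum_congr rfl (fun j _ => ee_nat_mul j t)]
      have := geom_sum_mul (ee t) Q
      linear_combination -this
    have h3 : ‖GG Q t‖ * ‖1 - ee t‖ ≤ 2 := by
      rw [← norm_mul, e]
      refine (norm_sub_le _ _).trans ?_
      rw [norm_pow, norm_ee, one_pow, norm_one]
      norm_num
    have h4 := norm_one_sub_ee ht
    have h5 := mul_le_mul_of_nonneg_left h4 (norm_nonneg (GG Q t))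
    linarith
  have h3 : ‖GG Q t‖ * (2 * u) ≤ 1 := by
    refine le_trans ?_ h2
    exact mul_le_mul_of_nonneg_left (by linarith) (norm_nonneg _)
  rw [le_div_iff₀ (by positivity)]
  have h4 : ‖GG Q t‖ ^ 2 ≤ (Q : ℝ) ^ 2 := pow_le_pow_left₀ (norm_nonneg _) h1 2
  have h5 : (‖GG Q t‖ * (2 * u)) ^ 2 ≤ 1 := by
    have := pow_le_pow_left₀ (by positivity) h3 2
    simpa using this
  have h6 : ‖GG Q t‖ ^ 2 * (2 * Q * u) ^ 2 = (Q : ℝ) ^ 2 * (‖GG Q t‖ * (2 * u)) ^ 2 := by ring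
  have h7 : (Q : ℝ) ^ 2 * (‖GG Q t‖ * (2 * u)) ^ 2 ≤ (Q : ℝ) ^ 2 * 1 := mul_le_mul_of_nonneg_left h5 (by positivity)
  nlinarith

variable {ι : Type*} [DecidableEq ι]

/-- the exponential sum -/
noncomputable def SS (s : Finset ι) (θ : ι → ℝ) (a : ι → ℂ) (κ : ℝ) : ℂ := ∑ i ∈ s, a i * ee (κ * θ i)

lemma normSq_SS (s : Finset ι) (θ : ι → ℝ) (a : ι → ℂ) (κ : ℝ) :
    ((‖SS s θ a κ‖ ^ 2 : ℝ) : ℂ) = ∑ i ∈ s, ∑ j ∈ s, a i * (starRingEnd ℂ) (a j) * ee (κ * (θ i - θ j)) := by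
  have h1 : ((‖SS s θ a κ‖ ^ 2 : ℝ) : ℂ) = SS s θ a κ * (starRingEnd ℂ) (SS s θ a κ) := by
    rw [Complex.mul_conj, Complex.normSq_eq_norm_sq]
  rw [h1]
  unfold SS
  rw [map_sum, sum_mul_sum]
  refine sum_congr rfl fun i _ => sum_congr rfl fun j _ => ?_
  rw [map_mul, ee_conj]
  have : κ * (θ i - θ j) = κ * θ i + -(κ * θ j) := by ring
  rw [this, ee_add]
  ring

lemma double_sum (s : Finset ι) (θ : ι → ℝ) (a : ι → ℂ) (Q : ℕ) :
    ((∑ j ∈ range Q, ∑ k ∈ range Q, ‖SS s θ a ((j : ℝ) - k)‖ ^ 2 : ℝ) : ℂ) =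
      ∑ i ∈ s, ∑ i' ∈ s, a i * (starRingEnd ℂ) (a i') * ((‖GG Q (θ i - θ i')‖ ^ 2 : ℝ) : ℂ) := by
  push_cast
  have h1 : ∀ j ∈ range Q, ∀ k ∈ range Q, ((‖SS s θ a ((j : ℝ) - k)‖ : ℂ)) ^ 2 =
      ∑ i ∈ s, ∑ i' ∈ s, a i * (starRingEnd ℂ) (a i') * ee (((j : ℝ) - k) * (θ i - θ i')) := by
    intro j _ k _
    have := normSq_SS s θ a ((j : ℝ) - k)
    push_cast at this
    exact this
  rw [sum_congr rfl fun j hj => sum_congr rfl fun k hk => h1 j hj k hk]
  have h2 : ∀ t : ℝ, ((‖GG Q t‖ : ℂ)) ^ 2 = ∑ j ∈ range Q, ∑ k ∈ range Q, ee (((j : ℝ) - k) * t) := by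
    intro t
    have e : ((‖GG Q t‖ : ℂ)) ^ 2 = GG Q t * (starRingEnd ℂ) (GG Q t) := by
      rw [Complex.mul_conj, Complex.normSq_eq_norm_sq]
      push_cast
      rfl
    rw [e]
    unfold GG
    rw [map_sum, sum_mul_sum]
    refine sum_congr rfl fun j _ => sum_congr rfl fun k _ => ?_
    rw [ee_conj, ← ee_add]
    congr 1
    ring
  have h3 : ∀ i ∈ s, ∀ i' ∈ s, a i * (starRingEnd ℂ) (a i') * ((‖GG Q (θ i - θ i')‖ : ℂ)) ^ 2 =
      ∑ j ∈ range Q, ∑ k ∈ range Q, a i * (starRingEnd ℂ) (a i') * ee (((j : ℝ) - k) * (θ i - θ i')) := by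
    intro i _ i' _
    rw [h2, mul_sum]
    refine sum_congr rfl fun j _ => ?_
    rw [mul_sum]
  rw [sum_congr rfl fun i hi => sum_congr rfl fun i' hi' => h3 i hi i' hi']
  -- exchange the sums
  calc ∑ j ∈ range Q, ∑ k ∈ range Q, ∑ i ∈ s, ∑ i' ∈ s,
        a i * (starRingEnd ℂ) (a i') * ee (((j : ℝ) - k) * (θ i - θ i'))
      = ∑ j ∈ range Q, ∑ i ∈ s, ∑ k ∈ range Q, ∑ i' ∈ s,
        a i * (starRingEnd ℂ) (a i') * ee (((j : ℝ) - k) * (θ i - θ i')) :=
        sum_congr rfl fun j _ => sum_comm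
    _ = ∑ i ∈ s, ∑ j ∈ range Q, ∑ k ∈ range Q, ∑ i' ∈ s,
        a i * (starRingEnd ℂ) (a i') * ee (((j : ℝ) - k) * (θ i - θ i')) := sum_comm
    _ = ∑ i ∈ s, ∑ j ∈ range Q, ∑ i' ∈ s, ∑ k ∈ range Q,
        a i * (starRingEnd ℂ) (a i') * ee (((j : ℝ) - k) * (θ i - θ i')) :=
        sum_congr rfl fun i _ => sum_congr rfl fun j _ => sum_comm
    _ = _ := sum_congr rfl fun i _ => sum_comm

lemma count_pairs (f : ℤ → ℝ) (hf : ∀ z, 0 ≤ f z) (K : ℕ) :
    ((K : ℝ) + 1) * ∑ z ∈ Icc (-(K : ℤ)) K, f z ≤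
      ∑ j ∈ range (2 * K + 1), ∑ k ∈ range (2 * K + 1), f ((j : ℤ) - k) := by
  have h1 : ∑ j ∈ range (2 * K + 1), ∑ k ∈ range (2 * K + 1), f ((j : ℤ) - k) =
      ∑ p ∈ range (2 * K + 1) ×ˢ range (2 * K + 1), f ((p.1 : ℤ) - p.2) := by
    rw [sum_product]
  rw [h1]
  -- injection `(z, t) ↦ (j, k)`, `z = j - k`, `t = min j k`
  have h2 : ((K : ℝ) + 1) * ∑ z ∈ Icc (-(K : ℤ)) K, f z =
      ∑ q ∈ Icc (-(K : ℤ)) K ×ˢ range (K + 1), f q.1 := by
    rw [sum_product, mul_sum]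
    refine sum_congr rfl fun z _ => ?_
    show ((K : ℝ) + 1) * f z = ∑ _y ∈ range (K + 1), f z
    rw [sum_const, card_range, nsmul_eq_mul]
    push_cast
    ring
  rw [h2]
  let φ : ℤ × ℕ → ℕ × ℕ := fun q => (q.1.toNat + q.2, (-q.1).toNat + q.2)
  have hinj : Set.InjOn φ (Icc (-(K : ℤ)) K ×ˢ range (K + 1) : Finset (ℤ × ℕ)) := by
    intro p hp q hq h
    simp only [φ, Prod.mk.injEq] at h
    obtain ⟨ha, hb⟩ := h
    ext
    · omega
    · omega
  calc ∑ q ∈ Icc (-(K : ℤ)) K ×ˢ range (K + 1), f q.1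
      = ∑ q ∈ Icc (-(K : ℤ)) K ×ˢ range (K + 1), f (((φ q).1 : ℤ) - ((φ q).2 : ℤ)) := by
        refine sum_congr rfl fun q _ => ?_
        congr 1
        simp only [φ]
        push_cast
        omega
    _ = ∑ p ∈ (Icc (-(K : ℤ)) K ×ˢ range (K + 1)).image φ, f ((p.1 : ℤ) - p.2) := by
        rw [sum_image hinj]
    _ ≤ ∑ p ∈ range (2 * K + 1) ×ˢ range (2 * K + 1), f ((p.1 : ℤ) - p.2) := by
        refine sum_le_sum_of_subset_of_nonneg ?_ (fun i _ _ => hf _)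
        intro p hp
        rw [mem_image] at hp
        obtain ⟨q, hq, rfl⟩ := hp
        rw [mem_product, mem_Icc, mem_range] at hq
        rw [mem_product, mem_range, mem_range]
        simp only [φ]
        omega

theorem sieve_gen (s : Finset ι) (θ : ι → ℝ) (m : ι → ℤ) (a : ι → ℂ) (σ r : ℝ) (hσ : 0 < σ)
    (hr : ∀ z : ℤ, ((s.filter (fun i => m i = z)).card : ℝ) ≤ r)
    (h1 : ∀ i ∈ s, ∀ j ∈ s, σ * |((m i - m j : ℤ) : ℝ)| ≤ |θ i - θ j|)
    (h2 : ∀ i ∈ s, ∀ j ∈ s, |θ i - θ j| ≤ 1 / 2) (ha : ∀ i ∈ s, ‖a i‖ ≤ 1) (K : ℕ) :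
    ∑ κ ∈ Icc (-(K : ℤ)) K, ‖SS s θ a κ‖ ^ 2 ≤ s.card * r * (8 * K + 4 + 2 * Real.pi / σ) := by
  have hr0 : 0 ≤ r := le_trans (Nat.cast_nonneg _) (hr 0)
  set Q : ℕ := 2 * K + 1 with hQ
  have hQ1 : 1 ≤ Q := by omega
  have hQ0 : (0 : ℝ) < Q := by exact_mod_cast hQ1
  have hA := count_pairs (fun z : ℤ => ‖SS s θ a z‖ ^ 2) (fun z => by positivity) K
  rw [← hQ] at hA
  have hB : ∑ j ∈ range Q, ∑ k ∈ range Q, ‖SS s θ a (((j : ℤ) - k : ℤ) : ℝ)‖ ^ 2 ≤
      s.card * (r * (2 * (Q : ℝ) ^ 2 + Real.pi * Q / σ)) := by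
    have e : ∑ j ∈ range Q, ∑ k ∈ range Q, ‖SS s θ a (((j : ℤ) - k : ℤ) : ℝ)‖ ^ 2 =
        ∑ j ∈ range Q, ∑ k ∈ range Q, ‖SS s θ a ((j : ℝ) - k)‖ ^ 2 := by
      refine sum_congr rfl fun j _ => sum_congr rfl fun k _ => ?_
      push_cast
      rfl
    rw [e]
    have hD := double_sum s θ a Q
    have h0 : (0 : ℝ) ≤ ∑ j ∈ range Q, ∑ k ∈ range Q, ‖SS s θ a ((j : ℝ) - k)‖ ^ 2 :=
      sum_nonneg fun j _ => sum_nonneg fun k _ => by positivity
    have hN : ∑ j ∈ range Q, ∑ k ∈ range Q, ‖SS s θ a ((j : ℝ) - k)‖ ^ 2 =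
        ‖((∑ j ∈ range Q, ∑ k ∈ range Q, ‖SS s θ a ((j : ℝ) - k)‖ ^ 2 : ℝ) : ℂ)‖ := by
      rw [Complex.norm_real, Real.norm_eq_abs, abs_of_nonneg h0]
    rw [hN, hD]
    calc ‖∑ i ∈ s, ∑ i' ∈ s, a i * (starRingEnd ℂ) (a i') * ((‖GG Q (θ i - θ i')‖ ^ 2 : ℝ) : ℂ)‖
        ≤ ∑ i ∈ s, ∑ i' ∈ s, FF Q σ ((m i - m i' : ℤ) : ℝ) := by
          refine (norm_sum_le _ _).trans (sum_le_sum fun i hi => ?_)
          refine (norm_sum_le _ _).trans (sum_le_sum fun i' hi' => ?_)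
          rw [norm_mul, norm_mul, RCLike.norm_conj, Complex.norm_real, Real.norm_eq_abs,
            abs_of_nonneg (by positivity : (0 : ℝ) ≤ ‖GG Q (θ i - θ i')‖ ^ 2)]
          have hg := GG_le hQ1 (t := θ i - θ i') (u := σ * |((m i - m i' : ℤ) : ℝ)|) (h2 i hi i' hi')
            (by positivity) (h1 i hi i' hi')
          have hF : 2 * (Q : ℝ) ^ 2 / (1 + (2 * Q * (σ * |((m i - m i' : ℤ) : ℝ)|)) ^ 2) =
              FF Q σ ((m i - m i' : ℤ) : ℝ) := by
            unfold FF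
            congr 2
            rw [mul_pow, mul_pow σ, sq_abs]
            ring
          rw [hF] at hg
          have hab : ‖a i‖ * ‖a i'‖ ≤ 1 := mul_le_one₀ (ha i hi) (norm_nonneg _) (ha i' hi')
          calc ‖a i‖ * ‖a i'‖ * ‖GG Q (θ i - θ i')‖ ^ 2 ≤ 1 * FF Q σ ((m i - m i' : ℤ) : ℝ) :=
                mul_le_mul hab hg (by positivity) zero_le_one
            _ = _ := one_mul _
      _ ≤ ∑ i ∈ s, r * (2 * (Q : ℝ) ^ 2 + Real.pi * Q / σ) := by
          refine sum_le_sum fun i hi => ?_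
          have e1 : ∑ i' ∈ s, FF Q σ ((m i - m i' : ℤ) : ℝ) =
              ∑ z ∈ s.image (fun i' => m i - m i'), ∑ i' ∈ s.filter (fun i' => m i - m i' = z),
                FF Q σ ((m i - m i' : ℤ) : ℝ) := by
            rw [sum_fiberwise_of_maps_to]
            intro i' hi'
            exact mem_image_of_mem _ hi'
          rw [e1]
          calc ∑ z ∈ s.image (fun i' => m i - m i'), ∑ i' ∈ s.filter (fun i' => m i - m i' = z),
                FF Q σ ((m i - m i' : ℤ) : ℝ)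
              ≤ ∑ z ∈ s.image (fun i' => m i - m i'), r * FF Q σ (z : ℝ) := by
                refine sum_le_sum fun z _ => ?_
                have e2 : ∑ i' ∈ s.filter (fun i' => m i - m i' = z), FF Q σ ((m i - m i' : ℤ) : ℝ) =
                    ((s.filter (fun i' => m i - m i' = z)).card : ℝ) * FF Q σ (z : ℝ) := by
                  rw [← nsmul_eq_mul, ← sum_const]
                  refine sum_congr rfl fun i' hi' => ?_
                  rw [(mem_filter.1 hi').2]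
                rw [e2]
                refine mul_le_mul_of_nonneg_right ?_ (FF_nonneg _ _ _)
                have e3 : s.filter (fun i' => m i - m i' = z) = s.filter (fun i' => m i' = m i - z) := by
                  refine filter_congr fun i' _ => ?_
                  omega
                rw [e3]
                exact hr _
            _ = r * ∑ z ∈ s.image (fun i' => m i - m i'), FF Q σ (z : ℝ) := by rw [mul_sum]
            _ ≤ r * (2 * (Q : ℝ) ^ 2 + Real.pi * Q / σ) :=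
                mul_le_mul_of_nonneg_left (sum_int hQ0 hσ _) hr0
      _ = s.card * (r * (2 * (Q : ℝ) ^ 2 + Real.pi * Q / σ)) := by
          rw [sum_const, nsmul_eq_mul]
  have hK0 : (0 : ℝ) < (K : ℝ) + 1 := by positivity
  have hC : ((K : ℝ) + 1) * ∑ κ ∈ Icc (-(K : ℤ)) K, ‖SS s θ a κ‖ ^ 2 ≤
      ((K : ℝ) + 1) * (s.card * r * (8 * K + 4 + 2 * Real.pi / σ)) := by
    refine (hA.trans hB).trans ?_
    have hq : (Q : ℝ) = 2 * K + 1 := by rw [hQ]; push_cast; ring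
    have hq2 : (Q : ℝ) ≤ 2 * ((K : ℝ) + 1) := by rw [hq]; linarith
    have e4 : ((K : ℝ) + 1) * (s.card * r * (8 * K + 4 + 2 * Real.pi / σ)) =
        s.card * (r * (2 * (K + 1) * (4 * K + 2) + Real.pi * (2 * (K + 1)) / σ)) := by ring
    rw [e4]
    refine mul_le_mul_of_nonneg_left ?_ (Nat.cast_nonneg _)
    refine mul_le_mul_of_nonneg_left ?_ hr0
    refine add_le_add ?_ ?_
    · rw [hq]
      have : (0 : ℝ) ≤ K := Nat.cast_nonneg K
      nlinarith
    · refine div_le_div_of_nonneg_right ?_ hσ.le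
      exact mul_le_mul_of_nonneg_left hq2 Real.pi_pos.le
  exact le_of_mul_le_mul_left hC hK0

/-- the factor `τ` -/
noncomputable def tt (d : ℕ) : ℝ := d / per d

lemma tt_pos {d : ℕ} (hd : 1 ≤ d) : 0 < tt d := div_pos (by exact_mod_cast hd) (per_pos d)

lemma tt_mul (d : ℕ) : tt d * ((d + 1) * Real.log 2) ≤ 1 / 2 := by
  unfold tt per
  have h : (0 : ℝ) ≤ d := Nat.cast_nonneg d
  have h2 : Real.log 2 ≤ 1 := by
    have := Real.log_two_lt_d9
    linarith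
  have h3 : (0 : ℝ) ≤ Real.log 2 := Real.log_nonneg (by norm_num)
  rw [div_mul_eq_mul_div, div_le_div_iff₀ (by positivity) (by norm_num)]
  nlinarith [mul_nonneg h h3, mul_nonneg h (sub_nonneg.2 h2), mul_nonneg (mul_nonneg h h) (sub_nonneg.2 h2)]

lemma ee_eq (d : ℕ) (κ : ℤ) (x : ℝ) :
    Complex.exp (((om d * κ * (d * x) : ℝ) : ℂ) * Complex.I) = ee (κ * (tt d * x)) := by
  unfold ee om tt
  congr 3
  ring

lemma log_diff {x y B : ℝ} (hx : 0 < x) (hy : 0 < y) (hxB : x ≤ B) (hyB : y ≤ B) :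
    |x - y| / B ≤ |Real.log x - Real.log y| := by
  have key : ∀ u v : ℝ, 0 < u → 0 < v → v ≤ u → u ≤ B → (u - v) / B ≤ Real.log u - Real.log v := by
    intro u v hu hv hvu huB
    have h1 := Real.one_sub_inv_le_log_of_pos (x := u / v) (by positivity)
    rw [Real.log_div hu.ne' hv.ne', inv_div] at h1
    have h2 : (u - v) / B ≤ (u - v) / u := div_le_div_of_nonneg_left (by linarith) hu huB
    have h3 : (u - v) / u = 1 - v / u := by field_simp
    linarith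
  rcases le_total y x with h | h
  · have := key x y hx hy h hxB
    rw [abs_of_nonneg (by linarith : 0 ≤ x - y)]
    exact this.trans (le_abs_self _)
  · have := key y x hy hx h hyB
    rw [abs_of_nonpos (by linarith : x - y ≤ 0), abs_sub_comm]
    have e : -(x - y) = y - x := by ring
    rw [e]
    exact this.trans (le_abs_self _)

end Sieve

open Sieve Finset

theorem sieve_one (d : ℕ) (hd : 1 ≤ d) : ∃ C : ℝ, 0 < C ∧ ∀ N : ℕ, 1 ≤ N → ∀ I : Finset ℕ,
    (∀ n ∈ I, N ≤ n ∧ n ≤ 2 * N) → ∀ a : ℕ → ℂ, (∀ n, ‖a n‖ ≤ 1) →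
    ∑ κ ∈ Finset.Icc (-(N : ℤ)) N, ‖DD d N I a κ‖ ^ 2 ≤ C * (N : ℝ) ^ 2 := by
  have hτ := tt_pos hd
  refine ⟨2 * (12 + 4 * Real.pi / tt d), by have := Real.pi_pos; positivity, fun N hN I hI a ha => ?_⟩
  have hN0 : (0 : ℝ) < N := by exact_mod_cast hN
  have hN1 : (1 : ℝ) ≤ N := by exact_mod_cast hN
  have hlog : ∀ n ∈ I, 0 ≤ Real.log (n / N) ∧ Real.log (n / N) ≤ Real.log 2 := by
    intro n hn
    obtain ⟨h1, h2⟩ := hI n hn
    have h1' : (N : ℝ) ≤ n := by exact_mod_cast h1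
    have h2' : (n : ℝ) ≤ 2 * N := by exact_mod_cast h2
    refine ⟨Real.log_nonneg ((one_le_div hN0).2 h1'), ?_⟩
    exact Real.log_le_log (div_pos (lt_of_lt_of_le hN0 h1') hN0) ((div_le_iff₀ hN0).2 h2')
  have hI0 : ∀ n ∈ I, (0 : ℝ) < n := fun n hn => lt_of_lt_of_le hN0 (by exact_mod_cast (hI n hn).1)
  have key := sieve_gen (ι := ℕ) I (fun n => tt d * Real.log (n / N)) (fun n => (n : ℤ)) a (tt d / (2 * N)) 1
    (by positivity) ?_ ?_ ?_ (fun i _ => ha i) N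
  · have e : ∀ κ ∈ Icc (-(N : ℤ)) N, ‖DD d N I a κ‖ ^ 2 =
        ‖SS I (fun n : ℕ => tt d * Real.log (n / N)) a κ‖ ^ 2 := by
      intro κ _
      congr 2
      unfold DD SS
      refine sum_congr rfl fun n _ => ?_
      rw [ee_eq]
    rw [sum_congr rfl e]
    refine key.trans ?_
    have hc : (I.card : ℝ) ≤ 2 * N := by
      have : I ⊆ Icc N (2 * N) := fun n hn => mem_Icc.2 (hI n hn)
      have h3 := card_le_card this
      rw [Nat.card_Icc] at h3
      have h4 : I.card ≤ 2 * N := by omega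
      exact_mod_cast h4
    have e2 : 2 * Real.pi / (tt d / (2 * N)) = 4 * Real.pi / tt d * N := by
      field_simp
      ring
    rw [e2, mul_one]
    have h5 : (0 : ℝ) ≤ 4 * Real.pi / tt d := by have := Real.pi_pos; positivity
    have h6 : (8 * (N : ℝ) + 4 + 4 * Real.pi / tt d * N) ≤ (12 + 4 * Real.pi / tt d) * N := by nlinarith
    calc (I.card : ℝ) * (8 * N + 4 + 4 * Real.pi / tt d * N) ≤ (2 * N) * ((12 + 4 * Real.pi / tt d) * N) :=
          mul_le_mul hc h6 (by positivity) (by positivity)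
      _ = _ := by ring
  · intro z
    have : (I.filter (fun i : ℕ => (i : ℤ) = z)).card ≤ 1 := by
      rw [card_le_one]
      intro x hx y hy
      have h1 := (mem_filter.1 hx).2
      have h2 := (mem_filter.1 hy).2
      omega
    exact_mod_cast this
  · intro i hi j hj
    have h1 := log_diff (hI0 i hi) (hI0 j hj) (B := 2 * N) (by exact_mod_cast (hI i hi).2)
      (by exact_mod_cast (hI j hj).2)
    have e : tt d * Real.log (i / N) - tt d * Real.log (j / N) = tt d * (Real.log i - Real.log j) := by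
      rw [Real.log_div (hI0 i hi).ne' hN0.ne', Real.log_div (hI0 j hj).ne' hN0.ne']
      ring
    rw [e, abs_mul, abs_of_pos hτ]
    push_cast
    calc tt d / (2 * N) * |(i : ℝ) - j| = tt d * (|(i : ℝ) - j| / (2 * N)) := by ring
      _ ≤ _ := mul_le_mul_of_nonneg_left h1 hτ.le
  · intro i hi j hj
    obtain ⟨a1, a2⟩ := hlog i hi
    obtain ⟨b1, b2⟩ := hlog j hj
    have hd0 : (0 : ℝ) ≤ d := Nat.cast_nonneg d
    have hm := tt_mul d
    have h3 : (0 : ℝ) ≤ Real.log 2 := Real.log_nonneg (by norm_num)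
    have h4 : tt d * Real.log 2 ≤ 1 / 2 := by
      refine le_trans ?_ hm
      refine mul_le_mul_of_nonneg_left ?_ hτ.le
      nlinarith
    have e : tt d * Real.log (i / N) - tt d * Real.log (j / N) =
        tt d * (Real.log (i / N) - Real.log (j / N)) := by ring
    rw [e, abs_mul, abs_of_pos hτ]
    refine le_trans (mul_le_mul_of_nonneg_left ?_ hτ.le) h4
    rw [abs_le]
    constructor <;> linarith

theorem sieve_pow (d : ℕ) (hd : 1 ≤ d) (ε : ℝ) (hε : 0 < ε) : ∃ C : ℝ, 0 < C ∧ ∀ N : ℕ, 1 ≤ N → ∀ I : Finset ℕ,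
    (∀ n ∈ I, N ≤ n ∧ n ≤ 2 * N) → ∀ a : ℕ → ℂ, (∀ n, ‖a n‖ ≤ 1) →
    ∑ κ ∈ Finset.Icc (-((N : ℤ) ^ (d + 1))) ((N : ℤ) ^ (d + 1)), ‖DD d N I a κ‖ ^ (2 * (d + 1)) ≤
      C * (N : ℝ) ^ (2 * (d + 1)) * (N : ℝ) ^ ε := by
  have hτ := tt_pos hd
  have hd0 : (0 : ℝ) ≤ d := Nat.cast_nonneg d
  set δ : ℝ := ε / ((d : ℝ) + 1) ^ 2 with hδ
  have hδ0 : 0 < δ := by positivity
  obtain ⟨C₀, hC₀1, hC₀⟩ := Pool.Sps.card_divisors_le δ hδ0
  have hC₀0 : 0 < C₀ := lt_of_lt_of_le one_pos hC₀1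
  -- the constant
  set C₁ : ℝ := (C₀ * ((2 : ℝ) ^ (d + 1)) ^ δ) ^ (d + 1) with hC₁
  have hC₁0 : 0 < C₁ := by positivity
  have hPi := Real.pi_pos
  refine ⟨2 ^ (d + 1) * C₁ * (12 + 2 * Real.pi * 2 ^ (d + 1) / tt d), by positivity, fun N hN I hI a ha => ?_⟩
  have hN0 : (0 : ℝ) < N := by exact_mod_cast hN
  have hN1 : (1 : ℝ) ≤ N := by exact_mod_cast hN
  have hI0 : ∀ n ∈ I, (0 : ℝ) < n := fun n hn => lt_of_lt_of_le hN0 (by exact_mod_cast (hI n hn).1)
  have hlog : ∀ n ∈ I, 0 ≤ Real.log (n / N) ∧ Real.log (n / N) ≤ Real.log 2 := by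
    intro n hn
    obtain ⟨h1, h2⟩ := hI n hn
    have h1' : (N : ℝ) ≤ n := by exact_mod_cast h1
    have h2' : (n : ℝ) ≤ 2 * N := by exact_mod_cast h2
    refine ⟨Real.log_nonneg ((one_le_div hN0).2 h1'), ?_⟩
    exact Real.log_le_log (div_pos (lt_of_lt_of_le hN0 h1') hN0) ((div_le_iff₀ hN0).2 h2')
  set s : Finset (Fin (d + 1) → ℕ) := Fintype.piFinset (fun _ => I) with hs
  set m : (Fin (d + 1) → ℕ) → ℕ := fun p => ∏ i, p i with hm
  set θ : (Fin (d + 1) → ℕ) → ℝ := fun p => ∑ i, tt d * Real.log (p i / N) with hθ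
  set b : (Fin (d + 1) → ℕ) → ℂ := fun p => ∏ i, a (p i) with hb
  have hmem : ∀ p ∈ s, ∀ i, p i ∈ I := fun p hp i => Fintype.mem_piFinset.1 hp i
  have hm1 : ∀ p ∈ s, (m p : ℝ) ≤ (2 * N) ^ (d + 1) := by
    intro p hp
    have : m p ≤ (2 * N) ^ (d + 1) := by
      rw [hm]
      calc ∏ i, p i ≤ ∏ _i : Fin (d + 1), (2 * N) := prod_le_prod (fun _ _ => Nat.zero_le _)
            (fun i _ => (hI _ (hmem p hp i)).2)
        _ = _ := by simp
    exact_mod_cast this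
  have hm0 : ∀ p ∈ s, 0 < m p := fun p hp => prod_pos fun i _ => by
    have := hI0 _ (hmem p hp i)
    exact_mod_cast this
  -- the power
  have hpow : ∀ κ : ℤ, ‖DD d N I a κ‖ ^ (2 * (d + 1)) = ‖SS s θ b κ‖ ^ 2 := by
    intro κ
    have e1 : DD d N I a κ ^ (d + 1) = SS s θ b κ := by
      have e2 : DD d N I a κ ^ (d + 1) = ∏ _i : Fin (d + 1), ∑ n ∈ I, a n * ee (κ * (tt d * Real.log (n / N))) := by
        rw [prod_const, card_univ, Fintype.card_fin]
        congr 1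
        unfold DD
        refine sum_congr rfl fun n _ => ?_
        rw [ee_eq]
      rw [e2, prod_univ_sum]
      unfold SS
      refine sum_congr rfl fun p _ => ?_
      rw [prod_mul_distrib]
      congr 1
      have e3 : ∀ (t : Finset (Fin (d + 1))), ∏ i ∈ t, ee (κ * (tt d * Real.log (p i / N))) =
          ee (κ * ∑ i ∈ t, tt d * Real.log (p i / N)) := by
        intro t
        induction t using Finset.induction_on with
        | empty => simp [ee]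
        | insert x t hx ih => rw [prod_insert hx, sum_insert hx, ih, mul_add, ee_add]
      exact e3 univ
    rw [← e1, norm_pow, ← pow_mul]
    congr 1
    ring
  rw [sum_congr rfl fun κ _ => hpow κ]
  have hθm : ∀ p ∈ s, θ p = tt d * (Real.log (m p) - (d + 1) * Real.log N) := by
    intro p hp
    rw [hθ, hm]
    simp only
    rw [← mul_sum]
    congr 1
    push_cast
    rw [Real.log_prod (fun i _ => (hI0 _ (hmem p hp i)).ne')]
    rw [sum_congr rfl fun i _ => Real.log_div (hI0 _ (hmem p hp i)).ne' hN0.ne', sum_sub_distrib]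
    simp
  set r : ℝ := C₁ * (N : ℝ) ^ ε with hr
  have hNε : (0 : ℝ) < (N : ℝ) ^ ε := Real.rpow_pos_of_pos hN0 _
  have key := sieve_gen (ι := Fin (d + 1) → ℕ) s θ (fun p => (m p : ℤ)) b (tt d / (2 * N) ^ (d + 1)) r
    (by positivity) ?_ ?_ ?_ ?_ (N ^ (d + 1))
  · have e : ((N ^ (d + 1) : ℕ) : ℤ) = (N : ℤ) ^ (d + 1) := by push_cast; rfl
    rw [e] at key
    refine key.trans ?_
    have hc : (s.card : ℝ) ≤ (2 * N) ^ (d + 1) := by
      have h0 : I.card ≤ 2 * N := by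
        have : I ⊆ Icc N (2 * N) := fun n hn => mem_Icc.2 (hI n hn)
        have h3 := card_le_card this
        rw [Nat.card_Icc] at h3
        omega
      have h1 : s.card = I.card ^ (d + 1) := by
        rw [hs, Fintype.card_piFinset]
        simp
      rw [h1]
      push_cast
      exact pow_le_pow_left₀ (Nat.cast_nonneg _) (by exact_mod_cast h0) _
    have hM0 : (0 : ℝ) < (N : ℝ) ^ (d + 1) := by positivity
    have hM1 : (1 : ℝ) ≤ (N : ℝ) ^ (d + 1) := one_le_pow₀ hN1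
    have e2 : 2 * Real.pi / (tt d / (2 * N) ^ (d + 1)) = 2 * Real.pi * 2 ^ (d + 1) / tt d * (N : ℝ) ^ (d + 1) := by
      rw [mul_pow]
      field_simp
    rw [e2]
    push_cast
    have h5 : (0 : ℝ) ≤ 2 * Real.pi * 2 ^ (d + 1) / tt d := by positivity
    have h6 : (8 * (N : ℝ) ^ (d + 1) + 4 + 2 * Real.pi * 2 ^ (d + 1) / tt d * (N : ℝ) ^ (d + 1)) ≤
        (12 + 2 * Real.pi * 2 ^ (d + 1) / tt d) * (N : ℝ) ^ (d + 1) := by nlinarith
    have hr0 : 0 ≤ r := by positivity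
    calc (s.card : ℝ) * r * (8 * (N : ℝ) ^ (d + 1) + 4 + 2 * Real.pi * 2 ^ (d + 1) / tt d * (N : ℝ) ^ (d + 1))
        ≤ ((2 * N) ^ (d + 1) * r) * ((12 + 2 * Real.pi * 2 ^ (d + 1) / tt d) * (N : ℝ) ^ (d + 1)) :=
          mul_le_mul (mul_le_mul_of_nonneg_right hc hr0) h6 (by positivity) (by positivity)
      _ = _ := by
          rw [hr, mul_pow, pow_mul]
          ring
  · -- the fibres
    intro z
    have hr1 : 0 ≤ r := by positivity
    by_cases hz : ∃ p ∈ s, (m p : ℤ) = z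
    · obtain ⟨p₀, hp₀, hz0⟩ := hz
      have hz1 : ∀ p ∈ s.filter (fun p => (m p : ℤ) = z), p ∈ Fintype.piFinset (fun _ : Fin (d + 1) => (m p₀).divisors) := by
        intro p hp
        rw [mem_filter] at hp
        rw [Fintype.mem_piFinset]
        intro i
        rw [Nat.mem_divisors]
        refine ⟨?_, (hm0 p₀ hp₀).ne'⟩
        have : m p = m p₀ := by
          have := hp.2.trans hz0.symm
          exact_mod_cast this
        rw [← this]
        exact dvd_prod_of_mem _ (mem_univ i)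
      have h2 : ((s.filter (fun p => (m p : ℤ) = z)).card : ℝ) ≤ ((m p₀).divisors.card : ℝ) ^ (d + 1) := by
        have h3 := card_le_card (show s.filter (fun p => (m p : ℤ) = z) ⊆ _ from hz1)
        rw [Fintype.card_piFinset] at h3
        simp only [prod_const, card_univ, Fintype.card_fin] at h3
        exact_mod_cast h3
      refine h2.trans ?_
      have h4 := hC₀ (m p₀) (hm0 p₀ hp₀)
      have h5 : ((m p₀ : ℝ)) ^ δ ≤ ((2 : ℝ) ^ (d + 1)) ^ δ * ((N : ℝ) ^ (d + 1)) ^ δ := by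
        rw [← Real.mul_rpow (by positivity) (by positivity), ← mul_pow]
        exact Real.rpow_le_rpow (Nat.cast_nonneg _) (hm1 p₀ hp₀) hδ0.le
      have h6 : ((m p₀).divisors.card : ℝ) ≤ (C₀ * ((2 : ℝ) ^ (d + 1)) ^ δ) * ((N : ℝ) ^ (d + 1)) ^ δ := by
        refine h4.trans ?_
        rw [mul_assoc]
        exact mul_le_mul_of_nonneg_left h5 hC₀0.le
      refine (pow_le_pow_left₀ (Nat.cast_nonneg _) h6 (d + 1)).trans (le_of_eq ?_)
      rw [mul_pow, ← hC₁, hr]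
      congr 1
      rw [← Real.rpow_natCast (N : ℝ) (d + 1), ← Real.rpow_mul hN0.le, ← Real.rpow_natCast _ (d + 1),
        ← Real.rpow_mul hN0.le]
      congr 1
      rw [hδ]
      push_cast
      field_simp
    · have : s.filter (fun p => (m p : ℤ) = z) = ∅ := by
        rw [filter_eq_empty_iff]
        intro p hp h
        exact hz ⟨p, hp, h⟩
      rw [this]
      simpa using hr1
  · intro p hp q hq
    have h1 := log_diff (x := (m p : ℝ)) (y := (m q : ℝ)) (by exact_mod_cast hm0 p hp) (by exact_mod_cast hm0 q hq)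
      (hm1 p hp) (hm1 q hq)
    rw [hθm p hp, hθm q hq]
    have e : tt d * (Real.log (m p) - (d + 1) * Real.log N) - tt d * (Real.log (m q) - (d + 1) * Real.log N) =
        tt d * (Real.log (m p) - Real.log (m q)) := by ring
    rw [e, abs_mul, abs_of_pos hτ]
    push_cast
    calc tt d / (2 * N) ^ (d + 1) * |(m p : ℝ) - m q| = tt d * (|(m p : ℝ) - m q| / (2 * N) ^ (d + 1)) := by ring
      _ ≤ _ := mul_le_mul_of_nonneg_left h1 hτ.le
  · intro p hp q hq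
    have hrange : ∀ p ∈ s, 0 ≤ θ p ∧ θ p ≤ 1 / 2 := by
      intro p hp
      refine ⟨sum_nonneg fun i _ => mul_nonneg hτ.le (hlog _ (hmem p hp i)).1, ?_⟩
      refine le_trans (sum_le_sum fun i _ => mul_le_mul_of_nonneg_left (hlog _ (hmem p hp i)).2 hτ.le) ?_
      rw [sum_const, card_univ, Fintype.card_fin, nsmul_eq_mul]
      refine le_trans (le_of_eq ?_) (tt_mul d)
      push_cast
      ring
    obtain ⟨a1, a2⟩ := hrange p hp
    obtain ⟨b1, b2⟩ := hrange q hq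
    rw [abs_le]
    constructor <;> linarith
  · intro p _
    rw [hb]
    simp only
    rw [norm_prod]
    exact prod_le_one (fun i _ => norm_nonneg _) (fun i _ => ha _)

end Pool.Agent.GT
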