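import Mathlib
import Pool.Agent.GT.Defs
import Pool.Agent.GT.Pars
import Pool.Agent.GT.Sieve

/-!
# GT/Block: mean square of one block over the parameter

`K = N^(d+1)`, `U = N^d`, `D_κ = DD d N I a κ / N`.  By `pars`, `∫_0^{log 2} ‖N⁻¹ ∑ a_n b(e^w n^d)‖² dw ≤ per d ∑_κ ‖cf κ‖² |D_κ|²`.  Split the sum:
* `|κ| ≤ N`: at most `sup ‖cf κ‖² · ∑_{|κ| ≤ N} |D_κ|² ≤ C sup ‖cf κ‖²` (`sieve_one`);
* `N < |κ| ≤ K`: with `V = N^(-v)`, `v = 1/(16(d+1))`: the `κ` with `|D_κ| ≤ V` contribute at most `V² ∑ ‖cf‖² ≤ N^(-2v) B²` (`pars_norm`); the number of the others is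
  at most `V^(-2(d+1)) ∑ |D_κ|^(2(d+1)) ≤ C N^(1/8) N^(1/8)` (`sieve_pow` with `ε = 1/8`), they contribute at most `C N^(1/4) sup ‖cf κ‖²` (`|D_κ| ≤ 2`);
* `|κ| > K`: `|D_κ| ≤ 2` and `pars_tail` (if `K ≥ per d`): `≤ C (L² U²/K² + B²/K) ≤ C (L² + B²)/N`.  For the finitely many `N` with `N^(d+1) < per d` (so `N ≤ per d`) use the
  trivial bound: everything is at most `4 B² log 2 ≤ C B² N^(-2v)` with `C` depending on `d`.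
Result with `c = 1/(8(d+1))`.
-/

namespace Pool.Agent.GT

open MeasureTheory

theorem block_pt {x V : ℝ} (hx : 0 ≤ x) (hV : 0 < V) (d : ℕ) :
    x ^ 2 ≤ V ^ 2 + x ^ (2 * (d + 1)) * (V⁻¹) ^ (2 * d) := by
  rcases le_or_gt x V with h | h
  · have h1 : x ^ 2 ≤ V ^ 2 := pow_le_pow_left₀ hx h 2
    have h2 : 0 ≤ x ^ (2 * (d + 1)) * (V⁻¹) ^ (2 * d) := by positivity
    linarith
  · have h1 : 1 ≤ (x * V⁻¹) ^ (2 * d) :=
      one_le_pow₀ (by rw [← div_eq_mul_inv]; exact (one_le_div hV).2 h.le)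
    calc x ^ 2 = x ^ 2 * 1 := by ring
      _ ≤ x ^ 2 * (x * V⁻¹) ^ (2 * d) := mul_le_mul_of_nonneg_left h1 (by positivity)
      _ = x ^ (2 * (d + 1)) * (V⁻¹) ^ (2 * d) := by rw [mul_pow]; ring
      _ ≤ _ := by have := sq_nonneg V; linarith

/-- trivial bound for the exponential sums -/
theorem norm_DD_le (d : ℕ) {N : ℕ} (hN : 1 ≤ N) (I : Finset ℕ) (hI : ∀ n ∈ I, N ≤ n ∧ n ≤ 2 * N) (a : ℕ → ℂ)
    (ha : ∀ n, ‖a n‖ ≤ 1) (κ : ℤ) : ‖DD d N I a κ‖ ≤ 2 * N := by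
  unfold DD
  refine (norm_sum_le _ _).trans ?_
  have h1 : ∀ n ∈ I, ‖a n * Complex.exp (((om d * κ * (d * Real.log (n / N)) : ℝ) : ℂ) * Complex.I)‖ ≤ 1 := by
    intro n _
    rw [norm_mul, Complex.norm_exp_ofReal_mul_I, mul_one]
    exact ha n
  refine (Finset.sum_le_sum h1).trans ?_
  rw [Finset.sum_const, nsmul_eq_mul, mul_one]
  have h2 : I ⊆ Finset.Icc N (2 * N) := fun n hn => Finset.mem_Icc.2 (hI n hn)
  have h3 := Finset.card_le_card h2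
  rw [Nat.card_Icc] at h3
  have h4 : I.card ≤ 2 * N := by omega
  exact_mod_cast h4

/-- the estimate of the sum over the frequencies -/
theorem block_sum (d : ℕ) (hd : 1 ≤ d) : ∃ C : ℝ, 0 < C ∧ ∀ N : ℕ, 1 ≤ N → ∀ (b : ℝ → ℂ) (B L : ℝ),
    Continuous b → (∀ t, ‖b t‖ ≤ B) → (∀ s t, ‖b s - b t‖ ≤ L * |s - t|) → ∀ I : Finset ℕ,
    (∀ n ∈ I, N ≤ n ∧ n ≤ 2 * N) → ∀ a : ℕ → ℂ, (∀ n, ‖a n‖ ≤ 1) → ∀ a1 a2 : ℝ, 0 ≤ a1 → 0 ≤ a2 →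
    (∀ κ ∈ Finset.Icc (-(N : ℤ)) N, ‖cf d ((N : ℝ) ^ d) κ b‖ ^ 2 ≤ a1) →
    (∀ κ ∈ Finset.Icc (-((N : ℤ) ^ (d + 1))) ((N : ℤ) ^ (d + 1)) \ Finset.Icc (-(N : ℤ)) N,
      ‖cf d ((N : ℝ) ^ d) κ b‖ ^ 2 ≤ a2) → ∀ s : Finset ℤ,
    ∑ κ ∈ s, ‖cf d ((N : ℝ) ^ d) κ b‖ ^ 2 * (‖DD d N I a κ‖ / N) ^ 2 ≤
      C * (a1 + (N : ℝ) ^ (1 / 4 : ℝ) * a2 + (B ^ 2 + L ^ 2) * (N : ℝ) ^ (-(1 / (8 * ((d : ℝ) + 1))))) := by
  obtain ⟨C1, hC1, h1⟩ := sieve_one d hd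
  obtain ⟨C2, hC2, h2⟩ := sieve_pow d hd (1 / 8) (by norm_num)
  obtain ⟨C3, hC3, h3⟩ := pars_tail d
  refine ⟨C1 + C2 + (1 + 4 * C3 + 4 * per d), by have := per_pos d; positivity, ?_⟩
  intro N hN b B L hb hB hL I hI a ha a1 a2 ha1 ha2 hs1 hs2 s
  have hN1 : (1 : ℝ) ≤ N := by exact_mod_cast hN
  have hN0 : (0 : ℝ) < N := by linarith
  have hd0 : (0 : ℝ) ≤ d := Nat.cast_nonneg d
  have hU : (0 : ℝ) < (N : ℝ) ^ d := by positivity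
  obtain ⟨hsum, hnorm⟩ := pars_norm d hU hb hB
  set c : ℝ := 1 / (8 * ((d : ℝ) + 1)) with hc
  have hc0 : 0 < c := by rw [hc]; positivity
  have hc1 : c ≤ 1 := by
    rw [hc, div_le_one (by positivity)]
    linarith
  have hcN : 0 < (N : ℝ) ^ (-c) := Real.rpow_pos_of_pos hN0 _
  have hNinv : (N : ℝ)⁻¹ ≤ (N : ℝ) ^ (-c) := by
    rw [← Real.rpow_neg_one]
    exact Real.rpow_le_rpow_of_exponent_le hN1 (by linarith)
  have hN4 : 0 < (N : ℝ) ^ (1 / 4 : ℝ) := Real.rpow_pos_of_pos hN0 _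
  set D : ℤ → ℝ := fun κ => ‖DD d N I a κ‖ / N with hD
  have hD0 : ∀ κ, 0 ≤ D κ := fun κ => by simp only [hD]; positivity
  have hD2 : ∀ κ, D κ ≤ 2 := fun κ => by
    simp only [hD]
    rw [div_le_iff₀ hN0]
    exact norm_DD_le d hN I hI a ha κ
  have hD4 : ∀ κ, D κ ^ 2 ≤ 4 := fun κ => by
    have := pow_le_pow_left₀ (hD0 κ) (hD2 κ) 2
    linarith
  have hpart : ∀ t : Finset ℤ, ∑ κ ∈ t, ‖cf d ((N : ℝ) ^ d) κ b‖ ^ 2 ≤ B ^ 2 := fun t =>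
    (hsum.sum_le_tsum t (fun κ _ => by positivity)).trans hnorm
  -- the target
  have hper := per_pos d
  have hB2 : 0 ≤ B ^ 2 := sq_nonneg B
  have hL2 : 0 ≤ L ^ 2 := sq_nonneg L
  show ∑ κ ∈ s, ‖cf d ((N : ℝ) ^ d) κ b‖ ^ 2 * D κ ^ 2 ≤ _
  by_cases hK : per d ≤ (N : ℝ) ^ (d + 1)
  · -- splitting
    set lo : Finset ℤ := Finset.Icc (-(N : ℤ)) N with hlo
    set mi : Finset ℤ := Finset.Icc (-((N : ℤ) ^ (d + 1))) ((N : ℤ) ^ (d + 1)) \ Finset.Icc (-(N : ℤ)) N with hmi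
    have e1 : ∑ κ ∈ s, ‖cf d ((N : ℝ) ^ d) κ b‖ ^ 2 * D κ ^ 2 ≤
        ∑ κ ∈ lo, ‖cf d ((N : ℝ) ^ d) κ b‖ ^ 2 * D κ ^ 2 + ∑ κ ∈ mi, ‖cf d ((N : ℝ) ^ d) κ b‖ ^ 2 * D κ ^ 2 +
          ∑ κ ∈ s \ (lo ∪ mi), ‖cf d ((N : ℝ) ^ d) κ b‖ ^ 2 * D κ ^ 2 := by
      have hdis : Disjoint lo mi := by
        rw [hlo, hmi]
        exact Finset.disjoint_sdiff
      rw [← Finset.sum_union hdis]
      have hdis2 : Disjoint (lo ∪ mi) (s \ (lo ∪ mi)) := Finset.disjoint_sdiff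
      rw [← Finset.sum_union hdis2]
      refine Finset.sum_le_sum_of_subset_of_nonneg ?_ (fun κ _ _ => by positivity)
      intro κ hκ
      rw [Finset.mem_union, Finset.mem_sdiff]
      tauto
    have e2 : ∑ κ ∈ lo, ‖cf d ((N : ℝ) ^ d) κ b‖ ^ 2 * D κ ^ 2 ≤ C1 * a1 := by
      have h := h1 N hN I hI a ha
      calc ∑ κ ∈ lo, ‖cf d ((N : ℝ) ^ d) κ b‖ ^ 2 * D κ ^ 2 ≤ ∑ κ ∈ lo, a1 * (((N : ℝ) ^ 2)⁻¹ * ‖DD d N I a κ‖ ^ 2) := by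
            refine Finset.sum_le_sum fun κ hκ => ?_
            have : D κ ^ 2 = ((N : ℝ) ^ 2)⁻¹ * ‖DD d N I a κ‖ ^ 2 := by
              simp only [hD]
              rw [div_pow, div_eq_inv_mul]
            rw [this]
            exact mul_le_mul_of_nonneg_right (hs1 κ hκ) (by positivity)
        _ = a1 * (((N : ℝ) ^ 2)⁻¹ * ∑ κ ∈ lo, ‖DD d N I a κ‖ ^ 2) := by rw [Finset.mul_sum, Finset.mul_sum]
        _ ≤ a1 * (((N : ℝ) ^ 2)⁻¹ * (C1 * (N : ℝ) ^ 2)) := by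
            refine mul_le_mul_of_nonneg_left (mul_le_mul_of_nonneg_left h (by positivity)) ha1
        _ = C1 * a1 := by field_simp
    have e3 : ∑ κ ∈ mi, ‖cf d ((N : ℝ) ^ d) κ b‖ ^ 2 * D κ ^ 2 ≤
        B ^ 2 * (N : ℝ) ^ (-c) + C2 * ((N : ℝ) ^ (1 / 4 : ℝ) * a2) := by
      set V : ℝ := (N : ℝ) ^ (-(c / 2)) with hV
      have hV0 : 0 < V := Real.rpow_pos_of_pos hN0 _
      have hV2 : V ^ 2 = (N : ℝ) ^ (-c) := by
        rw [hV, ← Real.rpow_natCast, ← Real.rpow_mul hN0.le]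
        congr 1
        push_cast
        ring
      have hVd : (V⁻¹) ^ (2 * d) ≤ (N : ℝ) ^ (1 / 8 : ℝ) := by
        rw [hV, ← Real.rpow_neg hN0.le, neg_neg, ← Real.rpow_natCast, ← Real.rpow_mul hN0.le]
        refine Real.rpow_le_rpow_of_exponent_le hN1 ?_
        push_cast
        rw [hc]
        rw [div_div, div_mul_eq_mul_div, div_le_div_iff₀ (by positivity) (by norm_num)]
        nlinarith
      have hpow := h2 N hN I hI a ha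
      have hpow' : ∑ κ ∈ mi, D κ ^ (2 * (d + 1)) ≤ C2 * (N : ℝ) ^ (1 / 8 : ℝ) := by
        have q1 : ∑ κ ∈ mi, D κ ^ (2 * (d + 1)) ≤
            ∑ κ ∈ Finset.Icc (-((N : ℤ) ^ (d + 1))) ((N : ℤ) ^ (d + 1)), D κ ^ (2 * (d + 1)) :=
          Finset.sum_le_sum_of_subset_of_nonneg Finset.sdiff_subset (fun κ _ _ => pow_nonneg (hD0 κ) _)
        refine q1.trans ?_
        have q2 : ∑ κ ∈ Finset.Icc (-((N : ℤ) ^ (d + 1))) ((N : ℤ) ^ (d + 1)), D κ ^ (2 * (d + 1)) =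
            ((N : ℝ) ^ (2 * (d + 1)))⁻¹ *
              ∑ κ ∈ Finset.Icc (-((N : ℤ) ^ (d + 1))) ((N : ℤ) ^ (d + 1)), ‖DD d N I a κ‖ ^ (2 * (d + 1)) := by
          rw [Finset.mul_sum]
          refine Finset.sum_congr rfl fun κ _ => ?_
          simp only [hD]
          rw [div_pow, div_eq_inv_mul]
        rw [q2]
        calc ((N : ℝ) ^ (2 * (d + 1)))⁻¹ * _ ≤
            ((N : ℝ) ^ (2 * (d + 1)))⁻¹ * (C2 * (N : ℝ) ^ (2 * (d + 1)) * (N : ℝ) ^ (1 / 8 : ℝ)) :=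
              mul_le_mul_of_nonneg_left hpow (by positivity)
          _ = C2 * (N : ℝ) ^ (1 / 8 : ℝ) := by field_simp
      calc ∑ κ ∈ mi, ‖cf d ((N : ℝ) ^ d) κ b‖ ^ 2 * D κ ^ 2
          ≤ ∑ κ ∈ mi, (‖cf d ((N : ℝ) ^ d) κ b‖ ^ 2 * V ^ 2 + a2 * ((V⁻¹) ^ (2 * d) * D κ ^ (2 * (d + 1)))) := by
            refine Finset.sum_le_sum fun κ hκ => ?_
            have hp := block_pt (hD0 κ) hV0 d
            have hcf : 0 ≤ ‖cf d ((N : ℝ) ^ d) κ b‖ ^ 2 := by positivity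
            calc ‖cf d ((N : ℝ) ^ d) κ b‖ ^ 2 * D κ ^ 2
                ≤ ‖cf d ((N : ℝ) ^ d) κ b‖ ^ 2 * (V ^ 2 + D κ ^ (2 * (d + 1)) * (V⁻¹) ^ (2 * d)) :=
                  mul_le_mul_of_nonneg_left hp hcf
              _ = ‖cf d ((N : ℝ) ^ d) κ b‖ ^ 2 * V ^ 2 +
                  ‖cf d ((N : ℝ) ^ d) κ b‖ ^ 2 * ((V⁻¹) ^ (2 * d) * D κ ^ (2 * (d + 1))) := by ring
              _ ≤ _ := by
                  have hnn : 0 ≤ (V⁻¹) ^ (2 * d) * D κ ^ (2 * (d + 1)) :=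
                    mul_nonneg (by positivity) (pow_nonneg (hD0 κ) _)
                  have := mul_le_mul_of_nonneg_right (hs2 κ hκ) hnn
                  linarith
        _ = (∑ κ ∈ mi, ‖cf d ((N : ℝ) ^ d) κ b‖ ^ 2) * V ^ 2 +
            a2 * ((V⁻¹) ^ (2 * d) * ∑ κ ∈ mi, D κ ^ (2 * (d + 1))) := by
            rw [Finset.sum_add_distrib, Finset.sum_mul, Finset.mul_sum, Finset.mul_sum]
        _ ≤ B ^ 2 * V ^ 2 + a2 * ((N : ℝ) ^ (1 / 8 : ℝ) * (C2 * (N : ℝ) ^ (1 / 8 : ℝ))) := by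
            refine add_le_add (mul_le_mul_of_nonneg_right (hpart mi) (by positivity)) ?_
            refine mul_le_mul_of_nonneg_left ?_ ha2
            exact mul_le_mul hVd hpow' (Finset.sum_nonneg fun κ _ => pow_nonneg (hD0 κ) _) (by positivity)
        _ = B ^ 2 * (N : ℝ) ^ (-c) + C2 * ((N : ℝ) ^ (1 / 4 : ℝ) * a2) := by
            have : (N : ℝ) ^ (1 / 4 : ℝ) = (N : ℝ) ^ (1 / 8 : ℝ) * (N : ℝ) ^ (1 / 8 : ℝ) := by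
              rw [← Real.rpow_add hN0]
              norm_num
            rw [hV2, this]
            ring
    have e4 : ∑ κ ∈ s \ (lo ∪ mi), ‖cf d ((N : ℝ) ^ d) κ b‖ ^ 2 * D κ ^ 2 ≤
        4 * (C3 * ((B ^ 2 + L ^ 2) * (N : ℝ) ^ (-c))) := by
      have q0 : ∀ κ ∈ s \ (lo ∪ mi), (N : ℝ) ^ (d + 1) ≤ |(κ : ℝ)| := by
        intro κ hκ
        have hκ' : κ ∉ lo ∪ mi := (Finset.mem_sdiff.1 hκ).2
        have h5 : κ ∉ Finset.Icc (-((N : ℤ) ^ (d + 1))) ((N : ℤ) ^ (d + 1)) := by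
          intro h6
          refine hκ' ?_
          rw [Finset.mem_union, hmi, Finset.mem_sdiff]
          by_cases h7 : κ ∈ lo
          · exact Or.inl h7
          · exact Or.inr ⟨h6, h7⟩
        rw [Finset.mem_Icc] at h5
        have h8 : (N : ℤ) ^ (d + 1) ≤ |κ| := by
          by_contra h9
          push Not at h9
          exact h5 ⟨(abs_lt.1 h9).1.le, (abs_lt.1 h9).2.le⟩
        exact_mod_cast h8
      have q1 := h3 ((N : ℝ) ^ d) hU b B L hb hB hL ((N : ℝ) ^ (d + 1)) hK (s \ (lo ∪ mi)) q0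
      have q2 : L ^ 2 * ((N : ℝ) ^ d) ^ 2 / ((N : ℝ) ^ (d + 1)) ^ 2 + B ^ 2 / (N : ℝ) ^ (d + 1) ≤
          (B ^ 2 + L ^ 2) * (N : ℝ) ^ (-c) := by
        have r1 : L ^ 2 * ((N : ℝ) ^ d) ^ 2 / ((N : ℝ) ^ (d + 1)) ^ 2 = L ^ 2 * ((N : ℝ)⁻¹) ^ 2 := by
          field_simp
          ring
        have hinv0 : 0 < (N : ℝ)⁻¹ := by positivity
        have hinv1 : (N : ℝ)⁻¹ ≤ 1 := inv_le_one_of_one_le₀ hN1
        have r2 : ((N : ℝ)⁻¹) ^ 2 ≤ (N : ℝ) ^ (-c) := by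
          refine le_trans ?_ hNinv
          nlinarith
        have r3 : B ^ 2 / (N : ℝ) ^ (d + 1) ≤ B ^ 2 * (N : ℝ) ^ (-c) := by
          rw [div_eq_mul_inv]
          refine mul_le_mul_of_nonneg_left ?_ hB2
          refine le_trans ?_ hNinv
          refine inv_anti₀ hN0 ?_
          calc (N : ℝ) = (N : ℝ) ^ 1 := (pow_one _).symm
            _ ≤ (N : ℝ) ^ (d + 1) := pow_le_pow_right₀ hN1 (by omega)
        rw [r1]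
        have r4 : L ^ 2 * ((N : ℝ)⁻¹) ^ 2 ≤ L ^ 2 * (N : ℝ) ^ (-c) := mul_le_mul_of_nonneg_left r2 hL2
        linarith
      calc ∑ κ ∈ s \ (lo ∪ mi), ‖cf d ((N : ℝ) ^ d) κ b‖ ^ 2 * D κ ^ 2
          ≤ ∑ κ ∈ s \ (lo ∪ mi), ‖cf d ((N : ℝ) ^ d) κ b‖ ^ 2 * 4 :=
            Finset.sum_le_sum fun κ _ => mul_le_mul_of_nonneg_left (hD4 κ) (by positivity)
        _ = 4 * ∑ κ ∈ s \ (lo ∪ mi), ‖cf d ((N : ℝ) ^ d) κ b‖ ^ 2 := by rw [← Finset.sum_mul]; ring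
        _ ≤ 4 * (C3 * ((B ^ 2 + L ^ 2) * (N : ℝ) ^ (-c))) := by
            refine mul_le_mul_of_nonneg_left (q1.trans ?_) (by norm_num)
            exact mul_le_mul_of_nonneg_left q2 hC3.le
    refine e1.trans ?_
    have hX : 0 ≤ (B ^ 2 + L ^ 2) * (N : ℝ) ^ (-c) := by positivity
    have hY : 0 ≤ (N : ℝ) ^ (1 / 4 : ℝ) * a2 := by positivity
    have hBX : B ^ 2 * (N : ℝ) ^ (-c) ≤ (B ^ 2 + L ^ 2) * (N : ℝ) ^ (-c) := by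
      refine mul_le_mul_of_nonneg_right ?_ hcN.le
      linarith
    have p1 : 0 ≤ (C2 + (1 + 4 * C3 + 4 * per d)) * a1 := by positivity
    have p2 : 0 ≤ (C1 + (1 + 4 * C3 + 4 * per d)) * ((N : ℝ) ^ (1 / 4 : ℝ) * a2) := by positivity
    have p3 : 0 ≤ (C1 + C2 + 4 * per d) * ((B ^ 2 + L ^ 2) * (N : ℝ) ^ (-c)) := by positivity
    nlinarith
  · -- few small `N`
    push Not at hK
    have e1 : ∑ κ ∈ s, ‖cf d ((N : ℝ) ^ d) κ b‖ ^ 2 * D κ ^ 2 ≤ 4 * B ^ 2 := by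
      calc ∑ κ ∈ s, ‖cf d ((N : ℝ) ^ d) κ b‖ ^ 2 * D κ ^ 2
          ≤ ∑ κ ∈ s, ‖cf d ((N : ℝ) ^ d) κ b‖ ^ 2 * 4 :=
            Finset.sum_le_sum fun κ _ => mul_le_mul_of_nonneg_left (hD4 κ) (by positivity)
        _ = 4 * ∑ κ ∈ s, ‖cf d ((N : ℝ) ^ d) κ b‖ ^ 2 := by rw [← Finset.sum_mul]; ring
        _ ≤ 4 * B ^ 2 := mul_le_mul_of_nonneg_left (hpart s) (by norm_num)
    have e2 : 1 ≤ per d * (N : ℝ) ^ (-c) := by
      have q1 : (N : ℝ) ≤ per d := by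
        refine le_trans ?_ hK.le
        calc (N : ℝ) = (N : ℝ) ^ 1 := (pow_one _).symm
          _ ≤ (N : ℝ) ^ (d + 1) := pow_le_pow_right₀ hN1 (by omega)
      calc (1 : ℝ) = N * (N : ℝ)⁻¹ := by field_simp
        _ ≤ per d * (N : ℝ) ^ (-c) := mul_le_mul q1 hNinv (by positivity) hper.le
    have hX : B ^ 2 ≤ per d * ((B ^ 2 + L ^ 2) * (N : ℝ) ^ (-c)) := by
      calc B ^ 2 ≤ (B ^ 2 + L ^ 2) * 1 := by linarith
        _ ≤ (B ^ 2 + L ^ 2) * (per d * (N : ℝ) ^ (-c)) := mul_le_mul_of_nonneg_left e2 (by positivity)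
        _ = _ := by ring
    have p1 : 0 ≤ (C1 + C2 + (1 + 4 * C3 + 4 * per d)) * (a1 + (N : ℝ) ^ (1 / 4 : ℝ) * a2) := by positivity
    have p3 : 0 ≤ (C1 + C2 + (1 + 4 * C3)) * ((B ^ 2 + L ^ 2) * (N : ℝ) ^ (-c)) := by positivity
    nlinarith

theorem block (d : ℕ) (hd : 1 ≤ d) : ∃ C c : ℝ, 0 < C ∧ 0 < c ∧ ∀ N : ℕ, 1 ≤ N → ∀ (b : ℝ → ℂ) (B L : ℝ),
    Continuous b → (∀ t, ‖b t‖ ≤ B) → (∀ s t, ‖b s - b t‖ ≤ L * |s - t|) → ∀ I : Finset ℕ,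
    (∀ n ∈ I, N ≤ n ∧ n ≤ 2 * N) → ∀ a : ℕ → ℂ, (∀ n, ‖a n‖ ≤ 1) →
    ∫⁻ w in Set.Icc 0 (Real.log 2), ‖(N : ℂ)⁻¹ * ∑ n ∈ I, a n * b (Real.exp w * (n : ℝ) ^ d)‖ₑ ^ 2 ≤
      ENNReal.ofReal C * ((Finset.Icc (-(N : ℤ)) N).sup (fun κ => ‖cf d ((N : ℝ) ^ d) κ b‖ₑ ^ 2) +
        ENNReal.ofReal ((N : ℝ) ^ (1 / 4 : ℝ)) *
          (Finset.Icc (-((N : ℤ) ^ (d + 1))) ((N : ℤ) ^ (d + 1)) \ Finset.Icc (-(N : ℤ)) N).sup
            (fun κ => ‖cf d ((N : ℝ) ^ d) κ b‖ₑ ^ 2) +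
        ENNReal.ofReal ((B ^ 2 + L ^ 2) * (N : ℝ) ^ (-c))) := by
  obtain ⟨C, hC, h⟩ := block_sum d hd
  refine ⟨per d * C, 1 / (8 * ((d : ℝ) + 1)), mul_pos (per_pos d) hC, by positivity, ?_⟩
  intro N hN b B L hb hB hL I hI a ha
  have hN1 : (1 : ℝ) ≤ N := by exact_mod_cast hN
  have hN0 : (0 : ℝ) < N := by linarith
  have hper := per_pos d
  have hfin : ∀ t : Finset ℤ, t.sup (fun κ => ‖cf d ((N : ℝ) ^ d) κ b‖ₑ ^ 2) ≠ ⊤ := by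
    intro t
    refine ne_of_lt ((Finset.sup_lt_iff (by simp)).2 fun κ _ => ?_)
    exact ENNReal.pow_lt_top enorm_lt_top
  set A1 := (Finset.Icc (-(N : ℤ)) N).sup (fun κ => ‖cf d ((N : ℝ) ^ d) κ b‖ₑ ^ 2) with hA1
  set A2 := (Finset.Icc (-((N : ℤ) ^ (d + 1))) ((N : ℤ) ^ (d + 1)) \ Finset.Icc (-(N : ℤ)) N).sup
            (fun κ => ‖cf d ((N : ℝ) ^ d) κ b‖ₑ ^ 2) with hA2
  have f1 : A1 ≠ ⊤ := hfin _
  have f2 : A2 ≠ ⊤ := hfin _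
  have key : ∀ (t : Finset ℤ) (κ : ℤ), κ ∈ t →
      ‖cf d ((N : ℝ) ^ d) κ b‖ ^ 2 ≤ (t.sup (fun κ => ‖cf d ((N : ℝ) ^ d) κ b‖ₑ ^ 2)).toReal := by
    intro t κ hκ
    have h5 : ‖cf d ((N : ℝ) ^ d) κ b‖ₑ ^ 2 ≤ t.sup (fun κ => ‖cf d ((N : ℝ) ^ d) κ b‖ₑ ^ 2) :=
      Finset.le_sup (f := fun κ => ‖cf d ((N : ℝ) ^ d) κ b‖ₑ ^ 2) hκ
    have h6 := ENNReal.toReal_mono (hfin t) h5
    rwa [ENNReal.toReal_pow, toReal_enorm] at h6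
  obtain ⟨hsm, hpars⟩ := pars d hN hb I hI a
  -- the sum
  have hS : per d * ∑' κ : ℤ, ‖cf d ((N : ℝ) ^ d) κ b‖ ^ 2 * ‖DD d N I a κ‖ ^ 2 ≤
      (N : ℝ) ^ 2 * (per d * (C * (A1.toReal + (N : ℝ) ^ (1 / 4 : ℝ) * A2.toReal +
        (B ^ 2 + L ^ 2) * (N : ℝ) ^ (-(1 / (8 * ((d : ℝ) + 1))))))) := by
    have h5 : ∑' κ : ℤ, ‖cf d ((N : ℝ) ^ d) κ b‖ ^ 2 * ‖DD d N I a κ‖ ^ 2 ≤
      (N : ℝ) ^ 2 * (C * (A1.toReal + (N : ℝ) ^ (1 / 4 : ℝ) * A2.toReal +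
        (B ^ 2 + L ^ 2) * (N : ℝ) ^ (-(1 / (8 * ((d : ℝ) + 1)))))) := by
      refine hsm.tsum_le_of_sum_le fun s => ?_
      have h6 := h N hN b B L hb hB hL I hI a ha A1.toReal A2.toReal ENNReal.toReal_nonneg ENNReal.toReal_nonneg
        (fun κ hκ => key _ κ hκ) (fun κ hκ => key _ κ hκ) s
      have h7 : ∑ κ ∈ s, ‖cf d ((N : ℝ) ^ d) κ b‖ ^ 2 * ‖DD d N I a κ‖ ^ 2 =
          (N : ℝ) ^ 2 * ∑ κ ∈ s, ‖cf d ((N : ℝ) ^ d) κ b‖ ^ 2 * (‖DD d N I a κ‖ / N) ^ 2 := by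
        rw [Finset.mul_sum]
        refine Finset.sum_congr rfl fun κ _ => ?_
        rw [div_pow]
        field_simp
      rw [h7]
      exact mul_le_mul_of_nonneg_left h6 (by positivity)
    have h8 := mul_le_mul_of_nonneg_left h5 hper.le
    linarith
  have hlog : 0 ≤ Real.log 2 := Real.log_nonneg (by norm_num)
  have hcont : Continuous (fun w : ℝ => ‖(N : ℂ)⁻¹ * ∑ n ∈ I, a n * b (Real.exp w * (n : ℝ) ^ d)‖ ^ 2) := by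
    refine (Continuous.norm ?_).pow 2
    refine continuous_const.mul (continuous_finsetSum _ fun n _ => continuous_const.mul (hb.comp ?_))
    exact Real.continuous_exp.mul continuous_const
  have hL1 : ∫⁻ w in Set.Icc 0 (Real.log 2), ‖(N : ℂ)⁻¹ * ∑ n ∈ I, a n * b (Real.exp w * (n : ℝ) ^ d)‖ₑ ^ 2 =
      ENNReal.ofReal (∫ w in (0 : ℝ)..Real.log 2,
        ‖(N : ℂ)⁻¹ * ∑ n ∈ I, a n * b (Real.exp w * (n : ℝ) ^ d)‖ ^ 2) := by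
    rw [intervalIntegral.integral_of_le hlog, ← integral_Icc_eq_integral_Ioc,
      ofReal_integral_eq_lintegral_ofReal]
    · refine lintegral_congr fun w => ?_
      rw [ENNReal.ofReal_pow (norm_nonneg _), ofReal_norm]
    · exact hcont.continuousOn.integrableOn_Icc
    · exact Filter.Eventually.of_forall fun w => by positivity
  have hL2 : ∫ w in (0 : ℝ)..Real.log 2, ‖(N : ℂ)⁻¹ * ∑ n ∈ I, a n * b (Real.exp w * (n : ℝ) ^ d)‖ ^ 2 =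
      ((N : ℝ) ^ 2)⁻¹ * ∫ w in (0 : ℝ)..Real.log 2, ‖∑ n ∈ I, a n * b (Real.exp w * (n : ℝ) ^ d)‖ ^ 2 := by
    rw [← intervalIntegral.integral_const_mul]
    refine intervalIntegral.integral_congr fun w _ => ?_
    show _ = _
    rw [norm_mul, mul_pow, norm_inv, Complex.norm_natCast, inv_pow]
  have hL3 : ∫ w in (0 : ℝ)..Real.log 2, ‖(N : ℂ)⁻¹ * ∑ n ∈ I, a n * b (Real.exp w * (n : ℝ) ^ d)‖ ^ 2 ≤
      per d * C * (A1.toReal + (N : ℝ) ^ (1 / 4 : ℝ) * A2.toReal +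
        (B ^ 2 + L ^ 2) * (N : ℝ) ^ (-(1 / (8 * ((d : ℝ) + 1))))) := by
    rw [hL2]
    calc ((N : ℝ) ^ 2)⁻¹ * _ ≤ ((N : ℝ) ^ 2)⁻¹ * ((N : ℝ) ^ 2 * (per d * (C * (A1.toReal + (N : ℝ) ^ (1 / 4 : ℝ) *
        A2.toReal + (B ^ 2 + L ^ 2) * (N : ℝ) ^ (-(1 / (8 * ((d : ℝ) + 1)))))))) :=
          mul_le_mul_of_nonneg_left (hpars.trans hS) (by positivity)
      _ = _ := by field_simp
  rw [hL1]
  refine (ENNReal.ofReal_le_ofReal hL3).trans (le_of_eq ?_)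
  have hN4 : 0 ≤ (N : ℝ) ^ (1 / 4 : ℝ) := by positivity
  have hNc : 0 ≤ (B ^ 2 + L ^ 2) * (N : ℝ) ^ (-(1 / (8 * ((d : ℝ) + 1)))) := by positivity
  rw [ENNReal.ofReal_mul (by positivity), ENNReal.ofReal_add (by positivity) hNc,
    ENNReal.ofReal_add ENNReal.toReal_nonneg (by positivity), ENNReal.ofReal_mul hN4,
    ENNReal.ofReal_toReal f1, ENNReal.ofReal_toReal f2]

end Pool.Agent.GT
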