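import Mathlib
import Pool.Agent.GT.Defs

/-!
# GT/HM: the Halász–Montgomery inequality

`hm`: in an inner product space, `∑_i |⟨v_i, F⟩|² ≤ ‖F‖² max_i ∑_j |⟨v_i, v_j⟩|`.  Proof: with `z_i = ⟨v_i, F⟩`, `Q = ∑ |z_i|² = ⟨∑ z_i v_i, F⟩`
(up to conjugation) `≤ ‖F‖ ‖∑ z_i v_i‖`, and `‖∑ z_i v_i‖² ≤ ∑_{i,j} |z_i| |z_j| |⟨v_i, v_j⟩| ≤ ∑_{i,j} (|z_i|² + |z_j|²)/2 |⟨v_i, v_j⟩| ≤ K Q`.

`hm_fun`: the same in `L²([0, T])` for a continuous `b` (only its values on `[0, T]` matter) and bounded measurable `e_i`.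
-/

namespace Pool.Agent.GT

open MeasureTheory

theorem hm {E : Type*} [NormedAddCommGroup E] [InnerProductSpace ℂ E] (F : E) {m : ℕ} (v : Fin m → E) {K : ℝ}
    (hK : ∀ i, ∑ j, ‖inner ℂ (v i) (v j)‖ ≤ K) (hK0 : 0 ≤ K) : ∑ i, ‖inner ℂ (v i) F‖ ^ 2 ≤ K * ‖F‖ ^ 2 := by
  set z : Fin m → ℂ := fun i => inner ℂ (v i) F with hz
  set Q : ℝ := ∑ i, ‖z i‖ ^ 2 with hQ
  have hQ0 : 0 ≤ Q := Finset.sum_nonneg fun i _ => by positivity
  set w : E := ∑ i, z i • v i with hw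
  have hwF : inner ℂ w F = (Q : ℂ) := by
    rw [hw, sum_inner, hQ]
    push_cast
    refine Finset.sum_congr rfl fun i _ => ?_
    rw [inner_smul_left, ← Complex.conj_mul']
  have h1 : Q ≤ ‖w‖ * ‖F‖ := by
    have h := norm_inner_le_norm (𝕜 := ℂ) w F
    rw [hwF, Complex.norm_real, Real.norm_eq_abs, abs_of_nonneg hQ0] at h
    exact h
  have h2 : ‖w‖ ^ 2 ≤ K * Q := by
    have e1 : inner ℂ w w = ∑ i, ∑ j, (starRingEnd ℂ) (z i) * (z j * inner ℂ (v i) (v j)) := by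
      rw [hw, sum_inner]
      refine Finset.sum_congr rfl fun i _ => ?_
      rw [inner_smul_left, inner_sum, Finset.mul_sum]
      refine Finset.sum_congr rfl fun j _ => ?_
      rw [inner_smul_right]
    have e2 : ‖w‖ ^ 2 = ‖inner ℂ w w‖ := by
      rw [inner_self_eq_norm_sq_to_K]
      simp
    rw [e2, e1]
    have e3 : ‖∑ i, ∑ j, (starRingEnd ℂ) (z i) * (z j * inner ℂ (v i) (v j))‖ ≤
        ∑ i, ∑ j, (‖z i‖ ^ 2 / 2 * ‖inner ℂ (v i) (v j)‖ + ‖z j‖ ^ 2 / 2 * ‖inner ℂ (v i) (v j)‖) := by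
      refine (norm_sum_le _ _).trans (Finset.sum_le_sum fun i _ => ?_)
      refine (norm_sum_le _ _).trans (Finset.sum_le_sum fun j _ => ?_)
      rw [norm_mul, norm_mul, RCLike.norm_conj]
      have ha : 0 ≤ ‖inner ℂ (v i) (v j)‖ := norm_nonneg _
      have hb : ‖z i‖ * ‖z j‖ ≤ ‖z i‖ ^ 2 / 2 + ‖z j‖ ^ 2 / 2 := by nlinarith [sq_nonneg (‖z i‖ - ‖z j‖)]
      calc ‖z i‖ * (‖z j‖ * ‖inner ℂ (v i) (v j)‖) = (‖z i‖ * ‖z j‖) * ‖inner ℂ (v i) (v j)‖ := by ring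
        _ ≤ (‖z i‖ ^ 2 / 2 + ‖z j‖ ^ 2 / 2) * ‖inner ℂ (v i) (v j)‖ := mul_le_mul_of_nonneg_right hb ha
        _ = _ := by ring
    refine e3.trans ?_
    have e4 : ∑ i, ∑ j, (‖z i‖ ^ 2 / 2 * ‖inner ℂ (v i) (v j)‖ + ‖z j‖ ^ 2 / 2 * ‖inner ℂ (v i) (v j)‖) =
        ∑ i, ‖z i‖ ^ 2 / 2 * ∑ j, ‖inner ℂ (v i) (v j)‖ + ∑ j, ‖z j‖ ^ 2 / 2 * ∑ i, ‖inner ℂ (v j) (v i)‖ := by
      simp only [Finset.sum_add_distrib]
      congr 1
      · refine Finset.sum_congr rfl fun i _ => ?_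
        rw [Finset.mul_sum]
      · rw [Finset.sum_comm]
        refine Finset.sum_congr rfl fun j _ => ?_
        rw [Finset.mul_sum]
        refine Finset.sum_congr rfl fun i _ => ?_
        rw [norm_inner_symm (v i) (v j)]
    rw [e4, hQ, Finset.mul_sum, ← Finset.sum_add_distrib]
    refine Finset.sum_le_sum fun i _ => ?_
    have hi := hK i
    have hzi : 0 ≤ ‖z i‖ ^ 2 / 2 := by positivity
    calc ‖z i‖ ^ 2 / 2 * ∑ j, ‖inner ℂ (v i) (v j)‖ + ‖z i‖ ^ 2 / 2 * ∑ j, ‖inner ℂ (v i) (v j)‖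
        ≤ ‖z i‖ ^ 2 / 2 * K + ‖z i‖ ^ 2 / 2 * K :=
          add_le_add (mul_le_mul_of_nonneg_left hi hzi) (mul_le_mul_of_nonneg_left hi hzi)
      _ = K * ‖z i‖ ^ 2 := by ring
  show Q ≤ K * ‖F‖ ^ 2
  rcases hQ0.eq_or_lt with h0 | h0
  · rw [← h0]
    positivity
  · have h3 : Q ^ 2 ≤ (K * Q) * ‖F‖ ^ 2 := by
      calc Q ^ 2 ≤ (‖w‖ * ‖F‖) ^ 2 := pow_le_pow_left₀ hQ0 h1 2
        _ = ‖w‖ ^ 2 * ‖F‖ ^ 2 := by ring
        _ ≤ (K * Q) * ‖F‖ ^ 2 := mul_le_mul_of_nonneg_right h2 (by positivity)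
    have h4 : Q * Q ≤ (K * ‖F‖ ^ 2) * Q := by nlinarith
    exact le_of_mul_le_mul_right h4 h0

theorem hm_fun {T : ℝ} (hT : 0 ≤ T) {b : ℝ → ℂ} (hb : Continuous b) {m : ℕ} (e : Fin m → ℝ → ℂ)
    (he : ∀ i, Measurable (e i)) {C : ℝ} (hC : ∀ i t, ‖e i t‖ ≤ C) {K : ℝ}
    (hK : ∀ i, ∑ j, ‖∫ t in (0 : ℝ)..T, e i t * (starRingEnd ℂ) (e j t)‖ ≤ K) (hK0 : 0 ≤ K) :
    ∑ i, ‖∫ t in (0 : ℝ)..T, b t * e i t‖ ^ 2 ≤ K * ∫ t in (0 : ℝ)..T, ‖b t‖ ^ 2 := by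
  set ν : Measure ℝ := volume.restrict (Set.Ioc 0 T) with hν
  have : IsFiniteMeasure ν := ⟨by rw [hν, Measure.restrict_apply_univ]; simp⟩
  -- `b` is bounded on `[0, T]`
  obtain ⟨B, hB⟩ : ∃ B, ∀ t ∈ Set.Icc (0 : ℝ) T, ‖b t‖ ≤ B :=
    isCompact_Icc.exists_bound_of_continuousOn hb.continuousOn
  have hbm : MemLp b 2 ν := by
    refine MemLp.of_bound hb.aestronglyMeasurable B ?_
    rw [hν]
    refine (ae_restrict_iff' measurableSet_Ioc).mpr (Filter.Eventually.of_forall fun t ht => hB t ⟨ht.1.le, ht.2⟩)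
  have hem : ∀ i, MemLp (fun t => (starRingEnd ℂ) (e i t)) 2 ν := fun i => by
    refine MemLp.of_bound ?_ C (Filter.Eventually.of_forall fun t => ?_)
    · exact (Complex.continuous_conj.measurable.comp (he i)).aestronglyMeasurable
    · rw [RCLike.norm_conj]
      exact hC i t
  set F : Lp ℂ 2 ν := hbm.toLp b with hF
  set v : Fin m → Lp ℂ 2 ν := fun i => (hem i).toLp _ with hv
  have i1 : ∀ i, inner ℂ (v i) F = ∫ t in (0 : ℝ)..T, b t * e i t := fun i => by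
    rw [intervalIntegral.integral_of_le hT, L2.inner_def]
    refine integral_congr_ae ?_
    filter_upwards [(hem i).coeFn_toLp, hbm.coeFn_toLp] with t h1 h2
    rw [hv, hF, h1, h2, RCLike.inner_apply]
    simp
  have i2 : ∀ i j, inner ℂ (v i) (v j) = ∫ t in (0 : ℝ)..T, e i t * (starRingEnd ℂ) (e j t) := fun i j => by
    rw [intervalIntegral.integral_of_le hT, L2.inner_def]
    refine integral_congr_ae ?_
    filter_upwards [(hem i).coeFn_toLp, (hem j).coeFn_toLp] with t h1 h2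
    rw [hv, h1, h2, RCLike.inner_apply]
    simp [mul_comm]
  have i3 : ‖F‖ ^ 2 = ∫ t in (0 : ℝ)..T, ‖b t‖ ^ 2 := by
    rw [intervalIntegral.integral_of_le hT]
    have h := L2.inner_def (𝕜 := ℂ) F F
    rw [inner_self_eq_norm_sq_to_K] at h
    have h' : (((∫ t in Set.Ioc 0 T, ‖b t‖ ^ 2 : ℝ)) : ℂ) = ((‖F‖ : ℝ) : ℂ) ^ 2 := by
      refine Eq.trans ?_ h.symm
      rw [← integral_complex_ofReal]
      refine integral_congr_ae ?_
      filter_upwards [hbm.coeFn_toLp] with t h1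
      rw [hF, h1, inner_self_eq_norm_sq_to_K]
      simp
    exact_mod_cast h'.symm
  have h := hm F v (K := K) (fun i => by simpa only [i2] using hK i) hK0
  simpa only [i1, i3] using h

end Pool.Agent.GT
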