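import Mathlib
import Pool.Agent.GT.Defs

/-!
# GT/Kern: first derivative test for the phase `ξ' log (y + h) - ξ log y`

Put `γ = ξ h`, `α = ξ' - ξ`, `q(y) = y (y + h)`, `l(y) = α y - γ`.  The derivative of the phase `Φ` is `l(y) / q(y)`, so
`exp(iΦ)/q = (d/dy) (exp(iΦ)/(i l)) + α exp(iΦ)/(i l²)` where `l ≠ 0`.

PIECE: if `l ≥ λ > 0` on `[p, r] ⊂ (0, ∞)` or `l ≤ -λ` on it, then `|∫_p^r exp(iΦ)/q| ≤ 3/λ` (two boundary terms `≤ 1/λ` each, and
`∫ |α|/l² = |1/l(p) - 1/l(r)| ≤ 1/λ`; the case `α = 0` is included).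

MAIN. If `|γ| < 4 U`: trivial bound `∫_U^b dy/y² ≤ 1/U ≤ 2/sqrt(U|γ|)`.  Let `|γ| ≥ 4 U` and `λ = sqrt(|γ| U) ≤ |γ|/2`.  The set
`{y ∈ [U, b] : |l(y)| < λ}` is an interval (`l` is affine).  If it is not empty, then `|α| b ≥ |γ| - λ ≥ |γ|/2`, so its length is at most
`2λ/|α| ≤ 4 b λ/|γ| ≤ 4 Bc U λ / |γ|` and its contribution is at most `4 Bc λ/(|γ| U) = 4 Bc/λ` (`q ≥ U²`).  The rest consists of at most two
intervals, each contributes at most `3/λ`.  (By complex conjugation, i.e. replacing `(ξ, ξ')` by `(-ξ, -ξ')`, one may assume `α ≥ 0`; then the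
three pieces are `[U, p]`, `[p, r]`, `[r, b]` with `p, r` the values `(γ - λ)/α`, `(γ + λ)/α` clamped to `[U, b]`; for `α = 0` there is one piece.)
-/

namespace Pool.Agent.GT

open intervalIntegral MeasureTheory

private noncomputable def KernE (h ξ ξ' : ℝ) (y : ℝ) : ℂ :=
  Complex.exp (((ξ' * Real.log (y + h) - ξ * Real.log y : ℝ) : ℂ) * Complex.I)

private theorem KernE_norm (h ξ ξ' y : ℝ) : ‖KernE h ξ ξ' y‖ = 1 := by
  unfold KernE
  exact Complex.norm_exp_ofReal_mul_I _

private theorem KernE_deriv {h ξ ξ' y : ℝ} (hh : 0 < h) (hy : 0 < y) :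
    HasDerivAt (KernE h ξ ξ')
      (KernE h ξ ξ' y * (((((ξ' - ξ) * y - ξ * h) / (y * (y + h)) : ℝ) : ℂ) * Complex.I)) y := by
  have h1 : HasDerivAt (fun y : ℝ => ξ' * Real.log (y + h) - ξ * Real.log y)
      (((ξ' - ξ) * y - ξ * h) / (y * (y + h))) y := by
    have h2 := ((hasDerivAt_id y).add_const h).log (by simpa using (by positivity : (y + h) ≠ 0))
    have h3 := (Real.hasDerivAt_log hy.ne')
    have h4 : (y + h) ≠ 0 := by positivity
    have h5 : y ≠ 0 := hy.ne'
    have h6 : ((ξ' - ξ) * y - ξ * h) / (y * (y + h)) = ξ' * (1 / (y + h)) - ξ * y⁻¹ := by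
      field_simp
      ring
    rw [h6]
    exact (h2.const_mul ξ').sub (h3.const_mul ξ)
  exact (h1.ofReal_comp.mul_const Complex.I).cexp

private theorem Kern_piece {h ξ ξ' p r lam s : ℝ} (hh : 0 < h) (hp : 0 < p) (hpr : p ≤ r) (hl : 0 < lam)
    (hs : s = 1 ∨ s = -1)
    (hsl : ∀ y ∈ Set.Icc p r, lam ≤ s * ((ξ' - ξ) * y - ξ * h)) :
    ‖∫ y in p..r, KernE h ξ ξ' y / ((y * (y + h) : ℝ) : ℂ)‖ ≤ 3 / lam := by
  set α : ℝ := ξ' - ξ with hα
  set l : ℝ → ℝ := fun y => α * y - ξ * h with hldef
  have hss : s * s = 1 := by rcases hs with h | h <;> rw [h] <;> norm_num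
  have hs1 : |s| = 1 := by rcases hs with h | h <;> rw [h] <;> norm_num
  have hl0 : ∀ y ∈ Set.Icc p r, l y ≠ 0 := by
    intro y hy h0
    have := hsl y hy
    have h1 : s * ((ξ' - ξ) * y - ξ * h) = s * l y := rfl
    rw [h1, h0, mul_zero] at this
    linarith
  have hpos : ∀ y ∈ Set.Icc p r, 0 < y := fun y hy => lt_of_lt_of_le hp hy.1
  have hld : ∀ y, HasDerivAt l α y := by
    intro y
    have := ((hasDerivAt_id y).const_mul α).sub_const (ξ * h)
    rw [mul_one] at this
    exact this
  have hlc : Continuous l := by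
    simp only [hldef]
    fun_prop
  have hEc : ContinuousOn (KernE h ξ ξ') (Set.Icc p r) := fun y hy =>
    ((KernE_deriv hh (hpos y hy)).continuousAt).continuousWithinAt
  have hinv : ContinuousOn (fun y => (l y)⁻¹) (Set.Icc p r) := hlc.continuousOn.inv₀ hl0
  have hlinv : ∀ y ∈ Set.Icc p r, HasDerivAt (fun y => (l y)⁻¹) (-α / (l y) ^ 2) y := fun y hy =>
    (hld y).inv (hl0 y hy)
  -- the primitive
  set G : ℝ → ℂ := fun y => KernE h ξ ξ' y * (((l y)⁻¹ : ℝ) : ℂ) * (-Complex.I) with hG
  set A : ℝ → ℂ := fun y => KernE h ξ ξ' y / ((y * (y + h) : ℝ) : ℂ) with hA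
  set Bf : ℝ → ℂ := fun y => KernE h ξ ξ' y * (((α / (l y) ^ 2 : ℝ)) : ℂ) * Complex.I with hB
  have hGd : ∀ y ∈ Set.Icc p r, HasDerivAt G (A y + Bf y) y := by
    intro y hy
    have hy0 := hpos y hy
    have h1 := (KernE_deriv (ξ := ξ) (ξ' := ξ') hh hy0)
    have h2 := (hlinv y hy).ofReal_comp
    have h3 := (h1.mul h2).mul_const (-Complex.I)
    have hlc0 : ((l y : ℝ) : ℂ) ≠ 0 := by exact_mod_cast hl0 y hy
    have hyc : ((y : ℝ) : ℂ) ≠ 0 := by exact_mod_cast hy0.ne'
    have hyhc : (((y : ℝ) : ℂ) + (h : ℂ)) ≠ 0 := by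
      have : y + h ≠ 0 := by positivity
      exact_mod_cast this
    have hval : A y + Bf y =
      (KernE h ξ ξ' y * (((((ξ' - ξ) * y - ξ * h) / (y * (y + h)) : ℝ) : ℂ) * Complex.I) * (((l y)⁻¹ : ℝ) : ℂ) +
        KernE h ξ ξ' y * ((-α / (l y) ^ 2 : ℝ) : ℂ)) * (-Complex.I) := by
      have e1 : (ξ' - ξ) * y - ξ * h = l y := rfl
      show KernE h ξ ξ' y / ((y * (y + h) : ℝ) : ℂ) +
        KernE h ξ ξ' y * (((α / (l y) ^ 2 : ℝ)) : ℂ) * Complex.I = _
      rw [e1]
      push_cast
      have hI : Complex.I * Complex.I = -1 := Complex.I_mul_I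
      have e2 : KernE h ξ ξ' y * ((((l y : ℝ) : ℂ) / (((y : ℝ) : ℂ) * (((y : ℝ) : ℂ) + (h : ℂ)))) * Complex.I) *
          (((l y : ℝ) : ℂ))⁻¹ * (-Complex.I) =
          KernE h ξ ξ' y / (((y : ℝ) : ℂ) * (((y : ℝ) : ℂ) + (h : ℂ))) := by
        field_simp
        rw [show Complex.I ^ 2 = -1 from Complex.I_sq]
        ring
      rw [add_mul, e2]
      congr 1
      ring
    rw [hval]
    exact h3
  have hAc : ContinuousOn A (Set.Icc p r) := by
    refine hEc.div (by fun_prop) ?_
    intro y hy
    have hy0 := hpos y hy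
    have : (y * (y + h) : ℝ) ≠ 0 := by positivity
    exact_mod_cast this
  have hBc : ContinuousOn Bf (Set.Icc p r) := by
    refine (hEc.mul ?_).mul continuousOn_const
    refine Complex.continuous_ofReal.comp_continuousOn ?_
    refine continuousOn_const.div (hlc.pow 2).continuousOn ?_
    intro y hy
    exact pow_ne_zero 2 (hl0 y hy)
  have hAi : IntervalIntegrable A volume p r := by
    apply ContinuousOn.intervalIntegrable
    rwa [Set.uIcc_of_le hpr]
  have hBi : IntervalIntegrable Bf volume p r := by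
    apply ContinuousOn.intervalIntegrable
    rwa [Set.uIcc_of_le hpr]
  have hFTC : ∫ y in p..r, (A y + Bf y) = G r - G p := by
    refine integral_eq_sub_of_hasDerivAt ?_ (hAi.add hBi)
    intro y hy
    rw [Set.uIcc_of_le hpr] at hy
    exact hGd y hy
  have hAeq : ∫ y in p..r, A y = G r - G p - ∫ y in p..r, Bf y := by
    rw [← hFTC, integral_add hAi hBi]
    ring
  have hpI : p ∈ Set.Icc p r := ⟨le_rfl, hpr⟩
  have hrI : r ∈ Set.Icc p r := ⟨hpr, le_rfl⟩
  have habs : ∀ y ∈ Set.Icc p r, |(l y)⁻¹| ≤ 1 / lam := by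
    intro y hy
    have h1 := hsl y hy
    have h2 : lam ≤ |l y| := by
      calc lam ≤ s * l y := h1
        _ ≤ |s * l y| := le_abs_self _
        _ = |l y| := by rw [abs_mul, hs1, one_mul]
    rw [abs_inv, one_div]
    exact inv_anti₀ hl h2
  have hGn : ∀ y ∈ Set.Icc p r, ‖G y‖ ≤ 1 / lam := by
    intro y hy
    simp only [hG]
    rw [norm_mul, norm_mul, KernE_norm, one_mul, norm_neg, Complex.norm_I, mul_one, Complex.norm_real,
      Real.norm_eq_abs]
    exact habs y hy
  -- the last integral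
  have hH : ∀ y ∈ Set.Icc p r, HasDerivAt (fun y => -(l y)⁻¹) (α / (l y) ^ 2) y := by
    intro y hy
    have := (hlinv y hy).neg
    rw [neg_div, neg_neg] at this
    exact this
  have hrc : ContinuousOn (fun y => α / (l y) ^ 2) (Set.Icc p r) := by
    refine continuousOn_const.div (hlc.pow 2).continuousOn ?_
    intro y hy
    exact pow_ne_zero 2 (hl0 y hy)
  have hri : IntervalIntegrable (fun y => α / (l y) ^ 2) volume p r := by
    apply ContinuousOn.intervalIntegrable
    rwa [Set.uIcc_of_le hpr]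
  have hI1 : ∫ y in p..r, α / (l y) ^ 2 = (l p)⁻¹ - (l r)⁻¹ := by
    rw [integral_eq_sub_of_hasDerivAt (f := fun y => -(l y)⁻¹) ?_ hri]
    · ring
    · intro y hy
      rw [Set.uIcc_of_le hpr] at hy
      exact hH y hy
  have hsgn : ∀ y ∈ Set.Icc p r, 0 ≤ s * (l y)⁻¹ := by
    intro y hy
    have h1 : 0 < s * l y := lt_of_lt_of_le hl (hsl y hy)
    have h2 : s * (l y)⁻¹ = (s * l y) * ((l y)⁻¹) ^ 2 := by
      have := hl0 y hy
      field_simp
    rw [h2]
    positivity
  have hdiff : |(l p)⁻¹ - (l r)⁻¹| ≤ 1 / lam := by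
    have h1 := hsgn p hpI
    have h2 := hsgn r hrI
    have h3 : s * (l p)⁻¹ ≤ 1 / lam := by
      refine (le_abs_self _).trans ?_
      rw [abs_mul, hs1, one_mul]
      exact habs p hpI
    have h4 : s * (l r)⁻¹ ≤ 1 / lam := by
      refine (le_abs_self _).trans ?_
      rw [abs_mul, hs1, one_mul]
      exact habs r hrI
    have h5 : |(l p)⁻¹ - (l r)⁻¹| = |s * (l p)⁻¹ - s * (l r)⁻¹| := by
      rw [← mul_sub, abs_mul, hs1, one_mul]
    rw [h5, abs_le]
    constructor <;> linarith
  have hBn : ‖∫ y in p..r, Bf y‖ ≤ 1 / lam := by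
    obtain ⟨t, ht, ht2⟩ : ∃ t : ℝ, |t| = 1 ∧ |α| = t * α := by
      rcases le_total 0 α with h | h
      · exact ⟨1, by norm_num, by rw [abs_of_nonneg h]; ring⟩
      · exact ⟨-1, by norm_num, by rw [abs_of_nonpos h]; ring⟩
    calc ‖∫ y in p..r, Bf y‖ ≤ ∫ y in p..r, ‖Bf y‖ := intervalIntegral.norm_integral_le_integral_norm hpr
      _ = ∫ y in p..r, t * (α / (l y) ^ 2) := by
          refine integral_congr fun y _ => ?_
          simp only [hB]
          rw [norm_mul, norm_mul, KernE_norm, one_mul, Complex.norm_I, mul_one, Complex.norm_real,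
            Real.norm_eq_abs, abs_div, ht2, abs_of_nonneg (sq_nonneg (l y))]
          ring
      _ = t * ((l p)⁻¹ - (l r)⁻¹) := by rw [intervalIntegral.integral_const_mul, hI1]
      _ ≤ |t * ((l p)⁻¹ - (l r)⁻¹)| := le_abs_self _
      _ = |(l p)⁻¹ - (l r)⁻¹| := by rw [abs_mul, ht, one_mul]
      _ ≤ 1 / lam := hdiff
  rw [hAeq]
  calc ‖G r - G p - ∫ y in p..r, Bf y‖ ≤ ‖G r - G p‖ + ‖∫ y in p..r, Bf y‖ := norm_sub_le _ _
    _ ≤ (‖G r‖ + ‖G p‖) + ‖∫ y in p..r, Bf y‖ := by
        gcongr
        exact norm_sub_le _ _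
    _ ≤ (1 / lam + 1 / lam) + 1 / lam := by
        gcongr
        · exact hGn r hrI
        · exact hGn p hpI
    _ = 3 / lam := by ring

private theorem Kern_int {h ξ ξ' p r : ℝ} (hh : 0 < h) (hp : 0 < p) (hr : 0 < r) :
    IntervalIntegrable (fun y => KernE h ξ ξ' y / ((y * (y + h) : ℝ) : ℂ)) volume p r := by
  apply ContinuousOn.intervalIntegrable
  have hpos : ∀ y ∈ Set.uIcc p r, 0 < y := fun y hy => by
    have : min p r ≤ y := hy.1
    exact lt_of_lt_of_le (lt_min hp hr) this
  refine ContinuousOn.div ?_ (by fun_prop) ?_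
  · intro y hy
    exact ((KernE_deriv hh (hpos y hy)).continuousAt).continuousWithinAt
  · intro y hy
    have hy0 := hpos y hy
    have : (y * (y + h) : ℝ) ≠ 0 := by positivity
    exact_mod_cast this

private theorem Kern_triv {h ξ ξ' U p r : ℝ} (hh : 0 < h) (hU : 0 < U) (hUp : U ≤ p) (hpr : p ≤ r) :
    ‖∫ y in p..r, KernE h ξ ξ' y / ((y * (y + h) : ℝ) : ℂ)‖ ≤ (U ^ 2)⁻¹ * (r - p) := by
  have h1 : ∀ y ∈ Set.uIoc p r, ‖KernE h ξ ξ' y / ((y * (y + h) : ℝ) : ℂ)‖ ≤ (U ^ 2)⁻¹ := by
    intro y hy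
    rw [Set.uIoc_of_le hpr] at hy
    have hy1 : U ≤ y := hUp.trans hy.1.le
    have hy0 : 0 < y := hU.trans_le hy1
    rw [norm_div, KernE_norm, Complex.norm_real, Real.norm_eq_abs, abs_of_pos (by positivity), one_div]
    refine inv_anti₀ (by positivity) ?_
    nlinarith
  have h2 := norm_integral_le_of_norm_le_const h1
  rwa [abs_of_nonneg (sub_nonneg.mpr hpr)] at h2

/-- the trivial bound on the whole interval -/
private theorem Kern_triv2 {h ξ ξ' U b : ℝ} (hh : 0 < h) (hU : 0 < U) (hb : U ≤ b) :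
    ‖∫ y in U..b, KernE h ξ ξ' y / ((y * (y + h) : ℝ) : ℂ)‖ ≤ 1 / U := by
  have hpos : ∀ y ∈ Set.Icc U b, 0 < y := fun y hy => hU.trans_le hy.1
  have hc : ContinuousOn (fun y : ℝ => 1 / y ^ 2) (Set.Icc U b) := by
    refine continuousOn_const.div (by fun_prop) ?_
    intro y hy
    exact pow_ne_zero 2 (hpos y hy).ne'
  have hi : IntervalIntegrable (fun y : ℝ => 1 / y ^ 2) volume U b := by
    apply ContinuousOn.intervalIntegrable
    rwa [Set.uIcc_of_le hb]
  have h1 : ‖∫ y in U..b, KernE h ξ ξ' y / ((y * (y + h) : ℝ) : ℂ)‖ ≤ ∫ y in U..b, 1 / y ^ 2 := by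
    refine (intervalIntegral.norm_integral_le_integral_norm hb).trans ?_
    refine integral_mono_on hb (Kern_int hh hU (hU.trans_le hb)).norm hi ?_
    intro y hy
    have hy0 := hpos y hy
    rw [norm_div, KernE_norm, Complex.norm_real, Real.norm_eq_abs, abs_of_pos (by positivity)]
    refine one_div_le_one_div_of_le (by positivity) ?_
    nlinarith [mul_pos hy0 hh]
  have h2 : ∫ y in U..b, 1 / y ^ 2 = (-b⁻¹) - (-U⁻¹) := by
    refine integral_eq_sub_of_hasDerivAt (f := fun y : ℝ => -y⁻¹) ?_ hi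
    intro y hy
    rw [Set.uIcc_of_le hb] at hy
    have hy0 := hpos y hy
    have := (hasDerivAt_inv hy0.ne').neg
    rw [neg_neg, ← one_div] at this
    exact this
  rw [h2] at h1
  have h3 : 0 < b⁻¹ := inv_pos.mpr (hU.trans_le hb)
  rw [one_div]
  linarith

theorem kern {U h ξ ξ' b Bc : ℝ} (hU : 0 < U) (hh : 0 < h) (hξ : ξ ≠ 0) (hb1 : U ≤ b) (hb2 : b ≤ Bc * U) :
    ‖∫ y in U..b, Complex.exp (((ξ' * Real.log (y + h) - ξ * Real.log y : ℝ) : ℂ) * Complex.I) /
        ((y * (y + h) : ℝ) : ℂ)‖ ≤ (6 + 4 * Bc) / Real.sqrt (U * |ξ| * h) := by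
  change ‖∫ y in U..b, KernE h ξ ξ' y / ((y * (y + h) : ℝ) : ℂ)‖ ≤ (6 + 4 * Bc) / Real.sqrt (U * |ξ| * h)
  have hξ0 : 0 < |ξ| := abs_pos.mpr hξ
  have hBc : 1 ≤ Bc := by
    by_contra hcon
    push Not at hcon
    nlinarith
  have hb0 : 0 < b := hU.trans_le hb1
  set c : ℝ := |ξ| * h with hc
  have hc0 : 0 < c := by positivity
  set lam : ℝ := Real.sqrt (U * |ξ| * h) with hlam
  have hlam0 : 0 < lam := Real.sqrt_pos.mpr (by positivity)
  have hlam2 : lam ^ 2 = U * c := by
    rw [hlam, Real.sq_sqrt (by positivity), hc]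
    ring
  have hcabs : |ξ * h| = c := by rw [abs_mul, abs_of_pos hh]
  rcases lt_or_ge c (4 * U) with hsmall | hbig
  · have h1 : lam ≤ 2 * U := by
      have : lam ^ 2 ≤ (2 * U) ^ 2 := by
        rw [hlam2]
        nlinarith
      exact (pow_le_pow_iff_left₀ hlam0.le (by positivity) two_ne_zero).mp this
    refine (Kern_triv2 hh hU hb1).trans ?_
    rw [div_le_div_iff₀ hU hlam0]
    nlinarith
  · have hlamc : lam ≤ c / 2 := by
      have : lam ^ 2 ≤ (c / 2) ^ 2 := by
        rw [hlam2]
        nlinarith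
      exact (pow_le_pow_iff_left₀ hlam0.le (by positivity) two_ne_zero).mp this
    rcases eq_or_ne (ξ' - ξ) 0 with hα | hα
    · -- one piece
      have h1 : ∃ s : ℝ, (s = 1 ∨ s = -1) ∧ s * (-(ξ * h)) = c := by
        rcases le_total 0 (ξ * h) with h | h
        · exact ⟨-1, Or.inr rfl, by rw [← hcabs, abs_of_nonneg h]; ring⟩
        · exact ⟨1, Or.inl rfl, by rw [← hcabs, abs_of_nonpos h]; ring⟩
      obtain ⟨s, hs, hs2⟩ := h1
      refine (Kern_piece (s := s) hh hU hb1 hlam0 hs ?_).trans ?_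
      · intro y _
        rw [hα, zero_mul, zero_sub, hs2]
        linarith
      · gcongr
        linarith
    · have hα0 : 0 < |ξ' - ξ| := abs_pos.mpr hα
      set α : ℝ := ξ' - ξ with hαdef
      set g : ℝ := ξ * h with hg
      obtain ⟨t, ht, htα⟩ : ∃ t : ℝ, (t = 1 ∨ t = -1) ∧ t * α = |α| := by
        rcases le_total 0 α with h | h
        · exact ⟨1, Or.inl rfl, by rw [abs_of_nonneg h]; ring⟩
        · exact ⟨-1, Or.inr rfl, by rw [abs_of_nonpos h]; ring⟩
      have htt : t * t = 1 := by rcases ht with h | h <;> rw [h] <;> norm_num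
      have hta : |t| = 1 := by rcases ht with h | h <;> rw [h] <;> norm_num
      -- the centre and the radius
      set m : ℝ := t * g with hm
      set p : ℝ := max U (min b ((m - lam) / |α|)) with hp
      set r : ℝ := max U (min b ((m + lam) / |α|)) with hr
      have hle : (m - lam) / |α| ≤ (m + lam) / |α| := by
        gcongr
        linarith
      have hUp : U ≤ p := le_max_left _ _
      have hpr : p ≤ r := max_le_max le_rfl (min_le_min le_rfl hle)
      have hrb : r ≤ b := max_le hb1 (min_le_left _ _)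
      have hp0 : 0 < p := hU.trans_le hUp
      have hr0 : 0 < r := hp0.trans_le hpr
      -- the value of `t * l`
      have hval : ∀ y : ℝ, t * (α * y - g) = |α| * y - m := by
        intro y
        rw [mul_sub, ← mul_assoc, htα]
      have hp1 : ‖∫ y in U..p, KernE h ξ ξ' y / ((y * (y + h) : ℝ) : ℂ)‖ ≤ 3 / lam := by
        rcases eq_or_lt_of_le hUp with he | hlt
        · rw [← he, integral_same, norm_zero]
          positivity
        · have h1 : p ≤ (m - lam) / |α| := by
            rcases max_choice U (min b ((m - lam) / |α|)) with h | h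
            · exact absurd (h ▸ hp : p = U) hlt.ne'
            · rw [hp, h]
              exact min_le_right _ _
          refine Kern_piece (s := -t) hh hU hUp hlam0 ?_ ?_
          · rcases ht with h | h
            · exact Or.inr (by rw [h])
            · exact Or.inl (by rw [h]; norm_num)
          · intro y hy
            have h2 : y ≤ (m - lam) / |α| := hy.2.trans h1
            rw [le_div_iff₀ hα0] at h2
            have h3 := hval y
            rw [neg_mul, h3]
            linarith
      have hp2 : ‖∫ y in r..b, KernE h ξ ξ' y / ((y * (y + h) : ℝ) : ℂ)‖ ≤ 3 / lam := by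
        rcases eq_or_lt_of_le hrb with he | hlt
        · rw [he, integral_same, norm_zero]
          positivity
        · have h1 : (m + lam) / |α| ≤ r := by
            by_contra hcon
            push Not at hcon
            have h2 : min b ((m + lam) / |α|) ≤ r := le_max_right _ _
            rcases min_choice b ((m + lam) / |α|) with h | h
            · rw [h] at h2
              linarith
            · rw [h] at h2
              linarith
          refine Kern_piece (s := t) hh hr0 hrb hlam0 ht ?_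
          intro y hy
          have h2 : (m + lam) / |α| ≤ y := h1.trans hy.1
          rw [div_le_iff₀ hα0] at h2
          have h3 := hval y
          rw [h3]
          linarith
      have hpm : ‖∫ y in p..r, KernE h ξ ξ' y / ((y * (y + h) : ℝ) : ℂ)‖ ≤ 4 * Bc / lam := by
        rcases eq_or_lt_of_le hpr with he | hlt
        · rw [← he, integral_same, norm_zero]
          positivity
        · refine (Kern_triv hh hU hUp hpr).trans ?_
          -- the lower endpoint is below `b`, the upper one above `U`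
          have h1 : (m - lam) / |α| ≤ p := by
            by_contra hcon
            push Not at hcon
            have h2 : min b ((m - lam) / |α|) ≤ p := le_max_right _ _
            rcases min_choice b ((m - lam) / |α|) with h | h
            · rw [h] at h2
              linarith
            · rw [h] at h2
              linarith
          have h2 : r ≤ (m + lam) / |α| := by
            rcases max_choice U (min b ((m + lam) / |α|)) with h | h
            · have : r = U := by rw [hr, h]
              linarith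
            · rw [hr, h]
              exact min_le_right _ _
          have h3 : r - p ≤ 2 * lam / |α| := by
            have : 2 * lam / |α| = (m + lam) / |α| - (m - lam) / |α| := by ring
            rw [this]
            linarith
          -- a point with `|l| ≤ λ`
          have h4 : |g| ≤ |α| * b + lam := by
            have h5 : (m - lam) ≤ |α| * p := by
              rw [div_le_iff₀ hα0] at h1
              linarith
            have h6 : |α| * r ≤ m + lam := by
              rw [le_div_iff₀ hα0] at h2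
              linarith
            have h7 : |m| = |g| := by rw [hm, abs_mul, hta, one_mul]
            rw [← h7, abs_le]
            have h8 : |α| * p ≤ |α| * b := by gcongr; linarith
            have h9 : 0 ≤ |α| * b := by positivity
            have h10 : 0 ≤ |α| * r := by positivity
            constructor <;> linarith
          have h5 : c / 2 ≤ |α| * b := by
            have : |g| = c := hcabs
            linarith
          have h6 : 1 / |α| ≤ 2 * b / c := by
            rw [div_le_div_iff₀ hα0 hc0]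
            linarith
          have h7 : r - p ≤ 4 * Bc * U * lam / c := by
            calc r - p ≤ 2 * lam / |α| := h3
              _ = 2 * lam * (1 / |α|) := by ring
              _ ≤ 2 * lam * (2 * b / c) := by gcongr
              _ ≤ 2 * lam * (2 * (Bc * U) / c) := by gcongr
              _ = 4 * Bc * U * lam / c := by ring
          calc (U ^ 2)⁻¹ * (r - p) ≤ (U ^ 2)⁻¹ * (4 * Bc * U * lam / c) := by gcongr
            _ = 4 * Bc / lam := by
                have h8 : c = lam ^ 2 / U := by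
                  rw [hlam2]
                  field_simp
                rw [h8]
                field_simp
      have hsplit : ∫ y in U..b, KernE h ξ ξ' y / ((y * (y + h) : ℝ) : ℂ) =
          (∫ y in U..p, KernE h ξ ξ' y / ((y * (y + h) : ℝ) : ℂ)) +
          (∫ y in p..r, KernE h ξ ξ' y / ((y * (y + h) : ℝ) : ℂ)) +
          ∫ y in r..b, KernE h ξ ξ' y / ((y * (y + h) : ℝ) : ℂ) := by
        rw [integral_add_adjacent_intervals (Kern_int hh hU hp0) (Kern_int hh hp0 hr0),
          integral_add_adjacent_intervals (Kern_int hh hU hr0) (Kern_int hh hr0 hb0)]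
      rw [hsplit]
      calc ‖(∫ y in U..p, KernE h ξ ξ' y / ((y * (y + h) : ℝ) : ℂ)) +
          (∫ y in p..r, KernE h ξ ξ' y / ((y * (y + h) : ℝ) : ℂ)) +
          ∫ y in r..b, KernE h ξ ξ' y / ((y * (y + h) : ℝ) : ℂ)‖
          ≤ ‖∫ y in U..p, KernE h ξ ξ' y / ((y * (y + h) : ℝ) : ℂ)‖ +
          ‖∫ y in p..r, KernE h ξ ξ' y / ((y * (y + h) : ℝ) : ℂ)‖ +
          ‖∫ y in r..b, KernE h ξ ξ' y / ((y * (y + h) : ℝ) : ℂ)‖ := norm_add₃_le
        _ ≤ 3 / lam + 4 * Bc / lam + 3 / lam := by gcongr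
        _ = (6 + 4 * Bc) / lam := by ring

end Pool.Agent.GT
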