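import Mathlib
import Pool.Agent.GT.Defs
import Pool.Agent.GT.Kern
import Pool.Agent.GT.HM

/-!
# GT/Shift: coefficients of many shifts of one orbit

`s_i = i U / m ∈ [0, U)` for `i < m`, `B = 2^(d+1)`, `T = (B + 1) U`.  Let
`e_i(t) = per⁻¹ exp(-i ω κ_i log((t - s_i)/U)) / (t - s_i)` for `U ≤ t - s_i ≤ B U` and `0` otherwise (`|e_i| ≤ 1/(per U)`).  Then
`cf d U (κ_i) (b(· + s_i)) = ∫_0^T b(t) e_i(t) dt` (substitution).  Gram matrix: `⟨e_i, e_i⟩ ≤ 1/U`; for `s_j > s_i`, `h = s_j - s_i`, `y = t - s_j`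
(so `t - s_i = y + h`, `y ∈ [U, B U - h]`; empty if `B U - h < U`, which does not happen for `h ≤ U`) the integral of `e_i conj(e_j)` is
`per⁻²` times a unimodular constant (from `log U`) times `∫_U^{BU-h} exp(i (ξ' log(y+h) - ξ log y)) / (y (y+h)) dy` with `|ξ| = ω |κ_j| ≥ ω R`: by
`Kern.kern` at most `C / sqrt(U R h)`, `h = |i - j| U / m`, i.e. at most `(C/U) sqrt(m / (R |i - j|))`.  The other order is the conjugate.  Hence
`∑_j |⟨e_i, e_j⟩| ≤ (C/U) (1 + 2 ∑_{1 ≤ r ≤ m} sqrt(m/(R r))) ≤ (C/U) (1 + 4 m / sqrt R)` (`∑_{r ≤ m} r^(-1/2) ≤ 2 sqrt m`), and `HM.hm_fun` gives the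
claim.
-/

namespace Pool.Agent.GT

open MeasureTheory

private theorem Shift_sum1 (n : ℕ) : ∑ r ∈ Finset.range (n + 1), 1 / Real.sqrt (r : ℝ) ≤ 2 * Real.sqrt n := by
  induction n with
  | zero => simp
  | succ n ih =>
    rw [Finset.sum_range_succ]
    have h1 : 0 < Real.sqrt ((n + 1 : ℕ) : ℝ) := Real.sqrt_pos.mpr (by positivity)
    have h2 : 0 ≤ Real.sqrt (n : ℝ) := Real.sqrt_nonneg _
    have h3 : Real.sqrt ((n + 1 : ℕ) : ℝ) ^ 2 = n + 1 := by
      rw [Real.sq_sqrt (by positivity)]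
      push_cast
      ring
    have h4 : Real.sqrt (n : ℝ) ^ 2 = n := Real.sq_sqrt (by positivity)
    have h5 : 1 / Real.sqrt ((n + 1 : ℕ) : ℝ) ≤ 2 * Real.sqrt ((n + 1 : ℕ) : ℝ) - 2 * Real.sqrt (n : ℝ) := by
      rw [div_le_iff₀ h1]
      nlinarith [sq_nonneg (Real.sqrt ((n + 1 : ℕ) : ℝ) - Real.sqrt (n : ℝ))]
    linarith

private theorem Shift_sumA (n k : ℕ) :
    ∑ j ∈ Finset.range ((n + 1) + k), 1 / Real.sqrt ((n - j : ℕ) : ℝ) ≤ 2 * Real.sqrt n := by
  rw [Finset.sum_range_add]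
  have z : ∑ x ∈ Finset.range k, 1 / Real.sqrt ((n - (n + 1 + x) : ℕ) : ℝ) = 0 := by
    refine Finset.sum_eq_zero fun x _ => ?_
    have : n - (n + 1 + x) = 0 := by omega
    rw [this]
    simp
  rw [z, add_zero]
  have e2 : ∑ j ∈ Finset.range (n + 1), 1 / Real.sqrt ((n - j : ℕ) : ℝ) =
      ∑ j ∈ Finset.range (n + 1), 1 / Real.sqrt (j : ℝ) := by
    have := Finset.sum_range_reflect (fun j : ℕ => 1 / Real.sqrt (j : ℝ)) (n + 1)
    rw [← this]
    refine Finset.sum_congr rfl fun x hx => ?_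
    have : n + 1 - 1 - x = n - x := by omega
    rw [this]
  rw [e2]
  exact Shift_sum1 _

private theorem Shift_sumB (n k : ℕ) :
    ∑ j ∈ Finset.range (n + (k + 1)), 1 / Real.sqrt ((j - n : ℕ) : ℝ) ≤ 2 * Real.sqrt k := by
  rw [Finset.sum_range_add]
  have z : ∑ x ∈ Finset.range n, 1 / Real.sqrt ((x - n : ℕ) : ℝ) = 0 := by
    refine Finset.sum_eq_zero fun x hx => ?_
    have h3 : x < n := Finset.mem_range.mp hx
    have : x - n = 0 := by omega
    rw [this]
    simp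
  rw [z, zero_add]
  have e : ∑ x ∈ Finset.range (k + 1), 1 / Real.sqrt ((n + x - n : ℕ) : ℝ) =
      ∑ x ∈ Finset.range (k + 1), 1 / Real.sqrt (x : ℝ) := by
    refine Finset.sum_congr rfl fun x _ => ?_
    have : n + x - n = x := by omega
    rw [this]
  rw [e]
  exact Shift_sum1 _

private theorem Shift_sum2 {m : ℕ} (i : Fin m) :
    ∑ j : Fin m, (1 / Real.sqrt (((i : ℕ) - (j : ℕ) : ℕ) : ℝ) + 1 / Real.sqrt (((j : ℕ) - (i : ℕ) : ℕ) : ℝ)) ≤
      4 * Real.sqrt m := by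
  have hi : (i : ℕ) < m := i.2
  rw [Fin.sum_univ_eq_sum_range (fun j => 1 / Real.sqrt (((i : ℕ) - j : ℕ) : ℝ) +
    1 / Real.sqrt ((j - (i : ℕ) : ℕ) : ℝ)) m, Finset.sum_add_distrib]
  generalize (i : ℕ) = n at hi ⊢
  have hmono : ∀ a : ℕ, a ≤ m → 2 * Real.sqrt (a : ℝ) ≤ 2 * Real.sqrt (m : ℝ) := by
    intro a ha
    have : Real.sqrt (a : ℝ) ≤ Real.sqrt (m : ℝ) := Real.sqrt_le_sqrt (by exact_mod_cast ha)
    linarith
  have h1 : ∑ j ∈ Finset.range m, 1 / Real.sqrt ((n - j : ℕ) : ℝ) ≤ 2 * Real.sqrt m := by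
    have hA := Shift_sumA n (m - (n + 1))
    have hk : n + 1 + (m - (n + 1)) = m := by omega
    rw [hk] at hA
    exact hA.trans (hmono _ hi.le)
  have h2 : ∑ j ∈ Finset.range m, 1 / Real.sqrt ((j - n : ℕ) : ℝ) ≤ 2 * Real.sqrt m := by
    have hB := Shift_sumB n (m - n - 1)
    have hk : n + (m - n - 1 + 1) = m := by omega
    rw [hk] at hB
    exact hB.trans (hmono _ (by omega))
  linarith

private noncomputable def ShiftG (d : ℕ) (U : ℝ) (κ : ℤ) (y : ℝ) : ℂ :=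
  Complex.exp (((-(om d * κ * Real.log (y / U)) : ℝ) : ℂ) * Complex.I) / y

private noncomputable def ShiftE (d : ℕ) (U s : ℝ) (κ : ℤ) : ℝ → ℂ :=
  (Set.Ioc (U + s) (2 ^ (d + 1) * U + s)).indicator (fun t => ((per d)⁻¹ : ℝ) * ShiftG d U κ (t - s))

private theorem ShiftG_meas (d : ℕ) (U : ℝ) (κ : ℤ) : Measurable (ShiftG d U κ) := by
  unfold ShiftG
  fun_prop

private theorem ShiftE_meas (d : ℕ) (U s : ℝ) (κ : ℤ) : Measurable (ShiftE d U s κ) := by
  unfold ShiftE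
  refine Measurable.indicator ?_ measurableSet_Ioc
  exact ((ShiftG_meas d U κ).comp (measurable_id.sub_const s)).const_mul _

private theorem ShiftG_norm (d : ℕ) (U : ℝ) (κ : ℤ) {y : ℝ} (hy : 0 < y) : ‖ShiftG d U κ y‖ = 1 / y := by
  unfold ShiftG
  rw [norm_div, Complex.norm_exp_ofReal_mul_I, Complex.norm_real, Real.norm_eq_abs, abs_of_pos hy]

private theorem Shift_per_inv (d : ℕ) : 0 < (per d)⁻¹ ∧ (per d)⁻¹ ≤ 1 :=
  ⟨inv_pos.mpr (per_pos d), inv_le_one_of_one_le₀ (by have := per_ge d; linarith)⟩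

private theorem ShiftE_norm (d : ℕ) {U : ℝ} (hU : 0 < U) (s : ℝ) (κ : ℤ) (t : ℝ) :
    ‖ShiftE d U s κ t‖ ≤ 1 / U := by
  unfold ShiftE
  rw [Set.indicator_apply]
  split_ifs with h
  · have h1 : U < t - s := by
      have := h.1
      linarith
    have h2 : 0 < t - s := hU.trans h1
    rw [norm_mul, ShiftG_norm d U κ h2, Complex.norm_real, Real.norm_eq_abs, abs_of_pos (Shift_per_inv d).1]
    calc (per d)⁻¹ * (1 / (t - s)) ≤ 1 * (1 / U) := by
          refine mul_le_mul (Shift_per_inv d).2 (one_div_le_one_div_of_le hU h1.le) (by positivity) zero_le_one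
      _ = 1 / U := one_mul _
  · rw [norm_zero]
    positivity

private theorem ShiftE_cf (d : ℕ) {U s : ℝ} (hU : 0 < U) (hs : 0 ≤ s) (hsU : s ≤ U) (κ : ℤ) (b : ℝ → ℂ) :
    cf d U κ (fun t => b (t + s)) = ∫ t in (0 : ℝ)..((2 ^ (d + 1) + 1) * U), b t * ShiftE d U s κ t := by
  have hB : (2 : ℝ) ≤ 2 ^ (d + 1) := by
    calc (2 : ℝ) = 2 ^ 1 := by norm_num
      _ ≤ 2 ^ (d + 1) := pow_le_pow_right₀ (by norm_num) (by omega)
  have hT : (0 : ℝ) ≤ (2 ^ (d + 1) + 1) * U := by positivity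
  have hle : U + s ≤ 2 ^ (d + 1) * U + s := by nlinarith
  have e1 : cf d U κ (fun t => b (t + s)) =
      ((per d)⁻¹ : ℝ) * ∫ t in U..(2 ^ (d + 1) * U), (fun x => b x * ShiftG d U κ (x - s)) (t + s) := by
    unfold cf
    congr 1
    refine intervalIntegral.integral_congr fun t _ => ?_
    show _ = b (t + s) * ShiftG d U κ (t + s - s)
    rw [add_sub_cancel_right]
    rfl
  rw [e1, intervalIntegral.integral_comp_add_right (fun x => b x * ShiftG d U κ (x - s)) s,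
    intervalIntegral.integral_of_le hle, intervalIntegral.integral_of_le hT]
  have e2 : ∀ t, b t * ShiftE d U s κ t =
      (Set.Ioc (U + s) (2 ^ (d + 1) * U + s)).indicator
        (fun t => ((per d)⁻¹ : ℝ) * (b t * ShiftG d U κ (t - s))) t := by
    intro t
    unfold ShiftE
    rw [Set.indicator_apply, Set.indicator_apply]
    split_ifs with h
    · ring
    · rw [mul_zero]
  simp_rw [e2]
  rw [setIntegral_indicator measurableSet_Ioc]
  have e3 : Set.Ioc 0 ((2 ^ (d + 1) + 1) * U) ∩ Set.Ioc (U + s) (2 ^ (d + 1) * U + s) =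
      Set.Ioc (U + s) (2 ^ (d + 1) * U + s) := by
    refine Set.inter_eq_self_of_subset_right ?_
    intro t ht
    refine ⟨?_, ?_⟩
    · have := ht.1
      linarith
    · have := ht.2
      nlinarith
  rw [e3, integral_const_mul]

private theorem Shift_kern (d : ℕ) {U s s' : ℝ} (hU : 0 < U) (hs : 0 ≤ s) (hss : s < s') (hsU : s' ≤ U) (κ κ' : ℤ)
    (hκ : κ' ≠ 0) :
    ‖∫ t in (0 : ℝ)..((2 ^ (d + 1) + 1) * U), ShiftE d U s κ t * (starRingEnd ℂ) (ShiftE d U s' κ' t)‖ ≤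
      (6 + 4 * 2 ^ (d + 1)) / Real.sqrt (U * (om d * |(κ' : ℝ)|) * (s' - s)) := by
  have hB : (2 : ℝ) ≤ 2 ^ (d + 1) := by
    calc (2 : ℝ) = 2 ^ 1 := by norm_num
      _ ≤ 2 ^ (d + 1) := pow_le_pow_right₀ (by norm_num) (by omega)
  set B : ℝ := 2 ^ (d + 1) with hBdef
  have hT : (0 : ℝ) ≤ (B + 1) * U := by positivity
  set h : ℝ := s' - s with hh
  have hh0 : 0 < h := by rw [hh]; linarith
  have hhU : h ≤ U := by rw [hh]; linarith
  set ξ : ℝ := -(om d * κ') with hξ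
  set ξ' : ℝ := -(om d * κ) with hξ'
  have hξabs : |ξ| = om d * |(κ' : ℝ)| := by
    rw [hξ, abs_neg, abs_mul, abs_of_pos (om_pos d)]
  have hξ0 : ξ ≠ 0 := by
    rw [hξ]
    have h1 : (κ' : ℝ) ≠ 0 := by exact_mod_cast hκ
    exact neg_ne_zero.mpr (mul_ne_zero (om_pos d).ne' h1)
  set K : ℝ → ℂ := fun y => Complex.exp (((ξ' * Real.log (y + h) - ξ * Real.log y : ℝ) : ℂ) * Complex.I) /
    ((y * (y + h) : ℝ) : ℂ) with hK
  set c : ℂ := ((((per d)⁻¹ : ℝ) : ℂ) * (((per d)⁻¹ : ℝ) : ℂ)) *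
    Complex.exp (((-(ξ' - ξ) * Real.log U : ℝ) : ℂ) * Complex.I) with hc
  have hcn : ‖c‖ ≤ 1 := by
    rw [hc, norm_mul, norm_mul, Complex.norm_exp_ofReal_mul_I, Complex.norm_real, Real.norm_eq_abs,
      abs_of_pos (Shift_per_inv d).1, mul_one]
    exact mul_le_one₀ (Shift_per_inv d).2 (Shift_per_inv d).1.le (Shift_per_inv d).2
  have hle : U + s' ≤ B * U + s := by nlinarith
  have e2 : ∀ t, ShiftE d U s κ t * (starRingEnd ℂ) (ShiftE d U s' κ' t) =
      (Set.Ioc (U + s') (B * U + s)).indicator (fun t => c * K (t - s')) t := by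
    intro t
    unfold ShiftE
    rw [Set.indicator_apply, Set.indicator_apply, Set.indicator_apply]
    by_cases h3 : t ∈ Set.Ioc (U + s') (B * U + s)
    · have h1 : t ∈ Set.Ioc (U + s) (2 ^ (d + 1) * U + s) := ⟨by have := h3.1; linarith, h3.2⟩
      have h2 : t ∈ Set.Ioc (U + s') (2 ^ (d + 1) * U + s') := ⟨h3.1, by have := h3.2; linarith⟩
      rw [if_pos h1, if_pos h2, if_pos h3]
      have hy : 0 < t - s' := by have := h3.1; linarith
      have hy2 : 0 < t - s := by linarith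
      have ey : t - s' + h = t - s := by rw [hh]; ring
      unfold ShiftG
      simp only [hK]
      rw [ey, map_mul, map_div₀, ← Complex.exp_conj, map_mul, Complex.conj_ofReal, Complex.conj_ofReal,
        Complex.conj_ofReal, Complex.conj_I, Real.log_div hy2.ne' hU.ne', Real.log_div hy.ne' hU.ne', hc]
      have e5 : Complex.exp (((-(om d * κ * (Real.log (t - s) - Real.log U)) : ℝ) : ℂ) * Complex.I) *
          Complex.exp (((-(om d * κ' * (Real.log (t - s') - Real.log U)) : ℝ) : ℂ) * -Complex.I) =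
          Complex.exp (((-(ξ' - ξ) * Real.log U : ℝ) : ℂ) * Complex.I) *
          Complex.exp (((ξ' * Real.log (t - s) - ξ * Real.log (t - s') : ℝ) : ℂ) * Complex.I) := by
        rw [← Complex.exp_add, ← Complex.exp_add]
        congr 1
        rw [hξ, hξ']
        push_cast
        ring
      have hyc : ((t - s' : ℝ) : ℂ) ≠ 0 := by exact_mod_cast hy.ne'
      have hyc2 : ((t - s : ℝ) : ℂ) ≠ 0 := by exact_mod_cast hy2.ne'
      rw [Complex.ofReal_mul (t - s') (t - s)]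
      generalize Complex.exp (((-(om d * κ * (Real.log (t - s) - Real.log U)) : ℝ) : ℂ) * Complex.I) = E1 at e5 ⊢
      generalize Complex.exp (((-(om d * κ' * (Real.log (t - s') - Real.log U)) : ℝ) : ℂ) * -Complex.I) = E2 at e5 ⊢
      generalize Complex.exp (((-(ξ' - ξ) * Real.log U : ℝ) : ℂ) * Complex.I) = E3 at e5 ⊢
      generalize Complex.exp (((ξ' * Real.log (t - s) - ξ * Real.log (t - s') : ℝ) : ℂ) * Complex.I) = E4 at e5 ⊢
      generalize (((per d)⁻¹ : ℝ) : ℂ) = Q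
      calc Q * (E1 / ((t - s : ℝ) : ℂ)) * (Q * (E2 / ((t - s' : ℝ) : ℂ)))
          = Q * Q * (E1 * E2) / (((t - s' : ℝ) : ℂ) * ((t - s : ℝ) : ℂ)) := by
            field_simp
        _ = Q * Q * (E3 * E4) / (((t - s' : ℝ) : ℂ) * ((t - s : ℝ) : ℂ)) := by rw [e5]
        _ = _ := by
            field_simp
    · rw [if_neg h3]
      by_cases h1 : t ∈ Set.Ioc (U + s) (2 ^ (d + 1) * U + s)
      · have h2 : t ∉ Set.Ioc (U + s') (2 ^ (d + 1) * U + s') := fun h2 => h3 ⟨h2.1, h1.2⟩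
        rw [if_neg h2, map_zero, mul_zero]
      · rw [if_neg h1, zero_mul]
  rw [intervalIntegral.integral_of_le hT]
  simp_rw [e2]
  rw [setIntegral_indicator measurableSet_Ioc]
  have e3 : Set.Ioc 0 ((B + 1) * U) ∩ Set.Ioc (U + s') (B * U + s) = Set.Ioc (U + s') (B * U + s) := by
    refine Set.inter_eq_self_of_subset_right ?_
    intro t ht
    refine ⟨?_, ?_⟩
    · have := ht.1
      linarith
    · have := ht.2
      nlinarith
  rw [e3, integral_const_mul, ← intervalIntegral.integral_of_le hle,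
    intervalIntegral.integral_comp_sub_right K s', norm_mul]
  have e4 : U + s' - s' = U := by ring
  have e5 : B * U + s - s' = B * U - h := by rw [hh]; ring
  rw [e4, e5]
  have hk := kern (U := U) (h := h) (ξ := ξ) (ξ' := ξ') (b := B * U - h) (Bc := B) hU hh0 hξ0
    (by nlinarith) (by linarith)
  rw [hξabs] at hk
  calc ‖c‖ * ‖∫ x in U..(B * U - h), K x‖ ≤ 1 * ‖∫ x in U..(B * U - h), K x‖ := by gcongr
    _ = ‖∫ x in U..(B * U - h), K x‖ := one_mul _
    _ ≤ _ := hk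

private theorem Shift_symm (d : ℕ) (U s s' : ℝ) (κ κ' : ℤ) (T : ℝ) :
    ‖∫ t in (0 : ℝ)..T, ShiftE d U s κ t * (starRingEnd ℂ) (ShiftE d U s' κ' t)‖ =
      ‖∫ t in (0 : ℝ)..T, ShiftE d U s' κ' t * (starRingEnd ℂ) (ShiftE d U s κ t)‖ := by
  rw [← RCLike.norm_conj, intervalIntegral, map_sub, ← integral_conj, ← integral_conj, ← intervalIntegral]
  congr 1
  refine intervalIntegral.integral_congr fun t _ => ?_
  show (starRingEnd ℂ) (ShiftE d U s κ t * (starRingEnd ℂ) (ShiftE d U s' κ' t)) = _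
  rw [map_mul, Complex.conj_conj, mul_comm]

theorem shift_sum (d : ℕ) : ∃ C : ℝ, 0 < C ∧ ∀ (b : ℝ → ℂ), Continuous b → ∀ U : ℝ, 0 < U → ∀ m : ℕ, 1 ≤ m →
    ∀ R : ℝ, 1 ≤ R → ∀ κ : Fin m → ℤ, (∀ i, R ≤ |(κ i : ℝ)|) →
    ∑ i : Fin m, ‖cf d U (κ i) (fun t => b (t + i * U / m))‖ ^ 2 ≤
      C / U * (1 + m / Real.sqrt R) * ∫ t in (0 : ℝ)..((2 ^ (d + 1) + 1) * U), ‖b t‖ ^ 2 := by
  have hom := om_pos d
  have hsom : 0 < Real.sqrt (om d) := Real.sqrt_pos.mpr hom
  set B : ℝ := 2 ^ (d + 1) with hBdef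
  have hB0 : 0 < B := by positivity
  refine ⟨(B + 1) + 4 * (6 + 4 * B) / Real.sqrt (om d), by positivity, ?_⟩
  intro b hb U hU m hm R hR κ hκ
  have hm0 : (0 : ℝ) < m := by exact_mod_cast hm
  have hR0 : 0 < R := by linarith
  have hsR : 0 < Real.sqrt R := Real.sqrt_pos.mpr hR0
  have hsm : 0 < Real.sqrt (m : ℝ) := Real.sqrt_pos.mpr hm0
  have hT : (0 : ℝ) ≤ (B + 1) * U := by positivity
  set s : Fin m → ℝ := fun i => (i : ℝ) * U / m with hs
  have hs0 : ∀ i, 0 ≤ s i := fun i => by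
    simp only [hs]
    positivity
  have hsU : ∀ i, s i ≤ U := fun i => by
    simp only [hs]
    rw [div_le_iff₀ hm0]
    have : ((i : ℕ) : ℝ) ≤ m := by exact_mod_cast i.2.le
    nlinarith
  have hcf : ∀ i : Fin m, cf d U (κ i) (fun t => b (t + i * U / m)) =
      ∫ t in (0 : ℝ)..((B + 1) * U), b t * ShiftE d U (s i) (κ i) t := fun i =>
    ShiftE_cf d hU (hs0 i) (hsU i) (κ i) b
  simp_rw [hcf]
  set D : ℝ := (6 + 4 * B) / (U * Real.sqrt (om d)) * (Real.sqrt m / Real.sqrt R) with hD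
  have hD0 : 0 < D := by positivity
  -- off-diagonal entries
  have hoff : ∀ i j : Fin m, (i : ℕ) < (j : ℕ) →
      ‖∫ t in (0 : ℝ)..((B + 1) * U), ShiftE d U (s i) (κ i) t * (starRingEnd ℂ) (ShiftE d U (s j) (κ j) t)‖ ≤
        D * (1 / Real.sqrt (((j : ℕ) - (i : ℕ) : ℕ) : ℝ)) := by
    intro i j hij
    have hji : (0 : ℝ) < (((j : ℕ) - (i : ℕ) : ℕ) : ℝ) := by
      have : 0 < (j : ℕ) - (i : ℕ) := by omega
      exact_mod_cast this
    have hdiff : s j - s i = (((j : ℕ) - (i : ℕ) : ℕ) : ℝ) * U / m := by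
      simp only [hs]
      rw [Nat.cast_sub hij.le]
      ring
    have hκj : κ j ≠ 0 := by
      intro h0
      have := hκ j
      rw [h0] at this
      simp at this
      linarith
    have hlt : s i < s j := by
      have : 0 < s j - s i := by
        rw [hdiff]
        positivity
      linarith
    refine (Shift_kern d hU (hs0 i) hlt (hsU j) (κ i) (κ j) hκj).trans ?_
    set r : ℝ := (((j : ℕ) - (i : ℕ) : ℕ) : ℝ) with hr
    have hlow : (U * Real.sqrt (om d) * (Real.sqrt R * Real.sqrt r / Real.sqrt m)) ≤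
        Real.sqrt (U * (om d * |(κ j : ℝ)|) * (s j - s i)) := by
      refine Real.le_sqrt_of_sq_le ?_
      rw [hdiff, mul_pow, mul_pow, div_pow, mul_pow, Real.sq_sqrt hom.le, Real.sq_sqrt hR0.le,
        Real.sq_sqrt hji.le, Real.sq_sqrt hm0.le]
      have h1 := hκ j
      have e : U * (om d * |(κ j : ℝ)|) * (r * U / m) = U ^ 2 * om d * (|(κ j : ℝ)| * r / m) := by ring
      rw [e]
      gcongr
    have hpos : 0 < U * Real.sqrt (om d) * (Real.sqrt R * Real.sqrt r / Real.sqrt m) := by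
      have : 0 < Real.sqrt r := Real.sqrt_pos.mpr hji
      positivity
    calc (6 + 4 * 2 ^ (d + 1)) / Real.sqrt (U * (om d * |(κ j : ℝ)|) * (s j - s i))
        ≤ (6 + 4 * B) / (U * Real.sqrt (om d) * (Real.sqrt R * Real.sqrt r / Real.sqrt m)) := by
          gcongr
      _ = D * (1 / Real.sqrt r) := by
          have : 0 < Real.sqrt r := Real.sqrt_pos.mpr hji
          rw [hD]
          field_simp
  have hentry : ∀ i j : Fin m,
      ‖∫ t in (0 : ℝ)..((B + 1) * U), ShiftE d U (s i) (κ i) t * (starRingEnd ℂ) (ShiftE d U (s j) (κ j) t)‖ ≤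
        (if i = j then (B + 1) / U else 0) +
          D * (1 / Real.sqrt (((i : ℕ) - (j : ℕ) : ℕ) : ℝ) + 1 / Real.sqrt (((j : ℕ) - (i : ℕ) : ℕ) : ℝ)) := by
    intro i j
    rcases lt_trichotomy (i : ℕ) (j : ℕ) with h | h | h
    · have h1 := hoff i j h
      have h2 : (i : ℕ) - (j : ℕ) = 0 := by omega
      have h3 : i ≠ j := fun h' => by rw [h'] at h; exact lt_irrefl _ h
      rw [if_neg h3, h2, zero_add]
      simpa using h1
    · have h3 : i = j := Fin.ext h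
      subst h3
      rw [if_pos rfl]
      have h4 : ‖∫ t in (0 : ℝ)..((B + 1) * U), ShiftE d U (s i) (κ i) t *
          (starRingEnd ℂ) (ShiftE d U (s i) (κ i) t)‖ ≤ (1 / U * (1 / U)) * |(B + 1) * U - 0| := by
        refine intervalIntegral.norm_integral_le_of_norm_le_const fun t _ => ?_
        rw [norm_mul, RCLike.norm_conj]
        exact mul_le_mul (ShiftE_norm d hU _ _ t) (ShiftE_norm d hU _ _ t) (norm_nonneg _) (by positivity)
      have h5 : (1 / U * (1 / U)) * |(B + 1) * U - 0| = (B + 1) / U := by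
        rw [sub_zero, abs_of_nonneg hT]
        field_simp
      rw [h5] at h4
      simpa using h4
    · have h1 := hoff j i h
      have h2 : (j : ℕ) - (i : ℕ) = 0 := by omega
      have h3 : i ≠ j := fun h' => by rw [h'] at h; exact lt_irrefl _ h
      rw [if_neg h3, h2, zero_add, Shift_symm]
      simpa using h1
  set K : ℝ := ((B + 1) + 4 * (6 + 4 * B) / Real.sqrt (om d)) / U * (1 + m / Real.sqrt R) with hKdef
  have hK0 : 0 ≤ K := by positivity
  have hK : ∀ i : Fin m, ∑ j : Fin m,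
      ‖∫ t in (0 : ℝ)..((B + 1) * U), ShiftE d U (s i) (κ i) t * (starRingEnd ℂ) (ShiftE d U (s j) (κ j) t)‖ ≤ K := by
    intro i
    have h1 : ∑ j : Fin m,
        ‖∫ t in (0 : ℝ)..((B + 1) * U), ShiftE d U (s i) (κ i) t * (starRingEnd ℂ) (ShiftE d U (s j) (κ j) t)‖ ≤
        ∑ j : Fin m, ((if i = j then (B + 1) / U else 0) +
          D * (1 / Real.sqrt (((i : ℕ) - (j : ℕ) : ℕ) : ℝ) + 1 / Real.sqrt (((j : ℕ) - (i : ℕ) : ℕ) : ℝ))) :=
      Finset.sum_le_sum fun j _ => hentry i j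
    rw [Finset.sum_add_distrib, Finset.sum_ite_eq, if_pos (Finset.mem_univ i), ← Finset.mul_sum] at h1
    have h2 : D * (4 * Real.sqrt m) = 4 * (6 + 4 * B) / Real.sqrt (om d) / U * (m / Real.sqrt R) := by
      rw [hD]
      have h3 : Real.sqrt (m : ℝ) * Real.sqrt (m : ℝ) = m := Real.mul_self_sqrt hm0.le
      calc (6 + 4 * B) / (U * Real.sqrt (om d)) * (Real.sqrt m / Real.sqrt R) * (4 * Real.sqrt m)
          = 4 * (6 + 4 * B) / Real.sqrt (om d) / U * ((Real.sqrt (m : ℝ) * Real.sqrt (m : ℝ)) / Real.sqrt R) := by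
            field_simp
        _ = _ := by rw [h3]
    have h4 := mul_le_mul_of_nonneg_left (Shift_sum2 i) hD0.le
    rw [h2] at h4
    refine h1.trans ?_
    have h5 : 0 ≤ (B + 1) / U * (m / Real.sqrt R) := by positivity
    have h6 : 0 ≤ 4 * (6 + 4 * B) / Real.sqrt (om d) / U := by positivity
    have h7 : K = (B + 1) / U + 4 * (6 + 4 * B) / Real.sqrt (om d) / U +
        (B + 1) / U * (m / Real.sqrt R) + 4 * (6 + 4 * B) / Real.sqrt (om d) / U * (m / Real.sqrt R) := by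
      rw [hKdef]
      ring
    rw [h7]
    linarith
  exact hm_fun hT hb (fun i => ShiftE d U (s i) (κ i)) (fun i => ShiftE_meas d U _ _)
    (fun i t => ShiftE_norm d hU _ _ t) hK hK0

end Pool.Agent.GT
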