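import Mathlib
import Pool.Agent.GT.Defs
import Pool.Agent.GT.Shift

/-!
# GT/Key: the maximal coefficient is small in mean square

Let `m = ⌈sqrt R⌉`, `s_i = i U / m`.  By invariance of `μ` under `φ_{s_i}` the left side is
`∫⁻ (1/m) ∑_i Q.sup (κ ↦ ‖cf d U κ (t ↦ F(φ_t φ_{s_i} x))‖ₑ²)`, and `φ_t φ_{s_i} x = φ_{t + s_i} x`.  For fixed `x` choose `κ_i ∈ Q` where the supremum is attained
(`Q` not empty; `Q = ∅` trivial) and apply `Shift.shift_sum` to `b(t) = F(φ_t x)`: the sum is at most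
`(1/m) (C/U)(1 + m/sqrt R) ∫_0^{(B+1)U} ‖F(φ_t x)‖² dt ≤ (2C/(U sqrt R)) ∫_0^{(B+1)U} ‖F(φ_t x)‖² dt` (`1/m ≤ 1/sqrt R`).  Integrate over `x` (Tonelli,
invariance): `∫⁻ ∫_0^{(B+1)U} ‖F(φ_t x)‖ₑ² = (B+1) U ∫⁻ ‖F‖ₑ²`.
Measurability: `x ↦ cf d U κ (t ↦ F (φ t x))` is measurable (parametric integral of a jointly measurable function).  Please put this as a lemma
`cf_meas` in this file.
-/

namespace Pool.Agent.GT

open MeasureTheory

universe u

theorem cf_meas {X : Type*} [MeasurableSpace X] {μ : Measure X} {φ : ℝ → X → X} (hφ : IsFlow μ φ) {F : X → ℂ}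
    (hF : Measurable F) (d : ℕ) (U : ℝ) (κ : ℤ) : Measurable (fun x => cf d U κ (fun t => F (φ t x))) := by
  have h1 : Measurable (fun p : X × ℝ => F (φ p.2 p.1) *
      (Complex.exp (((-(om d * κ * Real.log (p.2 / U)) : ℝ) : ℂ) * Complex.I) / p.2)) := by
    refine (hF.comp (hφ.meas.comp (measurable_snd.prodMk measurable_fst))).mul ?_
    fun_prop
  have h2 := h1.stronglyMeasurable
  unfold cf
  simp only [intervalIntegral]
  refine Measurable.mul measurable_const (Measurable.sub ?_ ?_)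
  · exact (h2.integral_prod_right' (ν := volume.restrict (Set.Ioc U (2 ^ (d + 1) * U)))).measurable
  · exact (h2.integral_prod_right' (ν := volume.restrict (Set.Ioc (2 ^ (d + 1) * U) U))).measurable

private theorem Key_sup_meas {X : Type*} [MeasurableSpace X] (Q : Finset ℤ) (f : ℤ → X → ENNReal)
    (hf : ∀ κ, Measurable (f κ)) : Measurable (fun x => Q.sup (fun κ => f κ x)) := by
  classical
  induction Q using Finset.induction_on with
  | empty => simp only [Finset.sup_empty]; exact measurable_const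
  | insert a s ha ih =>
    simp only [Finset.sup_insert]
    exact (hf a).sup ih

private theorem Key_pt (d : ℕ) {C : ℝ} (hC : 0 < C)
    (hsh : ∀ (b : ℝ → ℂ), Continuous b → ∀ U : ℝ, 0 < U → ∀ m : ℕ, 1 ≤ m →
    ∀ R : ℝ, 1 ≤ R → ∀ κ : Fin m → ℤ, (∀ i, R ≤ |(κ i : ℝ)|) →
    ∑ i : Fin m, ‖cf d U (κ i) (fun t => b (t + i * U / m))‖ ^ 2 ≤
      C / U * (1 + m / Real.sqrt R) * ∫ t in (0 : ℝ)..((2 ^ (d + 1) + 1) * U), ‖b t‖ ^ 2)
    {X : Type*} [MeasurableSpace X] {μ : Measure X} {φ : ℝ → X → X} (hφ : IsFlow μ φ) {F : X → ℂ}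
    (hc : ∀ x, Continuous fun t => F (φ t x)) {U : ℝ} (hU : 0 < U) {R : ℝ} (hR : 1 ≤ R)
    {Q : Finset ℤ} (hQ : ∀ κ ∈ Q, R ≤ |(κ : ℝ)|) {m : ℕ} (hm : 1 ≤ m) (x : X) :
    ∑ i : Fin m, Q.sup (fun κ => ‖cf d U κ (fun t => F (φ t (φ (i * U / m) x)))‖ₑ ^ 2) ≤
      ENNReal.ofReal (C / U * (1 + m / Real.sqrt R)) *
        ∫⁻ t in Set.Ioc 0 ((2 ^ (d + 1) + 1) * U), ‖F (φ t x)‖ₑ ^ 2 := by
  have hB : (0 : ℝ) ≤ (2 ^ (d + 1) + 1) * U := by positivity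
  rcases Q.eq_empty_or_nonempty with h0 | h0
  · subst h0
    simp
  have hex : ∀ i : Fin m, ∃ κ ∈ Q, Q.sup (fun κ => ‖cf d U κ (fun t => F (φ t (φ (i * U / m) x)))‖ₑ ^ 2) =
      ‖cf d U κ (fun t => F (φ t (φ (i * U / m) x)))‖ₑ ^ 2 := fun i =>
    Finset.exists_mem_eq_sup Q h0 _
  choose κ hκ hκs using hex
  have h1 := hsh (fun t => F (φ t x)) (hc x) U hU m hm R hR κ (fun i => hQ _ (hκ i))
  have h2 : ∀ i : Fin m, (fun t => F (φ t (φ (i * U / m) x))) = fun t => F (φ (t + i * U / m) x) := by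
    intro i
    funext t
    rw [← hφ.add]
  have h3 : ∑ i : Fin m, Q.sup (fun κ => ‖cf d U κ (fun t => F (φ t (φ (i * U / m) x)))‖ₑ ^ 2) =
      ENNReal.ofReal (∑ i : Fin m, ‖cf d U (κ i) (fun t => F (φ (t + i * U / m) x))‖ ^ 2) := by
    rw [ENNReal.ofReal_sum_of_nonneg (fun i _ => by positivity)]
    refine Finset.sum_congr rfl fun i _ => ?_
    rw [hκs i, h2 i, ← ofReal_norm, ENNReal.ofReal_pow (norm_nonneg _)]
  have h4 : ENNReal.ofReal (∫ t in (0 : ℝ)..((2 ^ (d + 1) + 1) * U), ‖F (φ t x)‖ ^ 2) =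
      ∫⁻ t in Set.Ioc 0 ((2 ^ (d + 1) + 1) * U), ‖F (φ t x)‖ₑ ^ 2 := by
    rw [intervalIntegral.integral_of_le hB, ofReal_integral_eq_lintegral_ofReal]
    · refine lintegral_congr fun t => ?_
      rw [← ofReal_norm, ENNReal.ofReal_pow (norm_nonneg _)]
    · have : Continuous (fun t => ‖F (φ t x)‖ ^ 2) := (hc x).norm.pow 2
      exact (this.integrableOn_Icc (a := 0) (b := (2 ^ (d + 1) + 1) * U)).mono_set
        Set.Ioc_subset_Icc_self
    · exact Filter.Eventually.of_forall fun t => by positivity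
  rw [h3, ← h4, ← ENNReal.ofReal_mul (by positivity)]
  exact ENNReal.ofReal_le_ofReal h1

theorem key (d : ℕ) : ∃ C : ℝ, 0 < C ∧ ∀ (X : Type u) [MeasurableSpace X] (μ : Measure X) [IsFiniteMeasure μ]
    (φ : ℝ → X → X), IsFlow μ φ → ∀ F : X → ℂ, Measurable F → (∀ x, Continuous fun t => F (φ t x)) →
    ∀ U : ℝ, 0 < U → ∀ R : ℝ, 1 ≤ R → ∀ Q : Finset ℤ, (∀ κ ∈ Q, R ≤ |(κ : ℝ)|) →
    ∫⁻ x, Q.sup (fun κ => ‖cf d U κ (fun t => F (φ t x))‖ₑ ^ 2) ∂μ ≤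
      ENNReal.ofReal (C / Real.sqrt R) * ∫⁻ x, ‖F x‖ₑ ^ 2 ∂μ := by
  obtain ⟨C, hC, hsh⟩ := shift_sum d
  refine ⟨2 * C * (2 ^ (d + 1) + 1), by positivity, ?_⟩
  intro X _ μ _ φ hφ F hF hc U hU R hR Q hQ
  have hR0 : 0 < Real.sqrt R := Real.sqrt_pos.2 (by linarith)
  have hR1 : 1 ≤ Real.sqrt R := Real.one_le_sqrt.2 hR
  set m : ℕ := ⌈Real.sqrt R⌉₊ with hm
  have hmR : Real.sqrt R ≤ m := Nat.le_ceil _
  have hm1 : 1 ≤ m := Nat.one_le_iff_ne_zero.2 (by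
    intro h0
    rw [h0] at hmR
    push_cast at hmR
    linarith)
  have hm0 : (0 : ℝ) < m := by exact_mod_cast hm1
  set B : ℝ := (2 ^ (d + 1) + 1) * U with hB
  have hB0 : 0 < B := by positivity
  set g : X → ENNReal := fun x => Q.sup (fun κ => ‖cf d U κ (fun t => F (φ t x))‖ₑ ^ 2) with hg
  have hgm : Measurable g := Key_sup_meas Q _ fun κ => (cf_meas hφ hF d U κ).enorm.pow_const 2
  have h1 : ∀ s : ℝ, ∫⁻ x, g (φ s x) ∂μ = ∫⁻ x, g x ∂μ := fun s => (hφ.mp s).lintegral_comp hgm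
  have hE : Measurable (fun x => ‖F x‖ₑ ^ 2) := hF.enorm.pow_const 2
  have h2 : ∀ s : ℝ, ∫⁻ x, ‖F (φ s x)‖ₑ ^ 2 ∂μ = ∫⁻ x, ‖F x‖ₑ ^ 2 ∂μ := fun s =>
    (hφ.mp s).lintegral_comp hE
  have h3 : (m : ENNReal) * ∫⁻ x, g x ∂μ = ∫⁻ x, ∑ i : Fin m, g (φ (i * U / m) x) ∂μ := by
    have h30 : ∫⁻ x, ∑ i : Fin m, g (φ (i * U / m) x) ∂μ = ∑ i : Fin m, ∫⁻ x, g (φ (i * U / m) x) ∂μ :=
      lintegral_finsetSum _ (f := fun (i : Fin m) x => g (φ (i * U / m) x))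
        fun i _ => hgm.comp (hφ.mp _).measurable
    rw [h30]
    simp only [h1]
    simp
  have h4 : ∫⁻ x, (∫⁻ t in Set.Ioc 0 B, ‖F (φ t x)‖ₑ ^ 2) ∂μ =
      ENNReal.ofReal B * ∫⁻ x, ‖F x‖ₑ ^ 2 ∂μ := by
    rw [lintegral_lintegral_swap]
    · simp only [h2]
      rw [lintegral_const, Measure.restrict_apply MeasurableSet.univ, Set.univ_inter, Real.volume_Ioc,
        sub_zero, mul_comm]
    · exact (hE.comp (hφ.meas.comp (measurable_snd.prodMk measurable_fst))).aemeasurable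
  have h5 : (m : ENNReal) * ∫⁻ x, g x ∂μ ≤ ENNReal.ofReal (C / U * (1 + m / Real.sqrt R)) *
      (ENNReal.ofReal B * ∫⁻ x, ‖F x‖ₑ ^ 2 ∂μ) := by
    rw [h3, ← h4, ← lintegral_const_mul']
    · exact lintegral_mono fun x => Key_pt d hC hsh hφ hc hU hR hQ hm1 x
    · exact ENNReal.ofReal_ne_top
  have h6 : ENNReal.ofReal (C / U * (1 + m / Real.sqrt R)) * ENNReal.ofReal B ≤
      (m : ENNReal) * ENNReal.ofReal (2 * C * (2 ^ (d + 1) + 1) / Real.sqrt R) := by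
    rw [← ENNReal.ofReal_mul (by positivity), ← ENNReal.ofReal_natCast, ← ENNReal.ofReal_mul (by positivity)]
    refine ENNReal.ofReal_le_ofReal ?_
    have e1 : (1 : ℝ) ≤ m / Real.sqrt R := (one_le_div hR0).2 hmR
    have e2 : C / U * (1 + m / Real.sqrt R) ≤ C / U * (2 * (m / Real.sqrt R)) :=
      mul_le_mul_of_nonneg_left (by linarith) (by positivity)
    calc C / U * (1 + m / Real.sqrt R) * B ≤ C / U * (2 * (m / Real.sqrt R)) * B :=
          mul_le_mul_of_nonneg_right e2 hB0.le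
      _ = m * (2 * C * (2 ^ (d + 1) + 1) / Real.sqrt R) := by
          rw [hB]
          field_simp
  have hmt : (m : ENNReal) ≠ ⊤ := ENNReal.natCast_ne_top m
  have hm0' : (m : ENNReal) ≠ 0 := by
    exact_mod_cast (by omega : m ≠ 0)
  have h7 : (m : ENNReal) * ∫⁻ x, g x ∂μ ≤ (m : ENNReal) *
      (ENNReal.ofReal (2 * C * (2 ^ (d + 1) + 1) / Real.sqrt R) * ∫⁻ x, ‖F x‖ₑ ^ 2 ∂μ) := by
    refine h5.trans ?_
    rw [← mul_assoc, ← mul_assoc]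
    exact mul_le_mul_left h6 _
  exact (ENNReal.mul_le_mul_iff_right hm0' hmt).1 h7

end Pool.Agent.GT
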