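import Mathlib
import Pool.Agent.GT.Defs
import Pool.Agent.GT.Key

/-!
# GT/LowF: coefficients of low frequency of a difference

`B = 2^(d+1) ≥ 2`, `w_κ(t) = exp(-i ω κ log(t/U)) / t`, so `|w_κ| ≤ 1/U` for `t ≥ U` and `|w_κ(t) - w_κ(t - M)| ≤ M (1 + ω|κ|)/U²` for `t - M ≥ U`
(mean value inequality).  With `g_t = g(φ_t x)`:
`per · cf = ∫_U^{BU} g_t w_κ(t) dt - ∫_{U+M}^{BU+M} g_t w_κ(t - M) dt
 = ∫_U^{U+M} g_t w_κ(t) - ∫_{BU}^{BU+M} g_t w_κ(t-M) + ∫_{U+M}^{BU} g_t (w_κ(t) - w_κ(t-M))` (`U + M ≤ 2U ≤ BU`), hence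
`|cf| ≤ (1/U) ∫_U^{U+M} |g_t| + (1/U) ∫_{BU}^{BU+M} |g_t| + (M(1+ωR)/U²) ∫_U^{BU} |g_t|` for all `|κ| ≤ R`; the right side does not depend on `κ`.
Square, `(a+b+c)² ≤ 3(a²+b²+c²)`, and `∫⁻ (∫_p^r |g(φ_t x)| dt)² dμ ≤ (r-p)² ∫⁻ ‖g‖ₑ²` (Cauchy–Schwarz, Tonelli, invariance; please put this as
a lemma `sq_orbit_le` in this file, it is used by `Osc`).
-/

namespace Pool.Agent.GT

open MeasureTheory

universe u

/-- the square of an integral along orbits -/
theorem sq_orbit_le {X : Type*} [MeasurableSpace X] {μ : Measure X} [IsFiniteMeasure μ] {φ : ℝ → X → X}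
    (hφ : IsFlow μ φ) {g : X → ℂ} (hg : Measurable g) {p r : ℝ} (hpr : p ≤ r) :
    ∫⁻ x, (∫⁻ t in Set.Icc p r, ‖g (φ t x)‖ₑ) ^ 2 ∂μ ≤ ENNReal.ofReal ((r - p) ^ 2) * ∫⁻ x, ‖g x‖ₑ ^ 2 ∂μ := by
  have hE : Measurable (fun x => ‖g x‖ₑ ^ 2) := hg.enorm.pow_const 2
  have hj : Measurable (fun q : X × ℝ => ‖g (φ q.2 q.1)‖ₑ) :=
    (hg.comp (hφ.meas.comp (measurable_snd.prodMk measurable_fst))).enorm
  have hcs : ∀ x, (∫⁻ t in Set.Icc p r, ‖g (φ t x)‖ₑ) ^ 2 ≤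
      ENNReal.ofReal (r - p) * ∫⁻ t in Set.Icc p r, ‖g (φ t x)‖ₑ ^ 2 := by
    intro x
    have hm : Measurable (fun t => ‖g (φ t x)‖ₑ) := hj.comp measurable_prodMk_left
    have h1 := ENNReal.lintegral_mul_le_Lp_mul_Lq (volume.restrict (Set.Icc p r)) (p := 2) (q := 2)
      Real.HolderConjugate.two_two (f := fun t => ‖g (φ t x)‖ₑ) (g := fun _ => 1) hm.aemeasurable
      aemeasurable_const
    simp only [Pi.mul_apply, mul_one, ENNReal.one_rpow, lintegral_const, Measure.restrict_apply MeasurableSet.univ,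
      Set.univ_inter, Real.volume_Icc, one_mul] at h1
    have h2 : (∫⁻ t in Set.Icc p r, ‖g (φ t x)‖ₑ ^ (2 : ℝ)) = ∫⁻ t in Set.Icc p r, ‖g (φ t x)‖ₑ ^ 2 := by
      refine lintegral_congr fun t => ?_
      rw [show (2 : ℝ) = ((2 : ℕ) : ℝ) by norm_num, ENNReal.rpow_natCast]
    rw [h2] at h1
    calc (∫⁻ t in Set.Icc p r, ‖g (φ t x)‖ₑ) ^ 2
        ≤ ((∫⁻ t in Set.Icc p r, ‖g (φ t x)‖ₑ ^ 2) ^ (1 / 2 : ℝ) * ENNReal.ofReal (r - p) ^ (1 / 2 : ℝ)) ^ 2 :=
          pow_le_pow_left' h1 2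
      _ = ENNReal.ofReal (r - p) * ∫⁻ t in Set.Icc p r, ‖g (φ t x)‖ₑ ^ 2 := by
          rw [mul_pow, ← ENNReal.rpow_natCast, ← ENNReal.rpow_natCast, ← ENNReal.rpow_mul, ← ENNReal.rpow_mul]
          norm_num
          rw [mul_comm]
  calc ∫⁻ x, (∫⁻ t in Set.Icc p r, ‖g (φ t x)‖ₑ) ^ 2 ∂μ
      ≤ ∫⁻ x, (ENNReal.ofReal (r - p) * ∫⁻ t in Set.Icc p r, ‖g (φ t x)‖ₑ ^ 2) ∂μ := lintegral_mono hcs
    _ = ENNReal.ofReal (r - p) * ∫⁻ x, (∫⁻ t in Set.Icc p r, ‖g (φ t x)‖ₑ ^ 2) ∂μ :=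
        lintegral_const_mul' _ _ ENNReal.ofReal_ne_top
    _ = ENNReal.ofReal (r - p) * ∫⁻ t in Set.Icc p r, (∫⁻ x, ‖g (φ t x)‖ₑ ^ 2 ∂μ) := by
        rw [lintegral_lintegral_swap]
        exact (hj.pow_const 2).aemeasurable
    _ = ENNReal.ofReal (r - p) * (ENNReal.ofReal (r - p) * ∫⁻ x, ‖g x‖ₑ ^ 2 ∂μ) := by
        congr 1
        have h : ∀ t : ℝ, ∫⁻ x, ‖g (φ t x)‖ₑ ^ 2 ∂μ = ∫⁻ x, ‖g x‖ₑ ^ 2 ∂μ := fun t =>
          (hφ.mp t).lintegral_comp hE
        simp only [h]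
        rw [lintegral_const, Measure.restrict_apply MeasurableSet.univ, Set.univ_inter, Real.volume_Icc, mul_comm]
    _ = ENNReal.ofReal ((r - p) ^ 2) * ∫⁻ x, ‖g x‖ₑ ^ 2 ∂μ := by
        rw [← mul_assoc, ← ENNReal.ofReal_mul (by linarith), sq]

/-- the weight -/
private noncomputable def LW (d : ℕ) (U : ℝ) (κ : ℤ) (t : ℝ) : ℂ :=
  Complex.exp (((-(om d * κ * Real.log (t / U)) : ℝ) : ℂ) * Complex.I) / t

private theorem LW_norm (d : ℕ) {U : ℝ} (κ : ℤ) {t : ℝ} (hU : 0 < U) (ht : U ≤ t) : ‖LW d U κ t‖ ≤ 1 / U := by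
  unfold LW
  rw [norm_div, Complex.norm_exp_ofReal_mul_I, Complex.norm_real, Real.norm_eq_abs, abs_of_pos (by linarith)]
  exact one_div_le_one_div_of_le hU ht

private theorem LW_deriv (d : ℕ) {U : ℝ} (κ : ℤ) {t : ℝ} (hU : 0 < U) (ht : 0 < t) :
    HasDerivAt (LW d U κ) ((Complex.exp (((-(om d * κ * Real.log (t / U)) : ℝ) : ℂ) * Complex.I) *
      (((-(om d * κ * (1 / t)) : ℝ) : ℂ) * Complex.I) * t -
      Complex.exp (((-(om d * κ * Real.log (t / U)) : ℝ) : ℂ) * Complex.I) * 1) / (t : ℂ) ^ 2) t := by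
  unfold LW
  have h1 : HasDerivAt (fun t : ℝ => -(om d * κ * Real.log (t / U))) (-(om d * κ * (1 / t))) t := by
    have h0 : HasDerivAt (fun t : ℝ => Real.log (t / U)) (1 / t) t := by
      have hh : (1 : ℝ) / t = 1 / U / (t / U) := by field_simp
      rw [hh]
      exact ((hasDerivAt_id t).div_const U).log (by show t / U ≠ 0; positivity)
    exact (h0.const_mul _).neg
  have h2 : HasDerivAt (fun t : ℝ => Complex.exp (((-(om d * κ * Real.log (t / U)) : ℝ) : ℂ) * Complex.I))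
      (Complex.exp (((-(om d * κ * Real.log (t / U)) : ℝ) : ℂ) * Complex.I) *
        (((-(om d * κ * (1 / t)) : ℝ) : ℂ) * Complex.I)) t :=
    (h1.ofReal_comp.mul_const Complex.I).cexp
  have h3 : HasDerivAt (fun t : ℝ => (t : ℂ)) 1 t := (hasDerivAt_id t).ofReal_comp
  exact h2.div h3 (by exact_mod_cast ht.ne')

private theorem LW_lip (d : ℕ) {U M R : ℝ} {κ : ℤ} (hU : 0 < U) (hM : 0 < M) (hκ : |(κ : ℝ)| ≤ R) {t : ℝ}
    (ht : U ≤ t - M) : ‖LW d U κ t - LW d U κ (t - M)‖ ≤ (1 + om d * R) / U ^ 2 * M := by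
  have hom := om_pos d
  have hR : 0 ≤ R := le_trans (abs_nonneg _) hκ
  have key := Convex.norm_image_sub_le_of_norm_hasDerivWithin_le (s := Set.Ici U) (f := LW d U κ)
    (f' := fun t => ((Complex.exp (((-(om d * κ * Real.log (t / U)) : ℝ) : ℂ) * Complex.I) *
      (((-(om d * κ * (1 / t)) : ℝ) : ℂ) * Complex.I) * t -
      Complex.exp (((-(om d * κ * Real.log (t / U)) : ℝ) : ℂ) * Complex.I) * 1) / (t : ℂ) ^ 2))
    (C := (1 + om d * R) / U ^ 2) (x := t - M) (y := t)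
    (fun s hs => (LW_deriv d κ hU (lt_of_lt_of_le hU hs)).hasDerivWithinAt) ?_ (convex_Ici U) ht
    (by show U ≤ t; linarith)
  · refine key.trans (le_of_eq ?_)
    rw [sub_sub_cancel, Real.norm_eq_abs, abs_of_pos hM]
  · intro s hs
    have hs' : U ≤ s := hs
    have hs0 : 0 < s := lt_of_lt_of_le hU hs'
    rw [norm_div, norm_pow, Complex.norm_real, Real.norm_eq_abs, abs_of_pos hs0]
    have h1 : ‖Complex.exp (((-(om d * κ * Real.log (s / U)) : ℝ) : ℂ) * Complex.I) *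
        (((-(om d * κ * (1 / s)) : ℝ) : ℂ) * Complex.I) * s -
        Complex.exp (((-(om d * κ * Real.log (s / U)) : ℝ) : ℂ) * Complex.I) * 1‖ ≤ 1 + om d * R := by
      refine (norm_sub_le _ _).trans ?_
      rw [norm_mul, norm_mul, norm_mul, norm_mul, Complex.norm_exp_ofReal_mul_I, Complex.norm_real, Complex.norm_I,
        Complex.norm_real, norm_one, Real.norm_eq_abs, Real.norm_eq_abs, abs_of_pos hs0, abs_neg, abs_mul, abs_mul,
        abs_of_pos hom, abs_of_pos (by positivity : 0 < 1 / s)]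
      have h2 : 1 * (om d * |(κ : ℝ)| * (1 / s) * 1) * s = om d * |(κ : ℝ)| := by
        field_simp
      rw [h2]
      have := mul_le_mul_of_nonneg_left hκ hom.le
      linarith
    have h3 : U ^ 2 ≤ s ^ 2 := pow_le_pow_left₀ hU.le hs' 2
    exact div_le_div₀ (by positivity) h1 (by positivity) h3

private theorem LW_cont (d : ℕ) {U : ℝ} (κ : ℤ) (hU : 0 < U) : ContinuousOn (LW d U κ) (Set.Ici U) := fun t ht =>
  (LW_deriv d κ hU (lt_of_lt_of_le hU ht)).continuousAt.continuousWithinAt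

/-- the pointwise bound for a continuous orbit -/
private theorem LW_pt (d : ℕ) {U M R : ℝ} {κ : ℤ} (hM : 0 < M) (hMU : M ≤ U) (hκ : |(κ : ℝ)| ≤ R)
    {b : ℝ → ℂ} (hb : Continuous b) :
    ‖cf d U κ (fun t => b t - b (M + t))‖ ≤ 1 / U * (∫ t in U..(U + M), ‖b t‖) +
      1 / U * (∫ t in (2 ^ (d + 1) * U)..(2 ^ (d + 1) * U + M), ‖b t‖) +
      (1 + om d * R) / U ^ 2 * M * (∫ t in U..(2 ^ (d + 1) * U), ‖b t‖) := by
  have hU : 0 < U := lt_of_lt_of_le hM hMU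
  have hom := om_pos d
  have hR : 0 ≤ R := le_trans (abs_nonneg _) hκ
  set B : ℝ := 2 ^ (d + 1) * U with hB
  have hB2 : 2 * U ≤ B := by
    rw [hB]
    refine mul_le_mul_of_nonneg_right ?_ hU.le
    calc (2 : ℝ) = 2 ^ 1 := (pow_one 2).symm
      _ ≤ 2 ^ (d + 1) := pow_le_pow_right₀ (by norm_num) (by omega)
  have hUM : U + M ≤ B := by linarith
  have hc1 : ContinuousOn (fun t => b t * LW d U κ t) (Set.Ici U) := hb.continuousOn.mul (LW_cont d κ hU)
  have hc2 : ContinuousOn (fun t => b t * LW d U κ (t - M)) (Set.Ici (U + M)) := by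
    refine hb.continuousOn.mul ((LW_cont d κ hU).comp (by fun_prop) ?_)
    intro t ht
    have : U + M ≤ t := ht
    show U ≤ t - M
    linarith
  have hc3 : ContinuousOn (fun t => b (M + t) * LW d U κ t) (Set.Ici U) :=
    (by fun_prop : Continuous fun t => b (M + t)).continuousOn.mul (LW_cont d κ hU)
  have hi1 : ∀ p r : ℝ, U ≤ p → U ≤ r → IntervalIntegrable (fun t => b t * LW d U κ t) volume p r := by
    intro p r hp hr
    refine (hc1.mono ?_).intervalIntegrable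
    intro t ht
    rw [Set.mem_uIcc] at ht
    show U ≤ t
    rcases ht with ht | ht <;> linarith [ht.1]
  have hi2 : ∀ p r : ℝ, U + M ≤ p → U + M ≤ r →
      IntervalIntegrable (fun t => b t * LW d U κ (t - M)) volume p r := by
    intro p r hp hr
    refine (hc2.mono ?_).intervalIntegrable
    intro t ht
    rw [Set.mem_uIcc] at ht
    show U + M ≤ t
    rcases ht with ht | ht <;> linarith [ht.1]
  have hi3 : IntervalIntegrable (fun t => b (M + t) * LW d U κ t) volume U B := by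
    refine (hc3.mono ?_).intervalIntegrable
    intro t ht
    rw [Set.uIcc_of_le (by linarith)] at ht
    exact ht.1
  have e1 : (∫ t in U..B, (b t - b (M + t)) * LW d U κ t) =
      (∫ t in U..B, b t * LW d U κ t) - ∫ t in U..B, b (M + t) * LW d U κ t := by
    rw [← intervalIntegral.integral_sub (hi1 U B le_rfl (by linarith)) hi3]
    refine intervalIntegral.integral_congr fun t _ => ?_
    show _ = _ - _
    ring
  have e2 : (∫ t in U..B, b (M + t) * LW d U κ t) = ∫ t in (U + M)..(B + M), b t * LW d U κ (t - M) := by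
    have := intervalIntegral.integral_comp_add_left (a := U) (b := B) (fun t => b t * LW d U κ (t - M)) M
    simp only [add_sub_cancel_left] at this
    rw [this, add_comm M U, add_comm M B]
  have e3 : (∫ t in U..B, b t * LW d U κ t) =
      (∫ t in U..(U + M), b t * LW d U κ t) + ∫ t in (U + M)..B, b t * LW d U κ t :=
    (intervalIntegral.integral_add_adjacent_intervals (hi1 _ _ le_rfl (by linarith))
      (hi1 _ _ (by linarith) (by linarith))).symm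
  have e4 : (∫ t in (U + M)..(B + M), b t * LW d U κ (t - M)) =
      (∫ t in (U + M)..B, b t * LW d U κ (t - M)) + ∫ t in B..(B + M), b t * LW d U κ (t - M) :=
    (intervalIntegral.integral_add_adjacent_intervals (hi2 _ _ le_rfl hUM)
      (hi2 _ _ hUM (by linarith))).symm
  have e5 : (∫ t in (U + M)..B, b t * (LW d U κ t - LW d U κ (t - M))) =
      (∫ t in (U + M)..B, b t * LW d U κ t) - ∫ t in (U + M)..B, b t * LW d U κ (t - M) := by
    rw [← intervalIntegral.integral_sub (hi1 _ _ (by linarith) (by linarith)) (hi2 _ _ le_rfl hUM)]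
    refine intervalIntegral.integral_congr fun t _ => ?_
    show _ = _ - _
    ring
  have e6 : (∫ t in U..B, (b t - b (M + t)) * LW d U κ t) =
      (∫ t in U..(U + M), b t * LW d U κ t) - (∫ t in B..(B + M), b t * LW d U κ (t - M)) +
      ∫ t in (U + M)..B, b t * (LW d U κ t - LW d U κ (t - M)) := by
    rw [e1, e2, e3, e4, e5]
    ring
  have hbi : ∀ p r : ℝ, IntervalIntegrable (fun t => ‖b t‖) volume p r := fun p r =>
    hb.norm.intervalIntegrable p r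
  have n1 : ‖∫ t in U..(U + M), b t * LW d U κ t‖ ≤ 1 / U * ∫ t in U..(U + M), ‖b t‖ := by
    rw [← intervalIntegral.integral_const_mul]
    refine intervalIntegral.norm_integral_le_of_norm_le (by linarith) ?_ ((hbi _ _).const_mul _)
    refine Filter.Eventually.of_forall fun t ht => ?_
    rw [norm_mul, mul_comm]
    exact mul_le_mul_of_nonneg_right (LW_norm d κ hU ht.1.le) (norm_nonneg _)
  have n2 : ‖∫ t in B..(B + M), b t * LW d U κ (t - M)‖ ≤ 1 / U * ∫ t in B..(B + M), ‖b t‖ := by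
    rw [← intervalIntegral.integral_const_mul]
    refine intervalIntegral.norm_integral_le_of_norm_le (by linarith) ?_ ((hbi _ _).const_mul _)
    refine Filter.Eventually.of_forall fun t ht => ?_
    rw [norm_mul, mul_comm]
    have := ht.1
    exact mul_le_mul_of_nonneg_right (LW_norm d κ hU (by linarith)) (norm_nonneg _)
  have n3 : ‖∫ t in (U + M)..B, b t * (LW d U κ t - LW d U κ (t - M))‖ ≤
      (1 + om d * R) / U ^ 2 * M * ∫ t in (U + M)..B, ‖b t‖ := by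
    rw [← intervalIntegral.integral_const_mul]
    refine intervalIntegral.norm_integral_le_of_norm_le hUM ?_ ((hbi _ _).const_mul _)
    refine Filter.Eventually.of_forall fun t ht => ?_
    rw [norm_mul, mul_comm]
    have := ht.1
    exact mul_le_mul_of_nonneg_right (LW_lip d hU hM hκ (by linarith)) (norm_nonneg _)
  have n4 : (∫ t in (U + M)..B, ‖b t‖) ≤ ∫ t in U..B, ‖b t‖ := by
    rw [← intervalIntegral.integral_add_adjacent_intervals (hbi U (U + M)) (hbi (U + M) B)]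
    have : 0 ≤ ∫ t in U..(U + M), ‖b t‖ :=
      intervalIntegral.integral_nonneg (by linarith) fun t _ => norm_nonneg _
    linarith
  have hC0 : 0 ≤ (1 + om d * R) / U ^ 2 * M := by positivity
  have hper : ‖(((per d)⁻¹ : ℝ) : ℂ)‖ ≤ 1 := by
    rw [Complex.norm_real, Real.norm_eq_abs, abs_of_pos (inv_pos.2 (per_pos d))]
    refine inv_le_one_of_one_le₀ ?_
    have := per_ge d
    linarith
  have hcf : cf d U κ (fun t => b t - b (M + t)) = ((per d)⁻¹ : ℝ) *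
      ∫ t in U..B, (b t - b (M + t)) * LW d U κ t := rfl
  rw [hcf, norm_mul]
  have hmain : ‖∫ t in U..B, (b t - b (M + t)) * LW d U κ t‖ ≤ 1 / U * (∫ t in U..(U + M), ‖b t‖) +
      1 / U * (∫ t in B..(B + M), ‖b t‖) + (1 + om d * R) / U ^ 2 * M * (∫ t in U..B, ‖b t‖) := by
    rw [e6]
    refine (norm_add_le _ _).trans ?_
    refine add_le_add ((norm_sub_le _ _).trans (add_le_add n1 n2)) (n3.trans ?_)
    exact mul_le_mul_of_nonneg_left n4 hC0
  calc ‖(((per d)⁻¹ : ℝ) : ℂ)‖ * ‖∫ t in U..B, (b t - b (M + t)) * LW d U κ t‖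
      ≤ 1 * ‖∫ t in U..B, (b t - b (M + t)) * LW d U κ t‖ :=
        mul_le_mul_of_nonneg_right hper (norm_nonneg _)
    _ ≤ _ := by rw [one_mul]; exact hmain

private theorem LW_conv {b : ℝ → ℂ} (hb : Continuous b) {p r : ℝ} (hpr : p ≤ r) :
    ENNReal.ofReal (∫ t in p..r, ‖b t‖) = ∫⁻ t in Set.Icc p r, ‖b t‖ₑ := by
  rw [intervalIntegral.integral_of_le hpr, ofReal_integral_eq_lintegral_ofReal, restrict_Ioc_eq_restrict_Icc]
  · refine lintegral_congr fun t => ?_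
    rw [ofReal_norm]
  · exact (hb.norm.integrableOn_Icc (a := p) (b := r)).mono_set Set.Ioc_subset_Icc_self
  · exact Filter.Eventually.of_forall fun t => norm_nonneg _

private theorem LW_sq3 (a b c : ENNReal) : (a + b + c) ^ 2 ≤ 3 * (a ^ 2 + b ^ 2 + c ^ 2) := by
  have h := ENNReal.inner_le_Lp_mul_Lq (Finset.univ : Finset (Fin 3)) (fun _ => 1) ![a, b, c]
    Real.HolderConjugate.two_two
  simp only [one_mul, ENNReal.one_rpow, Finset.sum_const, Finset.card_univ, Fintype.card_fin, Fin.sum_univ_three,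
    Matrix.cons_val_zero, Matrix.cons_val_one, Matrix.cons_val_two, Matrix.cons_val] at h
  calc (a + b + c) ^ 2 ≤ _ := pow_le_pow_left' h 2
    _ = 3 * (a ^ 2 + b ^ 2 + c ^ 2) := by
        rw [mul_pow, ← ENNReal.rpow_natCast, ← ENNReal.rpow_natCast, ← ENNReal.rpow_mul, ← ENNReal.rpow_mul]
        norm_num

theorem lowf (d : ℕ) : ∃ C : ℝ, 0 < C ∧ ∀ (X : Type u) [MeasurableSpace X] (μ : Measure X) [IsFiniteMeasure μ]
    (φ : ℝ → X → X), IsFlow μ φ → ∀ g : X → ℂ, Measurable g → (∀ x, Continuous fun t => g (φ t x)) →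
    ∀ U M R : ℝ, 0 < M → M ≤ U → 1 ≤ R → ∀ Q : Finset ℤ, (∀ κ ∈ Q, |(κ : ℝ)| ≤ R) →
    ∫⁻ x, Q.sup (fun κ => ‖cf d U κ (fun t => g (φ t x) - g (φ (M + t) x))‖ₑ ^ 2) ∂μ ≤
      ENNReal.ofReal (C * (M / U) ^ 2 * R ^ 2) * ∫⁻ x, ‖g x‖ₑ ^ 2 ∂μ := by
  have hom := om_pos d
  refine ⟨3 * (2 + (1 + om d) ^ 2 * (2 ^ (d + 1)) ^ 2), by positivity, ?_⟩
  intro X _ μ _ φ hφ g hg hc U M R hM hMU hR Q hQ
  have hU : 0 < U := lt_of_lt_of_le hM hMU
  set B : ℝ := 2 ^ (d + 1) * U with hB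
  have hB1 : U ≤ B := by
    rw [hB]
    have : (1 : ℝ) ≤ 2 ^ (d + 1) := one_le_pow₀ (by norm_num)
    nlinarith
  set J1 : X → ENNReal := fun x => ∫⁻ t in Set.Icc U (U + M), ‖g (φ t x)‖ₑ with hJ1
  set J2 : X → ENNReal := fun x => ∫⁻ t in Set.Icc B (B + M), ‖g (φ t x)‖ₑ with hJ2
  set J3 : X → ENNReal := fun x => ∫⁻ t in Set.Icc U B, ‖g (φ t x)‖ₑ with hJ3
  set c1 : ENNReal := ENNReal.ofReal (1 / U) with hc1
  set c3 : ENNReal := ENNReal.ofReal ((1 + om d * R) / U ^ 2 * M) with hc3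
  have hJm : ∀ p r : ℝ, Measurable (fun x => ∫⁻ t in Set.Icc p r, ‖g (φ t x)‖ₑ) := by
    intro p r
    have hj : Measurable (fun q : X × ℝ => ‖g (φ q.2 q.1)‖ₑ) :=
      (hg.comp (hφ.meas.comp (measurable_snd.prodMk measurable_fst))).enorm
    exact hj.lintegral_prod_right' (ν := volume.restrict (Set.Icc p r))
  have hpt : ∀ x, Q.sup (fun κ => ‖cf d U κ (fun t => g (φ t x) - g (φ (M + t) x))‖ₑ ^ 2) ≤
      3 * ((c1 * J1 x) ^ 2 + (c1 * J2 x) ^ 2 + (c3 * J3 x) ^ 2) := by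
    intro x
    refine Finset.sup_le fun κ hκ => ?_
    refine le_trans ?_ (LW_sq3 _ _ _)
    refine pow_le_pow_left' ?_ 2
    have h := LW_pt d hM hMU (hQ κ hκ) (hc x)
    have hn : ∀ p r : ℝ, p ≤ r → 0 ≤ ∫ t in p..r, ‖g (φ t x)‖ := fun p r hpr =>
      intervalIntegral.integral_nonneg hpr fun t _ => norm_nonneg _
    have h1 := hn U (U + M) (by linarith)
    have h2 := hn B (B + M) (by linarith)
    have h3 := hn U B hB1
    rw [← ofReal_norm]
    refine (ENNReal.ofReal_le_ofReal h).trans (le_of_eq ?_)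
    rw [ENNReal.ofReal_add (by positivity) (by positivity), ENNReal.ofReal_add (by positivity) (by positivity),
      ENNReal.ofReal_mul (by positivity), ENNReal.ofReal_mul (by positivity), ENNReal.ofReal_mul (by positivity),
      LW_conv (hc x) (by linarith), LW_conv (hc x) (by linarith), LW_conv (hc x) hB1]
  have hS1 := sq_orbit_le hφ hg (p := U) (r := U + M) (by linarith)
  have hS2 := sq_orbit_le hφ hg (p := B) (r := B + M) (by linarith)
  have hS3 := sq_orbit_le hφ hg (p := U) (r := B) hB1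
  have hfin : ∫⁻ x, 3 * ((c1 * J1 x) ^ 2 + (c1 * J2 x) ^ 2 + (c3 * J3 x) ^ 2) ∂μ =
      3 * (c1 ^ 2 * (∫⁻ x, J1 x ^ 2 ∂μ) + c1 ^ 2 * (∫⁻ x, J2 x ^ 2 ∂μ) + c3 ^ 2 * ∫⁻ x, J3 x ^ 2 ∂μ) := by
    have m1 : Measurable (fun x => (c1 * J1 x) ^ 2) := ((hJm _ _).const_mul c1).pow_const 2
    have m2 : Measurable (fun x => (c1 * J2 x) ^ 2) := ((hJm _ _).const_mul c1).pow_const 2
    have m12 : Measurable (fun x => (c1 * J1 x) ^ 2 + (c1 * J2 x) ^ 2) := m1.add m2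
    rw [lintegral_const_mul' _ _ (by norm_num), lintegral_add_left m12, lintegral_add_left m1]
    simp only [mul_pow]
    rw [lintegral_const_mul' _ _ (by finiteness), lintegral_const_mul' _ _ (by finiteness),
      lintegral_const_mul' _ _ (by finiteness)]
  refine (lintegral_mono hpt).trans ?_
  rw [hfin]
  set E : ENNReal := ∫⁻ x, ‖g x‖ₑ ^ 2 ∂μ with hE
  have hle : 3 * (c1 ^ 2 * (∫⁻ x, J1 x ^ 2 ∂μ) + c1 ^ 2 * (∫⁻ x, J2 x ^ 2 ∂μ) + c3 ^ 2 * ∫⁻ x, J3 x ^ 2 ∂μ) ≤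
      3 * (c1 ^ 2 * (ENNReal.ofReal ((U + M - U) ^ 2) * E) + c1 ^ 2 * (ENNReal.ofReal ((B + M - B) ^ 2) * E) +
        c3 ^ 2 * (ENNReal.ofReal ((B - U) ^ 2) * E)) := by
    gcongr
  refine hle.trans ?_
  have e0 : 3 * (c1 ^ 2 * (ENNReal.ofReal ((U + M - U) ^ 2) * E) + c1 ^ 2 * (ENNReal.ofReal ((B + M - B) ^ 2) * E) +
        c3 ^ 2 * (ENNReal.ofReal ((B - U) ^ 2) * E)) =
      ENNReal.ofReal (3 * ((1 / U) ^ 2 * (U + M - U) ^ 2 + (1 / U) ^ 2 * (B + M - B) ^ 2 +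
        ((1 + om d * R) / U ^ 2 * M) ^ 2 * (B - U) ^ 2)) * E := by
    have q1 : c1 ^ 2 = ENNReal.ofReal ((1 / U) ^ 2) := (ENNReal.ofReal_pow (by positivity) 2).symm
    have q3 : c3 ^ 2 = ENNReal.ofReal (((1 + om d * R) / U ^ 2 * M) ^ 2) :=
      (ENNReal.ofReal_pow (by positivity) 2).symm
    rw [q1, q3, ENNReal.ofReal_mul (by norm_num), ENNReal.ofReal_add (by positivity) (by positivity),
      ENNReal.ofReal_add (by positivity) (by positivity), ENNReal.ofReal_mul (p := (1 / U) ^ 2) (by positivity),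
      ENNReal.ofReal_mul (p := (1 / U) ^ 2) (by positivity),
      ENNReal.ofReal_mul (p := ((1 + om d * R) / U ^ 2 * M) ^ 2) (by positivity)]
    rw [show ENNReal.ofReal 3 = 3 by norm_num]
    ring
  rw [e0]
  refine mul_le_mul_left (ENNReal.ofReal_le_ofReal ?_) E
  have hx : (1 / U) ^ 2 * (U + M - U) ^ 2 = (M / U) ^ 2 := by
    rw [← mul_pow]
    congr 1
    ring
  have hy : (1 / U) ^ 2 * (B + M - B) ^ 2 = (M / U) ^ 2 := by
    rw [← mul_pow]
    congr 1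
    ring
  have hz : ((1 + om d * R) / U ^ 2 * M) ^ 2 * (B - U) ^ 2 ≤ (M / U) ^ 2 * (R ^ 2 * ((1 + om d) ^ 2 * (2 ^ (d + 1)) ^ 2)) := by
    have e : ((1 + om d * R) / U ^ 2 * M) ^ 2 * (B - U) ^ 2 =
        (M / U) ^ 2 * ((1 + om d * R) ^ 2 * ((2 ^ (d + 1) - 1)) ^ 2) := by
      rw [hB]
      field_simp
    rw [e]
    refine mul_le_mul_of_nonneg_left ?_ (sq_nonneg _)
    have h1 : 1 + om d * R ≤ R * (1 + om d) := by nlinarith
    have h2 : (1 : ℝ) ≤ 2 ^ (d + 1) := one_le_pow₀ (by norm_num)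
    calc (1 + om d * R) ^ 2 * (2 ^ (d + 1) - 1) ^ 2 ≤ (R * (1 + om d)) ^ 2 * (2 ^ (d + 1)) ^ 2 :=
          mul_le_mul (pow_le_pow_left₀ (by positivity) h1 2) (pow_le_pow_left₀ (by linarith) (by linarith) 2)
            (by positivity) (by positivity)
      _ = R ^ 2 * ((1 + om d) ^ 2 * (2 ^ (d + 1)) ^ 2) := by ring
  rw [hx, hy]
  have hR2 : 1 ≤ R ^ 2 := one_le_pow₀ hR
  have hq : 0 ≤ (M / U) ^ 2 := sq_nonneg _
  calc 3 * ((M / U) ^ 2 + (M / U) ^ 2 + ((1 + om d * R) / U ^ 2 * M) ^ 2 * (B - U) ^ 2)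
      ≤ 3 * ((M / U) ^ 2 * R ^ 2 + (M / U) ^ 2 * R ^ 2 +
        (M / U) ^ 2 * (R ^ 2 * ((1 + om d) ^ 2 * (2 ^ (d + 1)) ^ 2))) := by
        have : (M / U) ^ 2 ≤ (M / U) ^ 2 * R ^ 2 := le_mul_of_one_le_right hq hR2
        linarith
    _ = 3 * (2 + (1 + om d) ^ 2 * (2 ^ (d + 1)) ^ 2) * (M / U) ^ 2 * R ^ 2 := by ring

end Pool.Agent.GT
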