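import Mathlib
import Pool.Agent.GT.Defs

/-!
# GT/Ops: averages along the flow

`φ` a flow, `M > 0`.  `avg`, `rev`, `Kop`, `al`, `zz`, `gg` are in `Defs`.

* `avg_nice`, `Kop_nice`, `zz_nice`, `gg_nice`: averages of nice functions are nice (same bounds; `‖zz‖ ≤ B/2 ≤ B`, also Lipschitz `L/2 ≤ L`).
* `avg_comp`: `avg φ M F (φ s x) = avg φ M (F ∘ φ s) x` (commutation).
* `avg_two`: `avg φ (2M) F x = (1/2)(avg φ M F x + avg φ M F (φ M x))`.
* `Kop_sub`: `Kop φ M F x - Kop φ (2M) F x = gg φ M F x - gg φ M F (φ M x)`: both averages at `2M` are halves of sums, so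
  `Kop (2M) = (1/4) Kop M (1 + φ_M)(1 + φ_{-M}) = (1/4) Kop M (2 + φ_M + φ_{-M})`.
* `Kop_sub'`: the same `= avg φ M (fun y => zz φ M F y - zz φ M F (φ M y)) x`.
* `avg_l2`: `∫ ‖avg φ M F‖² ≤ ∫ ‖F‖²` (Jensen or Cauchy–Schwarz, Fubini, invariance).
* `zz_l2`: `∫ ‖zz φ M F‖² = (1/4)(al M - al (2M))`: parallelogram law for `u = avg (rev φ) M F`, `v = u ∘ φ(-M)` (`∫‖v‖² = ∫‖u‖²` by invariance,
  `u + v = 2 avg (rev φ) (2M) F`): `∫ ‖u - v‖² = 2∫‖u‖² + 2∫‖v‖² - ∫‖u+v‖² = 4 al M - 4 al (2M)`; `zz = (u - v)/4`.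
* `gg_l2`: `∫ ‖gg‖² ≤ (1/4)(al M - al (2M))`.
* `al_le`: `al M ≤ ∫ ‖F‖²`, `al_nonneg`.
* `Kop_near`: `‖F x - Kop φ M F x‖ ≤ L M`.
-/

namespace Pool.Agent.GT

open MeasureTheory

variable {X : Type*} [MeasurableSpace X] {μ : Measure X} [IsFiniteMeasure μ] {φ : ℝ → X → X} {F : X → ℂ} {B L M : ℝ}

theorem Nice.rev (h : Nice φ B L F) : Nice (rev φ) B L F := by
  refine ⟨h.meas, h.bd, fun s t x => ?_⟩
  have h1 := h.lip (-s) (-t) x
  have h2 : |(-s) - (-t)| = |s - t| := by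
    rw [← abs_neg]
    congr 1
    ring
  rw [h2] at h1
  exact h1

private theorem Ops_rev_rev (φ : ℝ → X → X) : Pool.Agent.GT.rev (Pool.Agent.GT.rev φ) = φ := by
  funext t x
  show φ (- -t) x = φ t x
  rw [neg_neg]

/-- a translate of a nice function is nice -/
private theorem Ops_shift (hφ : IsFlow μ φ) (hF : Nice φ B L F) (s : ℝ) :
    Nice φ B L (fun y => F (φ s y)) := by
  refine ⟨hF.meas.comp (hφ.mp s).measurable, fun x => hF.bd _, fun r t x => ?_⟩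
  show ‖F (φ s (φ r x)) - F (φ s (φ t x))‖ ≤ _
  rw [hφ.comm s r, hφ.comm s t]
  exact hF.lip r t (φ s x)

private theorem Ops_int (hF : Nice φ B L F) (x : X) (a b : ℝ) :
    IntervalIntegrable (fun t => F (φ t x)) volume a b := (hF.cont x).intervalIntegrable a b

/-- the average is near a constant -/
private theorem Ops_near {f : ℝ → ℂ} (hf : Continuous f) (hM : 0 < M) {c : ℂ} {K : ℝ}
    (h : ∀ t, 0 ≤ t → t ≤ M → ‖c - f t‖ ≤ K) :
    ‖c - ((M⁻¹ : ℝ) : ℂ) * ∫ t in (0 : ℝ)..M, f t‖ ≤ K := by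
  have hM0 : (M : ℂ) ≠ 0 := by exact_mod_cast hM.ne'
  have h1 : c - ((M⁻¹ : ℝ) : ℂ) * ∫ t in (0 : ℝ)..M, f t =
      ((M⁻¹ : ℝ) : ℂ) * ∫ t in (0 : ℝ)..M, (c - f t) := by
    rw [intervalIntegral.integral_sub (continuous_const.intervalIntegrable _ _)
      (hf.intervalIntegrable _ _), intervalIntegral.integral_const, sub_zero, mul_sub,
      Complex.real_smul, Complex.ofReal_inv, ← mul_assoc, inv_mul_cancel₀ hM0, one_mul]
  have h2 : ‖∫ t in (0 : ℝ)..M, (c - f t)‖ ≤ K * |M - 0| := by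
    refine intervalIntegral.norm_integral_le_of_norm_le_const fun t ht => ?_
    rw [Set.uIoc_of_le hM.le] at ht
    exact h t ht.1.le ht.2
  rw [sub_zero, abs_of_pos hM] at h2
  rw [h1, norm_mul, Complex.norm_real, Real.norm_of_nonneg (inv_nonneg.2 hM.le)]
  calc M⁻¹ * ‖∫ t in (0 : ℝ)..M, (c - f t)‖ ≤ M⁻¹ * (K * M) :=
        mul_le_mul_of_nonneg_left h2 (inv_nonneg.2 hM.le)
    _ = K := by field_simp

private theorem Ops_bd {f : ℝ → ℂ} (hf : Continuous f) (hM : 0 < M) {K : ℝ}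
    (h : ∀ t, ‖f t‖ ≤ K) : ‖((M⁻¹ : ℝ) : ℂ) * ∫ t in (0 : ℝ)..M, f t‖ ≤ K := by
  have h1 := Ops_near (c := 0) hf hM (K := K) (fun t _ _ => by
    rw [zero_sub, norm_neg]
    exact h t)
  rwa [zero_sub, norm_neg] at h1

theorem avg_nice (hφ : IsFlow μ φ) (hF : Nice φ B L F) (hM : 0 < M) : Nice φ B L (avg φ M F) := by
  refine ⟨?_, ?_, ?_⟩
  · have h1 : StronglyMeasurable (Function.uncurry fun (x : X) (t : ℝ) => F (φ t x)) := by
      apply Measurable.stronglyMeasurable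
      exact hF.meas.comp (hφ.meas.comp measurable_swap)
    have h2 : Measurable fun x => ∫ t in Set.Ioc (0 : ℝ) M, F (φ t x) :=
      (h1.integral_prod_right (ν := volume.restrict (Set.Ioc (0 : ℝ) M))).measurable
    have h3 : avg φ M F = fun x => ((M⁻¹ : ℝ) : ℂ) * ∫ t in Set.Ioc (0 : ℝ) M, F (φ t x) := by
      funext x
      unfold avg
      rw [intervalIntegral.integral_of_le hM.le]
    rw [h3]
    exact h2.const_mul _
  · intro x
    unfold avg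
    exact Ops_bd (hF.cont x) hM fun t => hF.bd _
  · intro s t x
    unfold avg
    rw [← mul_sub, ← intervalIntegral.integral_sub (Ops_int hF _ _ _) (Ops_int hF _ _ _)]
    refine Ops_bd ((hF.cont _).sub (hF.cont _)) hM fun r => ?_
    show ‖F (φ r (φ s x)) - F (φ r (φ t x))‖ ≤ _
    rw [hφ.comm r s, hφ.comm r t]
    exact hF.lip s t (φ r x)

theorem avg_rev_nice (hφ : IsFlow μ φ) (hF : Nice φ B L F) (hM : 0 < M) :
    Nice φ B L (avg (rev φ) M F) := by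
  have h1 := (avg_nice hφ.rev hF.rev hM).rev
  rwa [Ops_rev_rev] at h1

theorem Kop_nice (hφ : IsFlow μ φ) (hF : Nice φ B L F) (hM : 0 < M) : Nice φ B L (Kop φ M F) :=
  avg_nice hφ (avg_rev_nice hφ hF hM) hM

theorem zz_nice (hφ : IsFlow μ φ) (hF : Nice φ B L F) (hM : 0 < M) : Nice φ B L (zz φ M F) := by
  have hG := avg_rev_nice hφ hF hM
  have hS := Ops_shift hφ hG (-M)
  have h4 : ‖(1 / 4 : ℂ)‖ = 1 / 4 := by norm_num
  refine ⟨(hG.meas.sub hS.meas).const_mul _, fun x => ?_, fun s t x => ?_⟩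
  · unfold zz
    rw [norm_mul, h4]
    have h1 := hG.bd x
    have h2 := hS.bd x
    have h3 := norm_sub_le (avg (Pool.Agent.GT.rev φ) M F x)
      (avg (Pool.Agent.GT.rev φ) M F (φ (-M) x))
    have h5 := norm_nonneg (avg (Pool.Agent.GT.rev φ) M F x)
    have h6 : ‖avg (Pool.Agent.GT.rev φ) M F (φ (-M) x)‖ ≤ B := h2
    linarith
  · unfold zz
    have h1 := hG.lip s t x
    have h2 : ‖avg (Pool.Agent.GT.rev φ) M F (φ (-M) (φ s x)) -
      avg (Pool.Agent.GT.rev φ) M F (φ (-M) (φ t x))‖ ≤ L * |s - t| := hS.lip s t x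
    have e : (1 / 4 : ℂ) * (avg (Pool.Agent.GT.rev φ) M F (φ s x) -
          avg (Pool.Agent.GT.rev φ) M F (φ (-M) (φ s x))) -
        (1 / 4 : ℂ) * (avg (Pool.Agent.GT.rev φ) M F (φ t x) -
          avg (Pool.Agent.GT.rev φ) M F (φ (-M) (φ t x))) =
        (1 / 4 : ℂ) * ((avg (Pool.Agent.GT.rev φ) M F (φ s x) -
          avg (Pool.Agent.GT.rev φ) M F (φ t x)) -
          (avg (Pool.Agent.GT.rev φ) M F (φ (-M) (φ s x)) -
            avg (Pool.Agent.GT.rev φ) M F (φ (-M) (φ t x)))) := by ring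
    rw [e, norm_mul, h4]
    have h3 := norm_sub_le (avg (Pool.Agent.GT.rev φ) M F (φ s x) -
          avg (Pool.Agent.GT.rev φ) M F (φ t x))
          (avg (Pool.Agent.GT.rev φ) M F (φ (-M) (φ s x)) -
            avg (Pool.Agent.GT.rev φ) M F (φ (-M) (φ t x)))
    have h5 := norm_nonneg (avg (Pool.Agent.GT.rev φ) M F (φ s x) -
          avg (Pool.Agent.GT.rev φ) M F (φ t x))
    linarith

theorem gg_nice (hφ : IsFlow μ φ) (hF : Nice φ B L F) (hM : 0 < M) : Nice φ B L (gg φ M F) :=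
  avg_nice hφ (zz_nice hφ hF hM) hM

private theorem Ops_comp (hφ : IsFlow μ φ) (F : X → ℂ) (s M : ℝ) (x : X) :
    avg φ M (fun y => F (φ s y)) x = avg φ M F (φ s x) := by
  unfold avg
  congr 1
  refine intervalIntegral.integral_congr fun t _ => ?_
  show F (φ s (φ t x)) = F (φ t (φ s x))
  rw [hφ.comm]

private theorem Ops_add {P Q : X → ℂ} (hP : Nice φ B L P) (hQ : Nice φ B L Q) (c : ℂ) (M : ℝ)
    (x : X) : avg φ M (fun y => c * (P y + Q y)) x = c * (avg φ M P x + avg φ M Q x) := by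
  unfold avg
  rw [intervalIntegral.integral_const_mul, intervalIntegral.integral_add (Ops_int hP _ _ _)
    (Ops_int hQ _ _ _)]
  ring

private theorem Ops_sub {P Q : X → ℂ} (hP : Nice φ B L P) (hQ : Nice φ B L Q) (c : ℂ) (M : ℝ)
    (x : X) : avg φ M (fun y => c * (P y - Q y)) x = c * (avg φ M P x - avg φ M Q x) := by
  unfold avg
  rw [intervalIntegral.integral_const_mul, intervalIntegral.integral_sub (Ops_int hP _ _ _)
    (Ops_int hQ _ _ _)]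
  ring

theorem avg_two (hφ : IsFlow μ φ) (hF : Nice φ B L F) (hM : 0 < M) (x : X) :
    avg φ (2 * M) F x = (1 / 2 : ℂ) * (avg φ M F x + avg φ M F (φ M x)) := by
  unfold avg
  have hM0 : (M : ℂ) ≠ 0 := by exact_mod_cast hM.ne'
  have h1 : ∫ t in (0 : ℝ)..M, F (φ t (φ M x)) = ∫ t in M..(2 * M), F (φ t x) := by
    have h2 := intervalIntegral.integral_comp_add_right (a := (0 : ℝ)) (b := M)
      (fun t => F (φ t x)) M
    rw [zero_add, ← two_mul] at h2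
    rw [← h2]
    refine intervalIntegral.integral_congr fun t _ => ?_
    show F (φ t (φ M x)) = F (φ (t + M) x)
    rw [hφ.add]
  rw [h1, ← intervalIntegral.integral_add_adjacent_intervals (Ops_int hF x 0 M)
    (Ops_int hF x M (2 * M))]
  push_cast
  field_simp

theorem Kop_sub (hφ : IsFlow μ φ) (hF : Nice φ B L F) (hM : 0 < M) (x : X) :
    Kop φ M F x - Kop φ (2 * M) F x = gg φ M F x - gg φ M F (φ M x) := by
  have hG := avg_rev_nice hφ hF hM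
  have hS := Ops_shift hφ hG (-M)
  have hH := avg_rev_nice hφ hF (show 0 < 2 * M by linarith)
  have e1 : avg (Pool.Agent.GT.rev φ) (2 * M) F = fun y =>
      (1 / 2 : ℂ) * (avg (Pool.Agent.GT.rev φ) M F y +
        avg (Pool.Agent.GT.rev φ) M F (φ (-M) y)) := by
    funext y
    exact avg_two hφ.rev hF.rev hM y
  have e2 : ∀ y, avg φ M (avg (Pool.Agent.GT.rev φ) (2 * M) F) y =
      (1 / 2 : ℂ) * (Kop φ M F y + Kop φ M F (φ (-M) y)) := by
    intro y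
    rw [e1, Ops_add hG hS, Ops_comp hφ]
    rfl
  have e3 : Kop φ (2 * M) F x = (1 / 2 : ℂ) * (avg φ M (avg (Pool.Agent.GT.rev φ) (2 * M) F) x +
      avg φ M (avg (Pool.Agent.GT.rev φ) (2 * M) F) (φ M x)) := avg_two hφ hH hM x
  have e4 : ∀ y, gg φ M F y = (1 / 4 : ℂ) * (Kop φ M F y - Kop φ M F (φ (-M) y)) := by
    intro y
    unfold gg zz
    rw [Ops_sub hG hS, Ops_comp hφ]
    rfl
  have e5 : φ (-M) (φ M x) = x := by
    rw [← hφ.add, neg_add_cancel, hφ.zero]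
  rw [e3, e2, e2, e4, e4, e5]
  ring

theorem Kop_sub' (hφ : IsFlow μ φ) (hF : Nice φ B L F) (hM : 0 < M) (x : X) :
    Kop φ M F x - Kop φ (2 * M) F x = avg φ M (fun y => zz φ M F y - zz φ M F (φ M y)) x := by
  rw [Kop_sub hφ hF hM]
  have hz := zz_nice hφ hF hM
  have hzs := Ops_shift hφ hz M
  have h1 := Ops_sub hz hzs 1 M x
  rw [one_mul, Ops_comp hφ] at h1
  have e : (fun y => (1 : ℂ) * (zz φ M F y - zz φ M F (φ M y))) =
      fun y => zz φ M F y - zz φ M F (φ M y) := funext fun y => one_mul _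
  rw [e] at h1
  rw [h1]
  rfl

/-- Cauchy-Schwarz -/
private theorem Ops_cs {f : ℝ → ℂ} (hf : Continuous f) (hM : 0 < M) :
    ‖((M⁻¹ : ℝ) : ℂ) * ∫ t in (0 : ℝ)..M, f t‖ ^ 2 ≤ M⁻¹ * ∫ t in (0 : ℝ)..M, ‖f t‖ ^ 2 := by
  set c : ℝ := M⁻¹ * ∫ t in (0 : ℝ)..M, ‖f t‖ with hc
  have h1 : ‖((M⁻¹ : ℝ) : ℂ) * ∫ t in (0 : ℝ)..M, f t‖ ≤ c := by
    rw [norm_mul, Complex.norm_real, Real.norm_of_nonneg (inv_nonneg.2 hM.le)]
    exact mul_le_mul_of_nonneg_left (intervalIntegral.norm_integral_le_integral_norm hM.le)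
      (inv_nonneg.2 hM.le)
  have h2 : 0 ≤ ∫ t in (0 : ℝ)..M, (‖f t‖ - c) ^ 2 :=
    intervalIntegral.integral_nonneg hM.le fun t _ => sq_nonneg _
  have hn : Continuous fun t => ‖f t‖ := hf.norm
  have h3 : ∫ t in (0 : ℝ)..M, (‖f t‖ - c) ^ 2 =
      (∫ t in (0 : ℝ)..M, ‖f t‖ ^ 2) - 2 * c * (∫ t in (0 : ℝ)..M, ‖f t‖) + c ^ 2 * M := by
    have e : (fun t => (‖f t‖ - c) ^ 2) = fun t => (‖f t‖ ^ 2 - 2 * c * ‖f t‖) + c ^ 2 :=
      funext fun t => by ring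
    have c1 : Continuous fun t => ‖f t‖ ^ 2 := hn.pow 2
    have c2 : Continuous fun t => 2 * c * ‖f t‖ := continuous_const.mul hn
    have c3 : Continuous fun t => ‖f t‖ ^ 2 - 2 * c * ‖f t‖ := c1.sub c2
    rw [e, intervalIntegral.integral_add (c3.intervalIntegrable _ _)
      (continuous_const.intervalIntegrable _ _),
      intervalIntegral.integral_sub (c1.intervalIntegrable _ _) (c2.intervalIntegrable _ _),
      intervalIntegral.integral_const_mul, intervalIntegral.integral_const, sub_zero,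
      smul_eq_mul]
    ring
  have h4 : ∫ t in (0 : ℝ)..M, ‖f t‖ = M * c := by
    rw [hc, ← mul_assoc, mul_inv_cancel₀ hM.ne', one_mul]
  rw [h3, h4] at h2
  have h5 : M * c ^ 2 ≤ ∫ t in (0 : ℝ)..M, ‖f t‖ ^ 2 := by nlinarith
  calc ‖((M⁻¹ : ℝ) : ℂ) * ∫ t in (0 : ℝ)..M, f t‖ ^ 2 ≤ c ^ 2 :=
        pow_le_pow_left₀ (norm_nonneg _) h1 2
    _ = M⁻¹ * (M * c ^ 2) := by rw [← mul_assoc, inv_mul_cancel₀ hM.ne', one_mul]
    _ ≤ _ := mul_le_mul_of_nonneg_left h5 (inv_nonneg.2 hM.le)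

private theorem Ops_sq_int (hF : Nice φ B L F) : Integrable (fun x => ‖F x‖ ^ 2) μ := by
  refine Integrable.of_bound ((hF.meas.norm.pow_const 2).aestronglyMeasurable) (B ^ 2)
    (Filter.Eventually.of_forall fun x => ?_)
  rw [Real.norm_of_nonneg (sq_nonneg _)]
  exact pow_le_pow_left₀ (norm_nonneg _) (hF.bd x) 2

private theorem Ops_inv (hφ : IsFlow μ φ) {g : X → ℝ} (hg : Measurable g) (t : ℝ) :
    ∫ x, g (φ t x) ∂μ = ∫ x, g x ∂μ := by
  have h1 := integral_map (μ := μ) (φ := φ t) (hφ.mp t).measurable.aemeasurable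
    (f := g) hg.aestronglyMeasurable
  rw [(hφ.mp t).map_eq] at h1
  exact h1.symm

theorem avg_l2 (hφ : IsFlow μ φ) (hF : Nice φ B L F) (hM : 0 < M) :
    ∫ x, ‖avg φ M F x‖ ^ 2 ∂μ ≤ ∫ x, ‖F x‖ ^ 2 ∂μ := by
  have hg : Measurable fun x => ‖F x‖ ^ 2 := hF.meas.norm.pow_const 2
  have hmeas : Measurable (Function.uncurry fun (x : X) (t : ℝ) => ‖F (φ t x)‖ ^ 2) :=
    hg.comp (hφ.meas.comp measurable_swap)
  have hint : Integrable (Function.uncurry fun (x : X) (t : ℝ) => ‖F (φ t x)‖ ^ 2)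
      (μ.prod (volume.restrict (Set.Ioc (0 : ℝ) M))) := by
    refine Integrable.of_bound hmeas.aestronglyMeasurable (B ^ 2)
      (Filter.Eventually.of_forall fun z => ?_)
    show ‖‖F (φ z.2 z.1)‖ ^ 2‖ ≤ B ^ 2
    rw [Real.norm_of_nonneg (sq_nonneg _)]
    exact pow_le_pow_left₀ (norm_nonneg _) (hF.bd _) 2
  have h1 : ∀ x, ‖avg φ M F x‖ ^ 2 ≤ M⁻¹ * ∫ t in Set.Ioc (0 : ℝ) M, ‖F (φ t x)‖ ^ 2 := by
    intro x
    have h2 := Ops_cs (hF.cont x) hM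
    rw [intervalIntegral.integral_of_le hM.le (f := fun t => ‖F (φ t x)‖ ^ 2)] at h2
    exact h2
  calc ∫ x, ‖avg φ M F x‖ ^ 2 ∂μ
      ≤ ∫ x, M⁻¹ * (∫ t in Set.Ioc (0 : ℝ) M, ‖F (φ t x)‖ ^ 2) ∂μ :=
        integral_mono (Ops_sq_int (avg_nice hφ hF hM)) (hint.integral_prod_left.const_mul _) h1
    _ = M⁻¹ * ∫ x, (∫ t in Set.Ioc (0 : ℝ) M, ‖F (φ t x)‖ ^ 2) ∂μ := integral_const_mul _ _
    _ = M⁻¹ * ∫ t in Set.Ioc (0 : ℝ) M, (∫ x, ‖F (φ t x)‖ ^ 2 ∂μ) := by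
        rw [integral_integral_swap hint]
    _ = M⁻¹ * ∫ t in Set.Ioc (0 : ℝ) M, (∫ x, ‖F x‖ ^ 2 ∂μ) := by
        congr 1
        refine integral_congr_ae (Filter.Eventually.of_forall fun t => ?_)
        exact Ops_inv hφ hg t
    _ = ∫ x, ‖F x‖ ^ 2 ∂μ := by
        rw [setIntegral_const, Measure.real, Real.volume_Ioc, sub_zero,
          ENNReal.toReal_ofReal hM.le, smul_eq_mul, ← mul_assoc, inv_mul_cancel₀ hM.ne', one_mul]

theorem zz_l2 (hφ : IsFlow μ φ) (hF : Nice φ B L F) (hM : 0 < M) :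
    ∫ x, ‖zz φ M F x‖ ^ 2 ∂μ = 1 / 4 * (al μ φ F M - al μ φ F (2 * M)) := by
  have hG := avg_rev_nice hφ hF hM
  have hS := Ops_shift hφ hG (-M)
  have hH := avg_rev_nice hφ hF (show 0 < 2 * M by linarith)
  have h1 : ∀ x, ‖zz φ M F x‖ ^ 2 = (1 / 8 * ‖avg (Pool.Agent.GT.rev φ) M F x‖ ^ 2 +
      1 / 8 * ‖avg (Pool.Agent.GT.rev φ) M F (φ (-M) x)‖ ^ 2) -
        1 / 4 * ‖avg (Pool.Agent.GT.rev φ) (2 * M) F x‖ ^ 2 := by
    intro x
    have e1 : avg (Pool.Agent.GT.rev φ) (2 * M) F x =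
        (1 / 2 : ℂ) * (avg (Pool.Agent.GT.rev φ) M F x +
          avg (Pool.Agent.GT.rev φ) M F (φ (-M) x)) := avg_two hφ.rev hF.rev hM x
    have e2 := parallelogram_law_with_norm ℝ (avg (Pool.Agent.GT.rev φ) M F x)
      (avg (Pool.Agent.GT.rev φ) M F (φ (-M) x))
    have n4 : ‖(1 / 4 : ℂ)‖ = 1 / 4 := by norm_num
    have n2 : ‖(1 / 2 : ℂ)‖ = 1 / 2 := by norm_num
    unfold zz
    rw [e1, norm_mul, norm_mul, n4, n2]
    linear_combination 1 / 16 * e2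
  have i1 : Integrable (fun x => 1 / 8 * ‖avg (Pool.Agent.GT.rev φ) M F x‖ ^ 2) μ :=
    (Ops_sq_int hG).const_mul _
  have i2 : Integrable (fun x => 1 / 8 * ‖avg (Pool.Agent.GT.rev φ) M F (φ (-M) x)‖ ^ 2) μ :=
    (Ops_sq_int hS).const_mul _
  have i3 : Integrable (fun x => 1 / 4 * ‖avg (Pool.Agent.GT.rev φ) (2 * M) F x‖ ^ 2) μ :=
    (Ops_sq_int hH).const_mul _
  have e3 : ∫ x, ‖avg (Pool.Agent.GT.rev φ) M F (φ (-M) x)‖ ^ 2 ∂μ = al μ φ F M :=
    Ops_inv hφ (g := fun x => ‖avg (Pool.Agent.GT.rev φ) M F x‖ ^ 2)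
      (hG.meas.norm.pow_const 2) (-M)
  have i4 : Integrable (fun x => 1 / 8 * ‖avg (Pool.Agent.GT.rev φ) M F x‖ ^ 2 +
      1 / 8 * ‖avg (Pool.Agent.GT.rev φ) M F (φ (-M) x)‖ ^ 2) μ := i1.add i2
  rw [integral_congr_ae (Filter.Eventually.of_forall h1), integral_sub i4 i3,
    integral_add i1 i2, integral_const_mul, integral_const_mul, integral_const_mul, e3]
  unfold al
  ring

theorem gg_l2 (hφ : IsFlow μ φ) (hF : Nice φ B L F) (hM : 0 < M) :
    ∫ x, ‖gg φ M F x‖ ^ 2 ∂μ ≤ 1 / 4 * (al μ φ F M - al μ φ F (2 * M)) := by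
  rw [← zz_l2 hφ hF hM]
  exact avg_l2 hφ (zz_nice hφ hF hM) hM

theorem al_nonneg (F : X → ℂ) (M : ℝ) : 0 ≤ al μ φ F M := by
  unfold al
  exact integral_nonneg fun x => sq_nonneg _

theorem al_le (hφ : IsFlow μ φ) (hF : Nice φ B L F) (hM : 0 < M) :
    al μ φ F M ≤ ∫ x, ‖F x‖ ^ 2 ∂μ :=
  avg_l2 hφ.rev hF.rev hM

theorem Kop_near (hφ : IsFlow μ φ) (hF : Nice φ B L F) (hL : 0 ≤ L) (hM : 0 < M) (x : X) :
    ‖F x - Kop φ M F x‖ ≤ L * M := by
  have hG := avg_rev_nice hφ hF hM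
  refine Ops_near (hG.cont x) hM fun t ht htM => ?_
  refine Ops_near (hF.rev.cont (φ t x)) hM fun s hs hsM => ?_
  have h1 : F x = F (φ 0 x) := by rw [hφ.zero]
  have h2 : F (Pool.Agent.GT.rev φ s (φ t x)) = F (φ (-s + t) x) := by
    show F (φ (-s) (φ t x)) = _
    rw [hφ.add]
  rw [h1, h2]
  refine (hF.lip 0 (-s + t) x).trans ?_
  refine mul_le_mul_of_nonneg_left ?_ hL
  rw [abs_le]
  constructor <;> linarith

end Pool.Agent.GT
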