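import Mathlib
import Pool.Agent.GT.Defs
import Pool.Agent.GT.Key
import Pool.Agent.GT.LowF
import Pool.Agent.GT.Ops

/-!
# GT/Piece: maximal coefficient of one frequency piece

`g = gg φ M f`, `F x = g x - g (φ M x)`, so the orbit of `F` is `t ↦ g(φ_t x) - g(φ_{M+t} x)`.  Let `R = (U/M)^(1/2) ≥ 1`.  Split `Q` into `|κ| ≥ R` and `|κ| < R`; the supremum over `Q` is at
most the sum of the two suprema.  `|κ| ≥ R`: `Key.key` for `F`, `∫⁻ ‖F‖ₑ² ≤ 4 ∫⁻ ‖g‖ₑ²`, `∫ ‖g‖² ≤ (1/4)(al M - al 2M)` (`gg_l2`), `1/sqrt R = (M/U)^(1/4)`.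
`|κ| ≤ R`: `LowF.lowf`: `C (M/U)² R² = C (M/U) ≤ C (M/U)^(1/4)`.
-/

namespace Pool.Agent.GT

open MeasureTheory

universe u

private theorem Piece_sup_meas {X : Type*} [MeasurableSpace X] (Q : Finset ℤ) (f : ℤ → X → ENNReal)
    (hf : ∀ κ, Measurable (f κ)) : Measurable (fun x => Q.sup (fun κ => f κ x)) := by
  classical
  induction Q using Finset.induction_on with
  | empty => simp only [Finset.sup_empty]; exact measurable_const
  | insert a s ha ih =>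
    simp only [Finset.sup_insert]
    exact (hf a).sup ih

/-- the square of a difference -/
private theorem Piece_sq (a b : ℂ) : ‖a - b‖ₑ ^ 2 ≤ 2 * ‖a‖ₑ ^ 2 + 2 * ‖b‖ₑ ^ 2 := by
  have h1 : ‖a - b‖ ^ 2 ≤ 2 * ‖a‖ ^ 2 + 2 * ‖b‖ ^ 2 := by
    have h2 := norm_sub_le a b
    have h3 := pow_le_pow_left₀ (norm_nonneg _) h2 2
    nlinarith [sq_nonneg (‖a‖ - ‖b‖)]
  have h4 := ENNReal.ofReal_le_ofReal h1
  rw [ENNReal.ofReal_add (by positivity) (by positivity), ENNReal.ofReal_mul (by norm_num),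
    ENNReal.ofReal_mul (by norm_num), ENNReal.ofReal_pow (norm_nonneg _),
    ENNReal.ofReal_pow (norm_nonneg _), ENNReal.ofReal_pow (norm_nonneg _), ofReal_norm,
    ofReal_norm, ofReal_norm, ENNReal.ofReal_ofNat] at h4
  exact h4

theorem piece (d : ℕ) : ∃ C : ℝ, 0 < C ∧ ∀ (X : Type u) [MeasurableSpace X] (μ : Measure X) [IsFiniteMeasure μ]
    (φ : ℝ → X → X), IsFlow μ φ → ∀ (f : X → ℂ) (B L : ℝ), Nice φ B L f → ∀ U M : ℝ, 0 < M → M ≤ U →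
    ∀ Q : Finset ℤ,
    ∫⁻ x, Q.sup (fun κ => ‖cf d U κ (fun t => gg φ M f (φ t x) - gg φ M f (φ (M + t) x))‖ₑ ^ 2) ∂μ ≤
      ENNReal.ofReal (C * (M / U) ^ (1 / 4 : ℝ) * (al μ φ f M - al μ φ f (2 * M))) := by
  classical
  obtain ⟨C₁, hC₁, H₁⟩ := key.{u} d
  obtain ⟨C₂, hC₂, H₂⟩ := lowf.{u} d
  refine ⟨C₁ + C₂, by positivity, ?_⟩
  intro X _ μ _ φ hφ f B L hf U M hM hMU Q
  have hU : 0 < U := hM.trans_le hMU
  have hg : Nice φ B L (gg φ M f) := gg_nice hφ hf hM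
  set g : X → ℂ := gg φ M f with hgd
  set F : X → ℂ := fun x => g x - g (φ M x) with hF
  have hFm : Measurable F := hg.meas.sub (hg.meas.comp (hφ.mp M).measurable)
  have hFc : ∀ x, Continuous fun t => F (φ t x) := by
    intro x
    have h1 : (fun t => F (φ t x)) = fun t => g (φ t x) - g (φ t (φ M x)) := by
      funext t
      show g (φ t x) - g (φ M (φ t x)) = _
      rw [hφ.comm]
    rw [h1]
    exact (hg.cont x).sub (hg.cont _)
  have horb : ∀ x t, g (φ t x) - g (φ (M + t) x) = F (φ t x) := by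
    intro x t
    show _ = g (φ t x) - g (φ M (φ t x))
    rw [hφ.add]
  -- the size of `g` and `F`
  set A : ℝ := al μ φ f M - al μ φ f (2 * M) with hA
  have hgl : ∫ x, ‖g x‖ ^ 2 ∂μ ≤ 1 / 4 * A := gg_l2 hφ hf hM
  have hA0 : 0 ≤ A := by
    have h1 : 0 ≤ ∫ x, ‖g x‖ ^ 2 ∂μ := integral_nonneg fun x => sq_nonneg _
    linarith
  have hgi : Integrable (fun x => ‖g x‖ ^ 2) μ := by
    refine Integrable.of_bound ((hg.meas.norm.pow_const 2).aestronglyMeasurable) (B ^ 2)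
      (Filter.Eventually.of_forall fun x => ?_)
    rw [Real.norm_of_nonneg (sq_nonneg _)]
    exact pow_le_pow_left₀ (norm_nonneg _) (hg.bd x) 2
  have hg2 : ∫⁻ x, ‖g x‖ₑ ^ 2 ∂μ ≤ ENNReal.ofReal (1 / 4 * A) := by
    have h1 : ∫⁻ x, ‖g x‖ₑ ^ 2 ∂μ = ENNReal.ofReal (∫ x, ‖g x‖ ^ 2 ∂μ) := by
      rw [ofReal_integral_eq_lintegral_ofReal hgi (Filter.Eventually.of_forall fun x => sq_nonneg _)]
      refine lintegral_congr fun x => ?_
      rw [ENNReal.ofReal_pow (norm_nonneg _), ofReal_norm]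
    rw [h1]
    exact ENNReal.ofReal_le_ofReal hgl
  have hF2 : ∫⁻ x, ‖F x‖ₑ ^ 2 ∂μ ≤ ENNReal.ofReal A := by
    have hE : Measurable (fun x => ‖g x‖ₑ ^ 2) := hg.meas.enorm.pow_const 2
    have hE' : Measurable (fun x => ‖g (φ M x)‖ₑ ^ 2) := hE.comp (hφ.mp M).measurable
    calc ∫⁻ x, ‖F x‖ₑ ^ 2 ∂μ ≤ ∫⁻ x, (2 * ‖g x‖ₑ ^ 2 + 2 * ‖g (φ M x)‖ₑ ^ 2) ∂μ :=
          lintegral_mono fun x => Piece_sq _ _
      _ = 2 * ∫⁻ x, ‖g x‖ₑ ^ 2 ∂μ + 2 * ∫⁻ x, ‖g (φ M x)‖ₑ ^ 2 ∂μ := by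
          rw [lintegral_add_left (hE.const_mul 2), lintegral_const_mul _ hE,
            lintegral_const_mul _ hE']
      _ = 4 * ∫⁻ x, ‖g x‖ₑ ^ 2 ∂μ := by
          rw [(hφ.mp M).lintegral_comp hE, ← add_mul]
          norm_num
      _ ≤ 4 * ENNReal.ofReal (1 / 4 * A) := by gcongr
      _ = ENNReal.ofReal A := by
          rw [show (4 : ENNReal) = ENNReal.ofReal 4 by norm_num, ← ENNReal.ofReal_mul (by norm_num)]
          congr 1
          ring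
  -- the parameter `R`
  have hq : 1 ≤ U / M := (one_le_div hM).2 hMU
  set R : ℝ := (U / M) ^ (1 / 2 : ℝ) with hR
  have hR1 : 1 ≤ R := Real.one_le_rpow hq (by norm_num)
  have hRs : Real.sqrt R = (U / M) ^ (1 / 4 : ℝ) := by
    rw [Real.sqrt_eq_rpow, hR, ← Real.rpow_mul (by positivity)]
    norm_num
  have hR2 : R ^ 2 = U / M := by
    rw [hR, ← Real.rpow_natCast, ← Real.rpow_mul (by positivity)]
    norm_num
  have hinv : (M / U) ^ (1 / 4 : ℝ) = 1 / Real.sqrt R := by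
    rw [hRs, show M / U = (U / M)⁻¹ by rw [inv_div], Real.inv_rpow (by positivity), one_div _, one_div]
  set Q₁ : Finset ℤ := Q.filter fun κ => R ≤ |(κ : ℝ)| with hQ₁
  set Q₂ : Finset ℤ := Q.filter fun κ => ¬ R ≤ |(κ : ℝ)| with hQ₂
  have e1 := H₁ X μ φ hφ F hFm hFc U hU R hR1 Q₁ (fun κ hκ => (Finset.mem_filter.1 hκ).2)
  have e2 := H₂ X μ φ hφ g hg.meas hg.cont U M R hM hMU hR1 Q₂
    (fun κ hκ => (not_le.1 (Finset.mem_filter.1 hκ).2).le)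
  have hm1 : Measurable (fun x => Q₁.sup (fun κ => ‖cf d U κ (fun t => F (φ t x))‖ₑ ^ 2)) :=
    Piece_sup_meas Q₁ _ fun κ => (cf_meas hφ hFm d U κ).enorm.pow_const 2
  have hsplit : ∀ x, Q.sup (fun κ => ‖cf d U κ (fun t => F (φ t x))‖ₑ ^ 2) ≤
      Q₁.sup (fun κ => ‖cf d U κ (fun t => F (φ t x))‖ₑ ^ 2) +
        Q₂.sup (fun κ => ‖cf d U κ (fun t => F (φ t x))‖ₑ ^ 2) := by
    intro x
    refine Finset.sup_le fun κ hκ => ?_
    by_cases h : R ≤ |(κ : ℝ)|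
    · exact (Finset.le_sup (f := fun κ => ‖cf d U κ (fun t => F (φ t x))‖ₑ ^ 2)
        (Finset.mem_filter.2 ⟨hκ, h⟩ : κ ∈ Q₁)).trans le_self_add
    · exact (Finset.le_sup (f := fun κ => ‖cf d U κ (fun t => F (φ t x))‖ₑ ^ 2)
        (Finset.mem_filter.2 ⟨hκ, h⟩ : κ ∈ Q₂)).trans le_add_self
  simp only [horb] at e2 ⊢
  have hX : (M / U) ^ 2 * R ^ 2 ≤ (M / U) ^ (1 / 4 : ℝ) := by
    have h1 : (M / U) ^ 2 * R ^ 2 = M / U := by
      rw [hR2]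
      field_simp
    rw [h1]
    have h2 : M / U ≤ 1 := (div_le_one hU).2 hMU
    have h3 : 0 < M / U := by positivity
    calc M / U = (M / U) ^ (1 : ℝ) := (Real.rpow_one _).symm
      _ ≤ (M / U) ^ (1 / 4 : ℝ) := Real.rpow_le_rpow_of_exponent_ge h3 h2 (by norm_num)
  have hY : 0 ≤ (M / U) ^ (1 / 4 : ℝ) := by positivity
  calc ∫⁻ x, Q.sup (fun κ => ‖cf d U κ (fun t => F (φ t x))‖ₑ ^ 2) ∂μ
      ≤ ∫⁻ x, (Q₁.sup (fun κ => ‖cf d U κ (fun t => F (φ t x))‖ₑ ^ 2) +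
          Q₂.sup (fun κ => ‖cf d U κ (fun t => F (φ t x))‖ₑ ^ 2)) ∂μ := lintegral_mono hsplit
    _ = ∫⁻ x, Q₁.sup (fun κ => ‖cf d U κ (fun t => F (φ t x))‖ₑ ^ 2) ∂μ +
          ∫⁻ x, Q₂.sup (fun κ => ‖cf d U κ (fun t => F (φ t x))‖ₑ ^ 2) ∂μ :=
        lintegral_add_left hm1 _
    _ ≤ ENNReal.ofReal (C₁ / Real.sqrt R) * ENNReal.ofReal A +
          ENNReal.ofReal (C₂ * (M / U) ^ 2 * R ^ 2) * ENNReal.ofReal (1 / 4 * A) := by
        refine add_le_add (e1.trans ?_) (e2.trans ?_)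
        · exact mul_le_mul_right hF2 _
        · exact mul_le_mul_right hg2 _
    _ = ENNReal.ofReal (C₁ / Real.sqrt R * A + C₂ * (M / U) ^ 2 * R ^ 2 * (1 / 4 * A)) := by
        rw [← ENNReal.ofReal_mul (by positivity), ← ENNReal.ofReal_mul (by positivity),
          ← ENNReal.ofReal_add (by positivity) (by positivity)]
    _ ≤ ENNReal.ofReal ((C₁ + C₂) * (M / U) ^ (1 / 4 : ℝ) * A) := by
        refine ENNReal.ofReal_le_ofReal ?_
        have h1 : C₁ / Real.sqrt R * A = C₁ * (M / U) ^ (1 / 4 : ℝ) * A := by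
          rw [hinv]
          ring
        have h2 : C₂ * (M / U) ^ 2 * R ^ 2 * (1 / 4 * A) ≤ C₂ * (M / U) ^ (1 / 4 : ℝ) * A := by
          have h3 : C₂ * ((M / U) ^ 2 * R ^ 2) * A ≤ C₂ * (M / U) ^ (1 / 4 : ℝ) * A := by gcongr
          have h4 : 0 ≤ C₂ * ((M / U) ^ 2 * R ^ 2) * A := by positivity
          nlinarith
        rw [h1]
        nlinarith

end Pool.Agent.GT
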