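import Mathlib
import Pool.Agent.GT.Defs
import Pool.Agent.GT.Piece

/-!
# GT/Gsum: maximal coefficient of `Kop (U/2^n) f - Kop U f`

With `M_i = U/2^(i+1)`, `i < n`: `Kop φ (U/2^n) f y - Kop φ U f y = ∑_{i<n} (gg φ M_i f y - gg φ M_i f (φ M_i y))` (`Kop_sub`, telescoping), so by linearity of `cf` in `b` (interval
integrable, all orbits are continuous) the coefficient is `∑_{i<n} c_i`, `c_i` the coefficient of the `i`-th piece.  Cauchy–Schwarz with the weights `θ_i = 2^(-i/8)`: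
`‖∑ c_i‖² ≤ (∑ θ_i)(∑ θ_i⁻¹ ‖c_i‖²)`, and `∑_i 2^(-i/8) ≤ 1/(1 - 2^(-1/8))`.  So `Q.sup ≤ C ∑_{i<n} 2^(i/8) Q.sup ‖c_i‖²`; integrate, `Piece.piece` gives
`2^(i/8) (M_i/U)^(1/4) ≤ 2^(i/8) 2^(-i/4) = 2^(-i/8)` and `2 M_i = U/2^i`.
-/

namespace Pool.Agent.GT

open MeasureTheory

universe u

private theorem Gsum_sup_meas {X : Type*} [MeasurableSpace X] (Q : Finset ℤ) (f : ℤ → X → ENNReal)
    (hf : ∀ κ, Measurable (f κ)) : Measurable (fun x => Q.sup (fun κ => f κ x)) := by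
  classical
  induction Q using Finset.induction_on with
  | empty => simp only [Finset.sup_empty]; exact measurable_const
  | insert a s ha ih =>
    simp only [Finset.sup_insert]
    exact (hf a).sup ih

/-- linearity of the coefficients -/
private theorem Gsum_cf_sum (d : ℕ) {U : ℝ} (hU : 0 < U) (κ : ℤ) (s : Finset ℕ) (b : ℕ → ℝ → ℂ)
    (hb : ∀ i, Continuous (b i)) :
    cf d U κ (fun t => ∑ i ∈ s, b i t) = ∑ i ∈ s, cf d U κ (b i) := by
  have h2 : (1 : ℝ) ≤ 2 ^ (d + 1) := one_le_pow₀ (by norm_num)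
  have hle : U ≤ 2 ^ (d + 1) * U := le_mul_of_one_le_left hU.le h2
  have hint : ∀ i ∈ s, IntervalIntegrable (fun t : ℝ => b i t *
      (Complex.exp (((-(om d * κ * Real.log (t / U)) : ℝ) : ℂ) * Complex.I) / t)) volume U
      (2 ^ (d + 1) * U) := by
    intro i _
    apply ContinuousOn.intervalIntegrable
    rw [Set.uIcc_of_le hle]
    have hpos : ∀ t ∈ Set.Icc U (2 ^ (d + 1) * U), 0 < t := fun t ht => hU.trans_le ht.1
    refine (hb i).continuousOn.mul (ContinuousOn.div ?_ ?_ ?_)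
    · have h3 : ContinuousOn (fun t : ℝ => -(om d * κ * Real.log (t / U)))
          (Set.Icc U (2 ^ (d + 1) * U)) := by
        refine ContinuousOn.neg (ContinuousOn.mul continuousOn_const ?_)
        refine ContinuousOn.log (continuousOn_id.div_const U) fun t ht => ?_
        exact (div_pos (hpos t ht) hU).ne'
      exact Complex.continuous_exp.comp_continuousOn
        ((Complex.continuous_ofReal.comp_continuousOn h3).mul continuousOn_const)
    · exact Complex.continuous_ofReal.continuousOn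
    · intro t ht
      exact_mod_cast (hpos t ht).ne'
  unfold cf
  rw [← Finset.mul_sum, ← intervalIntegral.integral_finsetSum hint]
  congr 1
  refine intervalIntegral.integral_congr fun t _ => ?_
  show (∑ i ∈ s, b i t) * _ = _
  rw [Finset.sum_mul]

/-- Cauchy-Schwarz with weights -/
private theorem Gsum_cs (n : ℕ) (θ : ℕ → ℝ) (hθ : ∀ i, 0 < θ i) {S : ℝ}
    (hS : ∑ i ∈ Finset.range n, θ i ≤ S) (c : ℕ → ℂ) :
    ‖∑ i ∈ Finset.range n, c i‖ₑ ^ 2 ≤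
      ENNReal.ofReal S * ∑ i ∈ Finset.range n, ENNReal.ofReal (θ i)⁻¹ * ‖c i‖ₑ ^ 2 := by
  have h0 : ∀ i ∈ Finset.range n, 0 ≤ (θ i)⁻¹ * ‖c i‖ ^ 2 := fun i _ =>
    mul_nonneg (inv_nonneg.2 (hθ i).le) (sq_nonneg _)
  have h1 : ‖∑ i ∈ Finset.range n, c i‖ ^ 2 ≤ S * ∑ i ∈ Finset.range n, (θ i)⁻¹ * ‖c i‖ ^ 2 := by
    have h2 : (∑ i ∈ Finset.range n, ‖c i‖) ^ 2 ≤
        (∑ i ∈ Finset.range n, θ i) * ∑ i ∈ Finset.range n, (θ i)⁻¹ * ‖c i‖ ^ 2 := by
      refine Finset.sum_sq_le_sum_mul_sum_of_sq_le_mul _ (fun i _ => (hθ i).le) h0 fun i _ => le_of_eq ?_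
      rw [← mul_assoc, mul_inv_cancel₀ (hθ i).ne', one_mul]
    calc ‖∑ i ∈ Finset.range n, c i‖ ^ 2 ≤ (∑ i ∈ Finset.range n, ‖c i‖) ^ 2 :=
          pow_le_pow_left₀ (norm_nonneg _) (norm_sum_le _ _) 2
      _ ≤ _ := h2
      _ ≤ _ := mul_le_mul_of_nonneg_right hS (Finset.sum_nonneg h0)
  have h3 : 0 ≤ S := (Finset.sum_nonneg fun i _ => (hθ i).le).trans hS
  have h4 := ENNReal.ofReal_le_ofReal h1
  rw [ENNReal.ofReal_pow (norm_nonneg _), ofReal_norm, ENNReal.ofReal_mul h3,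
    ENNReal.ofReal_sum_of_nonneg h0] at h4
  refine h4.trans (le_of_eq ?_)
  congr 1
  refine Finset.sum_congr rfl fun i _ => ?_
  rw [ENNReal.ofReal_mul (inv_nonneg.2 (hθ i).le), ENNReal.ofReal_pow (norm_nonneg _), ofReal_norm]

/-- telescoping -/
private theorem Gsum_tel {X : Type*} [MeasurableSpace X] {μ : Measure X} [IsFiniteMeasure μ] {φ : ℝ → X → X}
    (hφ : IsFlow μ φ) {f : X → ℂ} {B L : ℝ} (hf : Nice φ B L f) {U : ℝ} (hU : 0 < U) (n : ℕ) (y : X) :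
    Kop φ (U / 2 ^ n) f y - Kop φ U f y = ∑ i ∈ Finset.range n,
      (gg φ (U / 2 ^ (i + 1)) f y - gg φ (U / 2 ^ (i + 1)) f (φ (U / 2 ^ (i + 1)) y)) := by
  have h1 : ∀ i : ℕ, gg φ (U / 2 ^ (i + 1)) f y - gg φ (U / 2 ^ (i + 1)) f (φ (U / 2 ^ (i + 1)) y) =
      Kop φ (U / 2 ^ (i + 1)) f y - Kop φ (U / 2 ^ i) f y := by
    intro i
    have h2 : (0 : ℝ) < U / 2 ^ (i + 1) := by positivity
    rw [← Kop_sub hφ hf h2]
    congr 2
    rw [pow_succ]
    field_simp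
  rw [Finset.sum_congr rfl fun i _ => h1 i,
    Finset.sum_range_sub (fun i => Kop φ (U / 2 ^ i) f y) n, pow_zero, div_one]

theorem gsum (d : ℕ) : ∃ C : ℝ, 0 < C ∧ ∀ (X : Type u) [MeasurableSpace X] (μ : Measure X) [IsFiniteMeasure μ]
    (φ : ℝ → X → X), IsFlow μ φ → ∀ (f : X → ℂ) (B L : ℝ), Nice φ B L f → ∀ U : ℝ, 0 < U → ∀ n : ℕ,
    ∀ Q : Finset ℤ,
    ∫⁻ x, Q.sup (fun κ => ‖cf d U κ (fun t => Kop φ (U / 2 ^ n) f (φ t x) - Kop φ U f (φ t x))‖ₑ ^ 2) ∂μ ≤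
      ENNReal.ofReal (C * ∑ i ∈ Finset.range n, (2 : ℝ) ^ (-((i : ℝ) / 8)) *
        (al μ φ f (U / 2 ^ (i + 1)) - al μ φ f (U / 2 ^ i))) := by
  classical
  obtain ⟨C, hC, H⟩ := piece.{u} d
  -- the weights
  set q : ℝ := (2 : ℝ) ^ (-(1 / 8 : ℝ)) with hq
  have hq0 : 0 < q := by positivity
  have hq1 : q < 1 := Real.rpow_lt_one_of_one_lt_of_neg (by norm_num) (by norm_num)
  have hθq : ∀ i : ℕ, (2 : ℝ) ^ (-((i : ℝ) / 8)) = q ^ i := by
    intro i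
    rw [hq, ← Real.rpow_natCast, ← Real.rpow_mul (by norm_num)]
    congr 1
    ring
  set S : ℝ := (1 - q)⁻¹ with hS
  have hS0 : 0 < S := inv_pos.2 (sub_pos.2 hq1)
  have hSs : ∀ n : ℕ, ∑ i ∈ Finset.range n, q ^ i ≤ S := by
    intro n
    have h1 := (summable_geometric_of_lt_one hq0.le hq1).sum_le_tsum (Finset.range n)
      (fun i _ => pow_nonneg hq0.le i)
    rwa [tsum_geometric_of_lt_one hq0.le hq1] at h1
  refine ⟨S * C, by positivity, ?_⟩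
  intro X _ μ _ φ hφ f B L hf U hU n Q
  have hMp : ∀ i : ℕ, (0 : ℝ) < U / 2 ^ (i + 1) := fun i => by positivity
  have hg : ∀ i : ℕ, Nice φ B L (gg φ (U / 2 ^ (i + 1)) f) := fun i => gg_nice hφ hf (hMp i)
  -- the pieces
  set b : X → ℕ → ℝ → ℂ := fun x i t => gg φ (U / 2 ^ (i + 1)) f (φ t x) -
    gg φ (U / 2 ^ (i + 1)) f (φ (U / 2 ^ (i + 1) + t) x) with hb
  have hbc : ∀ x i, Continuous (b x i) := by
    intro x i
    have h1 : (fun t => gg φ (U / 2 ^ (i + 1)) f (φ (U / 2 ^ (i + 1) + t) x)) =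
        fun t => gg φ (U / 2 ^ (i + 1)) f (φ t (φ (U / 2 ^ (i + 1)) x)) := by
      funext t
      rw [hφ.add, hφ.comm]
    show Continuous fun t => gg φ (U / 2 ^ (i + 1)) f (φ t x) -
      gg φ (U / 2 ^ (i + 1)) f (φ (U / 2 ^ (i + 1) + t) x)
    refine ((hg i).cont x).sub ?_
    rw [h1]
    exact (hg i).cont _
  have hsum : ∀ x κ, cf d U κ (fun t => Kop φ (U / 2 ^ n) f (φ t x) - Kop φ U f (φ t x)) =
      ∑ i ∈ Finset.range n, cf d U κ (b x i) := by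
    intro x κ
    rw [← Gsum_cf_sum d hU κ _ _ (hbc x)]
    congr 1
    funext t
    rw [Gsum_tel hφ hf hU]
    refine Finset.sum_congr rfl fun i _ => ?_
    show _ = gg φ (U / 2 ^ (i + 1)) f (φ t x) - gg φ (U / 2 ^ (i + 1)) f (φ (U / 2 ^ (i + 1) + t) x)
    rw [hφ.add]
  have hmeas : ∀ i, Measurable fun x => Q.sup (fun κ => ‖cf d U κ (b x i)‖ₑ ^ 2) := by
    intro i
    refine Gsum_sup_meas Q _ fun κ => ?_
    have h1 : Measurable (fun y => gg φ (U / 2 ^ (i + 1)) f y -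
        gg φ (U / 2 ^ (i + 1)) f (φ (U / 2 ^ (i + 1)) y)) :=
      (hg i).meas.sub ((hg i).meas.comp (hφ.mp _).measurable)
    have h2 := (cf_meas hφ h1 d U κ).enorm.pow_const 2
    have h3 : (fun x => ‖cf d U κ (b x i)‖ₑ ^ 2) = fun x => ‖cf d U κ (fun t =>
        gg φ (U / 2 ^ (i + 1)) f (φ t x) -
        gg φ (U / 2 ^ (i + 1)) f (φ (U / 2 ^ (i + 1)) (φ t x)))‖ₑ ^ 2 := by
      funext x
      have h4 : b x i = fun t => gg φ (U / 2 ^ (i + 1)) f (φ t x) -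
          gg φ (U / 2 ^ (i + 1)) f (φ (U / 2 ^ (i + 1)) (φ t x)) := by
        funext t
        show gg φ (U / 2 ^ (i + 1)) f (φ t x) - gg φ (U / 2 ^ (i + 1)) f (φ (U / 2 ^ (i + 1) + t) x) = _
        rw [hφ.add]
      rw [h4]
    rw [h3]
    exact h2
  have hpt : ∀ x, Q.sup (fun κ => ‖cf d U κ (fun t => Kop φ (U / 2 ^ n) f (φ t x) -
      Kop φ U f (φ t x))‖ₑ ^ 2) ≤ ENNReal.ofReal S * ∑ i ∈ Finset.range n,
        ENNReal.ofReal (q ^ i)⁻¹ * Q.sup (fun κ => ‖cf d U κ (b x i)‖ₑ ^ 2) := by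
    intro x
    refine Finset.sup_le fun κ hκ => ?_
    rw [hsum x κ]
    refine (Gsum_cs n (fun i => q ^ i) (fun i => pow_pos hq0 i) (hSs n) _).trans ?_
    gcongr with i hi
    exact Finset.le_sup (f := fun κ => ‖cf d U κ (b x i)‖ₑ ^ 2) hκ
  have hA0 : ∀ i : ℕ, 0 ≤ al μ φ f (U / 2 ^ (i + 1)) - al μ φ f (U / 2 ^ i) := by
    intro i
    have h1 := gg_l2 (μ := μ) hφ hf (hMp i)
    have h2 : 0 ≤ ∫ x, ‖gg φ (U / 2 ^ (i + 1)) f x‖ ^ 2 ∂μ := integral_nonneg fun x => sq_nonneg _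
    have h3 : 2 * (U / 2 ^ (i + 1)) = U / 2 ^ i := by
      rw [pow_succ]
      field_simp
    rw [h3] at h1
    linarith
  have hpiece : ∀ i : ℕ, ∫⁻ x, Q.sup (fun κ => ‖cf d U κ (b x i)‖ₑ ^ 2) ∂μ ≤
      ENNReal.ofReal (C * (q ^ i * q ^ i) * (al μ φ f (U / 2 ^ (i + 1)) - al μ φ f (U / 2 ^ i))) := by
    intro i
    have h1 : U / 2 ^ (i + 1) ≤ U := div_le_self hU.le (one_le_pow₀ (by norm_num))
    have h2 := H X μ φ hφ f B L hf U (U / 2 ^ (i + 1)) (hMp i) h1 Q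
    have h3 : 2 * (U / 2 ^ (i + 1)) = U / 2 ^ i := by
      rw [pow_succ]
      field_simp
    rw [h3] at h2
    refine h2.trans (ENNReal.ofReal_le_ofReal ?_)
    refine mul_le_mul_of_nonneg_right (mul_le_mul_of_nonneg_left ?_ hC.le) (hA0 i)
    have h4 : U / 2 ^ (i + 1) / U = (2 : ℝ) ^ (-((i : ℝ) + 1)) := by
      rw [Real.rpow_neg (by norm_num), Real.rpow_add (by norm_num), Real.rpow_natCast, Real.rpow_one,
        pow_succ]
      field_simp
    have h5 : q ^ i * q ^ i = (2 : ℝ) ^ (-((i : ℝ) / 4)) := by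
      rw [← hθq, ← Real.rpow_add (by norm_num)]
      congr 1
      ring
    rw [h4, h5, ← Real.rpow_mul (by norm_num)]
    refine Real.rpow_le_rpow_of_exponent_le (by norm_num) ?_
    linarith
  calc ∫⁻ x, Q.sup (fun κ => ‖cf d U κ (fun t => Kop φ (U / 2 ^ n) f (φ t x) -
        Kop φ U f (φ t x))‖ₑ ^ 2) ∂μ
      ≤ ∫⁻ x, ENNReal.ofReal S * ∑ i ∈ Finset.range n,
        ENNReal.ofReal (q ^ i)⁻¹ * Q.sup (fun κ => ‖cf d U κ (b x i)‖ₑ ^ 2) ∂μ := lintegral_mono hpt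
    _ = ENNReal.ofReal S * ∑ i ∈ Finset.range n, ENNReal.ofReal (q ^ i)⁻¹ *
          ∫⁻ x, Q.sup (fun κ => ‖cf d U κ (b x i)‖ₑ ^ 2) ∂μ := by
        rw [lintegral_const_mul _ (Finset.measurable_sum _ fun i _ => (hmeas i).const_mul _),
          lintegral_finsetSum _ fun i _ => (hmeas i).const_mul _]
        congr 1
        refine Finset.sum_congr rfl fun i _ => ?_
        rw [lintegral_const_mul _ (hmeas i)]
    _ ≤ ENNReal.ofReal S * ∑ i ∈ Finset.range n, ENNReal.ofReal (C * (q ^ i *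
          (al μ φ f (U / 2 ^ (i + 1)) - al μ φ f (U / 2 ^ i)))) := by
        gcongr with i hi
        refine (mul_le_mul_right (hpiece i) _).trans (le_of_eq ?_)
        rw [← ENNReal.ofReal_mul (by positivity)]
        congr 1
        have : q ^ i ≠ 0 := (pow_pos hq0 i).ne'
        field_simp
    _ = ENNReal.ofReal (S * C * ∑ i ∈ Finset.range n, (2 : ℝ) ^ (-((i : ℝ) / 8)) *
          (al μ φ f (U / 2 ^ (i + 1)) - al μ φ f (U / 2 ^ i))) := by
        rw [← ENNReal.ofReal_sum_of_nonneg (fun i _ => mul_nonneg hC.le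
          (mul_nonneg (pow_pos hq0 i).le (hA0 i))), ← ENNReal.ofReal_mul hS0.le, ← Finset.mul_sum,
          mul_assoc]
        congr 3
        refine Finset.sum_congr rfl fun i _ => ?_
        rw [hθq]

end Pool.Agent.GT
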