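import Mathlib
import Pool.Agent.GT.Defs
import Pool.Agent.GT.Gsum
import Pool.Agent.GT.Block

/-!
# GT/High: the part of high frequency tends to zero

`N = 2^k`, `U = N^d`, `n' = (d+1) k`, so `U/2^n' = 2^(-k)`.  `f - Kop U f = (f - Kop (2^(-k)) f) + G_k`, `G_k = Kop (U/2^n') f - Kop U f`.

(a) the block of `f - Kop (2^(-k)) f` is at most `2 L 2^(-k)` (`Kop_near`, `#I k ≤ 2^k + 1 ≤ 2·2^k`): tends to zero everywhere.
(b) `∑_k ∫⁻ ‖block_k(G_k)‖ₑ² d(μ × dw) < ∞`: for fixed `x` apply `Block.block` with `b(t) = G_k(φ_t x)` (bounded by `2B`, Lipschitz `2L`), then integrate over `x`: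
 first term `gsum` with `Q = Icc (-N) N`; second term `Key.key` with `R = N` (`|κ| > N` on that set) and `∫⁻ ‖G_k‖ₑ² ≤ 4B² μ(X)`: `C N^(1/4) N^(-1/2) = C N^(-1/4)`;
 third term `C (4B² + 4L²) N^(-c) μ(X)`.  The second and third are summable over `k`.  First: `∑_k ∑_{i < (d+1)k} 2^(-i/8) (al (2^(dk-i-1)) - al (2^(dk-i)))
 ≤ ∑_i 2^(-i/8) ∑_k (al (2^(dk-i-1)) - al (2^(dk-i))) ≤ ∑_i 2^(-i/8) ∫‖f‖²`: for fixed `i` the inner sum (finite, then sup) is at most `al (2^(-i-1)) ≤ ∫ ‖f‖²`, because `al` is nonincreasing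
 along dyadic scales (`zz_l2`: `al M - al 2M ≥ 0`) and `d(k+1) - i - 1 ≥ dk - i`.
Hence `∑_k ‖block_k(G_k)‖ₑ²` is finite for almost every `(x, w)` (`ae_lt_top`; measurability of the blocks in `(x, w)` jointly), so `block_k(G_k) → 0`.
-/

namespace Pool.Agent.GT

open MeasureTheory Filter Topology

universe u

/-- the energy is nonincreasing along the dyadic scales -/
theorem high_al_anti {X : Type*} [MeasurableSpace X] {μ : Measure X} [IsFiniteMeasure μ]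
    {φ : ℝ → X → X} (hφ : IsFlow μ φ) {f : X → ℂ} {B L : ℝ} (hf : Nice φ B L f) :
    Antitone (fun j : ℤ => al μ φ f ((2 : ℝ) ^ j)) := by
  refine antitone_int_of_succ_le fun j => ?_
  have hM : (0 : ℝ) < 2 ^ j := by positivity
  have h1 := zz_l2 hφ hf hM
  have h2 : 0 ≤ ∫ x, ‖zz φ (2 ^ j) f x‖ ^ 2 ∂μ := integral_nonneg fun x => sq_nonneg _
  have h3 : (2 : ℝ) ^ (j + 1) = 2 * 2 ^ j := by
    rw [zpow_add₀ (by norm_num : (2 : ℝ) ≠ 0), zpow_one, mul_comm]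
  show al μ φ f ((2 : ℝ) ^ (j + 1)) ≤ al μ φ f ((2 : ℝ) ^ j)
  rw [h3]
  linarith

/-- telescoping with gaps -/
theorem high_tel {α : ℤ → ℝ} (hα : Antitone α) {E : ℝ} (hE : ∀ j, α j ≤ E) {d : ℕ} (hd : 1 ≤ d)
    (i K : ℕ) :
    ∑ k ∈ Finset.range K, (α ((d : ℤ) * k - i - 1) - α ((d : ℤ) * k - i)) ≤
      E - α ((d : ℤ) * K - i - 1) := by
  induction K with
  | zero =>
    have := hE ((d : ℤ) * (0 : ℕ) - i - 1)
    simp only [Finset.range_zero, Finset.sum_empty]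
    linarith
  | succ K ih =>
    rw [Finset.sum_range_succ]
    have hd' : (1 : ℤ) ≤ d := by exact_mod_cast hd
    have h1 : α ((d : ℤ) * (K + 1 : ℕ) - i - 1) ≤ α ((d : ℤ) * K - i) := by
      apply hα
      push_cast
      nlinarith
    linarith

theorem high_theta (i : ℕ) : (2 : ℝ) ^ (-((i : ℝ) / 8)) = ((2 : ℝ) ^ (-(1 / 8 : ℝ))) ^ i := by
  rw [← Real.rpow_natCast, ← Real.rpow_mul (by norm_num)]
  congr 1
  ring

theorem high_theta_lt : (2 : ℝ) ^ (-(1 / 8 : ℝ)) < 1 :=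
  Real.rpow_lt_one_of_one_lt_of_neg (by norm_num) (by norm_num)

/-- the sum of the first terms is finite -/
theorem high_sum {α : ℤ → ℝ} (hα : Antitone α) (h0 : ∀ j, 0 ≤ α j) {E : ℝ} (hE : ∀ j, α j ≤ E)
    {d : ℕ} (hd : 1 ≤ d) :
    Summable (fun k : ℕ => ∑ i ∈ Finset.range ((d + 1) * k), (2 : ℝ) ^ (-((i : ℝ) / 8)) *
      (α ((d : ℤ) * k - i - 1) - α ((d : ℤ) * k - i))) := by
  have hr0 : (0 : ℝ) ≤ (2 : ℝ) ^ (-(1 / 8 : ℝ)) := by positivity
  have hgeo := summable_geometric_of_lt_one hr0 high_theta_lt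
  have hE0 : 0 ≤ E := (h0 0).trans (hE 0)
  have hpos : ∀ k i : ℕ, 0 ≤ (2 : ℝ) ^ (-((i : ℝ) / 8)) *
      (α ((d : ℤ) * k - i - 1) - α ((d : ℤ) * k - i)) := by
    intro k i
    refine mul_nonneg (by positivity) (sub_nonneg.2 (hα ?_))
    linarith
  refine summable_of_sum_range_le (c := (∑' i : ℕ, ((2 : ℝ) ^ (-(1 / 8 : ℝ))) ^ i) * E)
    (fun k => Finset.sum_nonneg fun i _ => hpos k i) fun K => ?_
  calc ∑ k ∈ Finset.range K, ∑ i ∈ Finset.range ((d + 1) * k), (2 : ℝ) ^ (-((i : ℝ) / 8)) *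
        (α ((d : ℤ) * k - i - 1) - α ((d : ℤ) * k - i))
      ≤ ∑ k ∈ Finset.range K, ∑ i ∈ Finset.range ((d + 1) * K), (2 : ℝ) ^ (-((i : ℝ) / 8)) *
        (α ((d : ℤ) * k - i - 1) - α ((d : ℤ) * k - i)) := by
        refine Finset.sum_le_sum fun k hk => ?_
        refine Finset.sum_le_sum_of_subset_of_nonneg ?_ fun i _ _ => hpos k i
        refine Finset.range_subset_range.2 ?_
        exact Nat.mul_le_mul_left _ (Finset.mem_range.1 hk).le
    _ = ∑ i ∈ Finset.range ((d + 1) * K), (2 : ℝ) ^ (-((i : ℝ) / 8)) *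
        ∑ k ∈ Finset.range K, (α ((d : ℤ) * k - i - 1) - α ((d : ℤ) * k - i)) := by
        rw [Finset.sum_comm]
        refine Finset.sum_congr rfl fun i _ => ?_
        rw [Finset.mul_sum]
    _ ≤ ∑ i ∈ Finset.range ((d + 1) * K), ((2 : ℝ) ^ (-(1 / 8 : ℝ))) ^ i * E := by
        refine Finset.sum_le_sum fun i _ => ?_
        rw [← high_theta]
        refine mul_le_mul_of_nonneg_left ?_ (by positivity)
        have h1 := high_tel hα hE hd i K
        have h2 := h0 ((d : ℤ) * K - i - 1)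
        linarith
    _ ≤ (∑' i : ℕ, ((2 : ℝ) ^ (-(1 / 8 : ℝ))) ^ i) * E := by
        rw [← Finset.sum_mul]
        refine mul_le_mul_of_nonneg_right ?_ hE0
        exact hgeo.sum_le_tsum _ fun i _ => by positivity

private theorem High_sup_meas {X : Type*} [MeasurableSpace X] (Q : Finset ℤ) (f : ℤ → X → ENNReal)
    (hf : ∀ κ, Measurable (f κ)) : Measurable (fun x => Q.sup (fun κ => f κ x)) := by
  classical
  induction Q using Finset.induction_on with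
  | empty => simp only [Finset.sup_empty]; exact measurable_const
  | insert a s ha ih =>
    simp only [Finset.sup_insert]
    exact (hf a).sup ih

/-- the difference of two averages is nice -/
theorem high_G_nice {X : Type*} [MeasurableSpace X] {μ : Measure X} [IsFiniteMeasure μ]
    {φ : ℝ → X → X} (hφ : IsFlow μ φ) {f : X → ℂ} {B L : ℝ} (hf : Nice φ B L f) {M M' : ℝ}
    (hM : 0 < M) (hM' : 0 < M') : Nice φ (2 * B) (2 * L) (fun x => Kop φ M f x - Kop φ M' f x) := by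
  have h1 := Kop_nice hφ hf hM
  have h2 := Kop_nice hφ hf hM'
  refine ⟨h1.meas.sub h2.meas, fun x => ?_, fun s t x => ?_⟩
  · refine (norm_sub_le _ _).trans ?_
    have := h1.bd x
    have := h2.bd x
    linarith
  · have e1 : Kop φ M f (φ s x) - Kop φ M' f (φ s x) - (Kop φ M f (φ t x) - Kop φ M' f (φ t x)) =
      (Kop φ M f (φ s x) - Kop φ M f (φ t x)) - (Kop φ M' f (φ s x) - Kop φ M' f (φ t x)) := by ring
    rw [e1]
    refine (norm_sub_le _ _).trans ?_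
    have := h1.lip s t x
    have := h2.lip s t x
    linarith

/-- a block of a measurable function is measurable in both variables -/
theorem high_meas {X : Type*} [MeasurableSpace X] {μ : Measure X} {φ : ℝ → X → X} (hφ : IsFlow μ φ)
    {G : X → ℂ} (hG : Measurable G) {a : ℕ → X → ℂ} (ha : ∀ n, Measurable (a n)) (d N : ℕ)
    (I : Finset ℕ) : Measurable (fun p : X × ℝ => (N : ℂ)⁻¹ * ∑ n ∈ I, a n p.1 *
      G (φ (Real.exp p.2 * (n : ℝ) ^ d) p.1)) := by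
  refine measurable_const.mul (Finset.measurable_fun_sum _ fun n _ => ?_)
  refine ((ha n).comp measurable_fst).mul ?_
  refine hG.comp (hφ.meas.comp (Measurable.prodMk ?_ measurable_fst))
  exact (Real.measurable_exp.comp measurable_snd).mul measurable_const

/-- mean square of one block -/
theorem high_block (d : ℕ) (hd : 1 ≤ d) : ∃ C C' C'' c : ℝ, 0 < C ∧ 0 < C' ∧ 0 < C'' ∧ 0 < c ∧
    ∀ (X : Type u) [MeasurableSpace X] (μ : Measure X) [IsFiniteMeasure μ] (φ : ℝ → X → X),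
    IsFlow μ φ → ∀ (f : X → ℂ) (B L : ℝ), Nice φ B L f → ∀ a : ℕ → X → ℂ, (∀ n, Measurable (a n)) →
    (∀ n x, ‖a n x‖ ≤ 1) → ∀ N : ℕ, 1 ≤ N → ∀ m : ℕ, ∀ I : Finset ℕ, (∀ n ∈ I, N ≤ n ∧ n ≤ 2 * N) →
    ∫⁻ p, ‖(N : ℂ)⁻¹ * ∑ n ∈ I, a n p.1 * (fun x => Kop φ ((N : ℝ) ^ d / 2 ^ m) f x -
        Kop φ ((N : ℝ) ^ d) f x) (φ (Real.exp p.2 * (n : ℝ) ^ d) p.1)‖ₑ ^ 2
        ∂(μ.prod (volume.restrict (Set.Icc 0 (Real.log 2)))) ≤
      ENNReal.ofReal C * (ENNReal.ofReal (C' * ∑ i ∈ Finset.range m, (2 : ℝ) ^ (-((i : ℝ) / 8)) *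
        (al μ φ f ((N : ℝ) ^ d / 2 ^ (i + 1)) - al μ φ f ((N : ℝ) ^ d / 2 ^ i))) +
        ENNReal.ofReal ((N : ℝ) ^ (1 / 4 : ℝ)) * (ENNReal.ofReal (C'' / Real.sqrt N) *
          (ENNReal.ofReal ((2 * B) ^ 2) * μ Set.univ)) +
        ENNReal.ofReal (((2 * B) ^ 2 + (2 * L) ^ 2) * (N : ℝ) ^ (-c)) * μ Set.univ) := by
  obtain ⟨C, c, hC, hc, hblock⟩ := block d hd
  obtain ⟨C', hC', hgsum⟩ := gsum.{u} d
  obtain ⟨C'', hC'', hkey⟩ := key.{u} d
  refine ⟨C, C', C'', c, hC, hC', hC'', hc, ?_⟩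
  intro X _ μ _ φ hφ f B L hf a ha ha1 N hN m I hI
  have hN1 : (1 : ℝ) ≤ N := by exact_mod_cast hN
  have hU : (0 : ℝ) < (N : ℝ) ^ d := by positivity
  have hU' : (0 : ℝ) < (N : ℝ) ^ d / 2 ^ m := by positivity
  set G : X → ℂ := fun x => Kop φ ((N : ℝ) ^ d / 2 ^ m) f x - Kop φ ((N : ℝ) ^ d) f x with hGdef
  have hG : Nice φ (2 * B) (2 * L) G := high_G_nice hφ hf hU' hU
  set S1 : X → ENNReal := fun x => (Finset.Icc (-(N : ℤ)) N).sup
    (fun κ => ‖cf d ((N : ℝ) ^ d) κ (fun t => G (φ t x))‖ₑ ^ 2) with hS1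
  set S2 : X → ENNReal := fun x => (Finset.Icc (-((N : ℤ) ^ (d + 1))) ((N : ℤ) ^ (d + 1)) \
    Finset.Icc (-(N : ℤ)) N).sup (fun κ => ‖cf d ((N : ℝ) ^ d) κ (fun t => G (φ t x))‖ₑ ^ 2) with hS2
  have mcf : ∀ κ, Measurable (fun x => ‖cf d ((N : ℝ) ^ d) κ (fun t => G (φ t x))‖ₑ ^ 2) := fun κ =>
    (cf_meas hφ hG.meas d _ κ).enorm.pow_const 2
  have mS1 : Measurable S1 := High_sup_meas _ _ mcf
  have mS2 : Measurable S2 := High_sup_meas _ _ mcf
  have e1 : ∫⁻ x, S1 x ∂μ ≤ ENNReal.ofReal (C' * ∑ i ∈ Finset.range m, (2 : ℝ) ^ (-((i : ℝ) / 8)) *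
        (al μ φ f ((N : ℝ) ^ d / 2 ^ (i + 1)) - al μ φ f ((N : ℝ) ^ d / 2 ^ i))) :=
    hgsum X μ φ hφ f B L hf _ hU m _
  have e2 : ∫⁻ x, S2 x ∂μ ≤ ENNReal.ofReal (C'' / Real.sqrt N) *
      (ENNReal.ofReal ((2 * B) ^ 2) * μ Set.univ) := by
    refine (hkey X μ φ hφ G hG.meas hG.cont _ hU (N : ℝ) hN1 _ ?_).trans ?_
    · intro κ hκ
      rw [Finset.mem_sdiff, Finset.mem_Icc, Finset.mem_Icc, not_and_or, not_le, not_le] at hκ
      have h3 : (N : ℤ) ≤ |κ| := by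
        rcases hκ.2 with h | h
        · have := neg_abs_le κ
          omega
        · have := le_abs_self κ
          omega
      have h4 : ((N : ℤ) : ℝ) ≤ ((|κ| : ℤ) : ℝ) := by exact_mod_cast h3
      rwa [Int.cast_natCast, Int.cast_abs] at h4
    · refine mul_le_mul_right (a := ENNReal.ofReal (C'' / Real.sqrt N)) ?_
      calc ∫⁻ x, ‖G x‖ₑ ^ 2 ∂μ ≤ ∫⁻ _, ENNReal.ofReal ((2 * B) ^ 2) ∂μ := by
            refine lintegral_mono fun x => ?_
            rw [← ofReal_norm, ← ENNReal.ofReal_pow (norm_nonneg _)]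
            exact ENNReal.ofReal_le_ofReal (pow_le_pow_left₀ (norm_nonneg _) (hG.bd x) 2)
        _ = _ := lintegral_const _
  have hmeas : Measurable (fun p : X × ℝ => ‖(N : ℂ)⁻¹ * ∑ n ∈ I, a n p.1 *
      G (φ (Real.exp p.2 * (n : ℝ) ^ d) p.1)‖ₑ ^ 2) :=
    (high_meas hφ hG.meas ha d N I).enorm.pow_const 2
  rw [lintegral_prod _ hmeas.aemeasurable]
  calc ∫⁻ x, (∫⁻ w in Set.Icc 0 (Real.log 2), ‖(N : ℂ)⁻¹ * ∑ n ∈ I, a n x *
        G (φ (Real.exp w * (n : ℝ) ^ d) x)‖ₑ ^ 2) ∂μ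
      ≤ ∫⁻ x, ENNReal.ofReal C * (S1 x + ENNReal.ofReal ((N : ℝ) ^ (1 / 4 : ℝ)) * S2 x +
          ENNReal.ofReal (((2 * B) ^ 2 + (2 * L) ^ 2) * (N : ℝ) ^ (-c))) ∂μ := by
        refine lintegral_mono fun x => ?_
        exact hblock N hN (fun t => G (φ t x)) (2 * B) (2 * L) (hG.cont x) (fun t => hG.bd _)
          (fun s t => hG.lip s t x) I hI (fun n => a n x) (fun n => ha1 n x)
    _ = ENNReal.ofReal C * (∫⁻ x, S1 x ∂μ + ENNReal.ofReal ((N : ℝ) ^ (1 / 4 : ℝ)) * ∫⁻ x, S2 x ∂μ +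
          ENNReal.ofReal (((2 * B) ^ 2 + (2 * L) ^ 2) * (N : ℝ) ^ (-c)) * μ Set.univ) := by
        rw [lintegral_const_mul' _ _ ENNReal.ofReal_ne_top, lintegral_add_right _ measurable_const,
          lintegral_const, lintegral_add_left mS1, lintegral_const_mul' _ _ ENNReal.ofReal_ne_top]
    _ ≤ _ := by gcongr

theorem high {d : ℕ} (hd : 1 ≤ d) {X : Type*} [MeasurableSpace X] {μ : Measure X} [IsFiniteMeasure μ]
    {φ : ℝ → X → X} (hφ : IsFlow μ φ) {f : X → ℂ} {B L : ℝ} (hf : Nice φ B L f) (hL : 0 ≤ L)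
    {a : ℕ → X → ℂ} (ha : ∀ n, Measurable (a n)) (ha1 : ∀ n x, ‖a n x‖ ≤ 1)
    {I : ℕ → Finset ℕ} (hI : ∀ k, ∀ n ∈ I k, 2 ^ k ≤ n ∧ n ≤ 2 * 2 ^ k) :
    ∀ᵐ p ∂(μ.prod (volume.restrict (Set.Icc 0 (Real.log 2)))),
      Tendsto (fun k : ℕ => ((2 ^ k : ℕ) : ℂ)⁻¹ * ∑ n ∈ I k, a n p.1 *
        (f (φ (Real.exp p.2 * (n : ℝ) ^ d) p.1) -
          Kop φ (((2 ^ k : ℕ) : ℝ) ^ d) f (φ (Real.exp p.2 * (n : ℝ) ^ d) p.1))) atTop (𝓝 0) := by
  obtain ⟨C, C', C'', c, hC, hC', hC'', hc, hB⟩ := high_block d hd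
  -- the blocks of the main part
  set T : ℕ → X × ℝ → ℂ := fun k p => ((2 ^ k : ℕ) : ℂ)⁻¹ * ∑ n ∈ I k, a n p.1 *
    (fun x => Kop φ (((2 ^ k : ℕ) : ℝ) ^ d / 2 ^ ((d + 1) * k)) f x -
      Kop φ (((2 ^ k : ℕ) : ℝ) ^ d) f x) (φ (Real.exp p.2 * (n : ℝ) ^ d) p.1) with hT
  have hscale : ∀ k : ℕ, (((2 ^ k : ℕ) : ℝ) ^ d / 2 ^ ((d + 1) * k)) = ((2 : ℝ) ^ k)⁻¹ := by
    intro k
    push_cast
    rw [← pow_mul, add_mul, one_mul, pow_add, mul_comm k d]
    field_simp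
  have hpow : ∀ k i : ℕ, (((2 ^ k : ℕ) : ℝ) ^ d / 2 ^ i) = (2 : ℝ) ^ ((d : ℤ) * k - i) := by
    intro k i
    push_cast
    rw [zpow_sub₀ (by norm_num : (2 : ℝ) ≠ 0), ← pow_mul, mul_comm k d]
    norm_cast
  have hNk : ∀ k : ℕ, 1 ≤ 2 ^ k := fun k => Nat.one_le_two_pow
  have hpos : ∀ k : ℕ, (0 : ℝ) < ((2 ^ k : ℕ) : ℝ) ^ d := fun k => by positivity
  have hpos' : ∀ k : ℕ, (0 : ℝ) < ((2 ^ k : ℕ) : ℝ) ^ d / 2 ^ ((d + 1) * k) := fun k => by positivity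
  have mT : ∀ k, Measurable (fun p : X × ℝ => ‖T k p‖ₑ ^ 2) := fun k =>
    (high_meas hφ (high_G_nice hφ hf (hpos' k) (hpos k)).meas ha d (2 ^ k) (I k)).enorm.pow_const 2
  -- summability
  set α : ℤ → ℝ := fun j => al μ φ f ((2 : ℝ) ^ j) with hα
  have hαa : Antitone α := high_al_anti hφ hf
  have hα0 : ∀ j, 0 ≤ α j := fun j => al_nonneg f _
  have hαE : ∀ j, α j ≤ ∫ x, ‖f x‖ ^ 2 ∂μ := fun j => al_le hφ hf (by positivity)
  have hs1 := high_sum hαa hα0 hαE hd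
  have hfin : ∑' k, ∫⁻ p, ‖T k p‖ₑ ^ 2 ∂(μ.prod (volume.restrict (Set.Icc 0 (Real.log 2)))) ≠ ⊤ := by
    set x1 : ℕ → ℝ := fun k => C' * ∑ i ∈ Finset.range ((d + 1) * k), (2 : ℝ) ^ (-((i : ℝ) / 8)) *
      (α ((d : ℤ) * k - i - 1) - α ((d : ℤ) * k - i)) with hx1
    set x2 : ℕ → ℝ := fun k => C'' * ((2 : ℝ) ^ (-(1 / 4 : ℝ))) ^ k * (2 * B) ^ 2 with hx2
    set x3 : ℕ → ℝ := fun k => ((2 * B) ^ 2 + (2 * L) ^ 2) * ((2 : ℝ) ^ (-c)) ^ k with hx3
    have s1 : Summable x1 := hs1.mul_left _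
    have s2 : Summable x2 := by
      have := summable_geometric_of_lt_one (r := (2 : ℝ) ^ (-(1 / 4 : ℝ))) (by positivity)
        (Real.rpow_lt_one_of_one_lt_of_neg (by norm_num) (by norm_num))
      exact (this.mul_left C'').mul_right _
    have s3 : Summable x3 := by
      have := summable_geometric_of_lt_one (r := (2 : ℝ) ^ (-c)) (by positivity)
        (Real.rpow_lt_one_of_one_lt_of_neg (by norm_num) (by linarith))
      exact this.mul_left _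
    have hle : ∀ k, ∫⁻ p, ‖T k p‖ₑ ^ 2 ∂(μ.prod (volume.restrict (Set.Icc 0 (Real.log 2)))) ≤
        ENNReal.ofReal C * (ENNReal.ofReal (x1 k) + ENNReal.ofReal (x2 k) * μ Set.univ +
          ENNReal.ofReal (x3 k) * μ Set.univ) := by
      intro k
      refine (hB X μ φ hφ f B L hf a ha ha1 (2 ^ k) (hNk k) ((d + 1) * k) (I k) (hI k)).trans ?_
      refine le_of_eq ?_
      have hk0 : (0 : ℝ) ≤ ((2 ^ k : ℕ) : ℝ) := by positivity
      have hk1 : (0 : ℝ) < (2 : ℝ) := by norm_num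
      congr 2
      · congr 1
        · congr 1
          simp only [hx1, hα]
          congr 1
          refine Finset.sum_congr rfl fun i _ => ?_
          rw [hpow, hpow]
          push_cast
          rw [sub_sub]
        · rw [← mul_assoc, ← mul_assoc, ← ENNReal.ofReal_mul (by positivity),
            ← ENNReal.ofReal_mul (by positivity)]
          congr 2
          simp only [hx2]
          congr 1
          have e1 : ((2 ^ k : ℕ) : ℝ) = (2 : ℝ) ^ (k : ℝ) := by push_cast; rw [Real.rpow_natCast]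
          have e2 : (2 : ℝ) ^ ((k : ℝ) * (1 / 4)) =
              (2 : ℝ) ^ (-(1 / 4) * (k : ℝ)) * (2 : ℝ) ^ ((k : ℝ) * (1 / 2)) := by
            rw [← Real.rpow_add hk1]
            congr 1
            ring
          have e3 : (2 : ℝ) ^ ((k : ℝ) * (1 / 2)) ≠ 0 := (Real.rpow_pos_of_pos hk1 _).ne'
          rw [Real.sqrt_eq_rpow, e1, ← Real.rpow_mul hk1.le, ← Real.rpow_mul hk1.le,
            ← Real.rpow_natCast, ← Real.rpow_mul hk1.le, e2]
          field_simp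
      · congr 2
        simp only [hx3]
        congr 1
        have e1 : ((2 ^ k : ℕ) : ℝ) = (2 : ℝ) ^ (k : ℝ) := by push_cast; rw [Real.rpow_natCast]
        rw [e1, ← Real.rpow_mul hk1.le, ← Real.rpow_natCast, ← Real.rpow_mul hk1.le]
        congr 1
        ring
    refine ne_top_of_le_ne_top ?_ (ENNReal.tsum_le_tsum hle)
    rw [ENNReal.tsum_mul_left, ENNReal.tsum_add, ENNReal.tsum_add, ENNReal.tsum_mul_right,
      ENNReal.tsum_mul_right]
    refine ENNReal.mul_ne_top ENNReal.ofReal_ne_top ?_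
    refine ENNReal.add_ne_top.2 ⟨ENNReal.add_ne_top.2 ⟨s1.tsum_ofReal_ne_top, ?_⟩, ?_⟩
    · exact ENNReal.mul_ne_top s2.tsum_ofReal_ne_top (measure_ne_top _ _)
    · exact ENNReal.mul_ne_top s3.tsum_ofReal_ne_top (measure_ne_top _ _)
  have hae : ∀ᵐ p ∂(μ.prod (volume.restrict (Set.Icc 0 (Real.log 2)))), ∑' k, ‖T k p‖ₑ ^ 2 < ⊤ := by
    refine ae_lt_top (Measurable.tsum mT) ?_
    rw [lintegral_tsum fun k => (mT k).aemeasurable]
    exact hfin
  filter_upwards [hae] with p hp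
  have h1 : Tendsto (fun k => ‖T k p‖ₑ ^ 2) atTop (𝓝 0) :=
    ENNReal.tendsto_atTop_zero_of_tsum_ne_top hp.ne
  have h2 : Tendsto (fun k => T k p) atTop (𝓝 0) := by
    rw [tendsto_zero_iff_norm_tendsto_zero]
    have h3 : Tendsto (fun k => ‖T k p‖ ^ 2) atTop (𝓝 0) := by
      have h4 := (ENNReal.tendsto_toReal ENNReal.zero_ne_top).comp h1
      simpa [Function.comp_def, ENNReal.toReal_pow, toReal_enorm] using h4
    have h5 := (Real.continuous_sqrt.tendsto 0).comp h3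
    simpa [Function.comp_def, Real.sqrt_sq (norm_nonneg _)] using h5
  -- the near part
  have h3 : Tendsto (fun k : ℕ => ((2 ^ k : ℕ) : ℂ)⁻¹ * ∑ n ∈ I k, a n p.1 *
      (f (φ (Real.exp p.2 * (n : ℝ) ^ d) p.1) - Kop φ (((2 ^ k : ℕ) : ℝ) ^ d / 2 ^ ((d + 1) * k)) f
        (φ (Real.exp p.2 * (n : ℝ) ^ d) p.1))) atTop (𝓝 0) := by
    have hlim : Tendsto (fun k : ℕ => 2 * L * ((1 / 2 : ℝ)) ^ k) atTop (𝓝 0) := by
      have := (tendsto_pow_atTop_nhds_zero_of_lt_one (r := (1 / 2 : ℝ)) (by norm_num)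
        (by norm_num)).const_mul (2 * L)
      simpa using this
    refine squeeze_zero_norm (fun k => ?_) hlim
    have hk0 : (0 : ℝ) < (2 : ℝ) ^ k := by positivity
    have hcard : ((I k).card : ℝ) ≤ 2 * 2 ^ k := by
      have h5 : I k ⊆ Finset.Icc (2 ^ k) (2 * 2 ^ k) := fun n hn => Finset.mem_Icc.2 (hI k n hn)
      have h6 := Finset.card_le_card h5
      rw [Nat.card_Icc] at h6
      have h7 := hNk k
      have h8 : (I k).card ≤ 2 * 2 ^ k := by omega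
      exact_mod_cast h8
    have hterm : ∀ n ∈ I k, ‖a n p.1 * (f (φ (Real.exp p.2 * (n : ℝ) ^ d) p.1) -
        Kop φ (((2 ^ k : ℕ) : ℝ) ^ d / 2 ^ ((d + 1) * k)) f (φ (Real.exp p.2 * (n : ℝ) ^ d) p.1))‖ ≤
        L * ((2 : ℝ) ^ k)⁻¹ := by
      intro n _
      rw [norm_mul]
      have h5 := Kop_near hφ hf hL (hpos' k) (φ (Real.exp p.2 * (n : ℝ) ^ d) p.1)
      have h6 := ha1 n p.1
      calc _ ≤ 1 * (L * (((2 ^ k : ℕ) : ℝ) ^ d / 2 ^ ((d + 1) * k))) :=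
            mul_le_mul h6 h5 (norm_nonneg _) (by norm_num)
        _ = _ := by rw [hscale, one_mul]
    rw [norm_mul, norm_inv, Complex.norm_natCast]
    have h5 := (norm_sum_le (I k) _).trans (Finset.sum_le_sum hterm)
    rw [Finset.sum_const, nsmul_eq_mul] at h5
    calc _ ≤ (((2 ^ k : ℕ) : ℝ))⁻¹ * ((2 * 2 ^ k) * (L * ((2 : ℝ) ^ k)⁻¹)) := by
          refine mul_le_mul_of_nonneg_left (h5.trans ?_) (by positivity)
          exact mul_le_mul_of_nonneg_right hcard (by positivity)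
      _ = 2 * L * (1 / 2) ^ k := by
          push_cast
          rw [one_div, inv_pow]
          field_simp
  have h4 := h3.add h2
  rw [add_zero] at h4
  refine h4.congr fun k => ?_
  simp only [hT]
  rw [← mul_add, ← Finset.sum_add_distrib]
  congr 1
  refine Finset.sum_congr rfl fun n _ => ?_
  rw [← mul_add]
  congr 1
  ring

end Pool.Agent.GT
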