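import Mathlib
import Pool.Agent.GT.Defs
import Pool.Agent.GT.Ops
import Pool.Agent.GT.LowF

/-!
# GT/Osc: the smoothed function is almost constant on the orbit piece

`B0 = 2^(d+1)`, `0 ≤ t ≤ B0 U`.  For `i ≥ 0`, `M_i = 2^i U`, `w_i = zz φ M_i f - zz φ M_i f ∘ φ M_i`: by `Kop_sub'`
`Kop φ M_i f - Kop φ M_{i+1} f = avg φ M_i w_i`, and
`avg φ M w (φ_t x) - avg φ M w (x) = M⁻¹ (∫_M^{M+t} w(φ_s x) ds - ∫_0^t w(φ_s x) ds)`, so its norm is at most
`Δ_i(x) = M_i⁻¹ (∫_0^{B0 U} ‖w_i(φ_s x)‖ ds + ∫_{M_i}^{M_i + B0 U} ‖w_i(φ_s x)‖ ds)` (as an `ENNReal`, `∫⁻`).  Telescoping up to `i = n` and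
`‖Kop φ M_n f (φ_t x) - Kop φ M_n f x‖ ≤ 2 t B / M_n → 0` (the same formula with `w` replaced by the bounded function `avg (rev φ) M_n f`) gives the second
claim.  `∫⁻ Δ_i² ≤ 2 · M_i⁻² · 2 · (B0 U)² ∫⁻ ‖w_i‖ₑ²` (`sq_orbit_le`), `∫ ‖w_i‖² ≤ 4 ∫ ‖zz‖² = al M_i - al M_{i+1}` (`zz_l2`), `(U/M_i)² = 4^(-i)`.
-/

namespace Pool.Agent.GT

open MeasureTheory Filter Topology

universe u

section
variable {X : Type*} [MeasurableSpace X] {μ : Measure X} [IsFiniteMeasure μ] {φ : ℝ → X → X} {F : X → ℂ} {B L M : ℝ}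

/-- the difference of an average along the orbit -/
private theorem Osc_diff (hφ : IsFlow μ φ) {g : X → ℂ} (hg : ∀ x, Continuous fun t => g (φ t x)) (M t : ℝ) (x : X) :
    avg φ M g (φ t x) - avg φ M g x =
      ((M⁻¹ : ℝ) : ℂ) * ((∫ s in M..(M + t), g (φ s x)) - ∫ s in (0 : ℝ)..t, g (φ s x)) := by
  have hi : ∀ a b : ℝ, IntervalIntegrable (fun s => g (φ s x)) volume a b := fun a b =>
    (hg x).intervalIntegrable a b
  unfold avg
  rw [← mul_sub]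
  congr 1
  have h1 : ∫ s in (0 : ℝ)..M, g (φ s (φ t x)) = ∫ s in t..(M + t), g (φ s x) := by
    have h2 := intervalIntegral.integral_comp_add_right (a := (0 : ℝ)) (b := M)
      (fun s => g (φ s x)) t
    rw [zero_add] at h2
    rw [← h2]
    refine intervalIntegral.integral_congr fun s _ => ?_
    show g (φ s (φ t x)) = g (φ (s + t) x)
    rw [hφ.add]
  rw [h1]
  have h3 := intervalIntegral.integral_add_adjacent_intervals (hi 0 t) (hi t (M + t))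
  have h4 := intervalIntegral.integral_add_adjacent_intervals (hi 0 M) (hi M (M + t))
  rw [← h4] at h3
  linear_combination h3

private theorem Osc_enorm {h : ℝ → ℂ} {a b c : ℝ} (hab : a ≤ b) (hbc : b ≤ c) :
    ‖∫ s in a..b, h s‖ₑ ≤ ∫⁻ s in Set.Icc a c, ‖h s‖ₑ := by
  rw [intervalIntegral.integral_of_le hab]
  refine (enorm_integral_le_lintegral_enorm _).trans ?_
  refine lintegral_mono_set ?_
  exact fun s hs => ⟨hs.1.le, hs.2.trans hbc⟩

/-- the bound for one step -/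
private noncomputable def OscD (φ : ℝ → X → X) (M T : ℝ) (w : X → ℂ) (x : X) : ENNReal :=
  ENNReal.ofReal M⁻¹ * ((∫⁻ s in Set.Icc (0 : ℝ) T, ‖w (φ s x)‖ₑ) + ∫⁻ s in Set.Icc M (M + T), ‖w (φ s x)‖ₑ)

private theorem Osc_le (hφ : IsFlow μ φ) {g : X → ℂ} (hg : ∀ x, Continuous fun t => g (φ t x)) {M T t : ℝ}
    (hM : 0 < M) (ht : 0 ≤ t) (htT : t ≤ T) (x : X) :
    ‖avg φ M g (φ t x) - avg φ M g x‖ₑ ≤ OscD φ M T g x := by
  rw [Osc_diff hφ hg, enorm_mul]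
  have e1 : ‖((M⁻¹ : ℝ) : ℂ)‖ₑ = ENNReal.ofReal M⁻¹ := by
    rw [← ofReal_norm, Complex.norm_real, Real.norm_of_nonneg (inv_nonneg.2 hM.le)]
  rw [e1]
  unfold OscD
  refine mul_le_mul_of_nonneg_left ?_ (zero_le)
  refine enorm_sub_le.trans ?_
  rw [add_comm]
  refine add_le_add (Osc_enorm ht htT) (Osc_enorm (by linarith) (by linarith))

private theorem OscD_meas (hφ : IsFlow μ φ) {g : X → ℂ} (hg : Measurable g) (M T : ℝ) :
    Measurable (OscD φ M T g) := by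
  have hm : Measurable (Function.uncurry fun (x : X) (t : ℝ) => ‖g (φ t x)‖ₑ) :=
    (hg.comp (hφ.meas.comp measurable_swap)).enorm
  unfold OscD
  refine Measurable.const_mul (Measurable.add ?_ ?_) _
  · exact hm.lintegral_prod_right (ν := volume.restrict (Set.Icc (0 : ℝ) T))
  · exact hm.lintegral_prod_right (ν := volume.restrict (Set.Icc M (M + T)))

private theorem Osc_sq (a b : ENNReal) : (a + b) ^ 2 ≤ 2 * (a ^ 2 + b ^ 2) := by
  rcases eq_or_ne a ⊤ with rfl | ha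
  · simp
  rcases eq_or_ne b ⊤ with rfl | hb
  · simp
  lift a to NNReal using ha
  lift b to NNReal using hb
  have h : (a + b) ^ 2 ≤ 2 * (a ^ 2 + b ^ 2) := by
    rw [← NNReal.coe_le_coe]
    push_cast
    nlinarith [sq_nonneg ((a : ℝ) - b)]
  exact_mod_cast h

private theorem OscD_sq (hφ : IsFlow μ φ) {g : X → ℂ} (hg : Measurable g) {M T : ℝ} (hM : 0 < M) (hT : 0 ≤ T) :
    ∫⁻ x, OscD φ M T g x ^ 2 ∂μ ≤ ENNReal.ofReal (4 * (T / M) ^ 2) * ∫⁻ x, ‖g x‖ₑ ^ 2 ∂μ := by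
  have hm : Measurable (Function.uncurry fun (x : X) (t : ℝ) => ‖g (φ t x)‖ₑ) :=
    (hg.comp (hφ.meas.comp measurable_swap)).enorm
  have m1 : Measurable fun x => ∫⁻ s in Set.Icc (0 : ℝ) T, ‖g (φ s x)‖ₑ :=
    hm.lintegral_prod_right (ν := volume.restrict (Set.Icc (0 : ℝ) T))
  have m2 : Measurable fun x => ∫⁻ s in Set.Icc M (M + T), ‖g (φ s x)‖ₑ :=
    hm.lintegral_prod_right (ν := volume.restrict (Set.Icc M (M + T)))
  have h1 := sq_orbit_le hφ hg hT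
  have h2 := sq_orbit_le hφ hg (show M ≤ M + T by linarith)
  rw [sub_zero] at h1
  rw [add_sub_cancel_left] at h2
  have hc : ENNReal.ofReal M⁻¹ ^ 2 = ENNReal.ofReal (M⁻¹ ^ 2) := by
    rw [ENNReal.ofReal_pow (inv_nonneg.2 hM.le)]
  calc ∫⁻ x, OscD φ M T g x ^ 2 ∂μ
      ≤ ∫⁻ x, ENNReal.ofReal (M⁻¹ ^ 2) * (2 * ((∫⁻ s in Set.Icc (0 : ℝ) T, ‖g (φ s x)‖ₑ) ^ 2 +
          (∫⁻ s in Set.Icc M (M + T), ‖g (φ s x)‖ₑ) ^ 2)) ∂μ := by
        refine lintegral_mono fun x => ?_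
        unfold OscD
        rw [mul_pow, hc]
        exact mul_le_mul_of_nonneg_left (Osc_sq _ _) (zero_le)
    _ = ENNReal.ofReal (M⁻¹ ^ 2) * (2 * ((∫⁻ x, (∫⁻ s in Set.Icc (0 : ℝ) T, ‖g (φ s x)‖ₑ) ^ 2 ∂μ) +
          ∫⁻ x, (∫⁻ s in Set.Icc M (M + T), ‖g (φ s x)‖ₑ) ^ 2 ∂μ)) := by
        have m3 : Measurable fun x => (∫⁻ s in Set.Icc (0 : ℝ) T, ‖g (φ s x)‖ₑ) ^ 2 := m1.pow_const 2
        have m4 : Measurable fun x => (∫⁻ s in Set.Icc M (M + T), ‖g (φ s x)‖ₑ) ^ 2 := m2.pow_const 2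
        have m5 : Measurable fun x => (∫⁻ s in Set.Icc (0 : ℝ) T, ‖g (φ s x)‖ₑ) ^ 2 +
          (∫⁻ s in Set.Icc M (M + T), ‖g (φ s x)‖ₑ) ^ 2 := m3.add m4
        rw [lintegral_const_mul _ (m5.const_mul 2), lintegral_const_mul _ m5, lintegral_add_left m3]
    _ ≤ ENNReal.ofReal (M⁻¹ ^ 2) * (2 * (ENNReal.ofReal (T ^ 2) * (∫⁻ x, ‖g x‖ₑ ^ 2 ∂μ) +
          ENNReal.ofReal (T ^ 2) * ∫⁻ x, ‖g x‖ₑ ^ 2 ∂μ)) := by
        gcongr
    _ = ENNReal.ofReal (4 * (T / M) ^ 2) * ∫⁻ x, ‖g x‖ₑ ^ 2 ∂μ := by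
        have e : (4 : ℝ) * (T / M) ^ 2 = M⁻¹ ^ 2 * (4 * T ^ 2) := by
          rw [div_eq_mul_inv]
          ring
        rw [e, ENNReal.ofReal_mul (by positivity), ENNReal.ofReal_mul (by norm_num)]
        have e4 : ENNReal.ofReal 4 = 4 := by
          rw [show (4 : ℝ) = ((4 : ℕ) : ℝ) by norm_num, ENNReal.ofReal_natCast]
          norm_num
        rw [e4]
        ring

end

theorem osc (d : ℕ) : ∃ C : ℝ, 0 < C ∧ ∀ (X : Type u) [MeasurableSpace X] (μ : Measure X) [IsFiniteMeasure μ]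
    (φ : ℝ → X → X), IsFlow μ φ → ∀ (f : X → ℂ) (B L : ℝ), Nice φ B L f → ∀ U : ℝ, 0 < U →
    ∃ Δ : ℕ → X → ENNReal, (∀ i, Measurable (Δ i)) ∧
      (∀ x t, 0 ≤ t → t ≤ 2 ^ (d + 1) * U → ‖Kop φ U f (φ t x) - Kop φ U f x‖ₑ ≤ ∑' i, Δ i x) ∧
      ∀ i : ℕ, ∫⁻ x, Δ i x ^ 2 ∂μ ≤ ENNReal.ofReal (C * (1 / 4) ^ i *
        (al μ φ f (2 ^ i * U) - al μ φ f (2 ^ (i + 1) * U))) := by
  refine ⟨4 * (2 ^ (d + 1)) ^ 2, by positivity, ?_⟩
  intro X _ μ _ φ hφ f B L hf U hU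
  have hMi : ∀ i : ℕ, 0 < 2 ^ i * U := fun i => by positivity
  set w : ℕ → X → ℂ := fun i y => zz φ (2 ^ i * U) f y - zz φ (2 ^ i * U) f (φ (2 ^ i * U) y) with hw
  have hzz : ∀ i, Nice φ B L (zz φ (2 ^ i * U) f) := fun i => zz_nice hφ hf (hMi i)
  have hwm : ∀ i, Measurable (w i) := fun i =>
    (hzz i).meas.sub ((hzz i).meas.comp (hφ.mp _).measurable)
  have hwc : ∀ i x, Continuous fun t => w i (φ t x) := by
    intro i x
    refine ((hzz i).cont x).sub ?_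
    have h1 := (hzz i).cont (φ (2 ^ i * U) x)
    refine h1.congr fun t => ?_
    rw [hφ.comm]
  refine ⟨fun i => OscD φ (2 ^ i * U) (2 ^ (d + 1) * U) (w i), fun i => OscD_meas hφ (hwm i) _ _, ?_, ?_⟩
  · intro x t ht htT
    -- telescoping
    have hstep : ∀ i : ℕ, ‖(Kop φ (2 ^ i * U) f (φ t x) - Kop φ (2 ^ i * U) f x) -
        (Kop φ (2 ^ (i + 1) * U) f (φ t x) - Kop φ (2 ^ (i + 1) * U) f x)‖ₑ ≤
        OscD φ (2 ^ i * U) (2 ^ (d + 1) * U) (w i) x := by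
      intro i
      have h2 : (2 : ℝ) ^ (i + 1) * U = 2 * (2 ^ i * U) := by ring
      have h3 := Kop_sub' hφ hf (hMi i) (φ t x)
      have h4 := Kop_sub' hφ hf (hMi i) x
      rw [h2]
      have h5 : (Kop φ (2 ^ i * U) f (φ t x) - Kop φ (2 ^ i * U) f x) -
          (Kop φ (2 * (2 ^ i * U)) f (φ t x) - Kop φ (2 * (2 ^ i * U)) f x) =
          avg φ (2 ^ i * U) (w i) (φ t x) - avg φ (2 ^ i * U) (w i) x := by
        rw [← h3, ← h4]
        ring
      rw [h5]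
      exact Osc_le hφ (hwc i) (hMi i) ht htT x
    have htel : ∀ n : ℕ, ‖Kop φ U f (φ t x) - Kop φ U f x‖ₑ ≤
        (∑' i, OscD φ (2 ^ i * U) (2 ^ (d + 1) * U) (w i) x) +
          ‖Kop φ (2 ^ n * U) f (φ t x) - Kop φ (2 ^ n * U) f x‖ₑ := by
      intro n
      have h6 : ∀ n : ℕ, ‖Kop φ U f (φ t x) - Kop φ U f x‖ₑ ≤
        (∑ i ∈ Finset.range n, OscD φ (2 ^ i * U) (2 ^ (d + 1) * U) (w i) x) +
          ‖Kop φ (2 ^ n * U) f (φ t x) - Kop φ (2 ^ n * U) f x‖ₑ := by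
        intro n
        induction n with
        | zero => simp
        | succ n ih =>
          refine ih.trans ?_
          rw [Finset.sum_range_succ, add_assoc]
          refine add_le_add le_rfl ?_
          have h7 : Kop φ (2 ^ n * U) f (φ t x) - Kop φ (2 ^ n * U) f x =
            ((Kop φ (2 ^ n * U) f (φ t x) - Kop φ (2 ^ n * U) f x) -
              (Kop φ (2 ^ (n + 1) * U) f (φ t x) - Kop φ (2 ^ (n + 1) * U) f x)) +
              (Kop φ (2 ^ (n + 1) * U) f (φ t x) - Kop φ (2 ^ (n + 1) * U) f x) := by ring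
          rw [h7]
          refine (enorm_add_le _ _).trans ?_
          exact add_le_add (hstep n) le_rfl
      exact (h6 n).trans (add_le_add (ENNReal.sum_le_tsum _) le_rfl)
    have hB : 0 ≤ B := (norm_nonneg _).trans (hf.bd x)
    have hlast : ∀ n : ℕ, ‖Kop φ (2 ^ n * U) f (φ t x) - Kop φ (2 ^ n * U) f x‖ ≤
        (2 * t * B / U) * (1 / 2) ^ n := by
      intro n
      have hG := avg_rev_nice hφ hf (hMi n)
      have h8 : Kop φ (2 ^ n * U) f (φ t x) - Kop φ (2 ^ n * U) f x = _ := Osc_diff hφ hG.cont (2 ^ n * U) t x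
      have h9 : ∀ a b : ℝ, ‖∫ s in a..b, avg (rev φ) (2 ^ n * U) f (φ s x)‖ ≤ B * |b - a| :=
        fun a b => intervalIntegral.norm_integral_le_of_norm_le_const fun s _ => hG.bd _
      have h10 := h9 (2 ^ n * U) (2 ^ n * U + t)
      have h11 := h9 0 t
      rw [add_sub_cancel_left, abs_of_nonneg ht] at h10
      rw [sub_zero, abs_of_nonneg ht] at h11
      rw [h8, norm_mul, Complex.norm_real, Real.norm_of_nonneg (inv_nonneg.2 (hMi n).le)]
      have h12 := norm_sub_le (∫ s in (2 ^ n * U)..(2 ^ n * U + t), avg (rev φ) (2 ^ n * U) f (φ s x))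
        (∫ s in (0 : ℝ)..t, avg (rev φ) (2 ^ n * U) f (φ s x))
      calc (2 ^ n * U)⁻¹ * _ ≤ (2 ^ n * U)⁻¹ * (2 * t * B) :=
            mul_le_mul_of_nonneg_left (by linarith) (inv_nonneg.2 (hMi n).le)
        _ = (2 * t * B / U) * (1 / 2) ^ n := by
            rw [one_div, inv_pow]
            field_simp
    have hlim : Tendsto (fun n : ℕ => (∑' i, OscD φ (2 ^ i * U) (2 ^ (d + 1) * U) (w i) x) +
          ‖Kop φ (2 ^ n * U) f (φ t x) - Kop φ (2 ^ n * U) f x‖ₑ) atTop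
        (𝓝 ((∑' i, OscD φ (2 ^ i * U) (2 ^ (d + 1) * U) (w i) x) + 0)) := by
      refine Tendsto.add tendsto_const_nhds ?_
      have h13 : Tendsto (fun n : ℕ => (2 * t * B / U) * (1 / 2 : ℝ) ^ n) atTop (𝓝 0) := by
        have := (tendsto_pow_atTop_nhds_zero_of_lt_one (r := (1 / 2 : ℝ)) (by norm_num) (by norm_num)).const_mul
          (2 * t * B / U)
        rwa [mul_zero] at this
      have h14 : Tendsto (fun n : ℕ => Kop φ (2 ^ n * U) f (φ t x) - Kop φ (2 ^ n * U) f x) atTop (𝓝 0) :=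
        squeeze_zero_norm hlast h13
      have h15 := h14.enorm
      rwa [enorm_zero] at h15
    rw [add_zero] at hlim
    exact ge_of_tendsto' hlim htel
  · intro i
    have h1 := OscD_sq hφ (hwm i) (hMi i) (show 0 ≤ 2 ^ (d + 1) * U by positivity)
    refine h1.trans ?_
    have hz := hzz i
    have hzi : Integrable (fun x => ‖zz φ (2 ^ i * U) f x‖ ^ 2) μ := by
      refine Integrable.of_bound ((hz.meas.norm.pow_const 2).aestronglyMeasurable) (B ^ 2)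
        (Filter.Eventually.of_forall fun x => ?_)
      rw [Real.norm_of_nonneg (sq_nonneg _)]
      exact pow_le_pow_left₀ (norm_nonneg _) (hz.bd x) 2
    have hzs : Integrable (fun x => ‖zz φ (2 ^ i * U) f (φ (2 ^ i * U) x)‖ ^ 2) μ := by
      refine Integrable.of_bound (((hz.meas.comp (hφ.mp _).measurable).norm.pow_const 2).aestronglyMeasurable)
        (B ^ 2) (Filter.Eventually.of_forall fun x => ?_)
      rw [Real.norm_of_nonneg (sq_nonneg _)]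
      exact pow_le_pow_left₀ (norm_nonneg _) (hz.bd _) 2
    have hwi : Integrable (fun x => ‖w i x‖ ^ 2) μ := by
      refine Integrable.of_bound (((hwm i).norm.pow_const 2).aestronglyMeasurable)
        ((2 * B) ^ 2) (Filter.Eventually.of_forall fun x => ?_)
      rw [Real.norm_of_nonneg (sq_nonneg _)]
      refine pow_le_pow_left₀ (norm_nonneg _) ?_ 2
      refine (norm_sub_le _ _).trans ?_
      have a1 := hz.bd x
      have a2 := hz.bd (φ (2 ^ i * U) x)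
      linarith
    have hinv : ∫ x, ‖zz φ (2 ^ i * U) f (φ (2 ^ i * U) x)‖ ^ 2 ∂μ = ∫ x, ‖zz φ (2 ^ i * U) f x‖ ^ 2 ∂μ := by
      have h1 := integral_map (μ := μ) (φ := φ (2 ^ i * U)) (hφ.mp _).measurable.aemeasurable
        (f := fun x => ‖zz φ (2 ^ i * U) f x‖ ^ 2) (hz.meas.norm.pow_const 2).aestronglyMeasurable
      rw [(hφ.mp _).map_eq] at h1
      exact h1.symm
    have hw2 : ∫ x, ‖w i x‖ ^ 2 ∂μ ≤ al μ φ f (2 ^ i * U) - al μ φ f (2 ^ (i + 1) * U) := by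
      have h2 : ∫ x, ‖w i x‖ ^ 2 ∂μ ≤ ∫ x, (2 * ‖zz φ (2 ^ i * U) f x‖ ^ 2 +
          2 * ‖zz φ (2 ^ i * U) f (φ (2 ^ i * U) x)‖ ^ 2) ∂μ := by
        refine integral_mono hwi ((hzi.const_mul 2).add (hzs.const_mul 2)) fun x => ?_
        show ‖zz φ (2 ^ i * U) f x - zz φ (2 ^ i * U) f (φ (2 ^ i * U) x)‖ ^ 2 ≤ _
        have a1 := norm_sub_le (zz φ (2 ^ i * U) f x) (zz φ (2 ^ i * U) f (φ (2 ^ i * U) x))
        have a2 := norm_nonneg (zz φ (2 ^ i * U) f x - zz φ (2 ^ i * U) f (φ (2 ^ i * U) x))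
        have a3 : ‖zz φ (2 ^ i * U) f x - zz φ (2 ^ i * U) f (φ (2 ^ i * U) x)‖ ^ 2 ≤
          (‖zz φ (2 ^ i * U) f x‖ + ‖zz φ (2 ^ i * U) f (φ (2 ^ i * U) x)‖) ^ 2 :=
          pow_le_pow_left₀ a2 a1 2
        nlinarith [sq_nonneg (‖zz φ (2 ^ i * U) f x‖ - ‖zz φ (2 ^ i * U) f (φ (2 ^ i * U) x)‖)]
      rw [integral_add (hzi.const_mul 2) (hzs.const_mul 2), integral_const_mul, integral_const_mul, hinv,
        zz_l2 hφ hf (hMi i)] at h2
      have h3 : (2 : ℝ) ^ (i + 1) * U = 2 * (2 ^ i * U) := by ring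
      rw [h3]
      linarith
    have hl : ∫⁻ x, ‖w i x‖ₑ ^ 2 ∂μ = ENNReal.ofReal (∫ x, ‖w i x‖ ^ 2 ∂μ) := by
      rw [ofReal_integral_eq_lintegral_ofReal hwi (Filter.Eventually.of_forall fun x => sq_nonneg _)]
      refine lintegral_congr fun x => ?_
      rw [ENNReal.ofReal_pow (norm_nonneg _), ofReal_norm]
    rw [hl, ← ENNReal.ofReal_mul (by positivity)]
    refine ENNReal.ofReal_le_ofReal ?_
    have e : 4 * (2 ^ (d + 1) * U / (2 ^ i * U)) ^ 2 = 4 * (2 ^ (d + 1)) ^ 2 * (1 / 4 : ℝ) ^ i := by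
      have : (1 / 4 : ℝ) ^ i = ((2 ^ i) ^ 2)⁻¹ := by
        rw [← pow_mul, mul_comm i 2, pow_mul, one_div, inv_pow]
        norm_num
      rw [this]
      field_simp
    rw [e]
    exact mul_le_mul_of_nonneg_left hw2 (by positivity)

end Pool.Agent.GT
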