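import Mathlib
import Pool.Agent.GT.Defs
import Pool.Agent.GT.High
import Pool.Agent.GT.Osc

/-!
# GT/Blk: blocks of `f` minus the smoothed value

By `High.high` it remains to see `2^(-k) ∑_{n ∈ I k} a_n (Kop U f (φ_t x) - Kop U f x) → 0`, `t = e^w n^d ∈ [0, 2^(d+1) U]`, `U = (2^k)^d`, for almost every `x` (all `w ∈ [0, log 2]`).  Its norm
is at most `2 ∑_i Δ_i^k(x)` (`Osc.osc` for `U = U_k`; `#I k ≤ 2·2^k`).  `(∑_i Δ_i)² ≤ (∑_i 2^(-i)) (∑_i 2^i Δ_i²)` (Cauchy–Schwarz in `ENNReal`; or use `(∑_i Δ_i) ≤ (∑_i 2^(-i) + ∑ ..)`, any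
form), so `∫⁻ (∑_i Δ_i^k)² ≤ 2 C ∑_i 2^i 4^(-i) (al (2^i U_k) - al (2^(i+1) U_k))` and the sum over `k` is at most `C' ∑_i 2^(-i) ∫‖f‖² < ∞` (telescoping as in `High`: for fixed `i`
the intervals `[2^i U_k, 2^(i+1) U_k]` are non-overlapping because `d ≥ 1`).  So `∑_i Δ_i^k(x) → 0` for almost every `x`.
-/

namespace Pool.Agent.GT

open MeasureTheory Filter Topology

private theorem Blk_le {c : ENNReal} (hc : c ≠ 0) (hc' : c ≠ ⊤) (a : ENNReal) : a ≤ c + c⁻¹ * a ^ 2 := by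
  rcases le_total a c with h | h
  · exact h.trans le_self_add
  · refine le_trans ?_ le_add_self
    calc a = c⁻¹ * (c * a) := by rw [← mul_assoc, ENNReal.inv_mul_cancel hc hc', one_mul]
      _ ≤ c⁻¹ * a ^ 2 := by
        rw [sq]
        gcongr

/-- if the weighted sums of squares tend to zero then the sums tend to zero -/
private theorem Blk_tendsto {Δ : ℕ → ℕ → ENNReal}
    (hT : Tendsto (fun k => ∑' i, 2 ^ i * Δ k i ^ 2) atTop (𝓝 0)) :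
    Tendsto (fun k => ∑' i, Δ k i) atTop (𝓝 0) := by
  rw [ENNReal.tendsto_nhds_zero] at hT ⊢
  intro ε hε
  obtain ⟨e, he0, he1, heε⟩ : ∃ e : ENNReal, e ≠ 0 ∧ e ≠ ⊤ ∧ 3 * e ≤ ε := by
    refine ⟨min ε 1 / 3, ?_, ?_, ?_⟩
    · refine (ENNReal.div_pos ?_ (by norm_num)).ne'
      exact (lt_min hε one_pos).ne'
    · refine (ENNReal.div_lt_top ?_ (by norm_num)).ne
      exact ((min_le_right _ _).trans_lt ENNReal.one_lt_top).ne
    · rw [ENNReal.mul_div_cancel (by norm_num) (by norm_num)]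
      exact min_le_left _ _
  have hc0 : ∀ i : ℕ, e * 2⁻¹ ^ i ≠ 0 := fun i =>
    mul_ne_zero he0 (pow_ne_zero _ (ENNReal.inv_ne_zero.2 (by norm_num)))
  have hc1 : ∀ i : ℕ, e * 2⁻¹ ^ i ≠ ⊤ := fun i =>
    ENNReal.mul_ne_top he1 (ENNReal.pow_ne_top (ENNReal.inv_ne_top.2 (by norm_num)))
  have hinv : ∀ i : ℕ, (e * 2⁻¹ ^ i)⁻¹ = e⁻¹ * 2 ^ i := by
    intro i
    rw [ENNReal.mul_inv (Or.inl he0) (Or.inl he1), ENNReal.inv_pow, inv_inv]
  filter_upwards [hT (e * e) (by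
    have := mul_ne_zero he0 he0
    exact pos_iff_ne_zero.2 this)] with k hk
  calc ∑' i, Δ k i ≤ ∑' i, (e * 2⁻¹ ^ i + (e * 2⁻¹ ^ i)⁻¹ * Δ k i ^ 2) :=
        ENNReal.tsum_le_tsum fun i => Blk_le (hc0 i) (hc1 i) _
    _ = e * 2 + e⁻¹ * ∑' i, 2 ^ i * Δ k i ^ 2 := by
        rw [ENNReal.tsum_add, ENNReal.tsum_mul_left, ENNReal.tsum_geometric, ENNReal.one_sub_inv_two,
          inv_inv, ← ENNReal.tsum_mul_left]
        congr 2
        funext i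
        rw [hinv, mul_assoc]
    _ ≤ e * 2 + e⁻¹ * (e * e) := by gcongr
    _ = 3 * e := by
        rw [← mul_assoc, ENNReal.inv_mul_cancel he0 he1, one_mul]
        ring
    _ ≤ ε := heε

/-- telescoping -/
private theorem Blk_tele {α : ℕ → ℝ} (hanti : Antitone α) (h0 : ∀ j, 0 ≤ α j) {d : ℕ} (hd : 1 ≤ d) (i : ℕ)
    {A : ℝ} (hA : α i ≤ A) :
    ∑' k : ℕ, ENNReal.ofReal (α (i + d * k) - α (i + d * k + 1)) ≤ ENNReal.ofReal A := by
  refine ENNReal.tsum_le_of_sum_range_le fun n => ?_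
  rw [← ENNReal.ofReal_sum_of_nonneg (fun k _ => sub_nonneg.2 (hanti (Nat.le_succ _)))]
  refine ENNReal.ofReal_le_ofReal ?_
  have h1 : ∀ n : ℕ, ∑ k ∈ Finset.range n, (α (i + d * k) - α (i + d * k + 1)) ≤ α i - α (i + d * n) := by
    intro n
    induction n with
    | zero => simp
    | succ n ih =>
      rw [Finset.sum_range_succ]
      have h2 : α (i + d * (n + 1)) ≤ α (i + d * n + 1) := hanti (by
        rw [mul_add, mul_one]
        omega)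
      linarith
  have h3 := h1 n
  have h4 := h0 (i + d * n)
  linarith

theorem blk {d : ℕ} (hd : 1 ≤ d) {X : Type*} [MeasurableSpace X] {μ : Measure X} [IsFiniteMeasure μ]
    {φ : ℝ → X → X} (hφ : IsFlow μ φ) {f : X → ℂ} {B L : ℝ} (hf : Nice φ B L f) (hL : 0 ≤ L)
    {a : ℕ → X → ℂ} (ha : ∀ n, Measurable (a n)) (ha1 : ∀ n x, ‖a n x‖ ≤ 1)
    {I : ℕ → Finset ℕ} (hI : ∀ k, ∀ n ∈ I k, 2 ^ k ≤ n ∧ n ≤ 2 * 2 ^ k) :
    ∀ᵐ p ∂(μ.prod (volume.restrict (Set.Icc 0 (Real.log 2)))),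
      Tendsto (fun k : ℕ => ((2 ^ k : ℕ) : ℂ)⁻¹ * ∑ n ∈ I k, a n p.1 *
        (f (φ (Real.exp p.2 * (n : ℝ) ^ d) p.1) - Kop φ (((2 ^ k : ℕ) : ℝ) ^ d) f p.1)) atTop (𝓝 0) := by
  have hU : ∀ k : ℕ, (0 : ℝ) < ((2 ^ k : ℕ) : ℝ) ^ d := fun k => by positivity
  have hUe : ∀ k i : ℕ, (2 : ℝ) ^ i * ((2 ^ k : ℕ) : ℝ) ^ d = 2 ^ (i + d * k) := by
    intro k i
    rw [Nat.cast_pow, Nat.cast_ofNat, ← pow_mul, pow_add, mul_comm k d]
  obtain ⟨C, hC, ho⟩ := osc d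
  choose Δ hΔm hΔ1 hΔ2 using fun k : ℕ => ho X μ φ hφ f B L hf _ (hU k)
  -- the sequence of energies
  have hanti : Antitone fun j : ℕ => al μ φ f (2 ^ j) := by
    refine antitone_nat_of_succ_le fun j => ?_
    have h1 := zz_l2 hφ hf (M := (2 : ℝ) ^ j) (by positivity)
    have h2 : 0 ≤ ∫ x, ‖zz φ ((2 : ℝ) ^ j) f x‖ ^ 2 ∂μ := integral_nonneg fun x => sq_nonneg _
    have h3 : (2 : ℝ) ^ (j + 1) = 2 * 2 ^ j := by ring
    show al μ φ f (2 ^ (j + 1)) ≤ al μ φ f (2 ^ j)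
    rw [h3]
    linarith
  have hA : ∀ j : ℕ, al μ φ f (2 ^ j) ≤ ∫ x, ‖f x‖ ^ 2 ∂μ := fun j => al_le hφ hf (by positivity)
  -- the sum of the integrals is finite
  have hsum : ∫⁻ x, ∑' k, ∑' i, 2 ^ i * Δ k i x ^ 2 ∂μ ≠ ⊤ := by
    have hm : ∀ k i, Measurable fun x => (2 : ENNReal) ^ i * Δ k i x ^ 2 := fun k i =>
      ((hΔm k i).pow_const 2).const_mul _
    rw [lintegral_tsum fun k => (Measurable.tsum fun i => hm k i).aemeasurable]
    have h1 : ∀ k, ∫⁻ x, ∑' i, 2 ^ i * Δ k i x ^ 2 ∂μ ≤ ∑' i : ℕ, ENNReal.ofReal (C * (1 / 2) ^ i) *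
        ENNReal.ofReal (al μ φ f (2 ^ (i + d * k)) - al μ φ f (2 ^ (i + d * k + 1))) := by
      intro k
      rw [lintegral_tsum fun i => (hm k i).aemeasurable]
      refine ENNReal.tsum_le_tsum fun i => ?_
      rw [lintegral_const_mul _ ((hΔm k i).pow_const 2)]
      have h2 := hΔ2 k i
      have h3 : (2 : ℝ) ^ (i + 1) * ((2 ^ k : ℕ) : ℝ) ^ d = 2 ^ (i + d * k + 1) := by
        rw [hUe, show i + 1 + d * k = i + d * k + 1 by omega]
      rw [hUe, h3] at h2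
      calc (2 : ENNReal) ^ i * ∫⁻ x, Δ k i x ^ 2 ∂μ
          ≤ 2 ^ i * ENNReal.ofReal (C * (1 / 4) ^ i *
            (al μ φ f (2 ^ (i + d * k)) - al μ φ f (2 ^ (i + d * k + 1)))) := by gcongr
        _ = ENNReal.ofReal (C * (1 / 2) ^ i) *
            ENNReal.ofReal (al μ φ f (2 ^ (i + d * k)) - al μ φ f (2 ^ (i + d * k + 1))) := by
            have h4 : (2 : ENNReal) ^ i = ENNReal.ofReal (2 ^ i) := by
              rw [ENNReal.ofReal_pow (by norm_num), ENNReal.ofReal_ofNat]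
            rw [h4, ← ENNReal.ofReal_mul (by positivity), ← ENNReal.ofReal_mul (by positivity)]
            congr 1
            have h5 : (1 / 2 : ℝ) ^ i = 2 ^ i * (1 / 4) ^ i := by
              rw [← mul_pow]
              norm_num
            rw [h5]
            ring
    have h6 : ∑' k, ∫⁻ x, ∑' i, 2 ^ i * Δ k i x ^ 2 ∂μ ≤
        ∑' i : ℕ, ENNReal.ofReal (C * (1 / 2) ^ i) * ENNReal.ofReal (∫ x, ‖f x‖ ^ 2 ∂μ) := by
      refine (ENNReal.tsum_le_tsum h1).trans ?_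
      rw [ENNReal.tsum_comm]
      refine ENNReal.tsum_le_tsum fun i => ?_
      rw [ENNReal.tsum_mul_left]
      gcongr
      exact Blk_tele hanti (fun j => al_nonneg f _) hd i (hA i)
    refine (h6.trans_lt ?_).ne
    rw [ENNReal.tsum_mul_right]
    refine ENNReal.mul_lt_top ?_ ENNReal.ofReal_lt_top
    have h7 : Summable fun i : ℕ => C * (1 / 2 : ℝ) ^ i := summable_geometric_two.mul_left C
    rw [← ENNReal.ofReal_tsum_of_nonneg (fun i => by positivity) h7]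
    exact ENNReal.ofReal_lt_top
  have hmeas : Measurable fun x => ∑' k, ∑' i, (2 : ENNReal) ^ i * Δ k i x ^ 2 :=
    Measurable.tsum fun k => Measurable.tsum fun i => ((hΔm k i).pow_const 2).const_mul _
  have hae : ∀ᵐ x ∂μ, Tendsto (fun k => ∑' i, Δ k i x) atTop (𝓝 0) := by
    filter_upwards [ae_lt_top hmeas hsum] with x hx
    exact Blk_tendsto (Δ := fun k i => Δ k i x) (ENNReal.tendsto_atTop_zero_of_tsum_ne_top hx.ne)
  have hae' := (Measure.quasiMeasurePreserving_fst (μ := μ)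
    (ν := volume.restrict (Set.Icc 0 (Real.log 2)))).ae hae
  have haeI := (Measure.quasiMeasurePreserving_snd (μ := μ)
    (ν := volume.restrict (Set.Icc 0 (Real.log 2)))).ae (ae_restrict_mem measurableSet_Icc)
  filter_upwards [high hd hφ hf hL ha ha1 hI, hae', haeI] with p hp1 hp2 hp3
  have hcard : ∀ k, (I k).card ≤ 2 * 2 ^ k := by
    intro k
    have h1 : I k ⊆ Finset.Icc (2 ^ k) (2 * 2 ^ k) := fun n hn => Finset.mem_Icc.2 (hI k n hn)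
    have h2 := Finset.card_le_card h1
    rw [Nat.card_Icc] at h2
    have h3 : 1 ≤ 2 ^ k := Nat.one_le_two_pow
    omega
  have hosc : Tendsto (fun k : ℕ => ((2 ^ k : ℕ) : ℂ)⁻¹ * ∑ n ∈ I k, a n p.1 *
        (Kop φ (((2 ^ k : ℕ) : ℝ) ^ d) f (φ (Real.exp p.2 * (n : ℝ) ^ d) p.1) -
          Kop φ (((2 ^ k : ℕ) : ℝ) ^ d) f p.1)) atTop (𝓝 0) := by
    rw [tendsto_zero_iff_enorm_tendsto_zero]
    have h0 : Tendsto (fun k => 2 * ∑' i, Δ k i p.1) atTop (𝓝 0) := by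
      have := ENNReal.Tendsto.const_mul hp2 (a := 2) (Or.inr (by norm_num))
      rwa [mul_zero] at this
    refine tendsto_of_tendsto_of_tendsto_of_le_of_le tendsto_const_nhds h0 (fun _ => zero_le) fun k => ?_
    show ‖((2 ^ k : ℕ) : ℂ)⁻¹ * ∑ n ∈ I k, a n p.1 *
        (Kop φ (((2 ^ k : ℕ) : ℝ) ^ d) f (φ (Real.exp p.2 * (n : ℝ) ^ d) p.1) -
          Kop φ (((2 ^ k : ℕ) : ℝ) ^ d) f p.1)‖ₑ ≤ 2 * ∑' i, Δ k i p.1
    have h1 : ∀ n ∈ I k, ‖a n p.1 *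
        (Kop φ (((2 ^ k : ℕ) : ℝ) ^ d) f (φ (Real.exp p.2 * (n : ℝ) ^ d) p.1) -
          Kop φ (((2 ^ k : ℕ) : ℝ) ^ d) f p.1)‖ₑ ≤ ∑' i, Δ k i p.1 := by
      intro n hn
      have e1 : ‖a n p.1‖ₑ ≤ 1 := by
        rw [← ofReal_norm]
        exact ENNReal.ofReal_le_one.2 (ha1 n p.1)
      have e2 := hΔ1 k p.1 (Real.exp p.2 * (n : ℝ) ^ d) (by positivity) (by
        have e3 : Real.exp p.2 ≤ 2 := by
          have := Real.exp_le_exp.2 hp3.2
          rwa [Real.exp_log (by norm_num)] at this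
        have e4 : (n : ℝ) ≤ 2 * ((2 ^ k : ℕ) : ℝ) := by exact_mod_cast (hI k n hn).2
        calc Real.exp p.2 * (n : ℝ) ^ d ≤ 2 * (2 * ((2 ^ k : ℕ) : ℝ)) ^ d := by gcongr
          _ = 2 ^ (d + 1) * ((2 ^ k : ℕ) : ℝ) ^ d := by
            rw [mul_pow]
            ring)
      rw [enorm_mul]
      calc _ ≤ 1 * ∑' i, Δ k i p.1 := mul_le_mul' e1 e2
        _ = _ := one_mul _
    have h2 : ‖∑ n ∈ I k, a n p.1 *
        (Kop φ (((2 ^ k : ℕ) : ℝ) ^ d) f (φ (Real.exp p.2 * (n : ℝ) ^ d) p.1) -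
          Kop φ (((2 ^ k : ℕ) : ℝ) ^ d) f p.1)‖ₑ ≤ (2 * 2 ^ k : ℕ) * ∑' i, Δ k i p.1 := by
      refine (enorm_sum_le _ _).trans ((Finset.sum_le_sum h1).trans ?_)
      rw [Finset.sum_const, nsmul_eq_mul]
      gcongr
      exact hcard k
    rw [enorm_mul]
    have h3 : ‖((2 ^ k : ℕ) : ℂ)⁻¹‖ₑ = ((2 ^ k : ℕ) : ENNReal)⁻¹ := by
      rw [enorm_inv (Nat.cast_ne_zero.2 (by positivity))]
      congr 1
      rw [← ofReal_norm, Complex.norm_natCast, ENNReal.ofReal_natCast]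
    have h4 : ((2 ^ k : ℕ) : ENNReal) ≠ 0 := by positivity
    rw [h3]
    calc ((2 ^ k : ℕ) : ENNReal)⁻¹ * _ ≤ ((2 ^ k : ℕ) : ENNReal)⁻¹ * ((2 * 2 ^ k : ℕ) * ∑' i, Δ k i p.1) := by
          gcongr
      _ = (((2 ^ k : ℕ) : ENNReal)⁻¹ * ((2 ^ k : ℕ) : ENNReal)) * (2 * ∑' i, Δ k i p.1) := by
          push_cast
          ring
      _ = 2 * ∑' i, Δ k i p.1 := by
          rw [ENNReal.inv_mul_cancel h4 (ENNReal.natCast_ne_top _), one_mul]
  have hadd := hp1.add hosc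
  rw [add_zero] at hadd
  refine hadd.congr fun k => ?_
  rw [← mul_add, ← Finset.sum_add_distrib]
  congr 1
  refine Finset.sum_congr rfl fun n _ => ?_
  ring

end Pool.Agent.GT
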