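import Mathlib

/-!
# GT/Ces: from sub-blocks of dyadic blocks to Cesàro means

`sb r i k` = the integers `n` with `2^k + i 2^(k-r) < n ≤ 2^k + (i+1) 2^(k-r)` (and `n ≤ 2·2^k`; for `k ≥ r` this is automatic when `i < 2^r`).

Proof.  Let `S(N) = ∑_{1 ≤ n ≤ N} g n`.  Taking `r = 0` (`i = 0`): `2^(-k) (S(2^(k+1)) - S(2^k)) → 0`, hence `2^(-k) S(2^k) → 0` (geometric sums:
`2^(-k) S(2^k) = 2^(-k) S(1) + ∑_{j<k} 2^(-(k-j)) 2^(-j)(S(2^(j+1)) - S(2^j))`).  For general `N` let `2^k ≤ N < 2^(k+1)`; fix `r`; `N` lies in `(2^k + i 2^(k-r), 2^k + (i+1) 2^(k-r)]` for some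
`i < 2^r` (or `N = 2^k`) and `S(N) = S(2^k) + ∑_{i' < i} (sum over sb r i' k) + O(C 2^(k-r))`, so `limsup |S(N)|/N ≤ C 2^(-r)` for every `r`.
-/

namespace Pool.Agent.GT

open Filter Topology

/-- sub-blocks of the dyadic block `(2^k, 2^(k+1)]` -/
def sb (r i k : ℕ) : Finset ℕ :=
  (Finset.Ioc (2 ^ k + i * 2 ^ (k - r)) (2 ^ k + (i + 1) * 2 ^ (k - r))).filter (fun n => n ≤ 2 * 2 ^ k)

theorem sb_mem {r i k n : ℕ} (h : n ∈ sb r i k) : 2 ^ k ≤ n ∧ n ≤ 2 * 2 ^ k := by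
  unfold sb at h
  rw [Finset.mem_filter, Finset.mem_Ioc] at h
  exact ⟨by have := Nat.zero_le (i * 2 ^ (k - r)); omega, h.2⟩

/-- the partial sums -/
noncomputable def SS (g : ℕ → ℂ) (N : ℕ) : ℂ := ∑ n ∈ Finset.Ioc 0 N, g n

theorem SS_sub (g : ℕ → ℂ) {a b : ℕ} (hab : a ≤ b) : SS g b - SS g a = ∑ n ∈ Finset.Ioc a b, g n := by
  unfold SS
  rw [← Finset.sum_Ioc_consecutive (f := g) (Nat.zero_le a) hab, add_sub_cancel_left]

theorem SS_sub_le {g : ℕ → ℂ} {C : ℝ} (hg : ∀ n, ‖g n‖ ≤ C) {a b : ℕ} (hab : a ≤ b) :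
    ‖SS g b - SS g a‖ ≤ C * ((b : ℝ) - a) := by
  rw [SS_sub g hab]
  refine (norm_sum_le_of_le _ (fun n _ => hg n)).trans ?_
  rw [Finset.sum_const, Nat.card_Ioc, nsmul_eq_mul, Nat.cast_sub hab]
  linarith [mul_comm C ((b : ℝ) - a)]

theorem log2_spec {N : ℕ} (hN : N ≠ 0) : 2 ^ Nat.log 2 N ≤ N ∧ N ≤ 2 * 2 ^ Nat.log 2 N := by
  refine ⟨Nat.pow_log_le_self 2 hN, ?_⟩
  have := Nat.lt_pow_succ_log_self (b := 2) (by norm_num) N
  rw [Nat.succ_eq_add_one, pow_succ] at this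
  omega

theorem ces_block {g : ℕ → ℂ} {C : ℝ} (hg : ∀ n, ‖g n‖ ≤ C)
    (h : ∀ r i : ℕ, i < 2 ^ r → Tendsto (fun k : ℕ => ((2 ^ k : ℕ) : ℂ)⁻¹ * ∑ n ∈ sb r i k, g n) atTop (𝓝 0))
    (ε : ℝ) (hε : 0 < ε) :
    ∃ K : ℕ, ∀ k, K ≤ k → ∀ N, 2 ^ k ≤ N → N ≤ 2 * 2 ^ k → ‖SS g N - SS g (2 ^ k)‖ ≤ 2 * ε * 2 ^ k := by
  have hC : 0 ≤ C := (norm_nonneg (g 0)).trans (hg 0)
  obtain ⟨r, hr⟩ : ∃ r : ℕ, C < ε * 2 ^ r := by
    obtain ⟨r, hr⟩ := pow_unbounded_of_one_lt (C / ε) (by norm_num : (1 : ℝ) < 2)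
    refine ⟨r, ?_⟩
    rw [div_lt_iff₀ hε] at hr
    linarith
  have h1 : ∀ i : ℕ, ∃ K : ℕ, i < 2 ^ r → ∀ k, K ≤ k → ‖∑ n ∈ sb r i k, g n‖ ≤ ε * (2 ^ r)⁻¹ * 2 ^ k := by
    intro i
    by_cases hi : i < 2 ^ r
    · have ht := h r i hi
      rw [Metric.tendsto_atTop] at ht
      obtain ⟨K, hK⟩ := ht (ε * (2 ^ r)⁻¹) (by positivity)
      refine ⟨K, fun _ k hk => ?_⟩
      have := hK k hk
      rw [dist_zero_right, norm_mul, norm_inv, Complex.norm_natCast] at this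
      push_cast at this
      rw [inv_mul_lt_iff₀ (by positivity)] at this
      linarith
    · exact ⟨0, fun h' => absurd h' hi⟩
  choose K hK using h1
  obtain ⟨K0, hK0⟩ : ∃ K0, ∀ i < 2 ^ r, K i ≤ K0 := by
    refine ⟨(Finset.range (2 ^ r)).sup K, fun i hi => ?_⟩
    exact Finset.le_sup (f := K) (Finset.mem_range.mpr hi)
  refine ⟨max K0 r, fun k hk N hN1 hN2 => ?_⟩
  have hkK : K0 ≤ k := (le_max_left _ _).trans hk
  have hkr : r ≤ k := (le_max_right _ _).trans hk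
  set q : ℕ := 2 ^ (k - r) with hq
  have hqpos : 0 < q := by positivity
  have hq2 : q * 2 ^ r = 2 ^ k := by rw [hq, ← pow_add]; congr 1; omega
  have hstep : ∀ i : ℕ, i ≤ 2 ^ r → ‖SS g (2 ^ k + i * q) - SS g (2 ^ k)‖ ≤ i * (ε * (2 ^ r)⁻¹ * 2 ^ k) := by
    intro i
    induction i with
    | zero => intro _; simp
    | succ i ih =>
      intro hi
      have ih' := ih (by omega)
      have hle : 2 ^ k + i * q ≤ 2 ^ k + (i + 1) * q := by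
        have : i * q ≤ (i + 1) * q := Nat.mul_le_mul_right _ (by omega)
        omega
      have hsb : ∑ n ∈ sb r i k, g n = SS g (2 ^ k + (i + 1) * q) - SS g (2 ^ k + i * q) := by
        rw [SS_sub g hle]
        congr 1
        unfold sb
        rw [← hq]
        apply Finset.filter_true_of_mem
        intro n hn
        rw [Finset.mem_Ioc] at hn
        have : (i + 1) * q ≤ 2 ^ r * q := Nat.mul_le_mul_right _ hi
        rw [mul_comm (2 ^ r) q, hq2] at this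
        omega
      have hb := hK i (by omega) k ((hK0 i (by omega)).trans hkK)
      rw [hsb] at hb
      have t := norm_add_le (SS g (2 ^ k + (i + 1) * q) - SS g (2 ^ k + i * q)) (SS g (2 ^ k + i * q) - SS g (2 ^ k))
      rw [sub_add_sub_cancel] at t
      push_cast
      linarith
  -- position of `N`
  set i : ℕ := (N - 2 ^ k) / q with hi
  have hdm : i * q + (N - 2 ^ k) % q = N - 2 ^ k := by
    rw [hi]; exact Nat.div_add_mod' (N - 2 ^ k) q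
  have hmod : (N - 2 ^ k) % q < q := Nat.mod_lt _ hqpos
  have hile : i ≤ 2 ^ r := by
    by_contra hcon
    have h3 : (2 ^ r + 1) * q ≤ i * q := Nat.mul_le_mul_right _ (by omega)
    have h4 : (2 ^ r + 1) * q = 2 ^ k + q := by rw [add_mul, mul_comm (2 ^ r) q, hq2, one_mul]
    omega
  have hle : 2 ^ k + i * q ≤ N := by omega
  have hs := hstep i hile
  have hlast := SS_sub_le hg hle
  have hqr : (q : ℝ) * 2 ^ r = 2 ^ k := by exact_mod_cast hq2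
  have hNi : ((N : ℝ) - ((2 ^ k + i * q : ℕ) : ℝ)) ≤ q := by
    have : N ≤ (2 ^ k + i * q) + q := by omega
    have : (N : ℝ) ≤ ((2 ^ k + i * q : ℕ) : ℝ) + q := by exact_mod_cast this
    linarith
  have h5 : C * ((N : ℝ) - ((2 ^ k + i * q : ℕ) : ℝ)) ≤ ε * 2 ^ k := by
    calc C * ((N : ℝ) - ((2 ^ k + i * q : ℕ) : ℝ)) ≤ C * q := mul_le_mul_of_nonneg_left hNi hC
      _ ≤ (ε * 2 ^ r) * q := mul_le_mul_of_nonneg_right hr.le (by positivity)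
      _ = ε * 2 ^ k := by rw [← hqr]; ring
  have h6 : (i : ℝ) * (ε * (2 ^ r)⁻¹ * 2 ^ k) ≤ ε * 2 ^ k := by
    have hir : (i : ℝ) ≤ 2 ^ r := by exact_mod_cast hile
    calc (i : ℝ) * (ε * (2 ^ r)⁻¹ * 2 ^ k) ≤ (2 : ℝ) ^ r * (ε * (2 ^ r)⁻¹ * 2 ^ k) :=
          mul_le_mul_of_nonneg_right hir (by positivity)
      _ = ε * 2 ^ k := by field_simp
  have t := norm_add_le (SS g N - SS g (2 ^ k + i * q)) (SS g (2 ^ k + i * q) - SS g (2 ^ k))
  rw [sub_add_sub_cancel] at t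
  linarith

theorem ces_pow {g : ℕ → ℂ} {ε : ℝ} {K : ℕ}
    (hK : ∀ k, K ≤ k → ∀ N, 2 ^ k ≤ N → N ≤ 2 * 2 ^ k → ‖SS g N - SS g (2 ^ k)‖ ≤ 2 * ε * 2 ^ k) :
    ∀ k, K ≤ k → ‖SS g (2 ^ k)‖ ≤ ‖SS g (2 ^ K)‖ + 2 * ε * 2 ^ k := by
  have hε : 0 ≤ ε := by
    have := (norm_nonneg _).trans (hK K le_rfl (2 ^ K) le_rfl (by omega))
    by_contra hcon
    have h2 : (0 : ℝ) < 2 ^ K := by positivity
    nlinarith
  intro k hk
  induction k, hk using Nat.le_induction with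
  | base => 
    have : (0 : ℝ) ≤ 2 * ε * 2 ^ K := by positivity
    linarith
  | succ k hk ih =>
    have h1 := hK k hk (2 ^ (k + 1)) (by rw [pow_succ]; omega) (by rw [pow_succ]; omega)
    have t := norm_add_le (SS g (2 ^ (k + 1)) - SS g (2 ^ k)) (SS g (2 ^ k))
    rw [sub_add_cancel] at t
    rw [pow_succ (2 : ℝ) k]
    linarith

theorem ces {g : ℕ → ℂ} {C : ℝ} (hg : ∀ n, ‖g n‖ ≤ C)
    (h : ∀ r i : ℕ, i < 2 ^ r → Tendsto (fun k : ℕ => ((2 ^ k : ℕ) : ℂ)⁻¹ * ∑ n ∈ sb r i k, g n) atTop (𝓝 0)) :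
    Tendsto (fun N : ℕ => ((2 * N + 1 : ℕ) : ℂ)⁻¹ * ∑ n ∈ Finset.Icc 1 N, g n) atTop (𝓝 0) := by
  have hC : 0 ≤ C := (norm_nonneg (g 0)).trans (hg 0)
  rw [Metric.tendsto_atTop]
  intro ε hε
  obtain ⟨K, hK⟩ := ces_block hg h (ε / 8) (by positivity)
  have hpow := ces_pow hK
  -- the constant
  set S0 : ℝ := ‖SS g (2 ^ K)‖ with hS0
  obtain ⟨N1, hN1⟩ := exists_nat_gt (S0 / (ε / 2))
  refine ⟨max (2 ^ K) N1, fun N hN => ?_⟩
  have hNK : 2 ^ K ≤ N := (le_max_left _ _).trans hN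
  have hNN : N1 ≤ N := (le_max_right _ _).trans hN
  have hN0 : N ≠ 0 := by
    have : 0 < 2 ^ K := by positivity
    omega
  obtain ⟨hk1, hk2⟩ := log2_spec hN0
  have hKk : K ≤ Nat.log 2 N := by
    exact Nat.le_log_of_pow_le (by norm_num) hNK
  have e1 := hK (Nat.log 2 N) hKk N hk1 hk2
  have e2 := hpow (Nat.log 2 N) hKk
  have hk1' : ((2 : ℝ) ^ Nat.log 2 N) ≤ N := by exact_mod_cast hk1
  have e3 : ‖SS g N‖ ≤ S0 + ε / 2 * N := by
    have t := norm_add_le (SS g N - SS g (2 ^ Nat.log 2 N)) (SS g (2 ^ Nat.log 2 N))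
    rw [sub_add_cancel] at t
    have : ε / 8 * 2 ^ Nat.log 2 N ≤ ε / 8 * N := mul_le_mul_of_nonneg_left hk1' (by positivity)
    nlinarith
  have hNr : (N1 : ℝ) ≤ N := by exact_mod_cast hNN
  have hS0N : S0 < ε / 2 * N := by
    have h2 : S0 / (ε / 2) < N := hN1.trans_le hNr
    rw [div_lt_iff₀ (by positivity)] at h2
    linarith
  rw [dist_zero_right, norm_mul, norm_inv]
  have hcast : ‖((2 * N + 1 : ℕ) : ℂ)‖ = 2 * (N : ℝ) + 1 := by
    rw [Complex.norm_natCast]; push_cast; ring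
  have hsum : ∑ n ∈ Finset.Icc 1 N, g n = SS g N := by
    unfold SS
    rfl
  rw [hcast, hsum, inv_mul_lt_iff₀ (by positivity)]
  have hN0' : (0 : ℝ) < N := by exact_mod_cast Nat.pos_of_ne_zero hN0
  nlinarith

end Pool.Agent.GT
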