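import Mathlib

/-!
# GT/Ext: extension from a countable dense family to all bounded functions

`T i n`, `T1 i n` measure preserving, with `L²` maximal inequalities; `D i B m` bounded by `B`, dense in `L²` among the functions bounded by `B`; convergence is known for the `D`.

Proof.  `a` is bounded by `C`.  Replace `h i` by `h' i` measurable, everywhere bounded by a natural number `B ≥ 1`, equal to `h i` almost everywhere (`MemLp ⊤`; `ae_lt`..); for almost every `x`,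
`h i (T i n x) = h' i (T i n x)` for all `n` (countably many null sets, `T i n` preserves `μ`), the same for `T1`.  Choose `m_l i` (`l ∈ ℕ`) with `∫⁻ ‖h' i - D i B (m_l i)‖ₑ² ≤ 4^(-l)`.  Put
`M_i^l(x) = ⨆_N (2N+1)⁻¹ ∑_{|n| ≤ N} ‖(h' i - D i B (m_l i))(T i n x)‖ₑ`, `M1_i^l(x)` the same for `T1`.  `∑_l ∫⁻ (M_i^l)² < ∞`, so `M_i^l(x) → 0` and `M1_i^l(x) → 0` as `l → ∞` for almost every `x`.
(1) The averages of `h' i (T1 i n x)` are a Cauchy sequence: they differ from those of `D i B (m_l i)` (which converge to `Ds i B (m_l i) x`) by at most `M1_i^l(x)`.  `H i x` = the limit; `‖H i x - Ds i B (m_l i) x‖ ≤ M1_i^l(x)`; `‖H i x‖ ≤ B`.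
(2) `‖∏ u_i - ∏ v_i‖ ≤ B^(r-1) ∑ ‖u_i - v_i‖` for numbers bounded by `B ≥ 1` (prove it by induction, with `B^r`).  So the average of `a_n (∏ h' i (T i n x) - ∏ H i x)` differs from that of `a_n (∏ D i B (m_l i) (T i n x) - ∏ Ds i B (m_l i) x)`
(which tends to zero) by at most `C B^r ∑_i (M_i^l(x) + M1_i^l(x))`.  Let `l → ∞`.
-/

namespace Pool.Agent.GT

open MeasureTheory Filter Topology

private lemma Ext_enorm_prod_le {r : ℕ} {B : ENNReal} (v : Fin r → ℂ) (hv : ∀ i, ‖v i‖ₑ ≤ B) :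
    ‖∏ i, v i‖ₑ ≤ B ^ r := by
  induction r with
  | zero => simp
  | succ r ih =>
    rw [Fin.prod_univ_succ, enorm_mul, pow_succ']
    exact mul_le_mul' (hv 0) (ih (fun i => v i.succ) fun i => hv i.succ)

private lemma Ext_prod {r : ℕ} {B : ENNReal} (hB : 1 ≤ B) (u v : Fin r → ℂ) (hu : ∀ i, ‖u i‖ₑ ≤ B)
    (hv : ∀ i, ‖v i‖ₑ ≤ B) : ‖∏ i, u i - ∏ i, v i‖ₑ ≤ B ^ r * ∑ i, ‖u i - v i‖ₑ := by
  induction r with
  | zero => simp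
  | succ r ih =>
    rw [Fin.prod_univ_succ, Fin.prod_univ_succ, Fin.sum_univ_succ]
    have h1 : u 0 * ∏ i : Fin r, u i.succ - v 0 * ∏ i : Fin r, v i.succ =
        u 0 * (∏ i : Fin r, u i.succ - ∏ i : Fin r, v i.succ) +
          (u 0 - v 0) * ∏ i : Fin r, v i.succ := by ring
    rw [h1]
    refine (enorm_add_le _ _).trans ?_
    rw [enorm_mul, enorm_mul]
    have h2 : ‖u 0‖ₑ * ‖∏ i : Fin r, u i.succ - ∏ i : Fin r, v i.succ‖ₑ ≤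
        B ^ (r + 1) * ∑ i : Fin r, ‖u i.succ - v i.succ‖ₑ := by
      rw [pow_succ', mul_assoc]
      exact mul_le_mul' (hu 0) (ih _ _ (fun i => hu i.succ) fun i => hv i.succ)
    have h3 : ‖u 0 - v 0‖ₑ * ‖∏ i : Fin r, v i.succ‖ₑ ≤ B ^ (r + 1) * ‖u 0 - v 0‖ₑ := by
      rw [mul_comm]
      refine mul_le_mul' ((Ext_enorm_prod_le _ fun i => hv i.succ).trans ?_) le_rfl
      exact pow_le_pow_right₀ hB (Nat.le_succ r)
    calc _ ≤ _ := add_le_add h2 h3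
      _ = _ := by rw [← mul_add, add_comm (∑ i : Fin r, ‖u i.succ - v i.succ‖ₑ)]

private lemma Ext_avg (N : ℕ) (f g : ℤ → ℂ) :
    ‖((2 * N + 1 : ℕ) : ℂ)⁻¹ * ∑ n ∈ Finset.Icc (-(N : ℤ)) N, f n -
      ((2 * N + 1 : ℕ) : ℂ)⁻¹ * ∑ n ∈ Finset.Icc (-(N : ℤ)) N, g n‖ₑ ≤
      ((2 * N + 1 : ℕ) : ENNReal)⁻¹ * ∑ n ∈ Finset.Icc (-(N : ℤ)) (N : ℤ), ‖f n - g n‖ₑ := by
  rw [← mul_sub, ← Finset.sum_sub_distrib, enorm_mul]
  have h1 : ‖((2 * N + 1 : ℕ) : ℂ)⁻¹‖ₑ = ((2 * N + 1 : ℕ) : ENNReal)⁻¹ := by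
    rw [enorm_inv (by exact_mod_cast Nat.succ_ne_zero (2 * N))]
    congr 1
    rw [← ofReal_norm, Complex.norm_natCast, ENNReal.ofReal_natCast]
  rw [h1]
  exact mul_le_mul' le_rfl (enorm_sum_le _ _)

private lemma Ext_lim {u : ℤ → ℂ} {v : ℕ → ℤ → ℂ} {dl : ℕ → ℂ} {M : ℕ → ENNReal}
    (hM : ∀ l N : ℕ, ((2 * N + 1 : ℕ) : ENNReal)⁻¹ *
      ∑ n ∈ Finset.Icc (-(N : ℤ)) (N : ℤ), ‖u n - v l n‖ₑ ≤ M l) (hM0 : Tendsto M atTop (𝓝 0))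
    (hv : ∀ l, Tendsto (fun N : ℕ => ((2 * N + 1 : ℕ) : ℂ)⁻¹ *
      ∑ n ∈ Finset.Icc (-(N : ℤ)) N, v l n) atTop (𝓝 (dl l))) :
    ∃ H : ℂ, Tendsto (fun N : ℕ => ((2 * N + 1 : ℕ) : ℂ)⁻¹ *
      ∑ n ∈ Finset.Icc (-(N : ℤ)) N, u n) atTop (𝓝 H) ∧ ∀ l, ‖H - dl l‖ₑ ≤ M l := by
  have hd : ∀ l N : ℕ, edist (((2 * N + 1 : ℕ) : ℂ)⁻¹ * ∑ n ∈ Finset.Icc (-(N : ℤ)) N, u n)
      (((2 * N + 1 : ℕ) : ℂ)⁻¹ * ∑ n ∈ Finset.Icc (-(N : ℤ)) N, v l n) ≤ M l := fun l N => by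
    rw [edist_eq_enorm_sub]
    exact (Ext_avg N _ _).trans (hM l N)
  have hc : CauchySeq (fun N : ℕ => ((2 * N + 1 : ℕ) : ℂ)⁻¹ *
      ∑ n ∈ Finset.Icc (-(N : ℤ)) N, u n) := by
    rw [EMetric.cauchySeq_iff]
    intro ε hε
    have hε3 : 0 < ε / 3 := ENNReal.div_pos hε.ne' (by norm_num)
    obtain ⟨l, hl⟩ := (hM0.eventually_lt_const hε3).exists
    obtain ⟨N0, hN0⟩ := EMetric.cauchySeq_iff.1 (hv l).cauchySeq (ε / 3) hε3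
    refine ⟨N0, fun m hm n hn => ?_⟩
    calc edist (((2 * m + 1 : ℕ) : ℂ)⁻¹ * ∑ n ∈ Finset.Icc (-(m : ℤ)) m, u n)
          (((2 * n + 1 : ℕ) : ℂ)⁻¹ * ∑ k ∈ Finset.Icc (-(n : ℤ)) n, u k)
        ≤ edist (((2 * m + 1 : ℕ) : ℂ)⁻¹ * ∑ n ∈ Finset.Icc (-(m : ℤ)) m, u n)
            (((2 * m + 1 : ℕ) : ℂ)⁻¹ * ∑ n ∈ Finset.Icc (-(m : ℤ)) m, v l n) +
          edist (((2 * m + 1 : ℕ) : ℂ)⁻¹ * ∑ n ∈ Finset.Icc (-(m : ℤ)) m, v l n)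
            (((2 * n + 1 : ℕ) : ℂ)⁻¹ * ∑ k ∈ Finset.Icc (-(n : ℤ)) n, v l k) +
          edist (((2 * n + 1 : ℕ) : ℂ)⁻¹ * ∑ k ∈ Finset.Icc (-(n : ℤ)) n, v l k)
            (((2 * n + 1 : ℕ) : ℂ)⁻¹ * ∑ k ∈ Finset.Icc (-(n : ℤ)) n, u k) :=
          edist_triangle4 _ _ _ _
      _ < ε / 3 + ε / 3 + ε / 3 := by
          refine ENNReal.add_lt_add (ENNReal.add_lt_add ((hd l m).trans_lt hl) (hN0 m hm n hn)) ?_
          rw [edist_comm]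
          exact (hd l n).trans_lt hl
      _ = ε := ENNReal.add_thirds ε
  obtain ⟨H, hH⟩ := cauchySeq_tendsto_of_complete hc
  refine ⟨H, hH, fun l => ?_⟩
  have h2 := (hH.sub (hv l)).enorm
  refine le_of_tendsto h2 (Eventually.of_forall fun N => ?_)
  have := hd l N
  rwa [edist_eq_enorm_sub] at this

private lemma Ext_two {r : ℕ} {B C : ENNReal} (hB : 1 ≤ B) (hBt : B ≠ ⊤) (hCt : C ≠ ⊤) {a : ℤ → ℂ}
    (ha : ∀ n, ‖a n‖ₑ ≤ C) {u : Fin r → ℤ → ℂ} {H : Fin r → ℂ} {v : ℕ → Fin r → ℤ → ℂ}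
    {dl : ℕ → Fin r → ℂ} {M M1 : ℕ → Fin r → ENNReal}
    (hu : ∀ i n, ‖u i n‖ₑ ≤ B) (hH : ∀ i, ‖H i‖ₑ ≤ B) (hv : ∀ l i n, ‖v l i n‖ₑ ≤ B)
    (hdl : ∀ l i, ‖dl l i‖ₑ ≤ B)
    (hM : ∀ l i (N : ℕ), ((2 * N + 1 : ℕ) : ENNReal)⁻¹ *
      ∑ n ∈ Finset.Icc (-(N : ℤ)) (N : ℤ), ‖u i n - v l i n‖ₑ ≤ M l i)
    (hM1 : ∀ l i, ‖H i - dl l i‖ₑ ≤ M1 l i)
    (hM0 : ∀ i, Tendsto (fun l => M l i) atTop (𝓝 0))
    (hM10 : ∀ i, Tendsto (fun l => M1 l i) atTop (𝓝 0))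
    (hconv : ∀ l, Tendsto (fun N : ℕ => ((2 * N + 1 : ℕ) : ℂ)⁻¹ *
      ∑ n ∈ Finset.Icc (-(N : ℤ)) N, a n * (∏ i, v l i n - ∏ i, dl l i)) atTop (𝓝 0)) :
    Tendsto (fun N : ℕ => ((2 * N + 1 : ℕ) : ℂ)⁻¹ *
      ∑ n ∈ Finset.Icc (-(N : ℤ)) N, a n * (∏ i, u i n - ∏ i, H i)) atTop (𝓝 0) := by
  have key : ∀ l N : ℕ, ‖((2 * N + 1 : ℕ) : ℂ)⁻¹ *
      ∑ n ∈ Finset.Icc (-(N : ℤ)) N, a n * (∏ i, u i n - ∏ i, H i)‖ₑ ≤
      ‖((2 * N + 1 : ℕ) : ℂ)⁻¹ *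
        ∑ n ∈ Finset.Icc (-(N : ℤ)) N, a n * (∏ i, v l i n - ∏ i, dl l i)‖ₑ +
      C * B ^ r * ∑ i, (M l i + M1 l i) := by
    intro l N
    have hN0 : ((2 * N + 1 : ℕ) : ENNReal) ≠ 0 := by exact_mod_cast Nat.succ_ne_zero (2 * N)
    have hNt : ((2 * N + 1 : ℕ) : ENNReal) ≠ ⊤ := ENNReal.natCast_ne_top _
    have h1 := Ext_avg N (fun n => a n * (∏ i, u i n - ∏ i, H i))
      (fun n => a n * (∏ i, v l i n - ∏ i, dl l i))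
    have h2 : ((2 * N + 1 : ℕ) : ENNReal)⁻¹ * ∑ n ∈ Finset.Icc (-(N : ℤ)) (N : ℤ),
        ‖a n * (∏ i, u i n - ∏ i, H i) - a n * (∏ i, v l i n - ∏ i, dl l i)‖ₑ ≤
        C * B ^ r * ∑ i, (M l i + M1 l i) := by
      have h3 : ∀ n, ‖a n * (∏ i, u i n - ∏ i, H i) - a n * (∏ i, v l i n - ∏ i, dl l i)‖ₑ ≤
          C * B ^ r * ∑ i, (‖u i n - v l i n‖ₑ + M1 l i) := by
        intro n
        have h4 : a n * (∏ i, u i n - ∏ i, H i) - a n * (∏ i, v l i n - ∏ i, dl l i) =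
            a n * ((∏ i, u i n - ∏ i, v l i n) - (∏ i, H i - ∏ i, dl l i)) := by ring
        rw [h4, enorm_mul, mul_assoc]
        refine mul_le_mul' (ha n) (enorm_sub_le.trans ?_)
        rw [Finset.sum_add_distrib, mul_add]
        refine add_le_add (Ext_prod hB _ _ (fun i => hu i n) fun i => hv l i n) ?_
        refine (Ext_prod hB _ _ hH (hdl l)).trans ?_
        exact mul_le_mul' le_rfl (Finset.sum_le_sum fun i _ => hM1 l i)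
      calc ((2 * N + 1 : ℕ) : ENNReal)⁻¹ * ∑ n ∈ Finset.Icc (-(N : ℤ)) (N : ℤ),
          ‖a n * (∏ i, u i n - ∏ i, H i) - a n * (∏ i, v l i n - ∏ i, dl l i)‖ₑ
          ≤ ((2 * N + 1 : ℕ) : ENNReal)⁻¹ * ∑ n ∈ Finset.Icc (-(N : ℤ)) (N : ℤ),
            C * B ^ r * ∑ i, (‖u i n - v l i n‖ₑ + M1 l i) :=
            mul_le_mul' le_rfl (Finset.sum_le_sum fun n _ => h3 n)
        _ = C * B ^ r * ∑ i, (((2 * N + 1 : ℕ) : ENNReal)⁻¹ *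
              ∑ n ∈ Finset.Icc (-(N : ℤ)) (N : ℤ), ‖u i n - v l i n‖ₑ + M1 l i) := by
            rw [← Finset.mul_sum, Finset.sum_comm, mul_left_comm]
            congr 1
            rw [Finset.mul_sum]
            refine Finset.sum_congr rfl fun i _ => ?_
            rw [Finset.sum_add_distrib, mul_add]
            congr 1
            rw [Finset.sum_const, Int.card_Icc]
            have h5 : ((N : ℤ) + 1 - -(N : ℤ)).toNat = 2 * N + 1 := by omega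
            rw [h5, nsmul_eq_mul, ← mul_assoc, ENNReal.inv_mul_cancel hN0 hNt, one_mul]
        _ ≤ C * B ^ r * ∑ i, (M l i + M1 l i) :=
            mul_le_mul' le_rfl (Finset.sum_le_sum fun i _ => add_le_add (hM l i N) le_rfl)
    calc ‖((2 * N + 1 : ℕ) : ℂ)⁻¹ *
          ∑ n ∈ Finset.Icc (-(N : ℤ)) N, a n * (∏ i, u i n - ∏ i, H i)‖ₑ
        = ‖((2 * N + 1 : ℕ) : ℂ)⁻¹ *
          ∑ n ∈ Finset.Icc (-(N : ℤ)) N, a n * (∏ i, v l i n - ∏ i, dl l i) +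
          (((2 * N + 1 : ℕ) : ℂ)⁻¹ *
          ∑ n ∈ Finset.Icc (-(N : ℤ)) N, a n * (∏ i, u i n - ∏ i, H i) -
          ((2 * N + 1 : ℕ) : ℂ)⁻¹ *
          ∑ n ∈ Finset.Icc (-(N : ℤ)) N, a n * (∏ i, v l i n - ∏ i, dl l i))‖ₑ := by
          rw [add_sub_cancel]
      _ ≤ _ := (enorm_add_le _ _).trans (add_le_add le_rfl (h1.trans h2))
  rw [tendsto_zero_iff_enorm_tendsto_zero, ENNReal.tendsto_nhds_zero]
  intro ε hε
  have hK : Tendsto (fun l => C * B ^ r * ∑ i, (M l i + M1 l i)) atTop (𝓝 0) := by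
    have h1 : Tendsto (fun l => ∑ i, (M l i + M1 l i)) atTop (𝓝 (∑ i : Fin r, (0 + 0))) :=
      tendsto_finsetSum _ fun i _ => (hM0 i).add (hM10 i)
    have h2 := ENNReal.Tendsto.const_mul (a := C * B ^ r) h1
      (Or.inr (ENNReal.mul_ne_top hCt (ENNReal.pow_ne_top hBt)))
    simpa using h2
  have hε2 : 0 < ε / 2 := ENNReal.div_pos hε.ne' (by norm_num)
  obtain ⟨l, hl⟩ := (hK.eventually_lt_const hε2).exists
  have h3 := (tendsto_zero_iff_enorm_tendsto_zero.1 (hconv l)).eventually_lt_const hε2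
  filter_upwards [h3] with N hN
  calc _ ≤ _ := key l N
    _ ≤ ε / 2 + ε / 2 := add_le_add hN.le hl.le
    _ = ε := ENNReal.add_halves ε

private lemma Ext_ae {X : Type*} [MeasurableSpace X] {μ : Measure X} {T : ℤ → X → X}
    (hT : ∀ n, MeasurePreserving (T n) μ μ) {C : NNReal}
    (hmax : ∀ v : X → ENNReal, Measurable v →
      ∫⁻ x, (⨆ N : ℕ, ((2 * N + 1 : ℕ) : ENNReal)⁻¹ * ∑ n ∈ Finset.Icc (-(N : ℤ)) (N : ℤ), v (T n x)) ^ 2 ∂μ ≤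
        C * ∫⁻ x, v x ^ 2 ∂μ)
    {E : ℕ → X → ENNReal} (hE : ∀ l, Measurable (E l))
    (hEb : ∀ l, ∫⁻ x, E l x ^ 2 ∂μ ≤ ENNReal.ofReal ((1 / 2) ^ l)) :
    ∀ᵐ x ∂μ, Tendsto (fun l => ⨆ N : ℕ, ((2 * N + 1 : ℕ) : ENNReal)⁻¹ *
      ∑ n ∈ Finset.Icc (-(N : ℤ)) (N : ℤ), E l (T n x)) atTop (𝓝 0) := by
  have hmeas : ∀ l, Measurable (fun x => ⨆ N : ℕ, ((2 * N + 1 : ℕ) : ENNReal)⁻¹ *
      ∑ n ∈ Finset.Icc (-(N : ℤ)) (N : ℤ), E l (T n x)) := fun l =>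
    Measurable.iSup fun N => (Finset.measurable_fun_sum _ fun n _ =>
      (hE l).comp (hT n).measurable).const_mul _
  have h1 : ∫⁻ x, ∑' l : ℕ, (⨆ N : ℕ, ((2 * N + 1 : ℕ) : ENNReal)⁻¹ *
      ∑ n ∈ Finset.Icc (-(N : ℤ)) (N : ℤ), E l (T n x)) ^ 2 ∂μ ≠ ⊤ := by
    rw [lintegral_tsum fun l => ((hmeas l).pow_const 2).aemeasurable]
    have h2 : ∑' l : ℕ, ∫⁻ x, (⨆ N : ℕ, ((2 * N + 1 : ℕ) : ENNReal)⁻¹ *
        ∑ n ∈ Finset.Icc (-(N : ℤ)) (N : ℤ), E l (T n x)) ^ 2 ∂μ ≤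
        ∑' l : ℕ, (C : ENNReal) * ENNReal.ofReal ((1 / 2) ^ l) :=
      ENNReal.tsum_le_tsum fun l => (hmax _ (hE l)).trans (mul_le_mul' le_rfl (hEb l))
    refine ne_top_of_le_ne_top ?_ h2
    rw [ENNReal.tsum_mul_left]
    refine ENNReal.mul_ne_top ENNReal.coe_ne_top ?_
    have h3 : ∑' l : ℕ, ENNReal.ofReal ((1 / 2) ^ l) = ENNReal.ofReal (∑' l : ℕ, (1 / 2 : ℝ) ^ l) :=
      (ENNReal.ofReal_tsum_of_nonneg (fun l => by positivity) summable_geometric_two).symm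
    rw [h3]
    exact ENNReal.ofReal_ne_top
  filter_upwards [ae_lt_top (Measurable.ennreal_tsum fun l => (hmeas l).pow_const 2) h1] with x hx
  have h4 := ENNReal.tendsto_atTop_zero_of_tsum_ne_top hx.ne
  rw [ENNReal.tendsto_nhds_zero] at h4 ⊢
  intro ε hε
  filter_upwards [h4 (ε ^ 2) (by positivity)] with l hl
  by_contra h5
  rw [not_le] at h5
  exact absurd hl (not_le.2 (ENNReal.pow_lt_pow_left two_ne_zero h5))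

private lemma Ext_repr {X : Type*} [MeasurableSpace X] {μ : Measure X} {h : X → ℂ}
    (hh : MemLp h ⊤ μ) : ∃ (B : ℕ) (h' : X → ℂ), Measurable h' ∧ (∀ x, ‖h' x‖ ≤ B) ∧ h =ᵐ[μ] h' := by
  obtain ⟨B, hB⟩ := exists_nat_ge (eLpNormEssSup h μ).toReal
  have hfin : eLpNormEssSup h μ ≠ ⊤ := by
    have := hh.2
    rw [eLpNorm_exponent_top] at this
    exact this.ne
  have hb : ∀ᵐ x ∂μ, ‖h x‖ ≤ B := by
    filter_upwards [ae_le_eLpNormEssSup (f := h) (μ := μ)] with x hx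
    refine le_trans ?_ hB
    rw [← toReal_enorm]
    exact ENNReal.toReal_mono hfin hx
  have hg : Measurable (hh.1.mk h) := hh.1.stronglyMeasurable_mk.measurable
  refine ⟨B, {x | ‖hh.1.mk h x‖ ≤ B}.indicator (hh.1.mk h), ?_, ?_, ?_⟩
  · exact hg.indicator (measurableSet_le hg.norm measurable_const)
  · intro x
    by_cases hx : x ∈ {x | ‖hh.1.mk h x‖ ≤ B}
    · rw [Set.indicator_of_mem hx]; exact hx
    · rw [Set.indicator_of_notMem hx, norm_zero]; positivity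
  · filter_upwards [hb, hh.1.ae_eq_mk] with x h1 h2
    rw [Set.indicator_of_mem, h2]
    show ‖hh.1.mk h x‖ ≤ B
    rwa [← h2]

theorem ext {X : Type*} [MeasurableSpace X] {μ : Measure X} [IsFiniteMeasure μ] {r : ℕ}
    {T T1 : Fin r → ℤ → X → X} (hT : ∀ i n, MeasurePreserving (T i n) μ μ)
    (hT1 : ∀ i n, MeasurePreserving (T1 i n) μ μ)
    (hmax : ∀ i, ∃ C : NNReal, ∀ v : X → ENNReal, Measurable v →
      ∫⁻ x, (⨆ N : ℕ, ((2 * N + 1 : ℕ) : ENNReal)⁻¹ * ∑ n ∈ Finset.Icc (-(N : ℤ)) (N : ℤ), v (T i n x)) ^ 2 ∂μ ≤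
        C * ∫⁻ x, v x ^ 2 ∂μ)
    (hmax1 : ∀ i, ∃ C : NNReal, ∀ v : X → ENNReal, Measurable v →
      ∫⁻ x, (⨆ N : ℕ, ((2 * N + 1 : ℕ) : ENNReal)⁻¹ * ∑ n ∈ Finset.Icc (-(N : ℤ)) (N : ℤ), v (T1 i n x)) ^ 2 ∂μ ≤
        C * ∫⁻ x, v x ^ 2 ∂μ)
    {a : ℤ → X → ℂ} {C : ℝ} (ha1 : ∀ n x, ‖a n x‖ ≤ C)
    {D Ds : Fin r → ℕ → ℕ → X → ℂ} (hDm : ∀ i B m, Measurable (D i B m)) (hDb : ∀ i B m x, ‖D i B m x‖ ≤ B)
    (hDsb : ∀ i B m x, ‖Ds i B m x‖ ≤ B)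
    (hdense : ∀ i (B : ℕ) (h : X → ℂ), Measurable h → (∀ x, ‖h x‖ ≤ B) → ∀ ε : ℝ, 0 < ε →
      ∃ m, ∫⁻ x, ‖h x - D i B m x‖ₑ ^ 2 ∂μ ≤ ENNReal.ofReal ε)
    (hconv : ∀ (B : ℕ) (m : Fin r → ℕ), ∀ᵐ x ∂μ, Tendsto (fun N : ℕ => ((2 * N + 1 : ℕ) : ℂ)⁻¹ *
      ∑ n ∈ Finset.Icc (-(N : ℤ)) N, a n x * (∏ i, D i B (m i) (T i n x) - ∏ i, Ds i B (m i) x)) atTop (𝓝 0))
    (hconv1 : ∀ i (B m : ℕ), ∀ᵐ x ∂μ, Tendsto (fun N : ℕ => ((2 * N + 1 : ℕ) : ℂ)⁻¹ *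
      ∑ n ∈ Finset.Icc (-(N : ℤ)) N, D i B m (T1 i n x)) atTop (𝓝 (Ds i B m x)))
    (h : Fin r → X → ℂ) (hh : ∀ i, MemLp (h i) ⊤ μ) :
    ∃ H : Fin r → X → ℂ, (∀ i, ∀ᵐ x ∂μ, Tendsto (fun N : ℕ => ((2 * N + 1 : ℕ) : ℂ)⁻¹ *
      ∑ n ∈ Finset.Icc (-(N : ℤ)) N, h i (T1 i n x)) atTop (𝓝 (H i x))) ∧
      ∀ᵐ x ∂μ, Tendsto (fun N : ℕ => ((2 * N + 1 : ℕ) : ℂ)⁻¹ *
        ∑ n ∈ Finset.Icc (-(N : ℤ)) N, a n x * (∏ i, h i (T i n x) - ∏ i, H i x)) atTop (𝓝 0) := by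
  -- measurable representatives with a common bound
  choose B0 h' hm' hb0 hae using fun i => Ext_repr (hh i)
  set B : ℕ := (Finset.univ.sup B0) + 1 with hBdef
  have hB1 : (1 : ENNReal) ≤ (B : ENNReal) := by
    have : 1 ≤ B := by omega
    exact_mod_cast this
  have hb' : ∀ i x, ‖h' i x‖ ≤ B := fun i x => by
    refine (hb0 i x).trans ?_
    have h1 : B0 i ≤ Finset.univ.sup B0 := Finset.le_sup (Finset.mem_univ i)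
    have h2 : B0 i ≤ B := by omega
    exact_mod_cast h2
  have hen : ∀ {z : ℂ}, ‖z‖ ≤ (B : ℝ) → ‖z‖ₑ ≤ (B : ENNReal) := by
    intro z hz
    rw [← ofReal_norm, ← ENNReal.ofReal_natCast]
    exact ENNReal.ofReal_le_ofReal hz
  choose m hm using fun (l : ℕ) (i : Fin r) => hdense i B (h' i) (hm' i) (hb' i) ((1 / 2) ^ l)
    (by positivity)
  choose Cm hCm using hmax
  choose Cm1 hCm1 using hmax1
  have hEm : ∀ (l : ℕ) (i : Fin r), Measurable (fun x => ‖h' i x - D i B (m l i) x‖ₑ) :=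
    fun l i => ((hm' i).sub (hDm i B (m l i))).enorm
  have hM0 : ∀ᵐ x ∂μ, ∀ i, Tendsto (fun l => ⨆ N : ℕ, ((2 * N + 1 : ℕ) : ENNReal)⁻¹ *
      ∑ n ∈ Finset.Icc (-(N : ℤ)) (N : ℤ), ‖h' i (T i n x) - D i B (m l i) (T i n x)‖ₑ)
      atTop (𝓝 0) :=
    ae_all_iff.2 fun i => Ext_ae (hT i) (hCm i) (E := fun l x => ‖h' i x - D i B (m l i) x‖ₑ)
      (fun l => hEm l i) fun l => hm l i
  have hM10 : ∀ᵐ x ∂μ, ∀ i, Tendsto (fun l => ⨆ N : ℕ, ((2 * N + 1 : ℕ) : ENNReal)⁻¹ *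
      ∑ n ∈ Finset.Icc (-(N : ℤ)) (N : ℤ), ‖h' i (T1 i n x) - D i B (m l i) (T1 i n x)‖ₑ)
      atTop (𝓝 0) :=
    ae_all_iff.2 fun i => Ext_ae (hT1 i) (hCm1 i) (E := fun l x => ‖h' i x - D i B (m l i) x‖ₑ)
      (fun l => hEm l i) fun l => hm l i
  have hT' : ∀ᵐ x ∂μ, ∀ i n, h i (T i n x) = h' i (T i n x) :=
    ae_all_iff.2 fun i => ae_all_iff.2 fun n =>
      (hT i n).quasiMeasurePreserving.ae (hae i)
  have hT1' : ∀ᵐ x ∂μ, ∀ i n, h i (T1 i n x) = h' i (T1 i n x) :=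
    ae_all_iff.2 fun i => ae_all_iff.2 fun n =>
      (hT1 i n).quasiMeasurePreserving.ae (hae i)
  have hc : ∀ᵐ x ∂μ, ∀ l, Tendsto (fun N : ℕ => ((2 * N + 1 : ℕ) : ℂ)⁻¹ *
      ∑ n ∈ Finset.Icc (-(N : ℤ)) N, a n x * (∏ i, D i B (m l i) (T i n x) -
        ∏ i, Ds i B (m l i) x)) atTop (𝓝 0) :=
    ae_all_iff.2 fun l => hconv B (m l)
  have hc1 : ∀ᵐ x ∂μ, ∀ i l, Tendsto (fun N : ℕ => ((2 * N + 1 : ℕ) : ℂ)⁻¹ *
      ∑ n ∈ Finset.Icc (-(N : ℤ)) N, D i B (m l i) (T1 i n x)) atTop (𝓝 (Ds i B (m l i) x)) :=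
    ae_all_iff.2 fun i => ae_all_iff.2 fun l => hconv1 i B (m l i)
  -- the limits
  have hlim : ∀ᵐ x ∂μ, ∀ i, ∃ H : ℂ, Tendsto (fun N : ℕ => ((2 * N + 1 : ℕ) : ℂ)⁻¹ *
      ∑ n ∈ Finset.Icc (-(N : ℤ)) N, h i (T1 i n x)) atTop (𝓝 H) ∧
      ∀ l, ‖H - Ds i B (m l i) x‖ₑ ≤ ⨆ N : ℕ, ((2 * N + 1 : ℕ) : ENNReal)⁻¹ *
        ∑ n ∈ Finset.Icc (-(N : ℤ)) (N : ℤ), ‖h' i (T1 i n x) - D i B (m l i) (T1 i n x)‖ₑ := by
    filter_upwards [hM10, hT1', hc1] with x h1 h2 h3 i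
    refine Ext_lim (u := fun n => h i (T1 i n x)) (v := fun l n => D i B (m l i) (T1 i n x))
      (dl := fun l => Ds i B (m l i) x) (fun l N => ?_) (h1 i) (h3 i)
    simp only [h2]
    exact le_iSup (fun N : ℕ => ((2 * N + 1 : ℕ) : ENNReal)⁻¹ *
        ∑ n ∈ Finset.Icc (-(N : ℤ)) (N : ℤ), ‖h' i (T1 i n x) - D i B (m l i) (T1 i n x)‖ₑ) N
  classical
  refine ⟨fun i x => limUnder atTop (fun N : ℕ => ((2 * N + 1 : ℕ) : ℂ)⁻¹ *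
      ∑ n ∈ Finset.Icc (-(N : ℤ)) N, h i (T1 i n x)), fun i => ?_, ?_⟩
  · filter_upwards [hlim] with x hx
    obtain ⟨H, hH, -⟩ := hx i
    rw [hH.limUnder_eq]
    exact hH
  · filter_upwards [hlim, hM0, hM10, hT', hT1', hc] with x h1 h2 h3 h4 h5 h6
    have h7 : ∀ i, ∃ H : ℂ, limUnder atTop (fun N : ℕ => ((2 * N + 1 : ℕ) : ℂ)⁻¹ *
        ∑ n ∈ Finset.Icc (-(N : ℤ)) N, h i (T1 i n x)) = H ∧
        Tendsto (fun N : ℕ => ((2 * N + 1 : ℕ) : ℂ)⁻¹ *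
          ∑ n ∈ Finset.Icc (-(N : ℤ)) N, h i (T1 i n x)) atTop (𝓝 H) ∧
        ∀ l, ‖H - Ds i B (m l i) x‖ₑ ≤ ⨆ N : ℕ, ((2 * N + 1 : ℕ) : ENNReal)⁻¹ *
        ∑ n ∈ Finset.Icc (-(N : ℤ)) (N : ℤ), ‖h' i (T1 i n x) - D i B (m l i) (T1 i n x)‖ₑ := by
      intro i
      obtain ⟨H, hH, hH2⟩ := h1 i
      exact ⟨H, hH.limUnder_eq, hH, hH2⟩
    choose H hH1 hH2 hH3 using h7
    simp only [hH1, h4]
    have hHb : ∀ i, ‖H i‖ₑ ≤ (B : ENNReal) := by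
      intro i
      refine le_of_tendsto (hH2 i).enorm (Eventually.of_forall fun N => ?_)
      have hN0 : ((2 * N + 1 : ℕ) : ENNReal) ≠ 0 := by exact_mod_cast Nat.succ_ne_zero (2 * N)
      have hNt : ((2 * N + 1 : ℕ) : ENNReal) ≠ ⊤ := ENNReal.natCast_ne_top _
      have h8 := Ext_avg N (fun n => h i (T1 i n x)) (fun _ => 0)
      simp only [Finset.sum_const_zero, mul_zero, sub_zero] at h8
      refine h8.trans ?_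
      calc ((2 * N + 1 : ℕ) : ENNReal)⁻¹ * ∑ n ∈ Finset.Icc (-(N : ℤ)) (N : ℤ), ‖h i (T1 i n x)‖ₑ
          ≤ ((2 * N + 1 : ℕ) : ENNReal)⁻¹ * ∑ n ∈ Finset.Icc (-(N : ℤ)) (N : ℤ), (B : ENNReal) := by
            refine mul_le_mul' le_rfl (Finset.sum_le_sum fun n _ => ?_)
            rw [h5]
            exact hen (hb' i _)
        _ = B := by
            rw [Finset.sum_const, Int.card_Icc]
            have h9 : ((N : ℤ) + 1 - -(N : ℤ)).toNat = 2 * N + 1 := by omega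
            rw [h9, nsmul_eq_mul, ← mul_assoc, ENNReal.inv_mul_cancel hN0 hNt, one_mul]
    refine Ext_two (B := (B : ENNReal)) (C := ENNReal.ofReal C) hB1 (ENNReal.natCast_ne_top _)
      ENNReal.ofReal_ne_top (a := fun n => a n x) (fun n => ?_)
      (u := fun i n => h' i (T i n x)) (H := H)
      (v := fun l i n => D i B (m l i) (T i n x)) (dl := fun l i => Ds i B (m l i) x)
      (M := fun l i => ⨆ N : ℕ, ((2 * N + 1 : ℕ) : ENNReal)⁻¹ *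
        ∑ n ∈ Finset.Icc (-(N : ℤ)) (N : ℤ), ‖h' i (T i n x) - D i B (m l i) (T i n x)‖ₑ)
      (M1 := fun l i => ⨆ N : ℕ, ((2 * N + 1 : ℕ) : ENNReal)⁻¹ *
        ∑ n ∈ Finset.Icc (-(N : ℤ)) (N : ℤ), ‖h' i (T1 i n x) - D i B (m l i) (T1 i n x)‖ₑ)
      (fun i n => hen (hb' i _)) hHb (fun l i n => hen (hDb i B _ _)) (fun l i => hen (hDsb i B _ _))
      (fun l i N => le_iSup (fun N : ℕ => ((2 * N + 1 : ℕ) : ENNReal)⁻¹ *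
        ∑ n ∈ Finset.Icc (-(N : ℤ)) (N : ℤ), ‖h' i (T i n x) - D i B (m l i) (T i n x)‖ₑ) N)
      (fun l i => hH3 i l) h2 h3 h6
    rw [← ofReal_norm]
    exact ENNReal.ofReal_le_ofReal (ha1 n x)

end Pool.Agent.GT
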