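import Mathlib
import Pool.Agent.GT.Defs
import Pool.Agent.GT.Ops
import Pool.Agent.GT.Blk
import Pool.Agent.Nil.Final

/-!
# GT/Lim: the limit of the smoothed functions, and Birkhoff along the flow

Apply `Blk.blk` with `d = 1`, `a = 1`, `I k = Ioc (2^k) (2^(k+1))`: for almost every `(x, w)`, `2^(-k) ∑_{2^k < n ≤ 2^(k+1)} f(φ_{e^w n} x) - Kop φ (2^k) f x → 0`.  For every `w` the averages
`N⁻¹ ∑_{n<N} f(φ_{e^w n} x)` converge for almost every `x` (`Pool.Nil.orb_conv_one` for the single map `T = φ_{e^w}` as an `Equiv.Perm X` with inverse `φ_{-e^w}`, `P = X`; a cyclic group is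
nilpotent; `f` bounded, so `MemLp 2`), hence so do the dyadic blocks; the set of `(x, w)` where they converge is measurable (`measurableSet_exists_tendsto` or
`measurableSet_exists_tendsto_complex`...), so this holds for almost every `(x, w)`.  Consequently `Kop φ (2^k) f x` converges for almost every `x` (`[0, log 2]` has positive measure).  Take
`fs` = a measurable version of the limit bounded by `B` (e.g. the limit on the measurable set of convergence, `0` elsewhere; if `X` is empty everything is trivial).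
-/

namespace Pool.Agent.GT

open MeasureTheory Filter Topology

/-- one map `φ s` as a permutation of `X` -/
private def Lim_perm {X : Type*} [MeasurableSpace X] {μ : Measure X} {φ : ℝ → X → X} (hφ : IsFlow μ φ)
    (s : ℝ) : Equiv.Perm X where
  toFun := φ s
  invFun := φ (-s)
  left_inv x := by rw [← hφ.add, neg_add_cancel, hφ.zero]
  right_inv x := by rw [← hφ.add, add_neg_cancel, hφ.zero]

private theorem Lim_pow {X : Type*} [MeasurableSpace X] {μ : Measure X} {φ : ℝ → X → X} (hφ : IsFlow μ φ)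
    (s : ℝ) (n : ℕ) (x : X) : (Lim_perm hφ s ^ n) x = φ (s * n) x := by
  induction n generalizing x with
  | zero => simp [hφ.zero]
  | succ n ih =>
    rw [pow_succ, Equiv.Perm.mul_apply, ih]
    show φ (s * n) (φ s x) = _
    rw [← hφ.add]
    push_cast
    congr 1
    ring

private theorem Lim_nil {G : Type*} [Group G] (t : G) :
    Group.IsNilpotent (Subgroup.closure (Set.range (fun _ : Fin 1 => t))) := by
  have e : Subgroup.closure (Set.range (fun _ : Fin 1 => t)) = Subgroup.zpowers t := by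
    rw [Subgroup.zpowers_eq_closure, Set.range_const]
  rw [e]
  let _ : CommGroup (Subgroup.zpowers t) := IsCyclic.commGroup
  exact CommGroup.isNilpotent

/-- the dyadic blocks along `n ↦ φ (s n) x` converge almost everywhere -/
private theorem Lim_blocks {X : Type*} [MeasurableSpace X] {μ : Measure X} [IsFiniteMeasure μ]
    {φ : ℝ → X → X} (hφ : IsFlow μ φ) {f : X → ℂ} {B L : ℝ} (hf : Nice φ B L f) (s : ℝ) :
    ∀ᵐ x ∂μ, ∃ l : ℂ, Tendsto (fun k : ℕ => ((2 ^ k : ℕ) : ℂ)⁻¹ *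
      ∑ n ∈ Finset.Ioc ((2 : ℕ) ^ k) (2 ^ (k + 1)), f (φ (s * (n : ℝ)) x)) atTop (𝓝 l) := by
  have hL2 : MemLp f 2 μ :=
    MemLp.of_bound hf.meas.aestronglyMeasurable B (Filter.Eventually.of_forall hf.bd)
  have h := Pool.Nil.orb_conv_one (μ := μ) (fun _ : Fin 1 => Lim_perm hφ s) (fun _ => hφ.mp s)
    (fun _ => hφ.mp (-s)) (Lim_nil _) (fun _ => Polynomial.X) f hL2
  filter_upwards [h] with x hx
  obtain ⟨l, hl⟩ := hx
  refine ⟨l, ?_⟩
  have e : ∀ n : ℕ, f (Pool.Nil.orb (fun _ : Fin 1 => Lim_perm hφ s) (fun _ => Polynomial.X) (n : ℤ) x) =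
      f (φ (s * (n : ℝ)) x) := by
    intro n
    congr 1
    have h1 : Pool.Nil.orb (fun _ : Fin 1 => Lim_perm hφ s) (fun _ => Polynomial.X) (n : ℤ) =
        Lim_perm hφ s ^ n := by
      simp [Pool.Nil.orb]
    rw [h1, Lim_pow]
  simp only [e] at hl
  set a : ℕ → ℂ := fun n => f (φ (s * (n : ℝ)) x) with ha
  have hz : Tendsto (fun k : ℕ => ((2 ^ k : ℕ) : ℂ)⁻¹) atTop (𝓝 0) := by
    have h1 : Tendsto (fun k : ℕ => ((1 / 2 : ℂ)) ^ k) atTop (𝓝 0) := by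
      apply tendsto_pow_atTop_nhds_zero_of_norm_lt_one
      norm_num
    refine h1.congr fun k => ?_
    push_cast
    rw [one_div, inv_pow]
  have hN1 : Tendsto (fun k : ℕ => 2 ^ k + 1) atTop atTop :=
    (tendsto_add_atTop_nat 1).comp (tendsto_pow_atTop_atTop_of_one_lt (by norm_num : (1 : ℕ) < 2))
  have hN2 : Tendsto (fun k : ℕ => 2 ^ (k + 1) + 1) atTop atTop :=
    hN1.comp (tendsto_add_atTop_nat 1)
  have h1 := hl.comp hN1
  have h2 := hl.comp hN2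
  have h3 : Tendsto (fun k : ℕ => (2 + ((2 ^ k : ℕ) : ℂ)⁻¹) *
      (((2 ^ (k + 1) + 1 : ℕ) : ℂ)⁻¹ * ∑ n ∈ Finset.range (2 ^ (k + 1) + 1), a n)
      - (1 + ((2 ^ k : ℕ) : ℂ)⁻¹) * (((2 ^ k + 1 : ℕ) : ℂ)⁻¹ * ∑ n ∈ Finset.range (2 ^ k + 1), a n))
      atTop (𝓝 ((2 + 0) * l - (1 + 0) * l)) :=
    ((tendsto_const_nhds.add hz).mul h2).sub ((tendsto_const_nhds.add hz).mul h1)
  have h4 : (2 + 0) * l - (1 + 0) * l = l := by ring
  rw [h4] at h3
  refine h3.congr fun k => ?_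
  have h5 : Finset.Ioc ((2 : ℕ) ^ k) (2 ^ (k + 1)) = Finset.Ico (2 ^ k + 1) (2 ^ (k + 1) + 1) := by
    ext n
    simp only [Finset.mem_Ioc, Finset.mem_Ico]
    omega
  have h6 : 2 ^ k + 1 ≤ 2 ^ (k + 1) + 1 := by
    have := Nat.pow_le_pow_right (by norm_num : 0 < 2) (Nat.le_succ k)
    omega
  rw [h5, Finset.sum_Ico_eq_sub _ h6]
  have e1 : ((2 ^ k : ℕ) : ℂ) ≠ 0 := by
    exact_mod_cast (pow_pos (by norm_num : 0 < 2) k).ne'
  have e2 : ((2 ^ k + 1 : ℕ) : ℂ) ≠ 0 := Nat.cast_ne_zero.2 (Nat.succ_ne_zero _)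
  have e3 : ((2 ^ (k + 1) + 1 : ℕ) : ℂ) ≠ 0 := Nat.cast_ne_zero.2 (Nat.succ_ne_zero _)
  have e4 : (2 + ((2 ^ k : ℕ) : ℂ)⁻¹) * ((2 ^ (k + 1) + 1 : ℕ) : ℂ)⁻¹ = ((2 ^ k : ℕ) : ℂ)⁻¹ := by
    rw [mul_inv_eq_iff_eq_mul₀ e3]
    have : ((2 ^ (k + 1) + 1 : ℕ) : ℂ) = 2 * ((2 ^ k : ℕ) : ℂ) + 1 := by
      push_cast
      ring
    rw [this]
    field_simp
  have e5 : (1 + ((2 ^ k : ℕ) : ℂ)⁻¹) * ((2 ^ k + 1 : ℕ) : ℂ)⁻¹ = ((2 ^ k : ℕ) : ℂ)⁻¹ := by
    rw [mul_inv_eq_iff_eq_mul₀ e2]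
    have : ((2 ^ k + 1 : ℕ) : ℂ) = ((2 ^ k : ℕ) : ℂ) + 1 := by
      push_cast
      ring
    rw [this]
    field_simp
  rw [← mul_assoc, ← mul_assoc, e4, e5, mul_sub]

theorem lim_exists {X : Type*} [MeasurableSpace X] {μ : Measure X} [IsFiniteMeasure μ]
    {φ : ℝ → X → X} (hφ : IsFlow μ φ) {f : X → ℂ} {B L : ℝ} (hf : Nice φ B L f) (hL : 0 ≤ L) :
    ∃ fs : X → ℂ, Measurable fs ∧ (∀ x, ‖fs x‖ ≤ B) ∧
      ∀ᵐ x ∂μ, Tendsto (fun k : ℕ => Kop φ (2 ^ k) f x) atTop (𝓝 (fs x)) := by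
  set ν : Measure ℝ := volume.restrict (Set.Icc 0 (Real.log 2)) with hν
  have hν0 : ν ≠ 0 := by
    intro h0
    have h1 : volume (Set.Icc 0 (Real.log 2)) = 0 := by
      rw [hν, Measure.restrict_eq_zero] at h0
      exact h0
    rw [Real.volume_Icc, ENNReal.ofReal_eq_zero] at h1
    have := Real.log_pos (by norm_num : (1 : ℝ) < 2)
    linarith
  have : (ae ν).NeBot := ae_neBot.2 hν0
  -- the blocks
  have hm : ∀ n : ℕ, Measurable (fun p : X × ℝ => f (φ (Real.exp p.2 * (n : ℝ)) p.1)) := by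
    intro n
    refine hf.meas.comp (hφ.meas.comp (Measurable.prodMk ?_ measurable_fst))
    exact (Real.measurable_exp.comp measurable_snd).mul_const _
  have hS : MeasurableSet {p : X × ℝ | ∃ l : ℂ, Tendsto (fun k : ℕ => ((2 ^ k : ℕ) : ℂ)⁻¹ *
      ∑ n ∈ Finset.Ioc ((2 : ℕ) ^ k) (2 ^ (k + 1)), f (φ (Real.exp p.2 * (n : ℝ)) p.1)) atTop (𝓝 l)} := by
    refine measurableSet_exists_tendsto fun k => ?_
    exact (Finset.measurable_fun_sum _ fun n _ => hm n).const_mul _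
  have h1 : ∀ᵐ x ∂μ, ∀ᵐ w ∂ν, ∃ l : ℂ, Tendsto (fun k : ℕ => ((2 ^ k : ℕ) : ℂ)⁻¹ *
      ∑ n ∈ Finset.Ioc ((2 : ℕ) ^ k) (2 ^ (k + 1)), f (φ (Real.exp w * (n : ℝ)) x)) atTop (𝓝 l) := by
    rw [Measure.ae_ae_comm hS]
    exact Filter.Eventually.of_forall fun w => Lim_blocks hφ hf (Real.exp w)
  have hI : ∀ k : ℕ, ∀ n ∈ Finset.Ioc ((2 : ℕ) ^ k) (2 ^ (k + 1)), 2 ^ k ≤ n ∧ n ≤ 2 * 2 ^ k := by
    intro k n hn
    rw [Finset.mem_Ioc, pow_succ] at hn
    omega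
  have h2' : ∀ᵐ p ∂(μ.prod ν), Tendsto (fun k : ℕ => ((2 ^ k : ℕ) : ℂ)⁻¹ *
      ∑ n ∈ Finset.Ioc ((2 : ℕ) ^ k) (2 ^ (k + 1)), (1 : ℂ) *
        (f (φ (Real.exp p.2 * (n : ℝ) ^ 1) p.1) - Kop φ (((2 ^ k : ℕ) : ℝ) ^ 1) f p.1)) atTop (𝓝 0) :=
    blk (d := 1) le_rfl hφ hf hL (a := fun _ _ => 1) (fun _ => measurable_const)
      (fun _ _ => norm_one.le) (I := fun k => Finset.Ioc ((2 : ℕ) ^ k) (2 ^ (k + 1))) hI
  have h2 := Measure.ae_ae_of_ae_prod h2'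
  have h3 : ∀ᵐ x ∂μ, ∃ l : ℂ, Tendsto (fun k : ℕ => Kop φ (2 ^ k) f x) atTop (𝓝 l) := by
    filter_upwards [h1, h2] with x h1 h2
    obtain ⟨w, ⟨l, hl⟩, hw⟩ := (h1.and h2).exists
    refine ⟨l, ?_⟩
    have h4 := hl.sub hw
    rw [sub_zero] at h4
    refine h4.congr fun k => ?_
    have e0 : ((2 ^ k : ℕ) : ℂ) ≠ 0 := by
      exact_mod_cast (pow_pos (by norm_num : 0 < 2) k).ne'
    have ec : (Finset.Ioc ((2 : ℕ) ^ k) (2 ^ (k + 1))).card = 2 ^ k := by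
      rw [Nat.card_Ioc, pow_succ]
      omega
    simp only [one_mul, pow_one, Finset.sum_sub_distrib, Finset.sum_const, ec, nsmul_eq_mul]
    rw [mul_sub, sub_sub_cancel, inv_mul_cancel_left₀ e0]
    push_cast
    rfl
  have hpos : ∀ k : ℕ, (0 : ℝ) < 2 ^ k := fun k => by positivity
  obtain ⟨g, hg, hgl⟩ := measurable_limit_of_tendsto_metrizable_ae (L := atTop)
    (fun k : ℕ => ((Kop_nice hφ hf (hpos k)).meas.aemeasurable (μ := μ))) h3
  have hgS : MeasurableSet {x | ‖g x‖ ≤ B} := measurableSet_le hg.norm measurable_const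
  refine ⟨Set.indicator {x | ‖g x‖ ≤ B} g, hg.indicator hgS, ?_, ?_⟩
  · intro x
    by_cases hx : x ∈ {x | ‖g x‖ ≤ B}
    · rw [Set.indicator_of_mem hx]
      exact hx
    · rw [Set.indicator_of_notMem hx, norm_zero]
      exact (norm_nonneg _).trans (hf.bd x)
  · filter_upwards [hgl] with x hx
    have hx' : x ∈ {x | ‖g x‖ ≤ B} :=
      le_of_tendsto hx.norm (Filter.Eventually.of_forall fun k => (Kop_nice hφ hf (hpos k)).bd x)
    rw [Set.indicator_of_mem hx']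
    exact hx

end Pool.Agent.GT
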