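import Mathlib
import Pool.Agent.GT.Defs
import Pool.Agent.Nil.Final

/-!
# GT/Max: maximal inequality along `β n^d`

`T = φ_β` is an invertible measure preserving map (`Equiv.Perm X` with inverse `φ_{-β}`), `T^(n^d) = φ_{β n^d}` (powers of a flow map; integer powers, `zpow`).  Apply
`Pool.Nil.orb_max_two` with one map `T : Fin 1 → Equiv.Perm X` and `P = X^d` (the closure of the range is cyclic, hence nilpotent; `orb T P n = T^(n^d)`).
-/

namespace Pool.Agent.GT

open MeasureTheory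

private noncomputable def Max_perm {X : Type*} [MeasurableSpace X] {μ : Measure X} {φ : ℝ → X → X}
    (hφ : IsFlow μ φ) (β : ℝ) : Equiv.Perm X where
  toFun := φ β
  invFun := φ (-β)
  left_inv x := by rw [← hφ.add, neg_add_cancel, hφ.zero]
  right_inv x := by rw [← hφ.add, add_neg_cancel, hφ.zero]

private theorem Max_zpow {X : Type*} [MeasurableSpace X] {μ : Measure X} {φ : ℝ → X → X}
    (hφ : IsFlow μ φ) (β : ℝ) (k : ℤ) : ∀ x, (Max_perm hφ β ^ k) x = φ (β * k) x := by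
  induction k using Int.induction_on with
  | zero =>
    intro x
    rw [zpow_zero, Int.cast_zero, mul_zero, hφ.zero]
    rfl
  | succ k ih =>
    intro x
    rw [zpow_add_one, Equiv.Perm.mul_apply, ih]
    change φ (β * ((k : ℤ) : ℝ)) (φ β x) = _
    rw [← hφ.add]
    congr 1
    push_cast
    ring
  | pred k ih =>
    intro x
    rw [zpow_sub_one, Equiv.Perm.mul_apply, ih]
    change φ (β * ((-(k : ℤ) : ℤ) : ℝ)) (φ (-β) x) = _
    rw [← hφ.add]
    congr 1
    push_cast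
    ring

theorem max_two {X : Type*} [MeasurableSpace X] {μ : Measure X} {φ : ℝ → X → X} (hφ : IsFlow μ φ) (β : ℝ)
    (d : ℕ) : ∃ C : NNReal, ∀ v : X → ENNReal, Measurable v →
      ∫⁻ x, (⨆ N : ℕ, ((2 * N + 1 : ℕ) : ENNReal)⁻¹ *
        ∑ n ∈ Finset.Icc (-(N : ℤ)) (N : ℤ), v (φ (β * (n : ℝ) ^ d) x)) ^ 2 ∂μ ≤ C * ∫⁻ x, v x ^ 2 ∂μ := by
  have hnil : Group.IsNilpotent (Subgroup.closure (Set.range fun _ : Fin 1 => Max_perm hφ β)) := by
    refine @CommGroup.isNilpotent _ (Subgroup.closureCommGroupOfComm ?_)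
    rintro x ⟨_, rfl⟩ y ⟨_, rfl⟩
    rfl
  obtain ⟨C, hC⟩ := Pool.Nil.orb_max_two (μ := μ) (fun _ : Fin 1 => Max_perm hφ β) (fun _ => hφ.mp β)
    (fun _ => hφ.mp (-β)) hnil (fun _ => (Polynomial.X : Polynomial ℤ) ^ d)
  refine ⟨C, fun v hv => ?_⟩
  have e : ∀ (n : ℤ) (x : X), Pool.Nil.orb (fun _ : Fin 1 => Max_perm hφ β)
      (fun _ => (Polynomial.X : Polynomial ℤ) ^ d) n x = φ (β * (n : ℝ) ^ d) x := by
    intro n x
    have h1 : Pool.Nil.orb (fun _ : Fin 1 => Max_perm hφ β)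
        (fun _ => (Polynomial.X : Polynomial ℤ) ^ d) n = Max_perm hφ β ^ (n ^ d) := by
      unfold Pool.Nil.orb
      simp
    rw [h1, Max_zpow]
    push_cast
    rfl
  have h := hC v hv
  simp only [e] at h
  exact h

end Pool.Agent.GT
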