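import Mathlib
import Pool.Agent.GT.Defs

/-!
# GT/OpsB: symmetry and scaling of `Kop`

`Kop φ M F x = M⁻² ∫_0^M ∫_0^M F(φ_{-s} φ_t x) ds dt = M⁻² ∫_0^M ∫_0^M F(φ_{t-s} x) ds dt`.  Exchanging `s` and `t` (Fubini; the integrand is continuous in
`(s, t)` because `F` is Lipschitz along the orbits) gives `Kop (rev φ) M F = Kop φ M F`.  Substitution `t = c t'` gives
`avg (t ↦ φ (c t)) M F = avg φ (c M) F` for `c > 0` and the scaling rule for `Kop`; for `c < 0` combine with the reversal.
-/

namespace Pool.Agent.GT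

open MeasureTheory

variable {X : Type*} [MeasurableSpace X] {μ : Measure X} [IsFiniteMeasure μ] {φ : ℝ → X → X} {F : X → ℂ} {B L M : ℝ}

theorem Kop_rev (hφ : IsFlow μ φ) (hF : Nice φ B L F) (hM : 0 < M) (x : X) : Kop (rev φ) M F x = Kop φ M F x := by
  have h1 : Kop φ M F x = ((M⁻¹ : ℝ) : ℂ) * ∫ t in (0 : ℝ)..M, ((M⁻¹ : ℝ) : ℂ) * ∫ s in (0 : ℝ)..M, F (φ (t - s) x) := by
    unfold Kop avg
    congr 1
    apply intervalIntegral.integral_congr
    intro t _
    simp only
    congr 1
    apply intervalIntegral.integral_congr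
    intro s _
    show F (φ (-s) (φ t x)) = F (φ (t - s) x)
    rw [← hφ.add]
    congr 2
    ring
  have h2 : Kop (rev φ) M F x = ((M⁻¹ : ℝ) : ℂ) * ∫ t in (0 : ℝ)..M, ((M⁻¹ : ℝ) : ℂ) * ∫ s in (0 : ℝ)..M, F (φ (s - t) x) := by
    unfold Kop avg
    congr 1
    apply intervalIntegral.integral_congr
    intro t _
    simp only
    congr 1
    apply intervalIntegral.integral_congr
    intro s _
    show F (φ (- -s) (φ (-t) x)) = F (φ (s - t) x)
    rw [← hφ.add]
    congr 2
    ring
  rw [h1, h2]
  congr 1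
  rw [intervalIntegral.integral_const_mul, intervalIntegral.integral_const_mul]
  congr 1
  have hc : Continuous (Function.uncurry fun t s : ℝ => F (φ (s - t) x)) :=
    (hF.cont x).comp (continuous_snd.sub continuous_fst)
  apply intervalIntegral_intervalIntegral_swap
  exact (hc.continuousOn.integrableOn_compact (isCompact_uIcc.prod isCompact_uIcc)).mono_set
    (Set.prod_mono Set.uIoc_subset_uIcc Set.uIoc_subset_uIcc)

theorem avg_scale {c : ℝ} (hc : 0 < c) (F : X → ℂ) (M : ℝ) (x : X) :
    avg (fun t => φ (c * t)) M F x = avg φ (c * M) F x := by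
  unfold avg
  have h := intervalIntegral.integral_comp_mul_left (a := 0) (b := M) (fun t => F (φ t x)) hc.ne'
  rw [h, mul_zero, mul_inv, Complex.real_smul]
  push_cast
  ring

theorem Kop_scale {c : ℝ} (hc : c ≠ 0) (hφ : IsFlow μ φ) (hF : Nice φ B L F) (hM : 0 < M) (x : X) :
    Kop (fun t => φ (c * t)) M F x = Kop φ (|c| * M) F x := by
  have key : ∀ (ψ : ℝ → X → X) (e : ℝ), 0 < e → Kop (fun t => ψ (e * t)) M F x = Kop ψ (e * M) F x := by
    intro ψ e he
    unfold Kop
    have h1 : avg (rev fun t => ψ (e * t)) M F = avg (rev ψ) (e * M) F := by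
      funext y
      rw [← avg_scale he]
      unfold avg
      congr 1
      apply intervalIntegral.integral_congr
      intro t _
      show F (ψ (e * -t) y) = F (ψ (-(e * t)) y)
      rw [mul_neg]
    rw [h1, avg_scale he]
  rcases lt_or_gt_of_ne hc with h | h
  · have h2 : (fun t => φ (c * t)) = fun t => rev φ (|c| * t) := by
      funext t
      show φ (c * t) = φ (-(|c| * t))
      rw [abs_of_neg h]
      congr 1
      ring
    rw [h2, key (rev φ) |c| (abs_pos.2 hc)]
    exact Kop_rev hφ hF (mul_pos (abs_pos.2 hc) hM) x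
  · rw [abs_of_pos h]
    exact key φ c h

/-- niceness with respect to the scaled flow -/
theorem Nice.scale (h : Nice φ B L F) (c : ℝ) : Nice (fun t => φ (c * t)) B (L * |c|) F := by
  refine ⟨h.meas, h.bd, fun s t x => ?_⟩
  refine (h.lip (c * s) (c * t) x).trans (le_of_eq ?_)
  rw [← mul_sub, abs_mul, mul_assoc]

end Pool.Agent.GT
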