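import Mathlib
import Pool.Agent.GT.Defs
import Pool.Agent.GT.Blk
import Pool.Agent.GT.Ces
import Pool.Agent.GT.OpsB

/-!
# GT/One: one flow, Lipschitz function, arbitrary weights

`ones` (one-sided, `β = e^w`, `w ∈ [0, log 2]`): for almost every `(x, w)` and all `r`, `i < 2^r` (countably many), `Blk.blk` with `I k = sb r i k` gives
`2^(-k) ∑_{n ∈ sb r i k} a_n (f(φ_t x) - Kop U_k f x) → 0`, and `Kop U_k f x → fs x` (subsequence `hlim`), so the same with `fs x` instead (`#sb ≤ 2·2^k`).  `Ces.ces` for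
`g n = a_n(x) (f(φ_{e^w n^d} x) - fs x)`, `‖g‖ ≤ 2B`.

`one`: almost every `β ≠ 0` is `s e^w` with `s = ±2^i`, `i ∈ ℤ`, `w ∈ [0, log 2]`; countably many `s`.  For `n > 0`: `φ(β n^d) = φ^s(e^w n^d)`, `φ^s(t) = φ(s t)` (`IsFlow.scale`, `Nice.scale`);
for `n < 0`, `n = -m`: `φ(β n^d) = φ^{s'}(e^w m^d)` with `s' = (-1)^d s`.  The hypothesis `hlim` for the flow `φ^s`: `Kop φ^s ((2^k)^d) f x = Kop φ (|s| (2^k)^d) f x` (`Kop_scale`), `|s| = 2^i`,
`i ∈ ℤ`: for `k ≥ |i|` this is `Kop φ (2^(dk+i)) f x`, a subsequence of `Kop φ (2^j) f x` (`d ≥ 1`).  The exponential maps null sets to null sets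
(`MeasureTheory.addHaar_image_eq_zero_of_differentiableOn_of_addHaar_eq_zero`), fibrewise: by Fubini (`Measure.ae_prod_iff_ae_ae`-type lemmas; the sets are measurable) the statement for almost
every `(x, w)` gives: for almost every `x`, for almost every `w`, hence for almost every `β ∈ s · [1, 2]`.  The two-sided sum is the sum over `n ∈ [1, N]`, over `n ∈ [-N, -1]` and the term
`n = 0` (`Pool.Nil.sum_Icc_split` in `Pool/Agent/Nil/Final.lean` may help).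
-/

namespace Pool.Agent.GT

open MeasureTheory Filter Topology

private theorem One_card_sb (r i k : ℕ) : (sb r i k).card ≤ 2 * 2 ^ k := by
  have h : sb r i k ⊆ Finset.Icc (2 ^ k) (2 * 2 ^ k) := fun n hn => Finset.mem_Icc.2 (sb_mem hn)
  refine (Finset.card_le_card h).trans ?_
  rw [Nat.card_Icc]
  have : 0 < 2 ^ k := by positivity
  omega

private theorem One_sb {r i : ℕ} {c : ℕ → ℂ} (hc : ∀ n, ‖c n‖ ≤ 1) {u : ℕ → ℂ} {K : ℕ → ℂ} {v : ℂ}
    (h1 : Tendsto (fun k : ℕ => ((2 ^ k : ℕ) : ℂ)⁻¹ * ∑ n ∈ sb r i k, c n * (u n - K k)) atTop (𝓝 0))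
    (h2 : Tendsto K atTop (𝓝 v)) :
    Tendsto (fun k : ℕ => ((2 ^ k : ℕ) : ℂ)⁻¹ * ∑ n ∈ sb r i k, c n * (u n - v)) atTop (𝓝 0) := by
  have h3 : Tendsto (fun k : ℕ => ((2 ^ k : ℕ) : ℂ)⁻¹ * ∑ n ∈ sb r i k, c n * (K k - v)) atTop (𝓝 0) := by
    have h4 : Tendsto (fun k => 2 * ‖K k - v‖) atTop (𝓝 0) := by
      have := (tendsto_iff_norm_sub_tendsto_zero.1 h2).const_mul 2
      simpa using this
    refine squeeze_zero_norm (fun k => ?_) h4
    rw [norm_mul, norm_inv, Complex.norm_natCast]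
    have h5 : ‖∑ n ∈ sb r i k, c n * (K k - v)‖ ≤ ((sb r i k).card : ℝ) * ‖K k - v‖ := by
      refine (norm_sum_le_of_le (sb r i k) (f := fun n => c n * (K k - v)) (n := fun _ => ‖K k - v‖) (fun n _ => ?_)).trans ?_
      · rw [norm_mul]
        exact mul_le_of_le_one_left (norm_nonneg _) (hc n)
      · rw [Finset.sum_const, nsmul_eq_mul]
    have h6 : ((sb r i k).card : ℝ) ≤ 2 * ((2 ^ k : ℕ) : ℝ) := by exact_mod_cast One_card_sb r i k
    have h7 : (0 : ℝ) < ((2 ^ k : ℕ) : ℝ) := by positivity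
    rw [inv_mul_le_iff₀ h7]
    refine h5.trans ((mul_le_mul_of_nonneg_right h6 (norm_nonneg _)).trans (le_of_eq ?_))
    ring
  have h6 := h1.add h3
  rw [add_zero] at h6
  refine h6.congr fun k => ?_
  rw [← mul_add, ← Finset.sum_add_distrib]
  congr 1
  apply Finset.sum_congr rfl
  intro n _
  ring

theorem ones {d : ℕ} (hd : 1 ≤ d) {X : Type*} [MeasurableSpace X] {μ : Measure X} [IsFiniteMeasure μ]
    {φ : ℝ → X → X} (hφ : IsFlow μ φ) {f : X → ℂ} {B L : ℝ} (hf : Nice φ B L f) (hL : 0 ≤ L)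
    {a : ℕ → X → ℂ} (ha : ∀ n, Measurable (a n)) (ha1 : ∀ n x, ‖a n x‖ ≤ 1)
    {fs : X → ℂ} (hfs : Measurable fs) (hfsb : ∀ x, ‖fs x‖ ≤ B)
    (hlim : ∀ᵐ x ∂μ, Tendsto (fun k : ℕ => Kop φ (((2 ^ k : ℕ) : ℝ) ^ d) f x) atTop (𝓝 (fs x))) :
    ∀ᵐ p ∂(μ.prod (volume.restrict (Set.Icc 0 (Real.log 2)))),
      Tendsto (fun N : ℕ => ((2 * N + 1 : ℕ) : ℂ)⁻¹ * ∑ n ∈ Finset.Icc 1 N, a n p.1 *
        (f (φ (Real.exp p.2 * (n : ℝ) ^ d) p.1) - fs p.1)) atTop (𝓝 0) := by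
  have h1 : ∀ r i : ℕ, ∀ᵐ p ∂(μ.prod (volume.restrict (Set.Icc 0 (Real.log 2)))),
      Tendsto (fun k : ℕ => ((2 ^ k : ℕ) : ℂ)⁻¹ * ∑ n ∈ sb r i k, a n p.1 *
        (f (φ (Real.exp p.2 * (n : ℝ) ^ d) p.1) - Kop φ (((2 ^ k : ℕ) : ℝ) ^ d) f p.1)) atTop (𝓝 0) :=
    fun r i => blk hd hφ hf hL ha ha1 (fun k n hn => sb_mem hn)
  have h2 : ∀ᵐ p ∂(μ.prod (volume.restrict (Set.Icc 0 (Real.log 2)))),
      Tendsto (fun k : ℕ => Kop φ (((2 ^ k : ℕ) : ℝ) ^ d) f p.1) atTop (𝓝 (fs p.1)) :=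
    Measure.quasiMeasurePreserving_fst.ae hlim
  have h3 := ae_all_iff.2 fun r => ae_all_iff.2 (h1 r)
  filter_upwards [h3, h2] with p hp hq
  refine ces (C := 2 * B) (g := fun n => a n p.1 * (f (φ (Real.exp p.2 * (n : ℝ) ^ d) p.1) - fs p.1)) ?_ ?_
  · intro n
    rw [norm_mul]
    have h4 := norm_sub_le (f (φ (Real.exp p.2 * (n : ℝ) ^ d) p.1)) (fs p.1)
    have h5 := hf.bd (φ (Real.exp p.2 * (n : ℝ) ^ d) p.1)
    have h6 := hfsb p.1
    refine (mul_le_of_le_one_left (norm_nonneg _) (ha1 n p.1)).trans ?_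
    linarith
  · intro r i _
    exact One_sb (fun n => ha1 n p.1) (hp r i) hq

/-- the limit along the scaled flow -/
private theorem One_lim {d : ℕ} (hd : 1 ≤ d) {X : Type*} [MeasurableSpace X] {μ : Measure X} [IsFiniteMeasure μ]
    {φ : ℝ → X → X} (hφ : IsFlow μ φ) {f : X → ℂ} {B L : ℝ} (hf : Nice φ B L f) {s : ℝ} {i : ℤ}
    (hs : |s| = 2 ^ i) {x : X} {y : ℂ} (hlim : Tendsto (fun k : ℕ => Kop φ (2 ^ k) f x) atTop (𝓝 y)) :
    Tendsto (fun k : ℕ => Kop (fun t => φ (s * t)) (((2 ^ k : ℕ) : ℝ) ^ d) f x) atTop (𝓝 y) := by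
  have hs0 : s ≠ 0 := by
    intro h
    rw [h, abs_zero] at hs
    have : (0 : ℝ) < 2 ^ i := by positivity
    linarith
  have hj : Tendsto (fun k : ℕ => (d * k + i).toNat) atTop atTop := by
    refine tendsto_atTop_mono' atTop (f₁ := fun k : ℕ => k - i.natAbs) ?_ ?_
    · refine Eventually.of_forall fun k => ?_
      have h1 : (k : ℤ) ≤ d * k := by
        have : (1 : ℤ) ≤ d := by exact_mod_cast hd
        nlinarith [Int.natCast_nonneg k]
      show k - i.natAbs ≤ ((d : ℤ) * k + i).toNat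
      generalize (d : ℤ) * k = m at *
      omega
    · exact tendsto_sub_atTop_nat _
  refine (hlim.comp hj).congr' ?_
  filter_upwards [eventually_ge_atTop i.natAbs] with k hk
  show Kop φ (2 ^ ((d : ℤ) * k + i).toNat) f x = Kop (fun t => φ (s * t)) (((2 ^ k : ℕ) : ℝ) ^ d) f x
  rw [Kop_scale hs0 hφ hf (by positivity), hs]
  congr 1
  have h1 : (k : ℤ) ≤ d * k := by
    have : (1 : ℤ) ≤ d := by exact_mod_cast hd
    nlinarith [Int.natCast_nonneg k]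
  have h2 : (((d : ℤ) * k + i).toNat : ℤ) = d * k + i := by
    rw [Int.toNat_of_nonneg]
    generalize (d : ℤ) * k = m at *
    omega
  rw [← zpow_natCast, h2, zpow_add₀ (by norm_num), mul_comm]
  congr 1
  rw [Nat.cast_pow, Nat.cast_ofNat, ← pow_mul, ← zpow_natCast]
  congr 1
  push_cast
  ring

private theorem One_split {E : Type*} [AddCommGroup E] (F : ℤ → E) (N : ℕ) :
    ∑ n ∈ Finset.Icc (-(N : ℤ)) N, F n =
      ∑ n ∈ Finset.Icc 1 N, F (n : ℤ) + ∑ n ∈ Finset.Icc 1 N, F (-(n : ℤ)) + F 0 := by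
  induction N with
  | zero => simp
  | succ N ih =>
    have h1 : Finset.Icc (-((N + 1 : ℕ) : ℤ)) ((N + 1 : ℕ) : ℤ) =
        insert (-((N + 1 : ℕ) : ℤ)) (insert (((N + 1 : ℕ) : ℤ)) (Finset.Icc (-(N : ℤ)) N)) := by
      ext z
      simp only [Finset.mem_Icc, Finset.mem_insert]
      push_cast
      omega
    rw [h1, Finset.sum_insert, Finset.sum_insert, ih, Finset.sum_Icc_succ_top (by omega), Finset.sum_Icc_succ_top (by omega)]
    · abel
    · simp only [Finset.mem_Icc, not_and, not_le]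
      push_cast
      omega
    · simp only [Finset.mem_insert, Finset.mem_Icc]
      push_cast
      omega

/-- the two-sided statement for `β = s e^w` -/
private theorem One_s {d : ℕ} (hd : 1 ≤ d) {X : Type*} [MeasurableSpace X] {μ : Measure X} [IsFiniteMeasure μ]
    {φ : ℝ → X → X} (hφ : IsFlow μ φ) {f : X → ℂ} {B L : ℝ} (hf : Nice φ B L f) (hL : 0 ≤ L)
    {a : ℤ → X → ℂ} (ha : ∀ n, Measurable (a n)) (ha1 : ∀ n x, ‖a n x‖ ≤ 1)
    {fs : X → ℂ} (hfs : Measurable fs) (hfsb : ∀ x, ‖fs x‖ ≤ B)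
    (hlim : ∀ᵐ x ∂μ, Tendsto (fun k : ℕ => Kop φ (2 ^ k) f x) atTop (𝓝 (fs x))) {s : ℝ} {i : ℤ}
    (hs : |s| = 2 ^ i) :
    ∀ᵐ p ∂(μ.prod (volume.restrict (Set.Icc 0 (Real.log 2)))),
      Tendsto (fun N : ℕ => ((2 * N + 1 : ℕ) : ℂ)⁻¹ * ∑ n ∈ Finset.Icc (-(N : ℤ)) N, a n p.1 *
        (f (φ (s * Real.exp p.2 * (n : ℝ) ^ d) p.1) - fs p.1)) atTop (𝓝 0) := by
  have h1 := ones hd (hφ.scale s) (hf.scale s) (mul_nonneg hL (abs_nonneg s)) (a := fun n => a n)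
    (fun n => ha n) (fun n x => ha1 n x) hfs hfsb (by
      filter_upwards [hlim] with x hx
      exact One_lim hd hφ hf hs hx)
  have hs' : |(-1) ^ d * s| = 2 ^ i := by
    rw [abs_mul, abs_pow, abs_neg, abs_one, one_pow, one_mul, hs]
  have h2 := ones hd (hφ.scale ((-1) ^ d * s)) (hf.scale ((-1) ^ d * s)) (mul_nonneg hL (abs_nonneg _))
    (a := fun n => a (-(n : ℤ)))
    (fun n => ha _) (fun n x => ha1 _ x) hfs hfsb (by
      filter_upwards [hlim] with x hx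
      exact One_lim hd hφ hf hs' hx)
  filter_upwards [h1, h2] with p hp hq
  have h0 : Tendsto (fun N : ℕ => ((2 * N + 1 : ℕ) : ℂ)⁻¹ * (a 0 p.1 *
        (f (φ (s * Real.exp p.2 * ((0 : ℤ) : ℝ) ^ d) p.1) - fs p.1))) atTop (𝓝 0) := by
    have h3 : Tendsto (fun N : ℕ => ((2 * N + 1 : ℕ) : ℂ)⁻¹) atTop (𝓝 0) := by
      have h4 : Tendsto (fun N : ℕ => 2 * N + 1) atTop atTop :=
        tendsto_atTop_mono (fun N => (by omega : N ≤ 2 * N + 1)) (tendsto_id (α := ℕ))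
      exact (tendsto_inv_atTop_nhds_zero_nat (𝕜 := ℂ)).comp h4
    simpa using h3.mul_const (a 0 p.1 * (f (φ (s * Real.exp p.2 * ((0 : ℤ) : ℝ) ^ d) p.1) - fs p.1))
  have h5 := (hp.add hq).add h0
  rw [add_zero, add_zero] at h5
  refine h5.congr fun N => ?_
  rw [One_split (fun n : ℤ => a n p.1 * (f (φ (s * Real.exp p.2 * (n : ℝ) ^ d) p.1) - fs p.1)) N, mul_add, mul_add]
  congr 2
  · congr 1
    apply Finset.sum_congr rfl
    intro n _
    show a n p.1 * (f (φ (s * (Real.exp p.2 * (n : ℝ) ^ d)) p.1) - fs p.1) = _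
    rw [← mul_assoc s, Int.cast_natCast]
  · congr 1
    apply Finset.sum_congr rfl
    intro n _
    show a (-(n : ℤ)) p.1 * (f (φ ((-1) ^ d * s * (Real.exp p.2 * (n : ℝ) ^ d)) p.1) - fs p.1) = _
    have h6 : (-1) ^ d * s * (Real.exp p.2 * (n : ℝ) ^ d) = s * Real.exp p.2 * ((-(n : ℤ) : ℤ) : ℝ) ^ d := by
      push_cast
      rw [neg_pow (n : ℝ) d]
      ring
    rw [h6]

private theorem One_meas {d : ℕ} {X : Type*} [MeasurableSpace X] {μ : Measure X}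
    {φ : ℝ → X → X} (hφ : IsFlow μ φ) {f : X → ℂ} {B L : ℝ} (hf : Nice φ B L f)
    {a : ℤ → X → ℂ} (ha : ∀ n, Measurable (a n)) {fs : X → ℂ} (hfs : Measurable fs) :
    MeasurableSet {p : X × ℝ | Tendsto (fun N : ℕ => ((2 * N + 1 : ℕ) : ℂ)⁻¹ * ∑ n ∈ Finset.Icc (-(N : ℤ)) N, a n p.1 *
        (f (φ (p.2 * (n : ℝ) ^ d) p.1) - fs p.1)) atTop (𝓝 0)} := by
  refine measurableSet_tendsto (𝓝 (0 : ℂ)) fun N => ?_
  refine Measurable.const_mul ?_ _
  refine Finset.measurable_sum _ fun n _ => ?_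
  refine ((ha n).comp measurable_fst).mul ((hf.meas.comp ?_).sub (hfs.comp measurable_fst))
  exact hφ.meas.comp ((measurable_snd.mul_const _).prodMk measurable_fst)

/-- null sets under the exponential -/
private theorem One_exp {P : ℝ → Prop} (h : ∀ (i : ℤ) (e : ℝ), e = 1 ∨ e = -1 →
    ∀ᵐ w ∂(volume.restrict (Set.Icc 0 (Real.log 2))), P (e * 2 ^ i * Real.exp w)) :
    ∀ᵐ β ∂(volume : Measure ℝ), P β := by
  have h1 : ∀ (i : ℤ) (e : ℝ), e = 1 ∨ e = -1 → volume ((fun w => e * 2 ^ i * Real.exp w) ''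
      {w | w ∈ Set.Icc 0 (Real.log 2) ∧ ¬ P (e * 2 ^ i * Real.exp w)}) = 0 := by
    intro i e he
    refine addHaar_image_eq_zero_of_differentiableOn_of_addHaar_eq_zero volume ?_ ?_
    · exact (Real.differentiable_exp.const_mul _).differentiableOn
    · have h2 := h i e he
      rw [ae_restrict_iff' measurableSet_Icc, ae_iff] at h2
      refine measure_mono_null ?_ h2
      intro w hw
      exact fun hc => hw.2 (hc hw.1)
  have h2 : volume (⋃ i : ℤ, (((fun w => (1 : ℝ) * 2 ^ i * Real.exp w) ''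
      {w | w ∈ Set.Icc 0 (Real.log 2) ∧ ¬ P (1 * 2 ^ i * Real.exp w)}) ∪ ((fun w => (-1 : ℝ) * 2 ^ i * Real.exp w) ''
      {w | w ∈ Set.Icc 0 (Real.log 2) ∧ ¬ P (-1 * 2 ^ i * Real.exp w)}))) = 0 := by
    refine measure_iUnion_null fun i => measure_union_null (h1 i 1 (Or.inl rfl)) (h1 i (-1) (Or.inr rfl))
  rw [ae_iff]
  refine measure_mono_null (t := {0} ∪ _) ?_ (measure_union_null Real.volume_singleton h2)
  intro β hβ
  rcases eq_or_ne β 0 with h0 | h0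
  · exact Or.inl h0
  · right
    obtain ⟨i, hi1, hi2⟩ := exists_mem_Ico_zpow (abs_pos.2 h0) (by norm_num : (1 : ℝ) < 2)
    have hp : (0 : ℝ) < 2 ^ i := by positivity
    have hw : |β| = 2 ^ i * Real.exp (Real.log (|β| / 2 ^ i)) := by
      rw [Real.exp_log (div_pos (abs_pos.2 h0) hp)]
      field_simp
    have hw1 : Real.log (|β| / 2 ^ i) ∈ Set.Icc 0 (Real.log 2) := by
      constructor
      · apply Real.log_nonneg
        rw [le_div_iff₀ hp, one_mul]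
        exact hi1
      · apply Real.log_le_log (div_pos (abs_pos.2 h0) hp)
        rw [div_le_iff₀ hp]
        rw [zpow_add_one₀ (by norm_num)] at hi2
        linarith
    rw [Set.mem_iUnion]
    refine ⟨i, ?_⟩
    rcases lt_or_gt_of_ne h0 with hn | hn
    · right
      have h3 : -1 * 2 ^ i * Real.exp (Real.log (|β| / 2 ^ i)) = β := by
        rw [mul_assoc, ← hw, abs_of_neg hn]
        ring
      exact ⟨Real.log (|β| / 2 ^ i), ⟨hw1, by rw [h3]; exact hβ⟩, h3⟩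
    · left
      have h3 : 1 * 2 ^ i * Real.exp (Real.log (|β| / 2 ^ i)) = β := by
        rw [mul_assoc, ← hw, abs_of_pos hn]
        ring
      exact ⟨Real.log (|β| / 2 ^ i), ⟨hw1, by rw [h3]; exact hβ⟩, h3⟩

theorem one {d : ℕ} (hd : 1 ≤ d) {X : Type*} [MeasurableSpace X] {μ : Measure X} [IsFiniteMeasure μ]
    {φ : ℝ → X → X} (hφ : IsFlow μ φ) {f : X → ℂ} {B L : ℝ} (hf : Nice φ B L f) (hL : 0 ≤ L)
    {a : ℤ → X → ℂ} (ha : ∀ n, Measurable (a n)) (ha1 : ∀ n x, ‖a n x‖ ≤ 1)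
    {fs : X → ℂ} (hfs : Measurable fs) (hfsb : ∀ x, ‖fs x‖ ≤ B)
    (hlim : ∀ᵐ x ∂μ, Tendsto (fun k : ℕ => Kop φ (2 ^ k) f x) atTop (𝓝 (fs x))) :
    ∀ᵐ p ∂(μ.prod (volume : Measure ℝ)),
      Tendsto (fun N : ℕ => ((2 * N + 1 : ℕ) : ℂ)⁻¹ * ∑ n ∈ Finset.Icc (-(N : ℤ)) N, a n p.1 *
        (f (φ (p.2 * (n : ℝ) ^ d) p.1) - fs p.1)) atTop (𝓝 0) := by
  rw [Measure.ae_prod_iff_ae_ae (One_meas hφ hf ha hfs)]
  have h1 : ∀ i : ℤ, ∀ᵐ x ∂μ, ∀ᵐ w ∂(volume.restrict (Set.Icc 0 (Real.log 2))),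
      Tendsto (fun N : ℕ => ((2 * N + 1 : ℕ) : ℂ)⁻¹ * ∑ n ∈ Finset.Icc (-(N : ℤ)) N, a n x *
        (f (φ (1 * 2 ^ i * Real.exp w * (n : ℝ) ^ d) x) - fs x)) atTop (𝓝 0) := fun i =>
    Measure.ae_ae_of_ae_prod (One_s hd hφ hf hL ha ha1 hfs hfsb hlim (s := 1 * 2 ^ i) (i := i)
      (by rw [one_mul, abs_of_pos (by positivity)]))
  have h2 : ∀ i : ℤ, ∀ᵐ x ∂μ, ∀ᵐ w ∂(volume.restrict (Set.Icc 0 (Real.log 2))),
      Tendsto (fun N : ℕ => ((2 * N + 1 : ℕ) : ℂ)⁻¹ * ∑ n ∈ Finset.Icc (-(N : ℤ)) N, a n x *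
        (f (φ (-1 * 2 ^ i * Real.exp w * (n : ℝ) ^ d) x) - fs x)) atTop (𝓝 0) := fun i =>
    Measure.ae_ae_of_ae_prod (One_s hd hφ hf hL ha ha1 hfs hfsb hlim (s := -1 * 2 ^ i) (i := i)
      (by rw [neg_one_mul, abs_neg, abs_of_pos (by positivity)]))
  filter_upwards [ae_all_iff.2 h1, ae_all_iff.2 h2] with x hx1 hx2
  refine One_exp (P := fun β => Tendsto (fun N : ℕ => ((2 * N + 1 : ℕ) : ℂ)⁻¹ *
    ∑ n ∈ Finset.Icc (-(N : ℤ)) N, a n x * (f (φ (β * (n : ℝ) ^ d) x) - fs x)) atTop (𝓝 0)) ?_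
  rintro i e (rfl | rfl)
  · exact hx1 i
  · exact hx2 i

end Pool.Agent.GT
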