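import Mathlib
import Pool.Agent.GT.Defs
import Pool.Agent.GT.One

/-!
# GT/Par: one flow, weights depending on the other parameters

`r = r' + 1` (because `j : Fin r`).  Let `Y = X × (Fin r' → ℝ)` with the finite measure `μ.prod ρ`, `ρ = (volume : Measure (Fin r' → ℝ)).toFinite` (a finite measure with the same null sets), and the
flow `Φ_t (x, γ) = (φ_t x, γ)` (`MeasurePreserving.prod` with the identity), `F(x, γ) = f x`, `Fs(x, γ) = fs x` (`Kop Φ M F (x, γ) = Kop φ M f x` by unfolding), weights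
`A'_n(x, γ) = A n (j.insertNth 0 γ) x / C`.  `One.one` on `Y` gives the statement for almost every `((x, γ), t)` with `t` in the place of `β_j`; `A n (j.insertNth t γ) x = A n (j.insertNth 0 γ) x` by `hAj`
(`Function.update (insertNth ..) j t = insertNth t ..`).  Transport to `(Fin r → ℝ) × X` with `MeasurableEquiv.piFinSuccAbove` (`volume_preserving_piFinSuccAbove`), exchanging the order of
the factors (`Measure.prod_swap`, `Measure.prodAssoc`..., or by `ae_ae` Fubini statements, all sets are measurable).  `1 ≤ C` may be assumed.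
-/

namespace Pool.Agent.GT

open MeasureTheory Filter Topology

/-- the rearrangement of the variables -/
private theorem Par_mp {r : ℕ} (j : Fin (r + 1)) {X : Type*} [MeasurableSpace X] (μ : Measure X)
    [IsFiniteMeasure μ] :
    MeasurePreserving (fun p : (Fin (r + 1) → ℝ) × X => (((fun i => p.1 (j.succAbove i)) : Fin r → ℝ),
      (p.2, p.1 j))) ((volume : Measure (Fin (r + 1) → ℝ)).prod μ)
      ((volume : Measure (Fin r → ℝ)).prod (μ.prod (volume : Measure ℝ))) := by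
  have h1 : MeasurePreserving (MeasurableEquiv.piFinSuccAbove (fun _ => ℝ) j)
      (volume : Measure (Fin (r + 1) → ℝ))
      ((volume : Measure ℝ).prod (volume : Measure (Fin r → ℝ))) :=
    volume_preserving_piFinSuccAbove (fun _ => ℝ) j
  have h2 : MeasurePreserving (Prod.swap : ℝ × (Fin r → ℝ) → (Fin r → ℝ) × ℝ)
      ((volume : Measure ℝ).prod (volume : Measure (Fin r → ℝ)))
      ((volume : Measure (Fin r → ℝ)).prod (volume : Measure ℝ)) := Measure.measurePreserving_swap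
  have h3 := (h2.comp h1).prod (MeasurePreserving.id μ)
  have h4 := measurePreserving_prodAssoc (volume : Measure (Fin r → ℝ)) (volume : Measure ℝ) μ
  have h5 : MeasurePreserving (Prod.swap : ℝ × X → X × ℝ) ((volume : Measure ℝ).prod μ)
      (μ.prod (volume : Measure ℝ)) := Measure.measurePreserving_swap
  have h6 := (MeasurePreserving.id (volume : Measure (Fin r → ℝ))).prod h5
  exact h6.comp (h4.comp h3)

private theorem Par_one {r : ℕ} (j : Fin (r + 1)) {d : ℕ} (hd : 1 ≤ d) {X : Type*} [MeasurableSpace X]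
    {μ : Measure X} [IsFiniteMeasure μ] {φ : ℝ → X → X} (hφ : IsFlow μ φ) {f : X → ℂ} {B L : ℝ}
    (hf : Nice φ B L f) (hL : 0 ≤ L)
    {fs : X → ℂ} (hfs : Measurable fs) (hfsb : ∀ x, ‖fs x‖ ≤ B)
    (hlim : ∀ᵐ x ∂μ, Tendsto (fun k : ℕ => Kop φ (2 ^ k) f x) atTop (𝓝 (fs x)))
    {A : ℤ → (Fin (r + 1) → ℝ) → X → ℂ}
    (hA : ∀ n, Measurable (fun p : (Fin (r + 1) → ℝ) × X => A n p.1 p.2)) {C : ℝ} (hC : 1 ≤ C)
    (hA1 : ∀ n β x, ‖A n β x‖ ≤ C) (hAj : ∀ n β t x, A n (Function.update β j t) x = A n β x)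
    (γ : Fin r → ℝ) :
    ∀ᵐ q ∂(μ.prod (volume : Measure ℝ)),
      Tendsto (fun N : ℕ => ((2 * N + 1 : ℕ) : ℂ)⁻¹ * ∑ n ∈ Finset.Icc (-(N : ℤ)) N,
        A n (j.insertNth (α := fun _ => ℝ) q.2 γ) q.1 *
        (f (φ (q.2 * (n : ℝ) ^ d) q.1) - fs q.1)) atTop (𝓝 0) := by
  have hC0 : (C : ℂ) ≠ 0 := by
    rw [Ne, Complex.ofReal_eq_zero]
    linarith
  have h1 := one hd hφ hf hL (a := fun n x => A n (j.insertNth (α := fun _ => ℝ) 0 γ) x / C)
    (fun n => ((hA n).comp (measurable_const.prodMk measurable_id)).div_const _)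
    (fun n x => by
      rw [norm_div, Complex.norm_real, Real.norm_of_nonneg (by linarith), div_le_one (by linarith)]
      exact hA1 _ _ _) hfs hfsb hlim
  filter_upwards [h1] with q hq
  have h2 := hq.const_mul (C : ℂ)
  rw [mul_zero] at h2
  refine h2.congr fun N => ?_
  rw [mul_left_comm, Finset.mul_sum]
  congr 1
  refine Finset.sum_congr rfl fun n _ => ?_
  have h3 : A n (j.insertNth (α := fun _ => ℝ) q.2 γ) q.1 =
      A n (j.insertNth (α := fun _ => ℝ) 0 γ) q.1 := by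
    rw [← hAj n (j.insertNth (α := fun _ => ℝ) 0 γ) q.2 q.1, Fin.update_insertNth]
  rw [h3]
  field_simp

theorem par {r : ℕ} (j : Fin r) {d : ℕ} (hd : 1 ≤ d) {X : Type*} [MeasurableSpace X] {μ : Measure X}
    [IsFiniteMeasure μ] {φ : ℝ → X → X} (hφ : IsFlow μ φ) {f : X → ℂ} {B L : ℝ} (hf : Nice φ B L f) (hL : 0 ≤ L)
    {fs : X → ℂ} (hfs : Measurable fs) (hfsb : ∀ x, ‖fs x‖ ≤ B)
    (hlim : ∀ᵐ x ∂μ, Tendsto (fun k : ℕ => Kop φ (2 ^ k) f x) atTop (𝓝 (fs x)))
    {A : ℤ → (Fin r → ℝ) → X → ℂ} (hA : ∀ n, Measurable (fun p : (Fin r → ℝ) × X => A n p.1 p.2)) {C : ℝ}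
    (hA1 : ∀ n β x, ‖A n β x‖ ≤ C) (hAj : ∀ n β t x, A n (Function.update β j t) x = A n β x) :
    ∀ᵐ p ∂((volume : Measure (Fin r → ℝ)).prod μ),
      Tendsto (fun N : ℕ => ((2 * N + 1 : ℕ) : ℂ)⁻¹ * ∑ n ∈ Finset.Icc (-(N : ℤ)) N, A n p.1 p.2 *
        (f (φ (p.1 j * (n : ℝ) ^ d) p.2) - fs p.2)) atTop (𝓝 0) := by
  obtain _ | r := r
  · exact j.elim0
  have hmeas : Measurable (fun q : (Fin r → ℝ) × (X × ℝ) =>
      (((j.insertNth (α := fun _ => ℝ) q.2.2 q.1) : Fin (r + 1) → ℝ), q.2.1)) := by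
    have h1 := (MeasurableEquiv.piFinSuccAbove (fun _ => ℝ) j).symm.measurable
    have h2 : Measurable (fun q : (Fin r → ℝ) × (X × ℝ) => (q.2.2, q.1)) := by fun_prop
    exact (h1.comp h2).prodMk (by fun_prop)
  have hW : MeasurableSet {q : (Fin r → ℝ) × (X × ℝ) | Tendsto (fun N : ℕ => ((2 * N + 1 : ℕ) : ℂ)⁻¹ *
      ∑ n ∈ Finset.Icc (-(N : ℤ)) N, A n (j.insertNth (α := fun _ => ℝ) q.2.2 q.1) q.2.1 *
        (f (φ (q.2.2 * (n : ℝ) ^ d) q.2.1) - fs q.2.1)) atTop (𝓝 0)} := by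
    refine measurableSet_tendsto _ fun N => ?_
    refine measurable_const.mul (Finset.measurable_fun_sum _ fun n _ => ?_)
    refine ((hA n).comp hmeas).mul (Measurable.sub ?_ ?_)
    · refine hf.meas.comp (hφ.meas.comp (Measurable.prodMk ?_ ?_))
      · fun_prop
      · fun_prop
    · exact hfs.comp (by fun_prop)
  have h1 : ∀ᵐ q ∂((volume : Measure (Fin r → ℝ)).prod (μ.prod (volume : Measure ℝ))),
      Tendsto (fun N : ℕ => ((2 * N + 1 : ℕ) : ℂ)⁻¹ *
      ∑ n ∈ Finset.Icc (-(N : ℤ)) N, A n (j.insertNth (α := fun _ => ℝ) q.2.2 q.1) q.2.1 *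
        (f (φ (q.2.2 * (n : ℝ) ^ d) q.2.1) - fs q.2.1)) atTop (𝓝 0) := by
    rw [Measure.ae_prod_iff_ae_ae hW]
    refine Eventually.of_forall fun γ => ?_
    exact Par_one j hd hφ hf hL hfs hfsb hlim hA (le_max_right C 1)
      (fun n β x => (hA1 n β x).trans (le_max_left C 1)) hAj γ
  have h2 := (Par_mp j μ).quasiMeasurePreserving.ae h1
  filter_upwards [h2] with p hp
  have h3 : (j.insertNth (α := fun _ => ℝ) (p.1 j) (fun i => p.1 (j.succAbove i))) = p.1 :=
    Fin.insertNth_self_removeNth j p.1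
  rw [h3] at hp
  exact hp

end Pool.Agent.GT
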