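import Mathlib
import Pool.Agent.GT.Defs
import Pool.Agent.GT.Appr

/-!
# GT/Sep: a countable dense family of nice functions

`L²(μ)` is separable (`IsSeparable μ`; `MeasureTheory.Lp.SecondCountableTopology`), so the subset `S` of the classes of functions which are `Nice φ B L` for some `L ≥ 0` is separable
(a subset of a separable metric space): choose a countable dense subset of `S` and enumerate it (`S` is not empty, it contains `0`), with nice representatives.  By `Appr.appr` every `h`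
bounded by `B` is in the closure of `S`.
-/

namespace Pool.Agent.GT

open MeasureTheory

private theorem lint_sq {X : Type*} [MeasurableSpace X] {μ : Measure X} (f : X → ℂ) :
    ∫⁻ x, ‖f x‖ₑ ^ 2 ∂μ = eLpNorm f 2 μ ^ 2 := by
  rw [eLpNorm_eq_lintegral_rpow_enorm_toReal (by norm_num) (by norm_num)]
  rw [← ENNReal.rpow_natCast, ← ENNReal.rpow_mul]
  simp

private theorem lint_add {X : Type*} [MeasurableSpace X] {μ : Measure X} {f g : X → ℂ} (hf : Measurable f) :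
    ∫⁻ x, ‖f x + g x‖ₑ ^ 2 ∂μ ≤ 2 * ∫⁻ x, ‖f x‖ₑ ^ 2 ∂μ + 2 * ∫⁻ x, ‖g x‖ₑ ^ 2 ∂μ := by
  rw [← lintegral_const_mul' _ _ (by norm_num), ← lintegral_const_mul' _ _ (by norm_num),
    ← lintegral_add_left (by fun_prop)]
  refine lintegral_mono fun x => ?_
  have h1 : ‖f x + g x‖ₑ ^ 2 ≤ (‖f x‖ₑ + ‖g x‖ₑ) ^ 2 := by
    gcongr
    exact enorm_add_le _ _
  refine h1.trans ?_
  rw [← mul_add]
  have h2 := ENNReal.rpow_add_le_mul_rpow_add_rpow ‖f x‖ₑ ‖g x‖ₑ (p := 2) (by norm_num)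
  have h3 : (2 : ENNReal) ^ ((2 : ℝ) - 1) = 2 := by
    norm_num
  rw [h3] at h2
  simpa using h2

theorem sep {X : Type*} [MeasurableSpace X] {μ : Measure X} [IsFiniteMeasure μ] [IsSeparable μ] {φ : ℝ → X → X}
    (hφ : IsFlow μ φ) {B : ℝ} (hB : 0 ≤ B) : ∃ D : ℕ → X → ℂ, (∀ m, ∃ L, 0 ≤ L ∧ Nice φ B L (D m)) ∧
      ∀ h : X → ℂ, Measurable h → (∀ x, ‖h x‖ ≤ B) → ∀ ε : ℝ, 0 < ε →
        ∃ m, ∫⁻ x, ‖h x - D m x‖ₑ ^ 2 ∂μ ≤ ENNReal.ofReal ε := by
  classical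
  have : Fact ((2 : ENNReal) ≠ ⊤) := ⟨by norm_num⟩
  have h2c : SecondCountableTopology (Lp ℂ 2 μ) := Lp.SecondCountableTopology
  let S : Set (Lp ℂ 2 μ) := {F | ∃ f : X → ℂ, ∃ L : ℝ, 0 ≤ L ∧ Nice φ B L f ∧ F =ᵐ[μ] f}
  have hmem : ∀ {f : X → ℂ} {L : ℝ}, Nice φ B L f → MemLp f 2 μ := fun {f L} hf =>
    MemLp.of_bound hf.meas.aestronglyMeasurable B (ae_of_all _ hf.bd)
  have hS : ∀ {f : X → ℂ} {L : ℝ} (_ : 0 ≤ L) (hf : Nice φ B L f), (hmem hf).toLp f ∈ S := fun {f L} hL hf =>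
    ⟨f, L, hL, hf, (hmem hf).coeFn_toLp⟩
  have h0 : Nice φ B 0 (fun _ : X => (0 : ℂ)) := by
    refine ⟨measurable_const, fun x => ?_, fun s t x => ?_⟩
    · simpa using hB
    · simp
  have : Nonempty S := ⟨⟨_, hS le_rfl h0⟩⟩
  let u : ℕ → S := TopologicalSpace.denseSeq S
  have hu : DenseRange u := TopologicalSpace.denseRange_denseSeq S
  choose D L hL hN hae using fun m => (u m).2
  refine ⟨D, fun m => ⟨L m, hL m, hN m⟩, ?_⟩
  intro h hm hb ε hε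
  obtain ⟨f, L', hL', hf, hfe⟩ := appr hφ hm hb hB (ε := ε / 4) (by linarith)
  obtain ⟨m, hmd⟩ := hu.exists_dist_lt (⟨(hmem hf).toLp f, hS hL' hf⟩ : S) (ε := Real.sqrt ε / 2) (by positivity)
  refine ⟨m, ?_⟩
  have e1 : ∀ x, h x - D m x = (h x - f x) + (f x - D m x) := fun x => by ring
  have hD : ∫⁻ x, ‖f x - D m x‖ₑ ^ 2 ∂μ ≤ ENNReal.ofReal (ε / 4) := by
    have hd : dist ((hmem hf).toLp f) (u m : Lp ℂ 2 μ) < Real.sqrt ε / 2 := hmd
    rw [lint_sq (fun x => f x - D m x)]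
    have e2 : eLpNorm (fun x => f x - D m x) 2 μ = edist ((hmem hf).toLp f) (u m : Lp ℂ 2 μ) := by
      rw [Lp.edist_def]
      refine eLpNorm_congr_ae ?_
      filter_upwards [(hmem hf).coeFn_toLp, hae m] with x h1 h2
      rw [Pi.sub_apply, h1, h2]
    rw [e2, edist_dist, ← ENNReal.ofReal_pow dist_nonneg]
    refine ENNReal.ofReal_le_ofReal ?_
    have h3 : dist ((hmem hf).toLp f) (u m : Lp ℂ 2 μ) ^ 2 ≤ (Real.sqrt ε / 2) ^ 2 :=
      pow_le_pow_left₀ dist_nonneg hd.le 2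
    rw [div_pow, Real.sq_sqrt hε.le] at h3
    linarith
  simp only [e1]
  refine (lint_add (hm.sub hf.meas)).trans ?_
  calc 2 * ∫⁻ x, ‖h x - f x‖ₑ ^ 2 ∂μ + 2 * ∫⁻ x, ‖f x - D m x‖ₑ ^ 2 ∂μ
      ≤ 2 * ENNReal.ofReal (ε / 4) + 2 * ENNReal.ofReal (ε / 4) := by gcongr
    _ = ENNReal.ofReal ε := by
        have : (2 : ENNReal) = ENNReal.ofReal 2 := by norm_num
        rw [this, ← ENNReal.ofReal_mul (by norm_num), ← ENNReal.ofReal_add (by positivity) (by positivity)]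
        congr 1
        ring

end Pool.Agent.GT
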