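import Mathlib
import Pool.Agent.GT.Defs
import Pool.Agent.GT.Par

/-!
# GT/Tup: several flows, nice functions

By induction on a finset `s ⊆ Fin r`: for almost every `(β, x)` the averages of `a_n(x) (∏_{i ∈ s} u_i(n) - ∏_{i ∈ s} v_i)` tend to zero, `u_i(n) = g_i(φ^i(β_i n^(d_i)) x)`,
`v_i = gs_i x`.  Step (`j ∉ s`): `∏_{insert j s} u - ∏_{insert j s} v = (u_j - v_j) ∏_{i ∈ s} u_i + v_j (∏_s u - ∏_s v)`; the first term is `Par.par` for `j` with the weights
`A n β x = a_n(x) ∏_{i ∈ s} g_i(φ^i(β_i n^(d_i)) x)`, which do not depend on `β_j`, are measurable in `(β, x)` and bounded by `C max(B,1)^r` (or `C B^(#s)`); the second is the induction hypothesis times the bounded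
number `v_j`.  Finally `s = univ`.
-/

namespace Pool.Agent.GT

open MeasureTheory Filter Topology

theorem tup {r : ℕ} {d : Fin r → ℕ} (hd : ∀ i, 1 ≤ d i) {X : Type*} [MeasurableSpace X] {μ : Measure X}
    [IsFiniteMeasure μ] {φ : Fin r → ℝ → X → X} (hφ : ∀ i, IsFlow μ (φ i)) {g : Fin r → X → ℂ} {B : ℝ}
    (hg : ∀ i, ∃ L, 0 ≤ L ∧ Nice (φ i) B L (g i)) {gs : Fin r → X → ℂ} (hgs : ∀ i, Measurable (gs i))
    (hgsb : ∀ i x, ‖gs i x‖ ≤ B)
    (hlim : ∀ i, ∀ᵐ x ∂μ, Tendsto (fun k : ℕ => Kop (φ i) (2 ^ k) (g i) x) atTop (𝓝 (gs i x)))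
    {a : ℤ → X → ℂ} (ha : ∀ n, Measurable (a n)) {C : ℝ} (ha1 : ∀ n x, ‖a n x‖ ≤ C) :
    ∀ᵐ p ∂((volume : Measure (Fin r → ℝ)).prod μ),
      Tendsto (fun N : ℕ => ((2 * N + 1 : ℕ) : ℂ)⁻¹ * ∑ n ∈ Finset.Icc (-(N : ℤ)) N, a n p.2 *
        (∏ i, g i (φ i (p.1 i * (n : ℝ) ^ d i) p.2) - ∏ i, gs i p.2)) atTop (𝓝 0) := by
  have key : ∀ s : Finset (Fin r), ∀ᵐ p ∂((volume : Measure (Fin r → ℝ)).prod μ),
      Tendsto (fun N : ℕ => ((2 * N + 1 : ℕ) : ℂ)⁻¹ * ∑ n ∈ Finset.Icc (-(N : ℤ)) N, a n p.2 *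
        (∏ i ∈ s, g i (φ i (p.1 i * (n : ℝ) ^ d i) p.2) - ∏ i ∈ s, gs i p.2)) atTop (𝓝 0) := by
    intro s
    induction s using Finset.induction_on with
    | empty =>
      refine Eventually.of_forall fun p => ?_
      simp
    | insert j s hj ih =>
      obtain ⟨L, hL, hgj⟩ := hg j
      have hm : ∀ n : ℤ, Measurable (fun p : (Fin r → ℝ) × X =>
          a n p.2 * ∏ i ∈ s, g i (φ i (p.1 i * (n : ℝ) ^ d i) p.2)) := by
        intro n
        refine ((ha n).comp measurable_snd).mul (Finset.measurable_fun_prod _ fun i _ => ?_)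
        obtain ⟨L', hL', hgi⟩ := hg i
        refine hgi.meas.comp ((hφ i).meas.comp (Measurable.prodMk ?_ measurable_snd))
        exact ((measurable_pi_apply i).comp measurable_fst).mul_const _
      have h1 := par (μ := μ) j (hd j) (hφ j) hgj hL (hgs j) (hgsb j) (hlim j)
        (A := fun n β x => a n x * ∏ i ∈ s, g i (φ i (β i * (n : ℝ) ^ d i) x)) hm
        (C := |C| * |B| ^ s.card) (fun n β x => by
          rw [norm_mul, norm_prod]
          refine mul_le_mul ((ha1 n x).trans (le_abs_self C)) ?_ (Finset.prod_nonneg fun i _ => norm_nonneg _)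
            (abs_nonneg _)
          refine (Finset.prod_le_prod (g := fun _ => |B|) (fun i _ => norm_nonneg _) fun i _ => ?_).trans_eq
            (Finset.prod_const _)
          obtain ⟨L', hL', hgi⟩ := hg i
          exact (hgi.bd _).trans (le_abs_self B)) (fun n β t x => by
          show a n x * _ = a n x * _
          congr 1
          refine Finset.prod_congr rfl fun i hi => ?_
          have hij : i ≠ j := fun h => hj (h ▸ hi)
          rw [Function.update_of_ne hij])
      filter_upwards [h1, ih] with p hp1 hp2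
      have h3 := hp1.add (hp2.const_mul (gs j p.2))
      rw [mul_zero, add_zero] at h3
      refine h3.congr fun N => ?_
      rw [mul_left_comm, ← mul_add, Finset.mul_sum, ← Finset.sum_add_distrib]
      congr 1
      refine Finset.sum_congr rfl fun n _ => ?_
      rw [Finset.prod_insert hj, Finset.prod_insert hj]
      ring
  exact key Finset.univ

end Pool.Agent.GT
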