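import Mathlib
import Pool.Agent.GT.Defs
import Pool.Agent.GT.Sep
import Pool.Agent.GT.Lim
import Pool.Agent.GT.Tup
import Pool.Agent.GT.Par
import Pool.Agent.GT.Max
import Pool.Agent.GT.Ext

/-!
# GT/Main: generic times, the main theorem
-/

namespace Pool.Agent.GT

open MeasureTheory Filter Topology

private theorem Main_sub {u : ℤ → ℂ} {c : ℂ}
    (h : Tendsto (fun N : ℕ => ((2 * N + 1 : ℕ) : ℂ)⁻¹ * ∑ n ∈ Finset.Icc (-(N : ℤ)) N, 1 * (u n - c))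
      atTop (𝓝 0)) :
    Tendsto (fun N : ℕ => ((2 * N + 1 : ℕ) : ℂ)⁻¹ * ∑ n ∈ Finset.Icc (-(N : ℤ)) N, u n) atTop (𝓝 c) := by
  have h1 := h.add_const c
  rw [zero_add] at h1
  refine h1.congr fun N => ?_
  have hcard : (Finset.Icc (-(N : ℤ)) (N : ℤ)).card = 2 * N + 1 := by
    rw [Int.card_Icc]
    omega
  have h0 : ((2 * N + 1 : ℕ) : ℂ) ≠ 0 := Nat.cast_ne_zero.2 (by omega)
  simp only [one_mul]
  rw [Finset.sum_sub_distrib, Finset.sum_const, hcard, nsmul_eq_mul, mul_sub, inv_mul_cancel_left₀ h0,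
    sub_add_cancel]

/-- **generic times** -/
theorem main {r : ℕ} {d : Fin r → ℕ} (hd : ∀ i, 1 ≤ d i) {X : Type*} [MeasurableSpace X] {μ : Measure X}
    [IsFiniteMeasure μ] [IsSeparable μ] {φ : Fin r → ℝ → X → X} (hφ : ∀ i, IsFlow μ (φ i))
    {a : ℤ → X → ℂ} (ha : ∀ n, Measurable (a n)) {C : ℝ} (ha1 : ∀ n x, ‖a n x‖ ≤ C) :
    ∀ᵐ β ∂(volume : Measure (Fin r → ℝ)), ∀ h : Fin r → X → ℂ, (∀ i, MemLp (h i) ⊤ μ) →
      ∃ H : Fin r → X → ℂ, (∀ i, ∀ᵐ x ∂μ, Tendsto (fun N : ℕ => ((2 * N + 1 : ℕ) : ℂ)⁻¹ *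
        ∑ n ∈ Finset.Icc (-(N : ℤ)) N, h i (φ i (β i * n) x)) atTop (𝓝 (H i x))) ∧
        ∀ᵐ x ∂μ, Tendsto (fun N : ℕ => ((2 * N + 1 : ℕ) : ℂ)⁻¹ *
          ∑ n ∈ Finset.Icc (-(N : ℤ)) N, a n x * (∏ i, h i (φ i (β i * (n : ℝ) ^ d i) x) - ∏ i, H i x))
            atTop (𝓝 0) := by
  choose D hD hdense using fun (i : Fin r) (B : ℕ) => sep (hφ i) (B := (B : ℝ)) (Nat.cast_nonneg B)
  choose L hL hN using hD
  choose Ds hDs hDsb hDlim using fun (i : Fin r) (B m : ℕ) => lim_exists (hφ i) (hN i B m) (hL i B m)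
  have hT : ∀ᵐ β ∂(volume : Measure (Fin r → ℝ)), ∀ (B : ℕ) (m : Fin r → ℕ), ∀ᵐ x ∂μ,
      Tendsto (fun N : ℕ => ((2 * N + 1 : ℕ) : ℂ)⁻¹ * ∑ n ∈ Finset.Icc (-(N : ℤ)) N, a n x *
        (∏ i, D i B (m i) (φ i (β i * (n : ℝ) ^ d i) x) - ∏ i, Ds i B (m i) x)) atTop (𝓝 0) := by
    rw [ae_all_iff]
    intro B
    rw [ae_all_iff]
    intro m
    exact Measure.ae_ae_of_ae_prod (tup hd hφ (g := fun i => D i B (m i)) (B := (B : ℝ))
      (fun i => ⟨L i B (m i), hL i B (m i), hN i B (m i)⟩) (gs := fun i => Ds i B (m i))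
      (fun i => hDs i B (m i)) (fun i => hDsb i B (m i)) (fun i => hDlim i B (m i)) ha ha1)
  have hT1 : ∀ᵐ β ∂(volume : Measure (Fin r → ℝ)), ∀ (i : Fin r) (B m : ℕ), ∀ᵐ x ∂μ,
      Tendsto (fun N : ℕ => ((2 * N + 1 : ℕ) : ℂ)⁻¹ * ∑ n ∈ Finset.Icc (-(N : ℤ)) N,
        D i B m (φ i (β i * n) x)) atTop (𝓝 (Ds i B m x)) := by
    rw [ae_all_iff]
    intro i
    rw [ae_all_iff]
    intro B
    rw [ae_all_iff]
    intro m
    have h1 := par i (le_refl 1) (hφ i) (hN i B m) (hL i B m) (hDs i B m) (hDsb i B m) (hDlim i B m)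
      (A := fun _ _ _ => (1 : ℂ)) (fun _ => measurable_const) (C := 1) (fun _ _ _ => by simp)
      (fun _ _ _ _ => rfl)
    filter_upwards [Measure.ae_ae_of_ae_prod h1] with β hβ
    filter_upwards [hβ] with x hx
    simp only [pow_one] at hx
    exact Main_sub hx
  filter_upwards [hT, hT1] with β hβ hβ1
  intro h hh
  exact ext (T := fun i n x => φ i (β i * (n : ℝ) ^ d i) x) (T1 := fun i n x => φ i (β i * n) x)
    (fun i n => (hφ i).mp _) (fun i n => (hφ i).mp _) (fun i => max_two (hφ i) (β i) (d i))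
    (fun i => by
      obtain ⟨C, hC⟩ := max_two (hφ i) (β i) 1
      refine ⟨C, fun v hv => ?_⟩
      have := hC v hv
      simpa only [pow_one] using this)
    ha1 (fun i B m => (hN i B m).meas) (fun i B m => (hN i B m).bd) hDsb
    (fun i B => hdense i B) hβ hβ1 h hh

end Pool.Agent.GT
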